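import Pool.Agent.Lib.MP_e508a7_gt.Model

set_option autoImplicit false

/-!
The volume of the symmetric part of a translate of the model simplex is stationary at the centroid.
-/

namespace Pool.Agent.Lib.MP_e508a7_gt

open MeasureTheory Set Filter Topology
open scoped ENNReal Pointwise

variable {m n : ℕ}

lemma Sp_smul {s : ℝ} (hs : 0 < s) : Sp (n := n) (fun _ => s) = s • Sp 1 := by
  ext x
  rw [mem_smul_set_iff_inv_smul_mem₀ hs.ne']
  refine forall_congr' fun j => ?_
  rw [map_smul, Pi.smul_apply, Pi.one_apply, smul_eq_mul, le_inv_mul_iff₀ hs, mul_neg_one]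

lemma vol_Sp (a : Fin (m + 2) → ℝ) : volume.real (Sp a) =
    max ((∑ j, a j) / (m + 2)) 0 ^ (m + 1) * volume.real (Sp (n := m + 1) 1) := by
  set s : ℝ := (∑ j, a j) / (m + 2) with hs
  have h1 : Bm (m + 1) (Zm (m + 1) fun j => a j - s) = fun j => a j - s := B_Z (by
    rw [Finset.sum_sub_distrib, Finset.sum_const, Finset.card_univ, Fintype.card_fin, nsmul_eq_mul,
      hs]
    push_cast
    field_simp
    ring)
  have h2 : Sp a = (fun x => x + Zm (m + 1) fun j => a j - s) ⁻¹' Sp fun _ => s := by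
    ext x
    refine forall_congr' fun j => ?_
    rw [map_add, h1, Pi.add_apply]
    constructor <;> intro h <;> linarith
  rw [h2, Measure.real, measure_preimage_add_right]
  rcases lt_or_ge 0 s with h | h
  · rw [Sp_smul h, Measure.addHaar_smul_of_nonneg _ h.le, ENNReal.toReal_mul,
      ENNReal.toReal_ofReal (by positivity), max_eq_left h.le, Module.finrank_fin_fun, Measure.real]
  · rw [max_eq_right h, zero_pow (Nat.succ_ne_zero m), zero_mul,
      measure_mono_null (t := {0}) ?_ (measure_singleton _), ENNReal.toReal_zero]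
    intro x hx
    refine Bm_inj ((map_zero (Bm (m + 1))).symm ▸ funext fun j => ?_)
    exact (Finset.sum_eq_zero_iff_of_nonneg fun i _ => (neg_nonneg.2 h).trans (hx i)).1 (Bm_sum x) j
      (Finset.mem_univ j)

lemma ae_ne (j : Fin (m + 2)) (t : ℝ) : ∀ᵐ x : Fin (m + 1) → ℝ, Bm (m + 1) x j ≠ t := by
  obtain ⟨i, hi⟩ := exists_ne j
  have h1 := null_hyp volume (LinearMap.proj j ∘ₗ Bm (m + 1))
    (v := Zm (m + 1) (Pi.single j 1 - Pi.single i 1)) (by
      change Bm (m + 1) _ j ≠ 0
      rw [B_Z (by simp)]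
      simp [hi.symm]) t
  exact measure_mono_null (fun x hx => not_not.1 hx) h1

lemma vol_Bx {a : Fin (m + 2) → ℝ} (ha : ∀ j, 0 ≤ a j) : volume.real (Bx a) =
    ∑ s ∈ Fintype.piFinset fun _ : Fin (m + 2) => ({1, -1} : Finset ℝ),
      (∏ j, s j) * volume.real (Sp fun j => s j * a j) := by
  classical
  have hm := fun b : Fin (m + 2) → ℝ => (isClosed_Sp b).measurableSet
  simp only [← integral_indicator_one (hm _), ← integral_indicator_one (isClosed_Bx a).measurableSet,
    ← integral_const_mul]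
  rw [← integral_finsetSum _ fun s _ => Integrable.const_mul
    ((integrable_indicator_iff (hm _)).2 (integrableOn_const (vol_Sp_ne_top _))) _]
  refine integral_congr_ae ?_
  filter_upwards [eventually_all.2 fun j => ae_ne j (a j)] with x hx
  have e1 : ∀ s : Fin (m + 2) → ℝ, (∏ j, s j) * (Sp fun j => s j * a j).indicator 1 x =
      ∏ j, s j * if -(s j * a j) ≤ Bm (m + 1) x j then 1 else 0 := fun s => by
    rw [Finset.prod_mul_distrib, Fintype.prod_boole, indicator_apply]
    congr 1
    congr 1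
  simp only [e1]
  rw [← Finset.prod_univ_sum (fun _ : Fin (m + 2) => ({1, -1} : Finset ℝ))
    fun j e => e * if -(e * a j) ≤ Bm (m + 1) x j then (1 : ℝ) else 0]
  have e2 : ∀ j, ∑ e ∈ ({1, -1} : Finset ℝ), e * (if -(e * a j) ≤ Bm (m + 1) x j then 1 else 0) =
      if |Bm (m + 1) x j| ≤ a j then 1 else 0 := fun j => by
    rw [Finset.sum_pair (by norm_num), one_mul, one_mul, neg_one_mul, neg_one_mul, neg_neg]
    have h1 := ha j
    rcases lt_or_gt_of_ne (hx j) with h | h
    · rw [if_neg h.not_ge, neg_zero, add_zero]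
      exact if_congr (by rw [abs_le, and_iff_left h.le]) rfl rfl
    · rw [if_pos h.le, if_pos (by linarith), if_neg (fun h' => h.not_ge (abs_le.1 h').2),
        add_neg_cancel]
  simp only [e2]
  rw [Fintype.prod_boole, indicator_apply]
  congr 1

lemma differentiable_pos (k : ℕ) : Differentiable ℝ fun t : ℝ => max t 0 ^ (k + 2) := by
  intro t
  rcases lt_trichotomy t 0 with h | rfl | h
  · refine (differentiableAt_const (0 : ℝ)).congr_of_eventuallyEq ?_
    filter_upwards [Iio_mem_nhds h] with s hs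
    rw [max_eq_right (le_of_lt hs), zero_pow (Nat.succ_ne_zero _)]
  · refine (hasDerivAt_iff_isLittleO_nhds_zero.2 (Asymptotics.IsBigO.trans_isLittleO ?_
      (Asymptotics.isLittleO_pow_id (by omega : 1 < k + 2))) :
        HasDerivAt (fun t : ℝ => max t 0 ^ (k + 2)) 0 0).differentiableAt
    refine Asymptotics.IsBigO.of_bound' (Eventually.of_forall fun s => ?_)
    rw [zero_add, max_self, zero_pow (Nat.succ_ne_zero _), smul_zero, sub_zero, sub_zero, norm_pow,
      norm_pow]
    refine pow_le_pow_left₀ (norm_nonneg _) ?_ _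
    rw [Real.norm_of_nonneg (le_max_right _ _)]
    exact max_le (le_abs_self s) (abs_nonneg s)
  · refine (differentiableAt_pow (k + 2)).congr_of_eventuallyEq ?_
    filter_upwards [Ioi_mem_nhds h] with s hs
    rw [max_eq_left (le_of_lt hs)]

lemma symm_deriv {f : (Fin (n + 1) → ℝ) → ℝ} (hf : DifferentiableAt ℝ f 1)
    (hs : ∀ (π : Equiv.Perm (Fin (n + 1))) a, f (a ∘ π) = f a) {ε : ℝ} (hε : 0 < ε) :
    ∃ r, 0 < r ∧ ∀ c, ∑ j, c j = 0 → ‖c‖ < r → f 1 - ε * ‖c‖ ≤ f (1 + c) := by
  obtain ⟨f', hf⟩ := hf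
  have h1 : ∀ (π : Equiv.Perm (Fin (n + 1))) v, f' (v ∘ π) = f' v := by
    intro π v
    have h2 := (LinearMap.funLeft ℝ ℝ π).toContinuousLinearMap.hasFDerivAt (x := 1)
    have h3 := HasFDerivAt.comp (g := f) (g' := f') 1 hf h2
    have h4 : f ∘ (LinearMap.funLeft ℝ ℝ π).toContinuousLinearMap = f := funext fun a => hs π a
    rw [h4] at h3
    exact congrArg (· v) (h3.unique hf)
  have h2 : ∀ i, f' (Pi.single i 1) = f' (Pi.single 0 1) := fun i => by
    rw [← h1 (Equiv.swap i 0) (Pi.single 0 1)]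
    congr 1
    funext j
    simp only [Function.comp_apply, Pi.single_apply, Equiv.swap_apply_eq_iff,
      Equiv.swap_apply_right]
  have h3 := (hasFDerivAt_iff_isLittleO_nhds_zero.1 hf).bound hε
  obtain ⟨r, hr, h4⟩ := Metric.eventually_nhds_iff.1 h3
  refine ⟨r, hr, fun c hc hcr => ?_⟩
  have h5 : f' c = 0 := by
    rw [pi_eq_sum_univ' c, map_sum]
    simp only [map_smul, h2, smul_eq_mul]
    rw [← Finset.sum_mul, hc, zero_mul]
  have h6 := h4 (y := c) (by rwa [dist_zero_right])
  rw [h5, sub_zero] at h6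
  linarith [(abs_le.1 h6).1]

/-- the symmetric part does not shrink to first order -/
theorem box (m : ℕ) {ε : ℝ} (hε : 0 < ε) : ∃ r, 0 < r ∧ ∀ c : Fin (m + 3) → ℝ, ∑ j, c j = 0 →
    ‖c‖ < r → volume.real (Bx (n := m + 2) 1) - ε * ‖c‖ ≤ volume.real (Bx (n := m + 2) (1 + c)) := by
  refine symm_deriv (f := fun a => volume.real (Bx (n := m + 2) a)) ?_ (fun π a => ?_) hε
  · have h1 : ∀ᶠ a in 𝓝 (1 : Fin (m + 3) → ℝ), ∀ j, 0 < a j :=
      eventually_all.2 fun j => continuousAt_const.eventually_lt (continuous_apply j).continuousAt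
        one_pos
    refine DifferentiableAt.congr_of_eventuallyEq ?_ (h1.mono fun a ha =>
      (vol_Bx fun j => (ha j).le).trans
        (Finset.sum_congr rfl fun s _ => congrArg (_ * ·) (vol_Sp _)))
    refine DifferentiableAt.fun_sum fun s _ => DifferentiableAt.const_mul
      (DifferentiableAt.mul_const ?_ _) _
    exact ((differentiable_pos m).comp (f := fun a : Fin (m + 3) → ℝ =>
      (∑ j, s j * a j) / ((m + 1 : ℕ) + 2)) (by fun_prop)).differentiableAt
  · have h1 : Pm π ⁻¹' Bx (a ∘ π) = Bx a := by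
      ext x
      simp only [Bx, mem_preimage, mem_ofPred_eq, B_P]
      exact π.forall_congr fun _ => Iff.rfl
    rw [← h1]
    exact ((mp_P π).measureReal_preimage (isClosed_Bx _).measurableSet.nullMeasurableSet).symm

end Pool.Agent.Lib.MP_e508a7_gt
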