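import Pool.Agent.Lib.MP_e508a7_gt.Corr

set_option autoImplicit false

/-!
The strict inequality on the model simplex.
-/

namespace Pool.Agent.Lib.MP_e508a7_gt

open MeasureTheory Set Filter Topology
open scoped ENNReal

lemma null_hyp {E : Type} [NormedAddCommGroup E] [NormedSpace ℝ E] [FiniteDimensional ℝ E]
    [MeasurableSpace E] [BorelSpace E] (μ : Measure E) [μ.IsAddHaarMeasure] (l : E →ₗ[ℝ] ℝ)
    {v : E} (hv : l v ≠ 0) (t : ℝ) : μ {x | l x = t} = 0 := by
  have e : {x | l x = t} = (fun x => x + (-(t / l v)) • v) ⁻¹' (LinearMap.ker l : Set E) := by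
    ext x
    simp only [mem_ofPred_eq, mem_preimage, SetLike.mem_coe, LinearMap.mem_ker, map_add, map_smul,
      smul_eq_mul, neg_mul, div_mul_cancel₀ _ hv, add_neg_eq_zero]
  rw [e, measure_preimage_add_right]
  exact Measure.addHaar_submodule μ _ fun h => hv (LinearMap.mem_ker.1 (h ▸ Submodule.mem_top))

variable {m n : ℕ}

/-- the model simplex -/
def Sx (n : ℕ) : Set (Fin n → ℝ) := {u | sm u ≤ 1} ∩ Qo n

/-- the largest barycentric coordinate in terms of the spacings -/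
noncomputable def tp (u : Fin n → ℝ) : ℝ := ∑ k : Fin n, ((n : ℝ) - k)⁻¹ * u k

@[fun_prop] lemma continuous_tp : Continuous (tp : (Fin n → ℝ) → ℝ) := by
  unfold tp; fun_prop

lemma tp_smul (c : ℝ) (u : Fin n → ℝ) : tp (c • u) = c * tp u := by
  simp only [tp, Finset.mul_sum, Pi.smul_apply, smul_eq_mul, mul_left_comm]

lemma measurableSet_Sx : MeasurableSet (Sx n) :=
  (measurableSet_le measurable_sm measurable_const).inter measurableSet_Qo

lemma volume_Sx_ne_top : volume (Sx n) ≠ ∞ := by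
  refine ((measure_mono fun u hu => ?_).trans_lt
    (isCompact_Icc (a := (0 : Fin n → ℝ)) (b := 1)).measure_lt_top).ne
  exact ⟨fun j => (hu.2 j).le, fun j =>
    (Finset.single_le_sum (fun i _ => (hu.2 i).le) (Finset.mem_univ j)).trans hu.1⟩

lemma II_Sx (F : (Fin (m + 1) → ℝ) → ℝ≥0∞) (ω φ : ℝ → ℝ≥0∞) :
    II F ω ((Iic 1).indicator φ) = ∫⁻ u in Sx (m + 1), F u * (ω (u 0 / tl u) * φ (sm u)) := by
  have hm : MeasurableSet {u : Fin (m + 1) → ℝ | sm u ≤ 1} :=
    measurableSet_le measurable_sm measurable_const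
  rw [II, Sx, ← Measure.restrict_restrict hm, ← lintegral_indicator hm]
  refine lintegral_congr fun u => ?_
  by_cases h : sm u ≤ 1
  · rw [indicator_of_mem (show sm u ∈ Iic 1 from h), indicator_of_mem (show u ∈ _ from h)]
  · rw [indicator_of_notMem (show sm u ∉ Iic 1 from h), indicator_of_notMem (show u ∉ _ from h),
      mul_zero, mul_zero]

lemma pos_open {U : Set (Fin n → ℝ)} (hU : IsOpen U) {v : Fin n → ℝ} (hv : v ∈ U)
    (h0 : ∀ j, 0 ≤ v j) (h1 : sm v < 1) : volume (U ∩ Sx n) ≠ 0 := by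
  have hU' : IsOpen (U ∩ {u | sm u < 1}) := hU.inter (isOpen_lt continuous_sm continuous_const)
  have hc : Continuous fun δ : ℝ => v + δ • (1 : Fin n → ℝ) := by fun_prop
  have h2 : ∀ᶠ δ in 𝓝 (0 : ℝ), v + δ • (1 : Fin n → ℝ) ∈ U ∩ {u | sm u < 1} :=
    hc.continuousAt.eventually_mem (hU'.mem_nhds (by simpa using ⟨hv, h1⟩))
  obtain ⟨δ, h3, h4⟩ := ((h2.filter_mono nhdsWithin_le_nhds).and
    (self_mem_nhdsWithin (s := Ioi 0))).exists
  have h5 := (hU'.inter isOpen_Qo).measure_ne_zero volume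
    ⟨_, h3, fun j => by simpa using add_pos_of_nonneg_of_pos (h0 j) h4⟩
  refine fun h => h5 (measure_mono_null ?_ h)
  exact fun u hu => ⟨hu.1.1, le_of_lt (show sm u < 1 from hu.1.2), hu.2⟩

lemma Mv.sum_le {k : Fin n} {t : ℝ} {u v : Fin n → ℝ} (h : Mv k t u v) (hu : u ∈ Qo n)
    (ht : 0 ≤ t) {c : Fin n → ℝ} (hc : Monotone c) : ∑ l, c l * v l ≤ ∑ l, c l * u l := by
  have e : ∀ w : Fin n → ℝ, ∑ l, c l * w l = ∑ l, (c l - c k) * w l + c k * sm w := by
    intro w
    rw [sm, Finset.mul_sum, ← Finset.sum_add_distrib]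
    exact Finset.sum_congr rfl fun l _ => by ring
  rw [e u, e v, h.2.2]
  refine add_le_add_left (Finset.sum_le_sum fun l _ => ?_) _
  rcases lt_trichotomy l k with hl | rfl | hl
  · rw [h.1 l hl]
  · simp
  · rw [h.2.1 l hl]
    exact mul_le_mul_of_nonneg_left (by nlinarith [hu l]) (sub_nonneg.2 (hc hl.le))

lemma one_le_sub (k : Fin n) : (1 : ℝ) ≤ (n : ℝ) - k := by
  have : ((k + 1 : ℕ) : ℝ) ≤ n := Nat.cast_le.2 k.2
  push_cast at this
  linarith

lemma Mv.tp_le {k : Fin n} {t : ℝ} {u v : Fin n → ℝ} (h : Mv k t u v) (hu : u ∈ Qo n)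
    (ht : 0 ≤ t) : tp v ≤ tp u :=
  h.sum_le hu ht fun _ b hab => inv_anti₀ (one_pos.trans_le (one_le_sub b))
    (sub_le_sub_left (Nat.cast_le.2 hab) _)

lemma Mv.tl_zero {t : ℝ} {u v : Fin (m + 1) → ℝ} (h : Mv 0 t u v) : tl v = (1 - t) * tl u := by
  rw [tl, tl, Finset.mul_sum]
  exact Finset.sum_congr rfl fun j _ => h.2.1 _ (Fin.succ_pos j)

lemma Mv.tl_pos {k : Fin (m + 1)} {t : ℝ} {u v : Fin (m + 1) → ℝ} (h : Mv k t u v) (hk : 0 < k) :
    tl v = tl u := by
  have h1 := h.2.2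
  rw [sm_eq, sm_eq, h.1 0 hk] at h1
  exact add_left_cancel h1

/-- directions with a large top coordinate -/
def Gs (n : ℕ) (τ : ℝ) : Set (Fin n → ℝ) := {u | τ * sm u < tp u}

lemma isOpen_Gs (τ : ℝ) : IsOpen (Gs n τ) := isOpen_lt (by fun_prop) continuous_tp

lemma cl_Gs (τ : ℝ) : Cl ((Gs n τ).indicator 1) := by
  refine ⟨measurable_const.indicator (isOpen_Gs τ).measurableSet, fun c hc u _ => ?_,
    fun k t u v hu h0 _ hm => ?_⟩
  · have e : c • u ∈ Gs n τ ↔ u ∈ Gs n τ := by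
      simp only [Gs, mem_ofPred_eq, sm_smul, tp_smul, mul_left_comm τ, mul_lt_mul_iff_right₀ hc]
    by_cases h : u ∈ Gs n τ
    · rw [indicator_of_mem h, indicator_of_mem (e.2 h)]
      rfl
    · rw [indicator_of_notMem h, indicator_of_notMem (mt e.1 h)]
  · by_cases h : v ∈ Gs n τ
    · have h' : u ∈ Gs n τ := by
        have h1 : τ * sm v < tp v := h
        rw [hm.2.2] at h1
        exact h1.trans_le (hm.tp_le hu h0)
      rw [indicator_of_mem h, indicator_of_mem h']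
      rfl
    · rw [indicator_of_notMem h]
      exact zero_le

lemma cl_tl (x₀ : ℝ) : Cl fun u : Fin (m + 2) → ℝ => ENNReal.ofReal (tl u / sm u - x₀) := by
  refine ⟨by fun_prop, fun c hc u _ => ?_, fun k t u v hu h0 _ hm => ?_⟩
  · rw [tl_smul, sm_smul, mul_div_mul_left _ _ hc.ne']
  · rw [hm.2.2]
    refine ENNReal.ofReal_le_ofReal (sub_le_sub_right
      (div_le_div_of_nonneg_right ?_ (sm_pos hu).le) _)
    rcases (Fin.zero_le k).eq_or_lt with rfl | hk
    · rw [hm.tl_zero]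
      nlinarith [tl_pos hu]
    · exact (hm.tl_pos hk).le

lemma tp_le {u : Fin (m + 2) → ℝ} (hu : u ∈ Qo (m + 2)) :
    tp u ≤ ((m : ℝ) + 2)⁻¹ * sm u + tl u := by
  rw [tp, Fin.sum_univ_succ]
  refine add_le_add ?_ (Finset.sum_le_sum fun j _ => ?_)
  · rw [Fin.val_zero, Nat.cast_zero, sub_zero, Nat.cast_add, Nat.cast_ofNat, sm_eq]
    exact mul_le_mul_of_nonneg_left (le_add_of_nonneg_right (tl_pos hu).le) (by positivity)
  · exact mul_le_of_le_one_left (hu _).le (inv_le_one_of_one_le₀ (one_le_sub _))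

lemma tp_last : tp (Pi.single (Fin.last (m + 1)) (1 : ℝ) : Fin (m + 2) → ℝ) = 1 := by
  rw [tp, Finset.sum_eq_single (Fin.last (m + 1))]
  · simp
    norm_num
  · intro b _ hb
    rw [Pi.single_eq_of_ne hb, mul_zero]
  · simp

lemma single_nn (k : Fin n) {c : ℝ} (hc : 0 ≤ c) (j : Fin n) :
    0 ≤ (Pi.single k c : Fin n → ℝ) j := by
  rw [Pi.single_apply]
  split_ifs
  exacts [hc, le_rfl]

lemma sm_single (k : Fin n) (c : ℝ) : sm (Pi.single k c : Fin n → ℝ) = c := by simp [sm]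

/-- the integral of the relative tail over a set of directions -/
noncomputable def Nx (m : ℕ) (A : Set (Fin (m + 2) → ℝ)) : ℝ≥0∞ :=
  ((volume.restrict (Sx (m + 2))).withDensity fun u => ENNReal.ofReal (tl u / sm u)) A

lemma Nx_eq {A : Set (Fin (m + 2) → ℝ)} (hA : MeasurableSet A) :
    Nx m A = ∫⁻ u in Sx (m + 2), A.indicator 1 u * ENNReal.ofReal (tl u / sm u) := by
  rw [Nx, withDensity_apply _ hA, ← lintegral_indicator hA]
  refine lintegral_congr fun u => ?_
  by_cases h : u ∈ A <;> simp [h]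

lemma Nx_ne_top : Nx m univ ≠ ∞ := by
  rw [Nx_eq .univ]
  refine ne_top_of_le_ne_top (volume_Sx_ne_top (n := m + 2)) ?_
  rw [← setLIntegral_one]
  refine setLIntegral_mono' measurableSet_Sx fun u hu => ?_
  rw [indicator_univ, Pi.one_apply, one_mul]
  refine ENNReal.ofReal_le_one.2 ((div_le_one (sm_pos hu.2)).2 ?_)
  rw [sm_eq]
  exact le_add_of_nonneg_left (hu.2 0).le

lemma lint_ind {A : Set (Fin n → ℝ)} (hA : MeasurableSet A) :
    ∫⁻ u in Sx n, A.indicator 1 u = volume (A ∩ Sx n) := by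
  rw [lintegral_indicator_one hA, Measure.restrict_apply hA]

lemma tau_lt : 2 / ((m : ℝ) + 3) < 1 := by
  rw [div_lt_one (by positivity)]
  linarith [m.cast_nonneg (α := ℝ)]

lemma strict0 : Nx m univ * volume (Gs (m + 2) (2 / (m + 3)) ∩ Sx (m + 2)) <
    Nx m (Gs (m + 2) (2 / (m + 3))) * volume (Sx (m + 2)) := by
  set τ : ℝ := 2 / (m + 3) with hτ
  set x₀ : ℝ := τ - ((m : ℝ) + 2)⁻¹ with hx₀
  have hx0 : 0 < x₀ := by
    rw [hx₀, hτ, sub_pos, inv_eq_one_div, div_lt_div_iff₀ (by positivity) (by positivity)]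
    linarith [m.cast_nonneg (α := ℝ)]
  have hG := (isOpen_Gs (n := m + 2) τ).measurableSet
  have hg := (cl_Gs (n := m + 2) τ).meas
  have hi : Measurable ((Iic (1 : ℝ)).indicator fun _ => (1 : ℝ≥0∞)) :=
    measurable_const.indicator measurableSet_Iic
  have h1 := corr (m + 1) (cl_tl x₀) (cl_Gs τ) (ω := fun _ => 1) measurable_const hi hi
  simp only [II_Sx, mul_one] at h1
  rw [lint_ind hG, setLIntegral_one] at h1
  have h2 : Nx m (Gs (m + 2) τ) = ENNReal.ofReal x₀ * volume (Gs (m + 2) τ ∩ Sx (m + 2)) +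
      ∫⁻ u in Sx (m + 2), ENNReal.ofReal (tl u / sm u - x₀) * (Gs (m + 2) τ).indicator 1 u := by
    rw [Nx_eq hG, ← lint_ind hG, ← lintegral_const_mul _ hg,
      ← lintegral_add_left (hg.const_mul _)]
    refine setLIntegral_congr_fun measurableSet_Sx fun u hu => ?_
    by_cases h : u ∈ Gs (m + 2) τ
    · have h3 : x₀ ≤ tl u / sm u := by
        have h4 : τ * sm u < tp u := h
        rw [le_div_iff₀ (sm_pos hu.2), hx₀]
        linarith [tp_le hu.2]
      rw [indicator_of_mem h, Pi.one_apply, one_mul, mul_one, mul_one,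
        ← ENNReal.ofReal_add hx0.le (sub_nonneg.2 h3), add_sub_cancel]
    · simp [h]
  have h3 : Nx m univ + ∫⁻ u in Sx (m + 2), ENNReal.ofReal (x₀ - tl u / sm u) =
      ENNReal.ofReal x₀ * volume (Sx (m + 2)) +
        ∫⁻ u in Sx (m + 2), ENNReal.ofReal (tl u / sm u - x₀) := by
    rw [Nx_eq .univ, ← setLIntegral_const, ← lintegral_add_left measurable_const,
      ← lintegral_add_right _ (by fun_prop)]
    refine setLIntegral_congr_fun measurableSet_Sx fun u hu => ?_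
    have h4 : 0 ≤ tl u / sm u := (div_pos (tl_pos hu.2) (sm_pos hu.2)).le
    rw [indicator_univ, Pi.one_apply, one_mul]
    rcases le_total x₀ (tl u / sm u) with h | h
    · rw [ENNReal.ofReal_of_nonpos (sub_nonpos.2 h), add_zero,
        ← ENNReal.ofReal_add hx0.le (sub_nonneg.2 h), add_sub_cancel]
    · rw [ENNReal.ofReal_of_nonpos (sub_nonpos.2 h), add_zero,
        ← ENNReal.ofReal_add h4 (sub_nonneg.2 h), add_sub_cancel]
  have h4 : volume (Gs (m + 2) τ ∩ Sx (m + 2)) ≠ 0 := by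
    refine pos_open (isOpen_Gs τ) (v := (1 / 2 : ℝ) • Pi.single (Fin.last (m + 1)) 1) ?_
      (fun j => mul_nonneg (by norm_num) (single_nn _ zero_le_one j)) ?_
    · change τ * sm _ < tp _
      rw [sm_smul, tp_smul, sm_single, tp_last]
      linarith [tau_lt (m := m)]
    · rw [sm_smul, sm_single]
      norm_num
  have h5 : ∫⁻ u in Sx (m + 2), ENNReal.ofReal (x₀ - tl u / sm u) ≠ 0 := by
    have hU : IsOpen {u : Fin (m + 2) → ℝ | tl u < x₀ * sm u} :=
      isOpen_lt continuous_tl (by fun_prop)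
    have h6 := pos_open hU (v := Pi.single 0 (1 / 2)) (by
      change tl _ < x₀ * sm _
      rw [sm_single]
      simpa [tl] using hx0) (single_nn _ (by norm_num)) (by rw [sm_single]; norm_num)
    intro h
    rw [lintegral_eq_zero_iff (by fun_prop), Filter.EventuallyEq, ae_restrict_iff' measurableSet_Sx,
      ae_iff] at h
    refine h6 (measure_mono_null ?_ h)
    intro u hu h7
    have h8 := ENNReal.ofReal_eq_zero.1 (h7 hu.2)
    rw [sub_nonpos, le_div_iff₀ (sm_pos hu.2.2)] at h8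
    exact absurd hu.1 (not_lt.2 h8)
  have h6 : volume (Gs (m + 2) τ ∩ Sx (m + 2)) ≠ ∞ :=
    ne_top_of_le_ne_top volume_Sx_ne_top (measure_mono inter_subset_right)
  calc _ < Nx m univ * volume (Gs (m + 2) τ ∩ Sx (m + 2)) +
        (∫⁻ u in Sx (m + 2), ENNReal.ofReal (x₀ - tl u / sm u)) *
          volume (Gs (m + 2) τ ∩ Sx (m + 2)) :=
        ENNReal.lt_add_right (ENNReal.mul_ne_top Nx_ne_top h6) (mul_ne_zero h5 h4)
    _ ≤ _ := by
        rw [← add_mul, h3, h2, add_mul, add_mul, mul_right_comm]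
        exact add_le_add_right h1 _

lemma strict1 : ∃ τ : ℝ, 2 / ((m : ℝ) + 3) < τ ∧
    Nx m univ * volume (Gs (m + 2) (2 / (m + 3)) ∩ Sx (m + 2)) <
      Nx m (Gs (m + 2) τ) * volume (Sx (m + 2)) := by
  have hq : ∀ τ : ℝ, Nx m (Gs (m + 2) τ ∩ Qo (m + 2)) = Nx m (Gs (m + 2) τ) := by
    intro τ
    rw [Nx_eq (isOpen_Gs τ).measurableSet,
      Nx_eq ((isOpen_Gs τ).measurableSet.inter measurableSet_Qo)]
    refine setLIntegral_congr_fun measurableSet_Sx fun u hu => ?_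
    by_cases h : u ∈ Gs (m + 2) τ <;> simp [h, hu.2]
  have hm : Monotone fun k : ℕ => Gs (m + 2) (2 / (m + 3) + 1 / (k + 1)) ∩ Qo (m + 2) := by
    intro k l hkl u hu
    refine ⟨lt_of_le_of_lt (mul_le_mul_of_nonneg_right (add_le_add_right ?_ _)
      (sm_pos hu.2).le) hu.1, hu.2⟩
    exact Nat.one_div_le_one_div hkl
  have hU : Gs (m + 2) (2 / (m + 3)) ∩ Qo (m + 2) ⊆
      ⋃ k : ℕ, Gs (m + 2) (2 / (m + 3) + 1 / (k + 1)) ∩ Qo (m + 2) := by
    intro u hu
    have h1 : 2 / (m + 3) * sm u < tp u := hu.1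
    have h2 := sm_pos hu.2
    obtain ⟨k, hk⟩ := exists_nat_one_div_lt (div_pos (sub_pos.2 h1) h2)
    rw [lt_div_iff₀ h2] at hk
    refine mem_iUnion.2 ⟨k, ?_, hu.2⟩
    change _ * sm u < tp u
    linarith
  have h1 := strict0 (m := m)
  rw [← hq] at h1
  have h2 := h1.trans_le (mul_le_mul_left (measure_mono hU) _)
  rw [hm.measure_iUnion, ENNReal.iSup_mul, lt_iSup_iff] at h2
  obtain ⟨k, hk⟩ := h2
  exact ⟨_, lt_add_of_pos_right _ Nat.one_div_pos_of_nat, hk.trans_eq (congrArg (· * _) (hq _))⟩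

lemma null_tp : volume {u : Fin (m + 2) → ℝ | tp u = 2 / (m + 3) * sm u} = 0 := by
  have h := null_hyp volume
    ({ toFun := fun u => tp u - 2 / (m + 3) * sm u
       map_add' := fun u v => by
        simp only [tp, sm, Pi.add_apply, mul_add, Finset.sum_add_distrib]
        ring
       map_smul' := fun c u => by
        simp only [tp_smul, sm_smul, RingHom.id_apply, smul_eq_mul]
        ring } : (Fin (m + 2) → ℝ) →ₗ[ℝ] ℝ) (v := Pi.single (Fin.last (m + 1)) 1) (by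
      change tp _ - _ * sm _ ≠ 0
      rw [tp_last, sm_single]
      linarith [tau_lt (m := m)]) 0
  refine measure_mono_null (fun u hu => ?_) h
  exact sub_eq_zero.2 hu

/-- The share of a deficiency function carried by directions with a small top coordinate is
smaller than the share of these directions. -/
theorem core (m : ℕ) : ∃ τ q : ℝ, 2 / ((m : ℝ) + 3) < τ ∧ 0 ≤ q ∧
    q * volume.real (Sx (m + 2)) <
      volume.real ({u | tp u < 2 / (m + 3) * sm u} ∩ Sx (m + 2)) ∧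
    ∀ D : (Fin (m + 2) → ℝ) → ℝ, Measurable D → (∀ u ∈ Qo (m + 2), 0 ≤ D u) →
      (∀ c : ℝ, 0 < c → ∀ u ∈ Qo (m + 2), D (c • u) = c * D u) →
      (∀ k t u v, u ∈ Qo (m + 2) → 0 ≤ t → t < 1 → Mv k t u v → D v ≤ D u) →
      (∀ t u v, u ∈ Qo (m + 2) → 0 ≤ t → t < 1 → Mv 0 t u v → D v ≤ (1 - t) * D u) →
      ∫⁻ u in Sx (m + 2), ENNReal.ofReal (D u) ≠ ∞ →
      ∫⁻ u in (Gs (m + 2) τ)ᶜ ∩ Sx (m + 2), ENNReal.ofReal (D u) ≤
        ENNReal.ofReal q * ∫⁻ u in Sx (m + 2), ENNReal.ofReal (D u) := by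
  obtain ⟨τ, hτ, hlt⟩ := strict1 (m := m)
  have hG := (isOpen_Gs (n := m + 2) τ).measurableSet
  have hadd : Nx m (Gs (m + 2) τ) + Nx m (Gs (m + 2) τ)ᶜ = Nx m univ := measure_add_measure_compl hG
  have ha := Nx_ne_top (m := m)
  have hb : Nx m (Gs (m + 2) τ) ≠ ∞ := ne_top_of_le_ne_top ha (hadd ▸ le_self_add)
  have hc : Nx m (Gs (m + 2) τ)ᶜ ≠ ∞ := ne_top_of_le_ne_top ha (hadd ▸ le_add_self)
  have ha0 : Nx m univ ≠ 0 := by
    intro h
    rw [(add_eq_zero.1 (hadd.trans h)).1, zero_mul] at hlt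
    exact not_lt_zero hlt
  have hS := volume_Sx_ne_top (n := m + 2)
  have hB : ∀ A, volume (A ∩ Sx (m + 2)) ≠ ∞ := fun A =>
    ne_top_of_le_ne_top hS (measure_mono inter_subset_right)
  refine ⟨τ, (Nx m (Gs (m + 2) τ)ᶜ / Nx m univ).toReal, hτ, ENNReal.toReal_nonneg, ?_,
    fun D hD h0 hom hmv hmv0 hfin => ?_⟩
  · have h1 : volume (Sx (m + 2)) ≤ volume ({u | tp u < 2 / (m + 3) * sm u} ∩ Sx (m + 2)) +
        volume (Gs (m + 2) (2 / (m + 3)) ∩ Sx (m + 2)) := by
      refine le_trans (measure_mono_ae ?_) (measure_union_le _ _)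
      filter_upwards [compl_mem_ae_iff.2 (null_tp (m := m))] with u h1 h2
      rcases lt_or_gt_of_ne h1 with h | h
      · exact Or.inl ⟨h, h2⟩
      · exact Or.inr ⟨h, h2⟩
    have h2 := ENNReal.toReal_mono (ENNReal.add_ne_top.2 ⟨hB _, hB _⟩) h1
    have h3 := ENNReal.toReal_strict_mono (ENNReal.mul_ne_top hb hS) hlt
    have h4 := congrArg ENNReal.toReal hadd
    have h5 := ENNReal.toReal_pos ha0 ha
    rw [ENNReal.toReal_add (hB _) (hB _)] at h2
    rw [ENNReal.toReal_mul, ENNReal.toReal_mul] at h3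
    rw [ENNReal.toReal_add hb hc] at h4
    rw [ENNReal.toReal_div, div_mul_eq_mul_div, div_lt_iff₀ h5, Measure.real, Measure.real]
    have h6 := mul_le_mul_of_nonneg_right h2 h5.le
    have h7 := congrArg (· * (volume (Sx (m + 2))).toReal) h4
    linarith
  have hψ : Cl fun u : Fin (m + 2) → ℝ => ENNReal.ofReal (D u / tl u) := by
    refine ⟨by fun_prop, fun c hc u hu => ?_, fun k t u v hu ht ht1 hm => ?_⟩
    · rw [hom c hc u hu, tl_smul, mul_div_mul_left _ _ hc.ne']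
    · refine ENNReal.ofReal_le_ofReal ?_
      have h1 := tl_pos hu
      rcases (Fin.zero_le k).eq_or_lt with rfl | hk
      · rw [hm.tl_zero, ← mul_div_mul_left (D u) _ (sub_pos.2 ht1).ne']
        exact div_le_div_of_nonneg_right (hmv0 t u v hu ht ht1 hm) (mul_pos (sub_pos.2 ht1) h1).le
      · rw [hm.tl_pos hk]
        exact div_le_div_of_nonneg_right (hmv k t u v hu ht ht1 hm) h1.le
  have h1 := corr (m + 1) hψ (cl_Gs τ) (ω := fun r => ENNReal.ofReal (1 + r)⁻¹)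
    (w := (Iic 1).indicator fun s => ENNReal.ofReal s) (w' := (Iic 1).indicator fun _ => 1)
    (by fun_prop) (ENNReal.measurable_ofReal.indicator measurableSet_Iic)
    (measurable_const.indicator measurableSet_Iic)
  have e1 : ∀ u ∈ Sx (m + 2), (1 + u 0 / tl u)⁻¹ = tl u / sm u := fun u hu => by
    have := tl_pos hu.2
    have := hu.2 0
    rw [sm_eq]
    field_simp
    ring
  have e2 : ∀ u ∈ Sx (m + 2), ENNReal.ofReal (D u / tl u) *
      (ENNReal.ofReal (1 + u 0 / tl u)⁻¹ * ENNReal.ofReal (sm u)) = ENNReal.ofReal (D u) := by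
    intro u hu
    have h2 := tl_pos hu.2
    have h3 := sm_pos hu.2
    rw [e1 u hu, ← ENNReal.ofReal_mul (div_pos h2 h3).le,
      ← ENNReal.ofReal_mul (div_nonneg (h0 u hu.2) h2.le), div_mul_cancel₀ _ h3.ne',
      div_mul_cancel₀ _ h2.ne']
  have e3 : ∀ A : Set (Fin (m + 2) → ℝ), MeasurableSet A → ∫⁻ u in Sx (m + 2),
      A.indicator 1 u * (ENNReal.ofReal (1 + u 0 / tl u)⁻¹ * 1) = Nx m A := fun A hA => by
    rw [Nx_eq hA]
    exact setLIntegral_congr_fun measurableSet_Sx fun u hu => by rw [e1 u hu, mul_one]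
  have e4 : ∫⁻ u in Sx (m + 2), ENNReal.ofReal (D u / tl u) * (Gs (m + 2) τ).indicator 1 u *
      (ENNReal.ofReal (1 + u 0 / tl u)⁻¹ * ENNReal.ofReal (sm u)) =
        ∫⁻ u in Gs (m + 2) τ ∩ Sx (m + 2), ENNReal.ofReal (D u) := by
    rw [← Measure.restrict_restrict hG, ← lintegral_indicator hG]
    refine setLIntegral_congr_fun measurableSet_Sx fun u hu => ?_
    rw [mul_right_comm, e2 u hu]
    by_cases h : u ∈ Gs (m + 2) τ <;> simp [h]
  have e5 := e3 univ .univ
  rw [indicator_univ] at e5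
  rw [II_Sx, II_Sx, II_Sx, II_Sx, setLIntegral_congr_fun measurableSet_Sx e2, e3 _ hG, e4] at h1
  replace h1 := h1.trans_eq (congrArg _ e5)
  have h2 : (∫⁻ u in Gs (m + 2) τ ∩ Sx (m + 2), ENNReal.ofReal (D u)) +
      ∫⁻ u in (Gs (m + 2) τ)ᶜ ∩ Sx (m + 2), ENNReal.ofReal (D u) =
        ∫⁻ u in Sx (m + 2), ENNReal.ofReal (D u) := by
    rw [← Measure.restrict_restrict hG, ← Measure.restrict_restrict hG.compl,
      lintegral_add_compl _ hG]
  rw [ENNReal.ofReal_toReal (ENNReal.div_ne_top hc ha0), ENNReal.div_eq_inv_mul, mul_assoc,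
    ← ENNReal.div_eq_inv_mul, ENNReal.le_div_iff_mul_le (Or.inl ha0) (Or.inl ha)]
  rw [← ENNReal.add_le_add_iff_left (ENNReal.mul_ne_top hfin hb), mul_comm (Nx m _ᶜ), ← mul_add,
    hadd]
  refine (add_le_add_left h1 _).trans_eq ?_
  rw [← add_mul, h2]

end Pool.Agent.Lib.MP_e508a7_gt
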