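import Mathlib

set_option autoImplicit false

/-!
A correlation inequality for homogeneous functions on the orthant.
-/

namespace Pool.Agent.Lib.MP_e508a7_gt

open MeasureTheory Set
open scoped ENNReal

/-- the open orthant -/
def Qo (m : ℕ) : Set (Fin m → ℝ) := {u | ∀ j, 0 < u j}

/-- the sum of the coordinates -/
def sm {m : ℕ} (u : Fin m → ℝ) : ℝ := ∑ j, u j

/-- the sum of all coordinates but the first -/
def tl {m : ℕ} (u : Fin (m + 1) → ℝ) : ℝ := ∑ j : Fin m, u j.succ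

variable {m : ℕ}

lemma isOpen_Qo : IsOpen (Qo m) := by
  have : Qo m = ⋂ j, {u : Fin m → ℝ | 0 < u j} := by ext u; simp [Qo]
  rw [this]
  exact isOpen_iInter_of_finite fun j => isOpen_lt continuous_const (continuous_apply j)

lemma measurableSet_Qo : MeasurableSet (Qo m) := isOpen_Qo.measurableSet

@[fun_prop] lemma continuous_sm : Continuous (sm : (Fin m → ℝ) → ℝ) := by
  unfold sm; fun_prop

@[fun_prop] lemma continuous_tl : Continuous (tl : (Fin (m + 1) → ℝ) → ℝ) := by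
  unfold tl; fun_prop

@[fun_prop] lemma measurable_sm : Measurable (sm : (Fin m → ℝ) → ℝ) := continuous_sm.measurable

@[fun_prop] lemma measurable_tl : Measurable (tl : (Fin (m + 1) → ℝ) → ℝ) :=
  continuous_tl.measurable

lemma sm_smul (c : ℝ) (u : Fin m → ℝ) : sm (c • u) = c * sm u := by
  simp [sm, Finset.mul_sum]

lemma tl_smul (c : ℝ) (u : Fin (m + 1) → ℝ) : tl (c • u) = c * tl u := by
  simp [tl, Finset.mul_sum]

lemma sm_eq (u : Fin (m + 1) → ℝ) : sm u = u 0 + tl u := Fin.sum_univ_succ u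

lemma tl_cons (a : ℝ) (u : Fin m → ℝ) : tl (Fin.cons a u : Fin (m + 1) → ℝ) = sm u := rfl

lemma sm_cons (a : ℝ) (u : Fin m → ℝ) : sm (Fin.cons a u : Fin (m + 1) → ℝ) = a + sm u := sm_eq _

lemma sm_pos {u : Fin (m + 1) → ℝ} (hu : u ∈ Qo (m + 1)) : 0 < sm u :=
  Finset.sum_pos (fun j _ => hu j) Finset.univ_nonempty

lemma tl_pos {u : Fin (m + 2) → ℝ} (hu : u ∈ Qo (m + 2)) : 0 < tl u :=
  Finset.sum_pos (fun _ _ => hu _) Finset.univ_nonempty

lemma smul_mem_Qo {c : ℝ} (hc : 0 < c) {u : Fin m → ℝ} : c • u ∈ Qo m ↔ u ∈ Qo m :=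
  forall_congr' fun j => by simp [hc]

lemma cons_mem_Qo {a : ℝ} {u : Fin m → ℝ} :
    (Fin.cons a u : Fin (m + 1) → ℝ) ∈ Qo (m + 1) ↔ 0 < a ∧ u ∈ Qo m := Fin.forall_fin_succ

lemma lint_smul {c : ℝ} (hc : 0 < c) {H : (Fin m → ℝ) → ℝ≥0∞} (hH : Measurable H) :
    ∫⁻ u in Qo m, H (c • u) = ENNReal.ofReal (c ^ m)⁻¹ * ∫⁻ u in Qo m, H u := by
  rw [← lintegral_indicator measurableSet_Qo, ← lintegral_indicator measurableSet_Qo]
  have e : ∀ u, (Qo m).indicator (fun u => H (c • u)) u = (Qo m).indicator H (c • u) := by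
    intro u
    by_cases h : u ∈ Qo m
    · rw [indicator_of_mem h, indicator_of_mem ((smul_mem_Qo hc).2 h)]
    · rw [indicator_of_notMem h, indicator_of_notMem (mt (smul_mem_Qo hc).1 h)]
  simp only [e]
  rw [← lintegral_map (hH.indicator measurableSet_Qo) (measurable_const_smul c),
    Measure.map_addHaar_smul _ hc.ne', lintegral_smul_measure, Module.finrank_fin_fun,
    abs_of_pos (by positivity), smul_eq_mul]

lemma lint_mul {s : ℝ} (hs : 0 < s) {h : ℝ → ℝ≥0∞} (hh : Measurable h) :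
    ∫⁻ a in Ioi 0, h a = ENNReal.ofReal s * ∫⁻ r in Ioi 0, h (r * s) := by
  rw [← lintegral_indicator measurableSet_Ioi, ← lintegral_indicator measurableSet_Ioi]
  have e : ∀ r, (Ioi 0).indicator (fun r => h (r * s)) r = (Ioi 0).indicator h (r * s) := by
    intro r
    by_cases hr : r ∈ Ioi (0 : ℝ)
    · rw [indicator_of_mem hr, indicator_of_mem (show r * s ∈ Ioi 0 from mul_pos hr hs)]
    · rw [indicator_of_notMem hr, indicator_of_notMem
        (show r * s ∉ Ioi 0 from fun h' => hr ((mul_pos_iff_of_pos_right hs).1 h'))]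
  simp only [e]
  rw [← lintegral_map (hh.indicator measurableSet_Ioi) (measurable_mul_const s),
    Real.map_volume_mul_right hs.ne', lintegral_smul_measure, abs_of_pos (by positivity),
    smul_eq_mul, ← mul_assoc, ← ENNReal.ofReal_mul hs.le, mul_inv_cancel₀ hs.ne',
    ENNReal.ofReal_one, one_mul]

lemma measurable_cons {α : Type} [MeasurableSpace α] {f : α → ℝ} {g : α → Fin m → ℝ}
    (hf : Measurable f) (hg : Measurable g) :
    Measurable fun x => (Fin.cons (f x) (g x) : Fin (m + 1) → ℝ) :=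
  measurable_pi_iff.2 fun j => by
    refine Fin.cases ?_ (fun i => ?_) j
    · exact hf
    · exact (measurable_pi_apply i).comp hg

lemma lint_cons {H : (Fin (m + 1) → ℝ) → ℝ≥0∞} (hH : Measurable H) :
    ∫⁻ u in Qo (m + 1), H u = ∫⁻ u in Qo m, ∫⁻ a in Ioi 0, H (Fin.cons a u) := by
  have hp := (volume_preserving_piFinSuccAbove (fun _ : Fin (m + 1) => ℝ) 0).symm
  have e : ∀ z : ℝ × (Fin m → ℝ),
      (MeasurableEquiv.piFinSuccAbove (fun _ : Fin (m + 1) => ℝ) 0).symm z = Fin.cons z.1 z.2 :=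
    fun z => by simp [MeasurableEquiv.piFinSuccAbove_symm_apply, Fin.insertNthEquiv]
  rw [← hp.setLIntegral_comp_preimage measurableSet_Qo hH]
  have e2 : (MeasurableEquiv.piFinSuccAbove (fun _ : Fin (m + 1) => ℝ) 0).symm ⁻¹' Qo (m + 1) =
      Ioi 0 ×ˢ Qo m := by
    ext z
    rw [mem_preimage, e, cons_mem_Qo]
    rfl
  rw [e2, Measure.volume_eq_prod, ← Measure.prod_restrict]
  simp only [e]
  exact lintegral_prod_symm' _ (hH.comp (measurable_cons measurable_fst measurable_snd))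

lemma lint_radial {H : (Fin (m + 2) → ℝ) → ℝ≥0∞} (hH : Measurable H) :
    ∫⁻ u in Qo (m + 2), H u =
      ∫⁻ r in Ioi 0, ∫⁻ u in Qo (m + 1), ENNReal.ofReal (sm u) * H (Fin.cons (r * sm u) u) := by
  rw [lint_cons hH]
  symm
  rw [lintegral_lintegral_swap]
  · refine setLIntegral_congr_fun measurableSet_Qo fun u hu => ?_
    have h1 : Measurable fun a : ℝ => H (Fin.cons a u) :=
      hH.comp (measurable_cons measurable_id measurable_const)
    have h2 : Measurable fun r : ℝ => H (Fin.cons (r * sm u) u) :=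
      h1.comp (measurable_mul_const _)
    rw [lint_mul (sm_pos hu) h1, lintegral_const_mul _ h2]
  · have h1 : Measurable fun z : ℝ × (Fin (m + 1) → ℝ) => H (Fin.cons (z.1 * sm z.2) z.2) :=
      hH.comp (measurable_cons (by fun_prop) measurable_snd)
    have h2 : Measurable fun z : ℝ × (Fin (m + 1) → ℝ) => ENNReal.ofReal (sm z.2) := by fun_prop
    exact (h2.mul h1).aemeasurable

lemma rearr {a b c d : ℝ≥0∞} (h1 : a ≤ b) (h2 : c ≤ d) : a * d + b * c ≤ a * c + b * d := by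
  obtain ⟨e, rfl⟩ := exists_add_of_le h1
  obtain ⟨f, rfl⟩ := exists_add_of_le h2
  calc a * (c + f) + (a + e) * c ≤ a * (c + f) + (a + e) * c + e * f := le_self_add
    _ = _ := by ring

/-- the integral inequality of Chebyshev -/
lemma cheb {ρ f g : ℝ → ℝ≥0∞} (hρ : Measurable ρ) (hf : Measurable f) (hg : Measurable g)
    (hf' : AntitoneOn f (Ioi 0)) (hg' : AntitoneOn g (Ioi 0)) :
    (∫⁻ r in Ioi 0, ρ r * f r) * ∫⁻ r in Ioi 0, ρ r * g r ≤
      (∫⁻ r in Ioi 0, ρ r * (f r * g r)) * ∫⁻ r in Ioi 0, ρ r := by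
  have h1 : AEMeasurable (fun r => ρ r * f r) (volume.restrict (Ioi 0)) := by fun_prop
  have h2 : AEMeasurable (fun r => ρ r * g r) (volume.restrict (Ioi 0)) := by fun_prop
  have h3 : AEMeasurable (fun r => ρ r * (f r * g r)) (volume.restrict (Ioi 0)) := by fun_prop
  have h4 := hρ.aemeasurable (μ := volume.restrict (Ioi 0))
  rw [← ENNReal.mul_le_mul_iff_right two_ne_zero ENNReal.ofNat_ne_top, two_mul, two_mul]
  nth_rw 2 [mul_comm (∫⁻ r in Ioi 0, ρ r * f r), mul_comm (∫⁻ r in Ioi 0, ρ r * (f r * g r))]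
  rw [← lintegral_prod_mul h1 h2, ← lintegral_prod_mul h2 h1, ← lintegral_prod_mul h3 h4,
    ← lintegral_prod_mul h4 h3, ← lintegral_add_left (by fun_prop),
    ← lintegral_add_left (by fun_prop), Measure.prod_restrict]
  refine setLIntegral_mono' (measurableSet_Ioi.prod measurableSet_Ioi) fun z hz => ?_
  have key : f z.1 * g z.2 + f z.2 * g z.1 ≤ f z.1 * g z.1 + f z.2 * g z.2 := by
    rcases le_total z.1 z.2 with h | h
    · rw [add_comm, add_comm (f z.1 * g z.1)]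
      exact rearr (hf' hz.1 hz.2 h) (hg' hz.1 hz.2 h)
    · exact rearr (hf' hz.2 hz.1 h) (hg' hz.2 hz.1 h)
  calc _ = ρ z.1 * ρ z.2 * (f z.1 * g z.2 + f z.2 * g z.1) := by ring
    _ ≤ ρ z.1 * ρ z.2 * (f z.1 * g z.1 + f z.2 * g z.2) := by gcongr
    _ = _ := by ring

/-- `v` comes from `u` by moving a fixed proportion of the mass behind `k` to `k` -/
def Mv (k : Fin m) (t : ℝ) (u v : Fin m → ℝ) : Prop :=
  (∀ j, j < k → v j = u j) ∧ (∀ j, k < j → v j = (1 - t) * u j) ∧ sm v = sm u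

/-- functions of the direction that decrease under the moves -/
structure Cl (F : (Fin m → ℝ) → ℝ≥0∞) : Prop where
  meas : Measurable F
  hom : ∀ c : ℝ, 0 < c → ∀ u ∈ Qo m, F (c • u) = F u
  mv : ∀ k t u v, u ∈ Qo m → 0 ≤ t → t < 1 → Mv k t u v → F v ≤ F u

lemma cl_one : Cl fun _ : Fin m → ℝ => 1 :=
  ⟨measurable_const, fun _ _ _ _ => rfl, fun _ _ _ _ _ _ _ _ => le_rfl⟩

lemma cons_smul (c a : ℝ) (u : Fin m → ℝ) :
    (Fin.cons (c * a) (c • u) : Fin (m + 1) → ℝ) = c • (Fin.cons a u : Fin (m + 1) → ℝ) := by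
  ext j
  refine Fin.cases rfl (fun i => rfl) j

lemma Cl.slice {F : (Fin (m + 2) → ℝ) → ℝ≥0∞} (h : Cl F) {r : ℝ} (hr : 0 < r) :
    Cl fun u : Fin (m + 1) → ℝ => F (Fin.cons (r * sm u) u) := by
  refine ⟨h.meas.comp (measurable_cons (by fun_prop) measurable_id), fun c hc u hu => ?_,
    fun k t u v hu h0 h1 hm => ?_⟩
  · rw [sm_smul, mul_left_comm, cons_smul,
      h.hom c hc _ (cons_mem_Qo.2 ⟨mul_pos hr (sm_pos hu), hu⟩)]
  · refine h.mv k.succ t _ _ (cons_mem_Qo.2 ⟨mul_pos hr (sm_pos hu), hu⟩) h0 h1 ⟨?_, ?_, ?_⟩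
    · intro j
      refine Fin.cases (fun _ => ?_) (fun i hi => ?_) j
      · rw [Fin.cons_zero, Fin.cons_zero, hm.2.2]
      · exact hm.1 i (Fin.succ_lt_succ_iff.1 hi)
    · intro j
      refine Fin.cases (fun hj => absurd hj (Fin.not_lt_zero _)) (fun i hi => ?_) j
      exact hm.2.1 i (Fin.succ_lt_succ_iff.1 hi)
    · rw [sm_cons, sm_cons, hm.2.2]

lemma Cl.anti {F : (Fin (m + 2) → ℝ) → ℝ≥0∞} (h : Cl F) {r r' : ℝ} (hr : 0 < r) (hrr : r ≤ r')
    {u : Fin (m + 1) → ℝ} (hu : u ∈ Qo (m + 1)) :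
    F (Fin.cons (r' * sm u) u) ≤ F (Fin.cons (r * sm u) u) := by
  have h1 : 0 < 1 + r' := by linarith
  have h2 : 0 < (1 + r) / (1 + r') := by positivity
  rw [← h.hom _ h2 _ (cons_mem_Qo.2 ⟨mul_pos (by linarith) (sm_pos hu), hu⟩)]
  refine h.mv 0 (1 - (1 + r) / (1 + r')) _ _ (cons_mem_Qo.2 ⟨mul_pos hr (sm_pos hu), hu⟩)
    (sub_nonneg.2 ((div_le_one h1).2 (by linarith))) (by linarith)
    ⟨fun j hj => absurd hj (Fin.not_lt_zero _), fun j => ?_, ?_⟩
  · refine Fin.cases (fun hj => absurd hj (lt_irrefl _)) (fun i _ => ?_) j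
    simp
  · rw [sm_smul, sm_cons, sm_cons]
    field_simp
    ring

/-- the weighted integral of a function of the direction -/
noncomputable def II (F : (Fin (m + 1) → ℝ) → ℝ≥0∞) (ω w : ℝ → ℝ≥0∞) : ℝ≥0∞ :=
  ∫⁻ u in Qo (m + 1), F u * (ω (u 0 / tl u) * w (sm u))

lemma II_succ {F : (Fin (m + 2) → ℝ) → ℝ≥0∞} (hF : Measurable F)
    (hom : ∀ c : ℝ, 0 < c → ∀ u ∈ Qo (m + 2), F (c • u) = F u) {ω w : ℝ → ℝ≥0∞} (hω : Measurable ω)
    (hw : Measurable w) : II F ω w =
      ∫⁻ r in Ioi 0, ω r * ENNReal.ofReal ((1 + r) ^ (m + 2))⁻¹ *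
        II (fun u : Fin (m + 1) → ℝ => F (Fin.cons (r * sm u) u)) (fun _ => 1)
          fun s => ENNReal.ofReal s * w s := by
  rw [II, lint_radial (by fun_prop)]
  refine setLIntegral_congr_fun measurableSet_Ioi fun r hr => ?_
  have hr0 : 0 < r := hr
  have h1 : 0 < 1 + r := by linarith
  have hm : Measurable fun u : Fin (m + 1) → ℝ => F (Fin.cons (r * sm u) u) :=
    hF.comp (measurable_cons (by fun_prop) measurable_id)
  have key := lint_smul h1 (H := fun u : Fin (m + 1) → ℝ =>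
    F (Fin.cons (r * sm u) u) * (1 * (ENNReal.ofReal (sm u) * w (sm u)))) (by fun_prop)
  rw [II, pow_succ, mul_inv, ENNReal.ofReal_mul (by positivity), mul_assoc, mul_right_comm, ← key,
    mul_comm _ (ENNReal.ofReal (1 + r)⁻¹), ← mul_assoc, ← lintegral_const_mul _ (by fun_prop)]
  refine setLIntegral_congr_fun measurableSet_Qo fun u hu => ?_
  have h2 := sm_pos hu
  rw [sm_smul, mul_left_comm r, cons_smul, hom _ h1 _ (cons_mem_Qo.2 ⟨mul_pos hr0 h2, hu⟩),
    Fin.cons_zero, tl_cons, sm_cons, mul_div_cancel_right₀ _ h2.ne', ENNReal.ofReal_mul h1.le,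
    show r * sm u + sm u = (1 + r) * sm u by ring]
  have h3 : ENNReal.ofReal (1 + r)⁻¹ * ENNReal.ofReal (1 + r) = 1 := by
    rw [← ENNReal.ofReal_mul (by positivity), inv_mul_cancel₀ h1.ne', ENNReal.ofReal_one]
  calc _ = (ENNReal.ofReal (1 + r)⁻¹ * ENNReal.ofReal (1 + r)) * (ENNReal.ofReal (sm u) *
        (F (Fin.cons (r * sm u) u) * (ω r * w ((1 + r) * sm u)))) := by rw [h3, one_mul]
    _ = _ := by ring

lemma measurable_II {F : (Fin (m + 2) → ℝ) → ℝ≥0∞} (hF : Measurable F) {w : ℝ → ℝ≥0∞}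
    (hw : Measurable w) : Measurable fun r : ℝ =>
      II (fun u : Fin (m + 1) → ℝ => F (Fin.cons (r * sm u) u)) (fun _ => 1) w := by
  refine Measurable.lintegral_prod_right' (f := fun z : ℝ × (Fin (m + 1) → ℝ) =>
    F (Fin.cons (z.1 * sm z.2) z.2) * (1 * w (sm z.2))) (Measurable.mul (hF.comp ?_) (by fun_prop))
  exact measurable_cons (by fun_prop) measurable_snd

lemma Cl.antitoneOn {F : (Fin (m + 2) → ℝ) → ℝ≥0∞} (h : Cl F) (w : ℝ → ℝ≥0∞) :
    AntitoneOn (fun r : ℝ =>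
      II (fun u : Fin (m + 1) → ℝ => F (Fin.cons (r * sm u) u)) (fun _ => 1) w) (Ioi 0) :=
  fun _ hr _ _ hrr => setLIntegral_mono' measurableSet_Qo fun _ hu =>
    mul_le_mul_left (h.anti hr hrr hu) _

/-- Functions of the class are positively correlated. -/
theorem corr : ∀ (m : ℕ) {F G : (Fin (m + 1) → ℝ) → ℝ≥0∞}, Cl F → Cl G →
    ∀ {ω w w' : ℝ → ℝ≥0∞}, Measurable ω → Measurable w → Measurable w' →
      II F ω w * II G ω w' ≤ II (fun u => F u * G u) ω w * II (m := m) (fun _ => 1) ω w' := by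
  intro m
  induction m with
  | zero =>
    intro F G hF hG ω w w' hω hw hw'
    have h1 : ∀ {H : (Fin 1 → ℝ) → ℝ≥0∞}, Cl H → ∀ u ∈ Qo 1, H u = H 1 := by
      intro H hH u hu
      have e : u = u 0 • (1 : Fin 1 → ℝ) := by
        ext j
        rw [Subsingleton.elim j 0]
        simp
      rw [e]
      exact hH.hom _ (hu 0) _ fun _ => one_pos
    have h2 : ∀ (H : (Fin 1 → ℝ) → ℝ≥0∞) (c : ℝ≥0∞), (∀ u ∈ Qo 1, H u = c) →
        ∀ v : ℝ → ℝ≥0∞, Measurable v → II H ω v = c * II (m := 0) (fun _ => 1) ω v := by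
      intro H c hH v hv
      rw [II, II, ← lintegral_const_mul _ (by fun_prop)]
      refine setLIntegral_congr_fun measurableSet_Qo fun u hu => ?_
      rw [hH u hu, one_mul]
    rw [h2 F _ (h1 hF) w hw, h2 G _ (h1 hG) w' hw',
      h2 (fun u => F u * G u) (F 1 * G 1) (fun u hu => by rw [h1 hF u hu, h1 hG u hu]) w hw]
    exact le_of_eq (by ring)
  | succ m ih =>
    intro F G hF hG ω w w' hω hw hw'
    have hv : Measurable fun s => ENNReal.ofReal s * w s := by fun_prop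
    have hv' : Measurable fun s => ENNReal.ofReal s * w' s := by fun_prop
    have hρ : Measurable fun r => ω r * ENNReal.ofReal ((1 + r) ^ (m + 2))⁻¹ := by fun_prop
    have hFG : Measurable fun u => F u * G u := hF.meas.mul hG.meas
    have h1 : Measurable fun r => ω r * ENNReal.ofReal ((1 + r) ^ (m + 2))⁻¹ *
        II (fun u : Fin (m + 1) → ℝ => F (Fin.cons (r * sm u) u) * G (Fin.cons (r * sm u) u))
          (fun _ => 1) fun s => ENNReal.ofReal s * w s := hρ.mul (measurable_II hFG hv)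
    rw [II_succ hF.meas hF.hom hω hw, II_succ hG.meas hG.hom hω hw',
      II_succ hFG (fun c hc u hu => by rw [hF.hom c hc u hu, hG.hom c hc u hu])
        hω hw, II_succ measurable_const (fun _ _ _ _ => rfl) hω hw']
    refine (cheb hρ (measurable_II hF.meas hv) (measurable_II hG.meas hv') (hF.antitoneOn _)
      (hG.antitoneOn _)).trans ?_
    rw [lintegral_mul_const _ hρ, mul_comm (∫⁻ r in Ioi 0, _) (II _ _ _), ← mul_assoc,
      ← lintegral_mul_const _ h1]
    refine mul_le_mul_left (setLIntegral_mono' measurableSet_Ioi fun r hr => ?_) _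
    rw [mul_assoc _ (II _ _ _)]
    exact mul_le_mul_right (ih (hF.slice hr) (hG.slice hr) measurable_const hv hv') _

end Pool.Agent.Lib.MP_e508a7_gt
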