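import Pool.Agent.Lib.MP_e508a7_gt.EnTilt

/-!
# The tilted additive energy of a convex body
-/

set_option autoImplicit false

namespace Pool.Agent.Lib.MP_e508a7_gt.En

open MeasureTheory Set Filter Topology

variable {n : ℕ}

/-- The indicator function of `K`. -/
noncomputable def ind (K : Set (E n)) (y : E n) : ENNReal := K.indicator 1 y

/-- The exponential weight. -/
noncomputable def wt (ξ : E n →L[ℝ] ℝ) (y : E n) : ENNReal := ENNReal.ofReal (Real.exp (-ξ y))

theorem ind_meas {K : Set (E n)} (hm : MeasurableSet K) : Measurable (ind K) :=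
  measurable_one.indicator hm

theorem wt_meas (ξ : E n →L[ℝ] ℝ) : Measurable (wt ξ) :=
  (ENNReal.continuous_ofReal.comp (by fun_prop)).measurable

theorem ind_mem {K : Set (E n)} {y : E n} (h : y ∈ K) : ind K y = 1 := indicator_of_mem h _

theorem ind_not {K : Set (E n)} {y : E n} (h : y ∉ K) : ind K y = 0 := indicator_of_notMem h _

theorem wt_add (ξ : E n →L[ℝ] ℝ) (a b : E n) : wt ξ (a + b) = wt ξ a * wt ξ b := by
  rw [wt, wt, wt, ← ENNReal.ofReal_mul (Real.exp_pos _).le, ← Real.exp_add, map_add, neg_add]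

theorem wt_smul (ξ : E n →L[ℝ] ℝ) (r : ℝ) (a : E n) : wt (r • ξ) a = wt ξ (r • a) := by
  simp [wt]

theorem int_ind {K : Set (E n)} (hm : MeasurableSet K) : ∫⁻ y, ind K y = volume K :=
  lintegral_indicator_one hm

theorem int_ov {K : Set (E n)} (hm : MeasurableSet K) (x : E n) :
    ∫⁻ y, ind K y * ind K (x - y) = volume (ov K x) := by
  rw [← lintegral_indicator_one (ov_meas hm x)]
  refine lintegral_congr fun y => ?_
  by_cases h1 : y ∈ K
  · by_cases h2 : x - y ∈ K
    · rw [ind_mem h1, ind_mem h2, indicator_of_mem (show y ∈ ov K x from ⟨h1, h2⟩)]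
      simp
    · rw [ind_not h2, mul_zero, indicator_of_notMem fun h : y ∈ ov K x => h2 h.2]
  · rw [ind_not h1, zero_mul, indicator_of_notMem fun h : y ∈ ov K x => h1 h.1]

/-- The centroid condition: every exponential tilt increases the mass. -/
theorem jensen {K : Set (E n)} (hc : IsCompact K) (h0 : (∫ x in K, x) = 0) (ξ : E n →L[ℝ] ℝ) :
    volume K ≤ ∫⁻ y, ind K y * wt ξ y := by
  have h1 : ∫⁻ y, ind K y * wt ξ y = ∫⁻ y in K, ENNReal.ofReal (Real.exp (-ξ y)) := by
    rw [← lintegral_indicator hc.measurableSet]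
    refine lintegral_congr fun y => ?_
    by_cases h : y ∈ K
    · rw [ind_mem h, one_mul, indicator_of_mem h, wt]
    · rw [ind_not h, zero_mul, indicator_of_notMem h]
  have h2 : IntegrableOn (fun y => Real.exp (-ξ y)) K :=
    ContinuousOn.integrableOn_compact hc (by fun_prop)
  have h3 : IntegrableOn (fun y : E n => y) K := ContinuousOn.integrableOn_compact hc (by fun_prop)
  have h4 : IntegrableOn (fun _ : E n => (1 : ℝ)) K :=
    ContinuousOn.integrableOn_compact hc (by fun_prop)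
  have h5 : IntegrableOn (fun y : E n => ξ y) K :=
    ContinuousOn.integrableOn_compact hc (by fun_prop)
  rw [h1, ← ofReal_integral_eq_lintegral_ofReal h2 (ae_of_all _ fun y => (Real.exp_pos _).le),
    ← ENNReal.ofReal_toReal hc.measure_lt_top.ne]
  refine ENNReal.ofReal_le_ofReal ?_
  have h6 : ∫ y in K, (1 - ξ y) = (volume K).toReal := by
    rw [integral_sub h4 h5, ξ.integral_comp_comm h3, h0, map_zero, sub_zero]
    simp [Measure.real]
  rw [← h6]
  exact integral_mono (h4.sub h5) h2 fun y => by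
    have := Real.add_one_le_exp (-ξ y)
    show 1 - ξ y ≤ Real.exp (-ξ y)
    linarith

theorem scaled {K : Set (E n)} (hc : IsCompact K) (h0 : (∫ x in K, x) = 0) (ξ : E n →L[ℝ] ℝ)
    {r : ℝ} (hr : 0 < r) :
    ENNReal.ofReal (r⁻¹ ^ n) * volume K ≤ ∫⁻ u, ind K (r • u) * wt ξ u := by
  have h1 := lintegral_map (μ := (volume : Measure (E n))) (g := fun u : E n => r • u)
    ((ind_meas hc.measurableSet).mul (wt_meas (r⁻¹ • ξ))) (measurable_const_smul r)
  rw [Measure.map_addHaar_smul _ hr.ne', lintegral_smul_measure, finrank_euclideanSpace_fin,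
    abs_of_pos (by positivity), ← inv_pow, smul_eq_mul] at h1
  have h2 : ∀ u : E n, wt (r⁻¹ • ξ) (r • u) = wt ξ u := fun u => by
    rw [wt_smul, inv_smul_smul₀ hr.ne']
  simp only [Pi.mul_apply, h2] at h1
  rw [← h1]
  exact mul_le_mul' le_rfl (jensen hc h0 _)

/-- The tilted covariogram. -/
noncomputable def cov (K : Set (E n)) (ξ : E n →L[ℝ] ℝ) (e : E n) : ENNReal :=
  ∫⁻ a, ind K a * ind K (a - e) * wt ξ a

theorem cov_low {K : Set (E n)} (hK : Convex ℝ K) (hm : MeasurableSet K) (ξ : E n →L[ℝ] ℝ)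
    (e : E n) : (∫⁻ u, ind K ((3 / 2 : ℝ) • u) * wt ξ u) *
      (∫⁻ v, ind K ((3 / 4 : ℝ) • v) * ind K ((3 / 4 : ℝ) • v - (3 / 2 : ℝ) • e) * wt ξ v) ≤
      cov K ξ e ^ 2 := by
  have m1 := ind_meas hm
  have m2 := wt_meas ξ
  refine pl (by fun_prop) (by fun_prop) (by fun_prop) fun u v => ?_
  by_cases h1 : (3 / 2 : ℝ) • u ∈ K
  · by_cases h2 : (3 / 4 : ℝ) • v ∈ K
    · by_cases h3 : (3 / 4 : ℝ) • v - (3 / 2 : ℝ) • e ∈ K
      · have h4 := hK h1 h2 (a := 1 / 3) (b := 2 / 3) (by norm_num) (by norm_num) (by norm_num)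
        have h5 := hK h1 h3 (a := 1 / 3) (b := 2 / 3) (by norm_num) (by norm_num) (by norm_num)
        have e4 : (1 / 3 : ℝ) • (3 / 2 : ℝ) • u + (2 / 3 : ℝ) • (3 / 4 : ℝ) • v =
            (1 / 2 : ℝ) • (u + v) := by module
        have e5 : (1 / 3 : ℝ) • (3 / 2 : ℝ) • u +
            (2 / 3 : ℝ) • ((3 / 4 : ℝ) • v - (3 / 2 : ℝ) • e) = (1 / 2 : ℝ) • (u + v) - e := by
          module
        rw [e4] at h4
        rw [e5] at h5
        have e6 : (1 / 2 : ℝ) • (u + v) + (1 / 2 : ℝ) • (u + v) = u + v := by module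
        rw [ind_mem h1, ind_mem h2, ind_mem h3, ind_mem h4, ind_mem h5]
        simp only [one_mul]
        rw [pow_two, ← wt_add, ← wt_add, e6]
      · rw [ind_not h3, mul_zero, zero_mul, mul_zero]
        exact zero_le
    · rw [ind_not h2, zero_mul, zero_mul, mul_zero]
      exact zero_le
  · rw [ind_not h1, zero_mul, zero_mul]
    exact zero_le

theorem cov_mass {K : Set (E n)} (hm : MeasurableSet K) (ξ : E n →L[ℝ] ℝ) :
    ∫⁻ e, wt ξ (-e) *
      ∫⁻ v, ind K ((3 / 4 : ℝ) • v) * ind K ((3 / 4 : ℝ) • v - (3 / 2 : ℝ) • e) * wt ξ v =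
      (∫⁻ v, ind K ((3 / 4 : ℝ) • v) * wt ((1 / 2 : ℝ) • ξ) v) *
        ∫⁻ u, ind K ((3 / 2 : ℝ) • u) * wt ξ u := by
  have m1 := ind_meas hm
  have m2 := wt_meas ξ
  have m3 := wt_meas ((1 / 2 : ℝ) • ξ)
  rw [lintegral_congr fun e => (lintegral_const_mul _ (by fun_prop)).symm,
    lintegral_lintegral_swap (by fun_prop), ← lintegral_mul_const _ (by fun_prop)]
  refine lintegral_congr fun v => ?_
  rw [← lintegral_const_mul _ (by fun_prop), ← lintegral_sub_left_eq_self _ ((1 / 2 : ℝ) • v)]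
  refine lintegral_congr fun u => ?_
  have e1 : (3 / 4 : ℝ) • v - (3 / 2 : ℝ) • ((1 / 2 : ℝ) • v - u) = (3 / 2 : ℝ) • u := by module
  have e2 : wt ξ (-((1 / 2 : ℝ) • v - u)) * wt ξ v = wt ((1 / 2 : ℝ) • ξ) v * wt ξ u := by
    rw [wt_smul, ← wt_add, ← wt_add]
    congr 1
    module
  rw [e1]
  calc _ = ind K ((3 / 4 : ℝ) • v) * ind K ((3 / 2 : ℝ) • u) *
        (wt ξ (-((1 / 2 : ℝ) • v - u)) * wt ξ v) := by ring
    _ = _ := by rw [e2]; ring

theorem energy_up {K : Set (E n)} (hm : MeasurableSet K) (ξ : E n →L[ℝ] ℝ) {M : ENNReal}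
    (hM : ∀ x, wt ξ x * volume (ov K x) ≤ M) :
    ∫⁻ e, wt ξ (-e) * cov K ξ e ^ 2 ≤ volume K * volume K * M := by
  have m1 := ind_meas hm
  have m2 := wt_meas ξ
  have h1 : ∀ e, wt ξ (-e) * cov K ξ e ^ 2 = ∫⁻ a, ∫⁻ x,
      ind K a * ind K (x - a) * (wt ξ x * (ind K (a - e) * ind K (x - (a - e)))) := by
    intro e
    have h2 : ∀ a, wt ξ (-e) * cov K ξ e =
        ∫⁻ x, wt ξ (-e) * (ind K (x - (a - e)) * ind K (x - a) * wt ξ (x - (a - e))) := by
      intro a
      rw [lintegral_const_mul _ (by fun_prop), cov, ← lintegral_sub_right_eq_self _ (a - e)]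
      congr 1
      refine lintegral_congr fun x => ?_
      rw [show x - (a - e) - e = x - a by abel]
    rw [pow_two, ← mul_assoc]
    nth_rewrite 2 [cov]
    rw [← lintegral_const_mul _ (by fun_prop)]
    refine lintegral_congr fun a => ?_
    rw [h2 a, ← lintegral_mul_const _ (by fun_prop)]
    refine lintegral_congr fun x => ?_
    have e2 : wt ξ (-e) * wt ξ (x - (a - e)) * wt ξ a = wt ξ x := by
      rw [← wt_add, ← wt_add]
      congr 1
      abel
    rw [← e2]
    ring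
  have h3 : ∀ a, ∫⁻ x, ind K (x - a) = volume K := fun a => by
    rw [lintegral_sub_right_eq_self (ind K) a, int_ind hm]
  rw [lintegral_congr h1, lintegral_lintegral_swap
    (Measurable.lintegral_prod_right' (f := fun p : (E n × E n) × E n => ind K p.1.2 *
      ind K (p.2 - p.1.2) * (wt ξ p.2 * (ind K (p.1.2 - p.1.1) * ind K (p.2 - (p.1.2 - p.1.1)))))
      (by fun_prop)).aemeasurable]
  calc _ ≤ ∫⁻ a, ind K a * (volume K * M) := by
        refine lintegral_mono fun a => ?_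
        show ∫⁻ e, ∫⁻ x, _ ≤ _
        rw [lintegral_lintegral_swap (by fun_prop), ← h3 a, ← lintegral_mul_const _ (by fun_prop),
          ← lintegral_const_mul _ (by fun_prop)]
        refine lintegral_mono fun x => ?_
        show ∫⁻ e, _ ≤ _
        rw [lintegral_const_mul _ (by fun_prop), lintegral_const_mul _ (by fun_prop),
          lintegral_sub_left_eq_self (fun y => ind K y * ind K (x - y)) a, int_ov hm, mul_assoc]
        exact mul_le_mul' le_rfl (mul_le_mul' le_rfl (hM x))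
    _ = _ := by rw [lintegral_mul_const _ m1, int_ind hm, mul_assoc]

theorem main {K : Set (E n)} (hK : Convex ℝ K) (hc : IsCompact K) (hi : (interior K).Nonempty)
    (h0 : (∫ x in K, x) = 0) :
    ENNReal.ofReal ((16 / 27 : ℝ) ^ n) * volume K ≤ volume (ov K 0) := by
  have hm := hc.measurableSet
  have m1 := ind_meas hm
  have hp : volume K ≠ 0 := (Measure.measure_pos_of_nonempty_interior _ hi).ne'
  have hf : volume K ≠ ⊤ := hc.measure_lt_top.ne
  refine le_of_forall_gt_imp_ge_of_dense fun M hM => ?_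
  rcases eq_or_ne M ⊤ with rfl | hT
  · exact le_top
  have hM0 : M ≠ 0 := (lt_of_le_of_lt zero_le hM).ne'
  have eM : ENNReal.ofReal (Real.exp (Real.log M.toReal)) = M := by
    rw [Real.exp_log (ENNReal.toReal_pos hM0 hT), ENNReal.ofReal_toReal hT]
  obtain ⟨ξ, hξ⟩ := exists_tilt hK hc (t := Real.log M.toReal) (by rwa [eM])
  have m2 := wt_meas ξ
  have h1 := energy_up hm ξ (M := M) fun x => by
    refine (mul_le_mul' le_rfl (hξ x)).trans (le_of_eq ?_)
    rw [wt, ← ENNReal.ofReal_mul (Real.exp_pos _).le, ← Real.exp_add, ← eM]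
    congr 2
    rw [eM]
    ring
  have h2 := scaled hc h0 ξ (r := 3 / 2) (by norm_num)
  have h3 := scaled hc h0 ((1 / 2 : ℝ) • ξ) (r := 3 / 4) (by norm_num)
  have h4 : (∫⁻ u, ind K ((3 / 2 : ℝ) • u) * wt ξ u) *
      ((∫⁻ v, ind K ((3 / 4 : ℝ) • v) * wt ((1 / 2 : ℝ) • ξ) v) *
        ∫⁻ u, ind K ((3 / 2 : ℝ) • u) * wt ξ u) ≤ ∫⁻ e, wt ξ (-e) * cov K ξ e ^ 2 := by
    rw [← cov_mass hm ξ]
    refine (lintegral_const_mul_le _ _).trans (lintegral_mono fun e => ?_)
    rw [mul_left_comm]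
    exact mul_le_mul' le_rfl (cov_low hK hm ξ e)
  have h5 := ((mul_le_mul' h2 (mul_le_mul' h3 h2)).trans h4).trans h1
  have e1 : ENNReal.ofReal ((16 / 27 : ℝ) ^ n) = ENNReal.ofReal ((3 / 2 : ℝ)⁻¹ ^ n) *
      ENNReal.ofReal ((3 / 4 : ℝ)⁻¹ ^ n) * ENNReal.ofReal ((3 / 2 : ℝ)⁻¹ ^ n) := by
    rw [← ENNReal.ofReal_mul (by positivity), ← ENNReal.ofReal_mul (by positivity), ← mul_pow,
      ← mul_pow]
    norm_num
  rw [← ENNReal.mul_le_mul_iff_right (mul_ne_zero hp hp) (ENNReal.mul_ne_top hf hf), e1]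
  refine le_trans (le_of_eq ?_) h5
  ring

end Pool.Agent.Lib.MP_e508a7_gt.En
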