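import Pool.Agent.Lib.MP_e508a7_gt.KBPl

/-!
# The overlap function of a convex body lies below an exponential through its value at `0`
-/

set_option autoImplicit false

namespace Pool.Agent.Lib.MP_e508a7_gt.En

open MeasureTheory Set Filter Topology Pointwise

/-- Euclidean space of dimension `n`. -/
abbrev E (n : ℕ) : Type := EuclideanSpace ℝ (Fin n)

variable {n : ℕ}

theorem pl {f g h : E n → ENNReal} (hf : Measurable f) (hg : Measurable g) (hh : Measurable h)
    (H : ∀ a b, f a * g b ≤ h ((1 / 2 : ℝ) • (a + b)) ^ 2) :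
    (∫⁻ a, f a) * (∫⁻ b, g b) ≤ (∫⁻ c, h c) ^ 2 := by
  have e := PiLp.volume_preserving_toLp (Fin n)
  rw [← e.lintegral_comp hf, ← e.lintegral_comp hg, ← e.lintegral_comp hh]
  exact KB.pl1_pi n (hf.comp e.measurable) (hg.comp e.measurable) (hh.comp e.measurable)
    fun a b => H _ _

/-- The overlap of `K` with its reflection in `x / 2`. -/
def ov (K : Set (E n)) (x : E n) : Set (E n) := {y | y ∈ K ∧ x - y ∈ K}

theorem ov_meas {K : Set (E n)} (hm : MeasurableSet K) (x : E n) : MeasurableSet (ov K x) :=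
  hm.inter (hm.preimage (measurable_const.sub measurable_id))

theorem ov_mid {K : Set (E n)} (hK : Convex ℝ K) (hm : MeasurableSet K) (p q : E n) :
    volume (ov K p) * volume (ov K q) ≤ volume (ov K ((1 / 2 : ℝ) • (p + q))) ^ 2 := by
  have h1 := pl (f := (ov K p).indicator 1) (g := (ov K q).indicator 1)
    (h := (ov K ((1 / 2 : ℝ) • (p + q))).indicator 1) (measurable_one.indicator (ov_meas hm _))
    (measurable_one.indicator (ov_meas hm _)) (measurable_one.indicator (ov_meas hm _))
    fun a b => by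
      by_cases ha : a ∈ ov K p
      · by_cases hb : b ∈ ov K q
        · have h2 : (1 / 2 : ℝ) • (a + b) ∈ ov K ((1 / 2 : ℝ) • (p + q)) := by
            have h3 := hK ha.1 hb.1 (a := 1 / 2) (b := 1 / 2) (by norm_num) (by norm_num)
              (by norm_num)
            have h4 := hK ha.2 hb.2 (a := 1 / 2) (b := 1 / 2) (by norm_num) (by norm_num)
              (by norm_num)
            have h5 : (1 / 2 : ℝ) • (p + q) - (1 / 2 : ℝ) • (a + b) =
                (1 / 2 : ℝ) • (p - a) + (1 / 2 : ℝ) • (q - b) := by module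
            exact ⟨by rwa [smul_add], by rwa [h5]⟩
          simp only [indicator_of_mem ha, indicator_of_mem hb, indicator_of_mem h2, Pi.one_apply,
            mul_one, one_pow, le_refl]
        · rw [indicator_of_notMem hb, mul_zero]
          exact zero_le
      · rw [indicator_of_notMem ha, zero_mul]
        exact zero_le
  rwa [lintegral_indicator_one (ov_meas hm _), lintegral_indicator_one (ov_meas hm _),
    lintegral_indicator_one (ov_meas hm _)] at h1

theorem ov_usc {K : Set (E n)} (hc : IsCompact K) :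
    UpperSemicontinuous fun x => volume (ov K x) := by
  intro x r hr
  obtain ⟨U, hU, hUo, hUr⟩ := Set.exists_isOpen_lt_of_lt _ r hr
  have h1 : IsClosed ((K \ U) + K) := ((hc.diff hUo).add hc).isClosed
  have h2 : x ∈ ((K \ U) + K)ᶜ := by
    rintro ⟨a, ha, b, hb, e⟩
    exact ha.2 (hU ⟨ha.1, by rw [← e]; simpa using hb⟩)
  filter_upwards [h1.isOpen_compl.mem_nhds h2] with z hz
  refine lt_of_le_of_lt (measure_mono fun y hy => ?_) hUr
  by_contra hy2
  exact hz ⟨y, ⟨hy.1, hy2⟩, z - y, hy.2, by simp⟩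

/-- A closed set that is stable under midpoints is convex. -/
theorem convex_of_mid {X : Type} [NormedAddCommGroup X] [NormedSpace ℝ X] {S : Set X}
    (hS : IsClosed S) (h : ∀ x ∈ S, ∀ y ∈ S, (1 / 2 : ℝ) • (x + y) ∈ S) : Convex ℝ S := by
  intro x hx y hy r t hr ht0 hrt
  have ht1 : t ≤ 1 := by linarith
  have hT : IsClosed {s : ℝ | x + s • (y - x) ∈ S} := hS.preimage (by fun_prop)
  have e0 : r • x + t • y = x + t • (y - x) := by
    rw [show r = 1 - t by linarith]
    module
  rw [e0]
  by_contra hn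
  obtain ⟨a, ha, ha2⟩ := (isCompact_Icc.inter_right hT (s := Icc 0 t)).exists_isGreatest
    ⟨0, ⟨le_rfl, ht0⟩, by simpa using hx⟩
  obtain ⟨b, hb, hb2⟩ := (isCompact_Icc.inter_right hT (s := Icc t 1)).exists_isLeast
    ⟨1, ⟨ht1, le_rfl⟩, by simpa using hy⟩
  have h1 : a < t := lt_of_le_of_ne ha.1.2 fun e => hn (e ▸ ha.2)
  have h2 : t < b := lt_of_le_of_ne hb.1.1 fun e => hn (e ▸ hb.2)
  have h3 : x + ((a + b) / 2) • (y - x) ∈ S := by
    have e : x + ((a + b) / 2) • (y - x) =
        (1 / 2 : ℝ) • ((x + a • (y - x)) + (x + b • (y - x))) := by module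
    rw [e]
    exact h _ ha.2 _ hb.2
  rcases le_total ((a + b) / 2) t with h4 | h4
  · have := ha2 ⟨⟨by linarith [ha.1.1], h4⟩, h3⟩
    linarith
  · have := hb2 ⟨⟨h4, by linarith [hb.1.2]⟩, h3⟩
    linarith

/-- Supporting exponential at the origin. -/
theorem exists_tilt {K : Set (E n)} (hK : Convex ℝ K) (hc : IsCompact K) {t : ℝ}
    (ht : volume (ov K 0) < ENNReal.ofReal (Real.exp t)) :
    ∃ ξ : E n →L[ℝ] ℝ, ∀ x, volume (ov K x) ≤ ENNReal.ofReal (Real.exp (t + ξ x)) := by
  have hcl : IsClosed {p : E n × ℝ | ENNReal.ofReal (Real.exp p.2) ≤ volume (ov K p.1)} :=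
    (ov_usc hc).IsClosed_hypograph.preimage
      (f := fun p : E n × ℝ => (p.1, ENNReal.ofReal (Real.exp p.2)))
      (continuous_fst.prodMk (ENNReal.continuous_ofReal.comp (by fun_prop)))
  have hcv := convex_of_mid hcl fun p hp q hq => by
    have h1 := (mul_le_mul' hp hq).trans (ov_mid hK hc.measurableSet p.1 q.1)
    have h2 : ENNReal.ofReal (Real.exp p.2) * ENNReal.ofReal (Real.exp q.2) =
        ENNReal.ofReal (Real.exp ((1 / 2 : ℝ) • (p + q)).2) ^ 2 := by
      rw [← ENNReal.ofReal_mul (Real.exp_pos _).le, ← ENNReal.ofReal_pow (Real.exp_pos _).le,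
        ← Real.exp_add, ← Real.exp_nat_mul]
      congr 2
      simp
      ring
    rw [h2] at h1
    exact (ENNReal.pow_le_pow_left_iff two_ne_zero).1 h1
  obtain ⟨f, u, h1, h2⟩ := geometric_hahn_banach_point_closed hcv hcl (x := (0, t))
    (not_le.2 ht)
  have hf : ∀ (x : E n) (s : ℝ), f (x, s) = f (x, 0) + s * f (0, 1) := fun x s => by
    rw [← smul_eq_mul, ← map_smul, ← map_add]
    simp
  have hfin : ∀ x, volume (ov K x) ≠ ⊤ := fun x =>
    ne_top_of_le_ne_top hc.measure_lt_top.ne (measure_mono fun y hy => hy.1)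
  have hlog : ∀ x, volume (ov K x) ≠ 0 →
      volume (ov K x) = ENNReal.ofReal (Real.exp (Real.log (volume (ov K x)).toReal)) := by
    intro x hx
    rw [Real.exp_log (ENNReal.toReal_pos hx (hfin x)), ENNReal.ofReal_toReal (hfin x)]
  rw [hf, show ((0 : E n), (0 : ℝ)) = 0 from rfl, map_zero, zero_add] at h1
  rcases lt_or_ge (f (0, 1)) 0 with hb | hb
  · refine ⟨(-f (0, 1))⁻¹ • f.comp (ContinuousLinearMap.inl ℝ (E n) ℝ), fun x => ?_⟩
    by_cases hx : volume (ov K x) = 0
    · rw [hx]
      exact zero_le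
    have h3 := h2 (x, Real.log (volume (ov K x)).toReal) (hlog x hx).ge
    rw [hf] at h3
    rw [hlog x hx]
    refine ENNReal.ofReal_le_ofReal (Real.exp_le_exp.2 ?_)
    have h4 : 0 < -f (0, 1) := by linarith
    show _ ≤ t + (-f (0, 1))⁻¹ * f (x, 0)
    rw [← sub_le_iff_le_add', inv_mul_eq_div, le_div_iff₀ h4]
    linarith
  · have hd : 0 < u - t * f (0, 1) := by linarith
    refine ⟨(|Real.log (volume K).toReal - t| / (u - t * f (0, 1))) •
      f.comp (ContinuousLinearMap.inl ℝ (E n) ℝ), fun x => ?_⟩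
    by_cases hx : volume (ov K x) = 0
    · rw [hx]
      exact zero_le
    have h3 := h2 (x, min t (Real.log (volume (ov K x)).toReal))
      (le_trans (ENNReal.ofReal_le_ofReal (Real.exp_le_exp.2 (min_le_right _ _))) (hlog x hx).ge)
    rw [hf] at h3
    have h4 := mul_le_mul_of_nonneg_right
      (min_le_left t (Real.log (volume (ov K x)).toReal)) hb
    have h5 : Real.log (volume (ov K x)).toReal ≤ Real.log (volume K).toReal :=
      Real.log_le_log (ENNReal.toReal_pos hx (hfin x))
        (ENNReal.toReal_mono hc.measure_lt_top.ne (measure_mono fun y hy => hy.1))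
    rw [hlog x hx]
    refine ENNReal.ofReal_le_ofReal (Real.exp_le_exp.2 ?_)
    show _ ≤ t + |Real.log (volume K).toReal - t| / (u - t * f (0, 1)) * f (x, 0)
    have h6 : |Real.log (volume K).toReal - t| / (u - t * f (0, 1)) * (u - t * f (0, 1)) ≤
        |Real.log (volume K).toReal - t| / (u - t * f (0, 1)) * f (x, 0) :=
      mul_le_mul_of_nonneg_left (by linarith) (by positivity)
    rw [div_mul_cancel₀ _ hd.ne'] at h6
    linarith [le_abs_self (Real.log (volume K).toReal - t)]

end Pool.Agent.Lib.MP_e508a7_gt.En
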