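import Pool.Agent.Lib.MP_e508a7_gt.LpLayer

/-!
# Weighted Brunn-Minkowski comparisons of convolutions
-/

set_option autoImplicit false

namespace Pool.Agent.Lib.MP_e508a7_gt.Lq

open MeasureTheory Set Filter Topology Pointwise En Lp

variable {n : ℕ}

theorem bm {P Q F : Set (E n)} (hP : Convex ℝ P) (hQ : Convex ℝ Q) (cP : IsCompact P)
    (cQ : IsCompact Q) (hv : volume P = volume Q) {l : ℝ} (h0 : 0 ≤ l) (h1 : l ≤ 1)
    (h : ∀ a ∈ P, ∀ b ∈ Q, l • a + (1 - l) • b ∈ F) : volume P ≤ volume F := by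
  rcases eq_or_ne (volume P) 0 with hz | hz
  · rw [hz]
    exact zero_le
  obtain ⟨p, hp⟩ := nonempty_of_measure_ne_zero hz
  obtain ⟨q, hq⟩ := nonempty_of_measure_ne_zero (hv ▸ hz)
  have hm : ∀ s : ℝ, MeasurableSet (s • P + (1 - s) • Q) := fun s =>
    ((cP.smul s).add (cQ.smul _)).measurableSet
  have hu : UpperSemicontinuous fun s : ℝ => volume (s • P + (1 - s) • Q) := by
    intro s r hr
    obtain ⟨U, hU, hUo, hUr⟩ := Set.exists_isOpen_lt_of_lt _ r hr
    have h2 := (cP.prod cQ).eventually_forall_of_forall_eventually (x₀ := s)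
      (P := fun (t : ℝ) (y : E n × E n) => t • y.1 + (1 - t) • y.2 ∈ U) fun y hy =>
        (show Continuous fun z : ℝ × E n × E n => z.1 • z.2.1 + (1 - z.1) • z.2.2 by
          fun_prop).continuousAt.eventually_mem (hUo.mem_nhds
            (hU (add_mem_add (smul_mem_smul_set hy.1) (smul_mem_smul_set hy.2))))
    filter_upwards [h2] with t ht
    refine lt_of_le_of_lt (measure_mono ?_) hUr
    rintro _ ⟨_, ⟨a, ha, rfl⟩, _, ⟨b, hb, rfl⟩, rfl⟩
    exact ht (a, b) ⟨ha, hb⟩
  have hc := convex_of_mid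
    (S := Icc (0 : ℝ) 1 ∩ {s : ℝ | volume P ≤ volume (s • P + (1 - s) • Q)})
    (isClosed_Icc.inter (hu.isClosed_preimage _)) fun s hs t ht => by
      refine ⟨⟨by rw [smul_eq_mul]; linarith [hs.1.1, ht.1.1],
        by rw [smul_eq_mul]; linarith [hs.1.2, ht.1.2]⟩, ?_⟩
      have h3 := pl (ind_meas (hm s)) (ind_meas (hm t)) (ind_meas (hm ((1 / 2 : ℝ) • (s + t))))
        fun a b => by
          rcases ind_cases (s • P + (1 - s) • Q) a with k1 | ⟨ha, l1⟩
          · simp only [k1, zero_mul, zero_le]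
          rcases ind_cases (t • P + (1 - t) • Q) b with k2 | ⟨hb, l2⟩
          · simp only [k2, mul_zero, zero_le]
          have h4 : (1 / 2 : ℝ) • (a + b) ∈ ((1 / 2 : ℝ) • (s + t)) • P +
              (1 - (1 / 2 : ℝ) • (s + t)) • Q := by
            obtain ⟨_, ⟨a1, ha1, rfl⟩, _, ⟨a2, ha2, rfl⟩, rfl⟩ := ha
            obtain ⟨_, ⟨b1, hb1, rfl⟩, _, ⟨b2, hb2, rfl⟩, rfl⟩ := hb
            rw [show (1 / 2 : ℝ) • (s + t) = s / 2 + t / 2 by rw [smul_eq_mul]; ring,
              show 1 - (s / 2 + t / 2) = (1 - s) / 2 + (1 - t) / 2 by ring,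
              hP.add_smul (by linarith [hs.1.1]) (by linarith [ht.1.1]),
              hQ.add_smul (by linarith [hs.1.2]) (by linarith [ht.1.2])]
            refine ⟨_, add_mem_add (smul_mem_smul_set ha1) (smul_mem_smul_set hb1), _,
              add_mem_add (smul_mem_smul_set ha2) (smul_mem_smul_set hb2), ?_⟩
            simp only
            module
          rw [l1, l2, ind_mem h4, mul_one, one_pow]
      rw [int_ind (hm _), int_ind (hm _), int_ind (hm _)] at h3
      have h5 := (mul_le_mul' hs.2 ht.2).trans h3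
      rw [← pow_two] at h5
      exact (ENNReal.pow_le_pow_left_iff two_ne_zero).1 h5
  have e0 : (0 : ℝ) ∈ Icc (0 : ℝ) 1 ∩ {s : ℝ | volume P ≤ volume (s • P + (1 - s) • Q)} :=
    ⟨⟨le_rfl, zero_le_one⟩, hv.le.trans (measure_mono fun b hb =>
      ⟨_, smul_mem_smul_set hp, _, smul_mem_smul_set hb, by simp⟩)⟩
  have e1 : (1 : ℝ) ∈ Icc (0 : ℝ) 1 ∩ {s : ℝ | volume P ≤ volume (s • P + (1 - s) • Q)} :=
    ⟨⟨zero_le_one, le_rfl⟩, measure_mono fun a ha =>
      ⟨_, smul_mem_smul_set ha, _, smul_mem_smul_set hq, by simp⟩⟩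
  have h6 := (hc e0 e1 (a := 1 - l) (b := l) (by linarith) h0 (by ring)).2
  rw [smul_zero, zero_add, smul_eq_mul, mul_one] at h6
  refine le_trans h6 (measure_mono ?_)
  rintro _ ⟨_, ⟨a, ha, rfl⟩, _, ⟨b, hb, rfl⟩, rfl⟩
  exact h a ha b hb

theorem bm_ref {D F : Set (E n)} (hD : Convex ℝ D) (cD : IsCompact D) (x : E n) {l : ℝ}
    (h0 : 0 ≤ l) (h1 : l ≤ 1) (h : ∀ a ∈ D, ∀ b ∈ D, l • a + (1 - l) • (x - b) ∈ F) :
    volume D ≤ volume F := by
  refine bm (Q := (fun y => x - y) ⁻¹' D) hD ?_ cD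
    ((Homeomorph.subLeft x).isCompact_preimage.2 cD) 
    ((Measure.measurePreserving_sub_left volume x).measure_preimage
      cD.measurableSet.nullMeasurableSet).symm h0 h1
    fun a ha b hb => by simpa using h a ha _ hb
  intro a ha b hb s t hs ht hst
  have h2 := hD ha hb hs ht hst
  have e : s • (x - a) + t • (x - b) = x - (s • a + t • b) := by
    rw [show s = 1 - t by linarith]
    module
  rwa [e] at h2

theorem ind_and {P Q R : Set (E n)} {a b c : E n} (h : c ∈ R ↔ a ∈ P ∧ b ∈ Q) :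
    ind R c = ind P a * ind Q b := by
  by_cases h1 : a ∈ P
  · by_cases h2 : b ∈ Q
    · rw [ind_mem h1, ind_mem h2, ind_mem (h.2 ⟨h1, h2⟩), mul_one]
    · rw [ind_not h2, mul_zero, ind_not fun k => h2 (h.1 k).2]
  · rw [ind_not h1, zero_mul, ind_not fun k => h1 (h.1 k).1]

/-- The weighted pointwise comparison. -/
theorem key2 {A B C P Q Z W : Set (E n)} (hA : Convex ℝ A) (hB : Convex ℝ B) (hC : Convex ℝ C)
    (cA : IsCompact A) (cB : IsCompact B) (cC : IsCompact C) (hP : MeasurableSet P)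
    (hQ : MeasurableSet Q) (hZ : MeasurableSet Z) (hW : MeasurableSet W) {l : ℝ} (l0 : 0 ≤ l)
    (l1 : l ≤ 1) (h1 : ∀ a ∈ A, ∀ b ∈ B, a + (1 - l) • b ∈ P)
    (h2 : ∀ a ∈ C, ∀ b ∈ B, a + l • b ∈ Q)
    (h3 : ∀ a ∈ A, ∀ b ∈ B, (1 - l) • a + (l ^ 2) • b ∈ Z)
    (h4 : ∀ a ∈ C, ∀ b ∈ B, l • a + ((1 - l) ^ 2) • b ∈ W) {M : ENNReal}
    (hM : ∀ y, cv (ind Z) (ind W) y ≤ M) (x : E n) :
    cv (cv (ind B) (ind A)) (ind C) x ≤ M * cv (ind P) (ind Q) x := by
  have mA := ind_meas cA.measurableSet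
  have mB := ind_meas cB.measurableSet
  have mC := ind_meas cC.measurableSet
  have mP := ind_meas hP
  have mQ := ind_meas hQ
  have mZ := ind_meas hZ
  have mW := ind_meas hW
  have e1 : cv (cv (ind B) (ind A)) (ind C) x = ∫⁻ m, ∫⁻ d,
      ind B d * (ind A (m - l • d) * ind C (x - m - (1 - l) • d)) := by
    rw [lintegral_lintegral_swap (by fun_prop), cv_assoc mB mA mC, cv]
    refine lintegral_congr fun d => ?_
    rw [cv, ← lintegral_sub_right_eq_self _ (l • d), ← lintegral_const_mul _ (by fun_prop)]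
    refine lintegral_congr fun m => ?_
    rw [show x - d - (m - l • d) = x - m - (1 - l) • d by module]
  have e2 : ∫⁻ m, ∫⁻ e, ind P (m - e) * ind Q (x - (m - e)) *
      (ind Z ((1 - l) • m + l • e) * ind W (l • (x - m) - (1 - l) • e)) ≤
      M * cv (ind P) (ind Q) x := by
    rw [lintegral_lintegral_swap (by fun_prop),
      lintegral_congr fun e => (lintegral_add_right_eq_self _ e).symm,
      lintegral_lintegral_swap (by fun_prop), cv, ← lintegral_const_mul _ (by fun_prop)]
    refine lintegral_mono fun y => ?_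
    simp only [add_sub_cancel_right]
    rw [lintegral_const_mul _ (by fun_prop), mul_comm M]
    refine mul_le_mul' le_rfl (le_trans (le_of_eq ?_) (hM ((1 - l) • y + l • (x - y))))
    rw [cv, ← lintegral_add_left_eq_self
      (fun z => ind Z z * ind W ((1 - l) • y + l • (x - y) - z)) ((1 - l) • y)]
    refine lintegral_congr fun e => ?_
    congr 2 <;> module
  rw [e1]
  refine le_trans (lintegral_mono fun m => ?_) e2
  have cD : IsClosed {d : E n | m - l • d ∈ A ∧ x - m - (1 - l) • d ∈ C} :=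
    (cA.isClosed.preimage (by fun_prop)).inter (cC.isClosed.preimage (by fun_prop))
  have mF : MeasurableSet ({e : E n | m - e ∈ P ∧ x - (m - e) ∈ Q} ∩
      {e | (1 - l) • m + l • e ∈ Z ∧ l • (x - m) - (1 - l) • e ∈ W}) :=
    ((hP.preimage (by fun_prop)).inter (hQ.preimage (by fun_prop))).inter
      ((hZ.preimage (by fun_prop)).inter (hW.preimage (by fun_prop)))
  have h5 := bm_ref (D := B ∩ {d : E n | m - l • d ∈ A ∧ x - m - (1 - l) • d ∈ C})
    (F := {e : E n | m - e ∈ P ∧ x - (m - e) ∈ Q} ∩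
      {e | (1 - l) • m + l • e ∈ Z ∧ l • (x - m) - (1 - l) • e ∈ W})
    (hB.inter fun a ha b hb s t hs ht hst => by
      have j1 := hA ha.1 hb.1 hs ht hst
      have j2 := hC ha.2 hb.2 hs ht hst
      obtain rfl : s = 1 - t := by linarith
      constructor
      · convert j1 using 1
        module
      · convert j2 using 1
        module) (cB.inter_right cD) 0 l0 l1 fun a ha b hb => by
      refine ⟨⟨?_, ?_⟩, ?_, ?_⟩
      · convert h1 _ ha.2.1 _ hb.1 using 1
        module
      · convert h2 _ hb.2.2 _ ha.1 using 1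
        module
      · convert h3 _ hb.2.1 _ ha.1 using 1
        module
      · convert h4 _ ha.2.2 _ hb.1 using 1
        module
  rw [← int_ind (cB.inter_right cD).measurableSet, ← int_ind mF] at h5
  refine le_trans (le_of_eq (lintegral_congr fun d => ?_))
    (h5.trans (le_of_eq (lintegral_congr fun e => ?_)))
  · rw [ind_and (mem_inter_iff _ _ _)]
    exact congrArg _ (ind_and Iff.rfl).symm
  · rw [ind_and (mem_inter_iff _ _ _)]
    exact congrArg₂ _ (ind_and Iff.rfl) (ind_and Iff.rfl)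

theorem shear {H : (E n × E n) × E n → ENNReal} (hH : Measurable H) (s t : ℝ) :
    ∫⁻ z : E n × E n, ∫⁻ e, H (z + (s • e, t • e), e) = ∫⁻ z, ∫⁻ e, H (z, e) := by
  rw [lintegral_lintegral_swap (by fun_prop), lintegral_lintegral_swap (f := fun z e => H (z, e))
    (by fun_prop)]
  exact lintegral_congr fun e => lintegral_add_right_eq_self
    (μ := (volume : Measure (E n)).prod volume) (fun z => H (z, e)) _

/-- The weighted lower bound for the integral of a product of two overlaps. -/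
theorem key3 {A B C P Q Z W : Set (E n)} (hA : Convex ℝ A) (hB : Convex ℝ B) (hC : Convex ℝ C)
    (cA : IsCompact A) (cB : IsCompact B) (cC : IsCompact C) (hP : MeasurableSet P)
    (hQ : MeasurableSet Q) (hZ : MeasurableSet Z) (hW : MeasurableSet W) {l : ℝ} (l0 : 0 ≤ l)
    (l1 : l ≤ 1) (h1 : ∀ a ∈ A, ∀ b ∈ B, a + ((1 - l) ^ 2) • b ∈ P)
    (h2 : ∀ a ∈ C, ∀ b ∈ B, a + (l ^ 2) • b ∈ Q)
    (h3 : ∀ a ∈ A, ∀ b ∈ B, a + (l ^ 2) • b ∈ Z)
    (h4 : ∀ a ∈ C, ∀ b ∈ B, a + ((1 - l) ^ 2) • b ∈ W) :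
    volume A * volume C * volume B ≤ ∫⁻ y, cv (ind P) (ind Q) y * cv (ind Z) (ind W) y := by
  have mA := ind_meas cA.measurableSet
  have mB := ind_meas cB.measurableSet
  have mC := ind_meas cC.measurableSet
  have mP := ind_meas hP
  have mQ := ind_meas hQ
  have mZ := ind_meas hZ
  have mW := ind_meas hW
  have e1 : volume A * volume C * volume B =
      ∫⁻ z : E n × E n, ∫⁻ d, ind B d * (ind A z.1 * ind C z.2) := by
    rw [lintegral_congr fun z => lintegral_mul_const _ mB, lintegral_const_mul _ (by fun_prop),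
      Measure.volume_eq_prod, lintegral_prod_mul mA.aemeasurable mC.aemeasurable,
      int_ind cA.measurableSet, int_ind cB.measurableSet, int_ind cC.measurableSet, mul_comm]
  have e2 : ∫⁻ y, cv (ind P) (ind Q) y * cv (ind Z) (ind W) y =
      ∫⁻ z : E n × E n, ∫⁻ e, ind P z.1 * ind Q z.2 * (ind Z (z.1 + e) * ind W (z.2 - e)) := by
    have m1 := cv_meas mZ mW
    rw [Measure.volume_eq_prod, lintegral_prod _ (Measurable.lintegral_prod_right'
      (f := fun p : (E n × E n) × E n => ind P p.1.1 * ind Q p.1.2 *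
        (ind Z (p.1.1 + p.2) * ind W (p.1.2 - p.2))) (by fun_prop)).aemeasurable]
    nth_rewrite 1 [funext fun y => show cv (ind P) (ind Q) y * cv (ind Z) (ind W) y =
      ∫⁻ u, ind P u * ind Q (y - u) * cv (ind Z) (ind W) y from
        (lintegral_mul_const _ (by fun_prop)).symm]
    rw [lintegral_lintegral_swap (by fun_prop)]
    refine lintegral_congr fun u => ?_
    rw [← lintegral_add_left_eq_self _ u]
    refine lintegral_congr fun w => ?_
    simp only
    rw [lintegral_const_mul _ (by fun_prop), add_sub_cancel_left, cv,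
      ← lintegral_add_left_eq_self _ u]
    simp only [add_sub_add_left_eq_sub]
  rw [e1, e2, ← shear (H := fun p => ind B p.2 * (ind A p.1.1 * ind C p.1.2)) (by fun_prop)
    (-(l * (1 - l))) (-(l * (1 - l))), ← shear (H := fun p => ind P p.1.1 * ind Q p.1.2 *
      (ind Z (p.1.1 + p.2) * ind W (p.1.2 - p.2))) (by fun_prop) (-(1 - l)) l]
  refine lintegral_mono fun z => ?_
  simp only [Prod.fst_add, Prod.snd_add]
  have cD : IsClosed {d : E n | z.1 + (-(l * (1 - l))) • d ∈ A ∧
      z.2 + (-(l * (1 - l))) • d ∈ C} :=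
    (cA.isClosed.preimage (by fun_prop)).inter (cC.isClosed.preimage (by fun_prop))
  have mF : MeasurableSet ({e : E n | z.1 + (-(1 - l)) • e ∈ P ∧ z.2 + l • e ∈ Q} ∩
      {e | z.1 + (-(1 - l)) • e + e ∈ Z ∧ z.2 + l • e - e ∈ W}) :=
    ((hP.preimage (by fun_prop)).inter (hQ.preimage (by fun_prop))).inter
      ((hZ.preimage (by fun_prop)).inter (hW.preimage (by fun_prop)))
  have h5 := bm_ref (D := B ∩ {d : E n | z.1 + (-(l * (1 - l))) • d ∈ A ∧
      z.2 + (-(l * (1 - l))) • d ∈ C})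
    (F := {e : E n | z.1 + (-(1 - l)) • e ∈ P ∧ z.2 + l • e ∈ Q} ∩
      {e | z.1 + (-(1 - l)) • e + e ∈ Z ∧ z.2 + l • e - e ∈ W})
    (hB.inter fun a ha b hb s t hs ht hst => by
      have j1 := hA ha.1 hb.1 hs ht hst
      have j2 := hC ha.2 hb.2 hs ht hst
      obtain rfl : s = 1 - t := by linarith
      constructor
      · convert j1 using 1
        module
      · convert j2 using 1
        module) (cB.inter_right cD) 0 l0 l1 fun a ha b hb => by
      refine ⟨⟨?_, ?_⟩, ?_, ?_⟩
      · convert h1 _ ha.2.1 _ hb.1 using 1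
        module
      · convert h2 _ hb.2.2 _ ha.1 using 1
        module
      · convert h3 _ hb.2.1 _ ha.1 using 1
        module
      · convert h4 _ ha.2.2 _ hb.1 using 1
        module
  rw [← int_ind (cB.inter_right cD).measurableSet, ← int_ind mF] at h5
  refine le_trans (le_of_eq (lintegral_congr fun d => ?_))
    (h5.trans (le_of_eq (lintegral_congr fun e => ?_)))
  · rw [ind_and (mem_inter_iff _ _ _)]
    exact congrArg _ (ind_and Iff.rfl).symm
  · rw [ind_and (mem_inter_iff _ _ _)]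
    exact congrArg₂ _ (ind_and Iff.rfl) (ind_and Iff.rfl)

end Pool.Agent.Lib.MP_e508a7_gt.Lq
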