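import Mathlib

/-!
# Affine arithmetic on natural numbers (scale `2 ^ 32`, seven noise symbols)
-/

set_option autoImplicit false

namespace Pool.Agent.Lib.MP_e508a7_gt.KB

/-- an affine form: centre `cp - cn`, coefficients `p i - n i`, error `r`, total radius `t` -/
structure AF where
  cp : Nat
  cn : Nat
  p0 : Nat
  n0 : Nat
  p1 : Nat
  n1 : Nat
  p2 : Nat
  n2 : Nat
  p3 : Nat
  n3 : Nat
  p4 : Nat
  n4 : Nat
  p5 : Nat
  n5 : Nat
  p6 : Nat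
  n6 : Nat
  r : Nat
  t : Nat

/-- values of the noise symbols -/
structure Ev where
  e0 : ℝ
  e1 : ℝ
  e2 : ℝ
  e3 : ℝ
  e4 : ℝ
  e5 : ℝ
  e6 : ℝ
  h0 : |e0| ≤ 1
  h1 : |e1| ≤ 1
  h2 : |e2| ≤ 1
  h3 : |e3| ≤ 1
  h4 : |e4| ≤ 1
  h5 : |e5| ≤ 1
  h6 : |e6| ≤ 1

namespace AF

/-- build a form and compute its radius -/
def mk' (c d p0 n0 p1 n1 p2 n2 p3 n3 p4 n4 p5 n5 p6 n6 r : Nat) : AF :=
  ⟨c, d, p0, n0, p1, n1, p2, n2, p3, n3, p4, n4, p5, n5, p6, n6, r,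
    Nat.add (Nat.add p6 n6) (Nat.add (Nat.add p5 n5) (Nat.add (Nat.add p4 n4) (Nat.add (Nat.add p3 n3) (Nat.add (Nat.add p2 n2) (Nat.add (Nat.add p1 n1) (Nat.add (Nat.add p0 n0) (r)))))))⟩

/-- a constant -/
def cst (c d : Nat) : AF := ⟨c, d, 0, 0, 0, 0, 0, 0, 0, 0, 0, 0, 0, 0, 0, 0, 0, 0⟩

/-- the negative -/
def neg : AF → AF
  | ⟨ac, ad, ap0, an0, ap1, an1, ap2, an2, ap3, an3, ap4, an4, ap5, an5, ap6, an6, ar, aw⟩ =>
    ⟨ad, ac, an0, ap0, an1, ap1, an2, ap2, an3, ap3, an4, ap4, an5, ap5, an6, ap6, ar, aw⟩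

/-- normalise a pair -/
def ln (u v : Nat) (k : Nat → Nat → AF) : AF := k (Nat.sub u v) (Nat.sub v u)

/-- normalise a pair and divide by the scale -/
def ls (u v : Nat) (k : Nat → Nat → AF) : AF :=
  k (Nat.shiftRight (Nat.sub u v) 32) (Nat.shiftRight (Nat.sub v u) 32)

/-- the sum -/
def add : AF → AF → AF
  | ⟨ac, ad, ap0, an0, ap1, an1, ap2, an2, ap3, an3, ap4, an4, ap5, an5, ap6, an6, ar, _⟩,
    ⟨bc, bd, bp0, bn0, bp1, bn1, bp2, bn2, bp3, bn3, bp4, bn4, bp5, bn5, bp6, bn6, br, _⟩ =>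
    ln (Nat.add ac bc) (Nat.add ad bd) fun c d =>
    ln (Nat.add ap0 bp0) (Nat.add an0 bn0) fun p0 n0 =>
    ln (Nat.add ap1 bp1) (Nat.add an1 bn1) fun p1 n1 =>
    ln (Nat.add ap2 bp2) (Nat.add an2 bn2) fun p2 n2 =>
    ln (Nat.add ap3 bp3) (Nat.add an3 bn3) fun p3 n3 =>
    ln (Nat.add ap4 bp4) (Nat.add an4 bn4) fun p4 n4 =>
    ln (Nat.add ap5 bp5) (Nat.add an5 bn5) fun p5 n5 =>
    ln (Nat.add ap6 bp6) (Nat.add an6 bn6) fun p6 n6 =>
    mk' c d p0 n0 p1 n1 p2 n2 p3 n3 p4 n4 p5 n5 p6 n6 (Nat.add ar br)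

/-- the difference -/
def sub (a b : AF) : AF := add a (neg b)

/-- add the constant `u - v` -/
def addc (u v : Nat) : AF → AF
  | ⟨ac, ad, ap0, an0, ap1, an1, ap2, an2, ap3, an3, ap4, an4, ap5, an5, ap6, an6, ar, aw⟩ =>
    ln (Nat.add ac u) (Nat.add ad v) fun c d =>
    ⟨c, d, ap0, an0, ap1, an1, ap2, an2, ap3, an3, ap4, an4, ap5, an5, ap6, an6, ar, aw⟩

/-- an integer multiple -/
def zm (k : Nat) : AF → AF
  | ⟨ac, ad, ap0, an0, ap1, an1, ap2, an2, ap3, an3, ap4, an4, ap5, an5, ap6, an6, ar, aw⟩ =>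
    ⟨Nat.mul k ac, Nat.mul k ad, Nat.mul k ap0, Nat.mul k an0, Nat.mul k ap1, Nat.mul k an1, Nat.mul k ap2, Nat.mul k an2, Nat.mul k ap3, Nat.mul k an3, Nat.mul k ap4, Nat.mul k an4, Nat.mul k ap5, Nat.mul k an5, Nat.mul k ap6, Nat.mul k an6, Nat.mul k ar, Nat.mul k aw⟩

/-- a rational multiple -/
def sc (k q : Nat) : AF → AF
  | ⟨ac, ad, ap0, an0, ap1, an1, ap2, an2, ap3, an3, ap4, an4, ap5, an5, ap6, an6, ar, _⟩ =>
    mk' (Nat.div (Nat.mul ac k) q) (Nat.div (Nat.mul ad k) q)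
      (Nat.div (Nat.mul ap0 k) q) (Nat.div (Nat.mul an0 k) q)
      (Nat.div (Nat.mul ap1 k) q) (Nat.div (Nat.mul an1 k) q)
      (Nat.div (Nat.mul ap2 k) q) (Nat.div (Nat.mul an2 k) q)
      (Nat.div (Nat.mul ap3 k) q) (Nat.div (Nat.mul an3 k) q)
      (Nat.div (Nat.mul ap4 k) q) (Nat.div (Nat.mul an4 k) q)
      (Nat.div (Nat.mul ap5 k) q) (Nat.div (Nat.mul an5 k) q)
      (Nat.div (Nat.mul ap6 k) q) (Nat.div (Nat.mul an6 k) q)
      (Nat.add (Nat.div (Nat.mul ar k) q) 9)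

/-- the product for given nonnegative centres -/
def mulc (c d : Nat) : AF → AF → AF
  | ⟨_, _, ap0, an0, ap1, an1, ap2, an2, ap3, an3, ap4, an4, ap5, an5, ap6, an6, ar, aw⟩,
    ⟨_, _, bp0, bn0, bp1, bn1, bp2, bn2, bp3, bn3, bp4, bn4, bp5, bn5, bp6, bn6, br, bw⟩ =>
    ls (Nat.add (Nat.mul c bp0) (Nat.mul d ap0)) (Nat.add (Nat.mul c bn0) (Nat.mul d an0)) fun p0 n0 =>
    ls (Nat.add (Nat.mul c bp1) (Nat.mul d ap1)) (Nat.add (Nat.mul c bn1) (Nat.mul d an1)) fun p1 n1 =>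
    ls (Nat.add (Nat.mul c bp2) (Nat.mul d ap2)) (Nat.add (Nat.mul c bn2) (Nat.mul d an2)) fun p2 n2 =>
    ls (Nat.add (Nat.mul c bp3) (Nat.mul d ap3)) (Nat.add (Nat.mul c bn3) (Nat.mul d an3)) fun p3 n3 =>
    ls (Nat.add (Nat.mul c bp4) (Nat.mul d ap4)) (Nat.add (Nat.mul c bn4) (Nat.mul d an4)) fun p4 n4 =>
    ls (Nat.add (Nat.mul c bp5) (Nat.mul d ap5)) (Nat.add (Nat.mul c bn5) (Nat.mul d an5)) fun p5 n5 =>
    ls (Nat.add (Nat.mul c bp6) (Nat.mul d ap6)) (Nat.add (Nat.mul c bn6) (Nat.mul d an6)) fun p6 n6 =>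
    mk' (Nat.shiftRight (Nat.mul c d) 32) 0 p0 n0 p1 n1 p2 n2 p3 n3 p4 n4 p5 n5 p6 n6
      (Nat.add (Nat.shiftRight (Nat.add (Nat.add (Nat.mul c br) (Nat.mul d ar)) (Nat.mul aw bw)) 32) 9)

/-- the product for nonnegative centres -/
def mulp (a b : AF) : AF := mulc (Nat.sub a.cp a.cn) (Nat.sub b.cp b.cn) a b

/-- the product -/
def mul (a b : AF) : AF :=
  cond (Nat.ble a.cn a.cp)
    (cond (Nat.ble b.cn b.cp) (mulp a b) (neg (mulp a (neg b))))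
    (cond (Nat.ble b.cn b.cp) (neg (mulp (neg a) b)) (mulp (neg a) (neg b)))

/-- the inverse for given centre, square of the centre and second order bound -/
def invc (c cc e : Nat) : AF → AF
  | ⟨_, _, ap0, an0, ap1, an1, ap2, an2, ap3, an3, ap4, an4, ap5, an5, ap6, an6, ar, _⟩ =>
    mk' (Nat.add (Nat.div 18446744073709551616 c) e) 0
      (Nat.div (Nat.mul an0 18446744073709551616) cc) (Nat.div (Nat.mul ap0 18446744073709551616) cc)
      (Nat.div (Nat.mul an1 18446744073709551616) cc) (Nat.div (Nat.mul ap1 18446744073709551616) cc)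
      (Nat.div (Nat.mul an2 18446744073709551616) cc) (Nat.div (Nat.mul ap2 18446744073709551616) cc)
      (Nat.div (Nat.mul an3 18446744073709551616) cc) (Nat.div (Nat.mul ap3 18446744073709551616) cc)
      (Nat.div (Nat.mul an4 18446744073709551616) cc) (Nat.div (Nat.mul ap4 18446744073709551616) cc)
      (Nat.div (Nat.mul an5 18446744073709551616) cc) (Nat.div (Nat.mul ap5 18446744073709551616) cc)
      (Nat.div (Nat.mul an6 18446744073709551616) cc) (Nat.div (Nat.mul ap6 18446744073709551616) cc)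
      (Nat.add (Nat.add (Nat.div (Nat.mul ar 18446744073709551616) cc) e) 9)

/-- the second order bound -/
def ie (u lo : Nat) : Nat := Nat.add (Nat.div (Nat.mul u u) (Nat.mul 2 lo)) 1

/-- the inverse for a given centre -/
def invd (c : Nat) (a : AF) : AF :=
  invc c (Nat.mul c c) (ie (Nat.add (Nat.div (Nat.mul a.t 4294967296) c) 1) (Nat.sub c a.t)) a

/-- the inverse -/
def inv (a : AF) : AF := invd (Nat.sub a.cp a.cn) a

/-- the form is nonnegative -/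
def nn (a : AF) : Bool := Nat.ble (Nat.add a.cn a.t) a.cp

/-- the form is positive -/
def pos (a : AF) : Bool := Nat.ble (Nat.add (Nat.add a.cn a.t) 1) a.cp

/-- the half width of an interval -/
def hw (lo hi : Nat) : Nat := Nat.add (Nat.div (Nat.sub hi lo) 2) 1

/-- the variable number 0 -/
def var0 (lo hi : Nat) : AF :=
  ⟨Nat.div (Nat.add lo hi) 2, 0, hw lo hi, 0, 0, 0, 0, 0, 0, 0, 0, 0, 0, 0, 0, 0, 0, hw lo hi⟩

/-- the variable number 1 -/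
def var1 (lo hi : Nat) : AF :=
  ⟨Nat.div (Nat.add lo hi) 2, 0, 0, 0, hw lo hi, 0, 0, 0, 0, 0, 0, 0, 0, 0, 0, 0, 0, hw lo hi⟩

/-- the variable number 2 -/
def var2 (lo hi : Nat) : AF :=
  ⟨Nat.div (Nat.add lo hi) 2, 0, 0, 0, 0, 0, hw lo hi, 0, 0, 0, 0, 0, 0, 0, 0, 0, 0, hw lo hi⟩

/-- the variable number 3 -/
def var3 (lo hi : Nat) : AF :=
  ⟨Nat.div (Nat.add lo hi) 2, 0, 0, 0, 0, 0, 0, 0, hw lo hi, 0, 0, 0, 0, 0, 0, 0, 0, hw lo hi⟩

/-- the variable number 4 -/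
def var4 (lo hi : Nat) : AF :=
  ⟨Nat.div (Nat.add lo hi) 2, 0, 0, 0, 0, 0, 0, 0, 0, 0, hw lo hi, 0, 0, 0, 0, 0, 0, hw lo hi⟩

/-- the variable number 5 -/
def var5 (lo hi : Nat) : AF :=
  ⟨Nat.div (Nat.add lo hi) 2, 0, 0, 0, 0, 0, 0, 0, 0, 0, 0, 0, hw lo hi, 0, 0, 0, 0, hw lo hi⟩

/-- the variable number 6 -/
def var6 (lo hi : Nat) : AF :=
  ⟨Nat.div (Nat.add lo hi) 2, 0, 0, 0, 0, 0, 0, 0, 0, 0, 0, 0, 0, 0, hw lo hi, 0, 0, hw lo hi⟩

/-- the linear part -/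
def L (a : AF) (E : Ev) : ℝ :=
  ((a.p0 : ℝ) - a.n0) * E.e0 + ((a.p1 : ℝ) - a.n1) * E.e1 + ((a.p2 : ℝ) - a.n2) * E.e2 + ((a.p3 : ℝ) - a.n3) * E.e3 + ((a.p4 : ℝ) - a.n4) * E.e4 + ((a.p5 : ℝ) - a.n5) * E.e5 + ((a.p6 : ℝ) - a.n6) * E.e6

/-- the norm of the linear part -/
def N (a : AF) : ℝ :=
  |(a.p0 : ℝ) - a.n0| + |(a.p1 : ℝ) - a.n1| + |(a.p2 : ℝ) - a.n2| + |(a.p3 : ℝ) - a.n3| + |(a.p4 : ℝ) - a.n4| + |(a.p5 : ℝ) - a.n5| + |(a.p6 : ℝ) - a.n6|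

end AF

/-- the form `a` encloses the real number `x` -/
structure Sat (a : AF) (E : Ev) (x : ℝ) : Prop where
  h : |x * 4294967296 - ((a.cp : ℝ) - a.cn) - a.L E| ≤ a.r
  t : a.N + a.r ≤ a.t

theorem ln_eq (u v : Nat) : ((Nat.sub u v : Nat) : ℝ) - ((Nat.sub v u : Nat) : ℝ) = u - v := by
  show ((u - v : Nat) : ℝ) - ((v - u : Nat) : ℝ) = u - v
  rcases le_total u v with h | h
  · rw [Nat.sub_eq_zero_of_le h, Nat.cast_sub h]; simp
  · rw [Nat.sub_eq_zero_of_le h, Nat.cast_sub h]; simp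

theorem dv_le (x q : Nat) : ((Nat.div x q : Nat) : ℝ) ≤ (x : ℝ) / q := Nat.cast_div_le

theorem dv_lt (x q : Nat) (hq : 0 < q) : (x : ℝ) / q ≤ ((Nat.div x q : Nat) : ℝ) + 1 := by
  have h : x < (x / q + 1) * q := by
    rw [Nat.add_mul, Nat.one_mul]
    have := Nat.div_add_mod x q
    have := Nat.mod_lt x hq
    rw [Nat.mul_comm]; omega
  have hq' : (0 : ℝ) < q := by exact_mod_cast hq
  rw [div_le_iff₀ hq']
  have : (x : ℝ) < ((x / q + 1 : Nat) : ℝ) * q := by exact_mod_cast h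
  push_cast at this
  exact this.le

theorem dv_err (x y q : Nat) (hq : 0 < q) :
    |((Nat.div x q : Nat) : ℝ) - ((Nat.div y q : Nat) : ℝ) - ((x : ℝ) - y) / q| ≤ 1 := by
  have := dv_le x q; have := dv_le y q; have := dv_lt x q hq; have := dv_lt y q hq
  rw [sub_div, abs_le]; constructor <;> linarith

theorem sh_eq (x : Nat) : Nat.shiftRight x 32 = Nat.div x 4294967296 := by
  show x >>> 32 = x / 4294967296
  rw [Nat.shiftRight_eq_div_pow]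

theorem ls_err (u v : Nat) :
    |((Nat.shiftRight (Nat.sub u v) 32 : Nat) : ℝ) - ((Nat.shiftRight (Nat.sub v u) 32 : Nat) : ℝ) -
      ((u : ℝ) - v) / 4294967296| ≤ 1 := by
  have h := dv_err (Nat.sub u v) (Nat.sub v u) 4294967296 (by norm_num)
  rw [ln_eq] at h
  rw [sh_eq, sh_eq]
  simpa using h

theorem term_le {w z e : ℝ} (h : |w - z| ≤ 1) (he : |e| ≤ 1) : |w * e - z * e| ≤ 1 := by
  rw [← sub_mul, abs_mul]
  exact mul_le_one₀ h (abs_nonneg _) he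

theorem term_abs {w e : ℝ} (he : |e| ≤ 1) : |w * e| ≤ |w| := by
  rw [abs_mul]; exact mul_le_of_le_one_right (abs_nonneg _) he

theorem pn_le (p q : Nat) : |(p : ℝ) - q| ≤ (p : ℝ) + q := by
  have : (0 : ℝ) ≤ p := Nat.cast_nonneg _
  have : (0 : ℝ) ≤ q := Nat.cast_nonneg _
  rw [abs_le]; constructor <;> linarith

theorem lin7 (E : Ev) {w0 z0 w1 z1 w2 z2 w3 z3 w4 z4 w5 z5 w6 z6 : ℝ}
    (h0 : |w0 - z0| ≤ 1) (h1 : |w1 - z1| ≤ 1) (h2 : |w2 - z2| ≤ 1) (h3 : |w3 - z3| ≤ 1) (h4 : |w4 - z4| ≤ 1) (h5 : |w5 - z5| ≤ 1) (h6 : |w6 - z6| ≤ 1) :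
    |(w0 * E.e0 + w1 * E.e1 + w2 * E.e2 + w3 * E.e3 + w4 * E.e4 + w5 * E.e5 + w6 * E.e6) -
      (z0 * E.e0 + z1 * E.e1 + z2 * E.e2 + z3 * E.e3 + z4 * E.e4 + z5 * E.e5 + z6 * E.e6)| ≤ 7 := by
  have g0 := abs_le.1 (term_le h0 E.h0)
  have g1 := abs_le.1 (term_le h1 E.h1)
  have g2 := abs_le.1 (term_le h2 E.h2)
  have g3 := abs_le.1 (term_le h3 E.h3)
  have g4 := abs_le.1 (term_le h4 E.h4)
  have g5 := abs_le.1 (term_le h5 E.h5)
  have g6 := abs_le.1 (term_le h6 E.h6)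
  rw [abs_le]; constructor <;> linarith [g0.1, g0.2, g1.1, g1.2, g2.1, g2.2, g3.1, g3.2, g4.1, g4.2, g5.1, g5.2, g6.1, g6.2]

theorem absL (a : AF) (E : Ev) : |a.L E| ≤ a.N := by
  have g0 := abs_le.1 (term_abs (w := (a.p0 : ℝ) - a.n0) E.h0)
  have g1 := abs_le.1 (term_abs (w := (a.p1 : ℝ) - a.n1) E.h1)
  have g2 := abs_le.1 (term_abs (w := (a.p2 : ℝ) - a.n2) E.h2)
  have g3 := abs_le.1 (term_abs (w := (a.p3 : ℝ) - a.n3) E.h3)
  have g4 := abs_le.1 (term_abs (w := (a.p4 : ℝ) - a.n4) E.h4)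
  have g5 := abs_le.1 (term_abs (w := (a.p5 : ℝ) - a.n5) E.h5)
  have g6 := abs_le.1 (term_abs (w := (a.p6 : ℝ) - a.n6) E.h6)
  unfold AF.L AF.N
  rw [abs_le]; constructor <;> linarith [g0.1, g0.2, g1.1, g1.2, g2.1, g2.2, g3.1, g3.2, g4.1, g4.2, g5.1, g5.2, g6.1, g6.2]

theorem mk'_t (c d p0 n0 p1 n1 p2 n2 p3 n3 p4 n4 p5 n5 p6 n6 r : Nat) :
    (AF.mk' c d p0 n0 p1 n1 p2 n2 p3 n3 p4 n4 p5 n5 p6 n6 r).N + ((AF.mk' c d p0 n0 p1 n1 p2 n2 p3 n3 p4 n4 p5 n5 p6 n6 r).r : ℝ) ≤ (AF.mk' c d p0 n0 p1 n1 p2 n2 p3 n3 p4 n4 p5 n5 p6 n6 r).t := by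
  simp only [AF.mk', AF.N, Nat.add_eq, Nat.cast_add]
  linarith [pn_le p0 n0, pn_le p1 n1, pn_le p2 n2, pn_le p3 n3, pn_le p4 n4, pn_le p5 n5, pn_le p6 n6]

variable {a b : AF} {E : Ev} {x y : ℝ}

theorem Sat.cst (c d : Nat) (E : Ev) (h : x * 4294967296 = (c : ℝ) - d) : Sat (AF.cst c d) E x := by
  constructor
  · simp [AF.cst, AF.L, h]
  · simp [AF.cst, AF.N]

theorem Sat.neg (h : Sat a E x) : Sat a.neg E (-x) := by
  obtain ⟨ac, ad, ap0, an0, ap1, an1, ap2, an2, ap3, an3, ap4, an4, ap5, an5, ap6, an6, ar, aw⟩ := a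
  obtain ⟨h1, h2⟩ := h
  simp only [AF.L, AF.N] at h1 h2
  constructor
  · simp only [AF.neg, AF.L]
    rw [← abs_neg]
    refine le_trans (le_of_eq ?_) h1
    congr 1; ring
  · simp only [AF.neg, AF.N]
    rw [abs_sub_comm (an0 : ℝ), abs_sub_comm (an1 : ℝ), abs_sub_comm (an2 : ℝ), abs_sub_comm (an3 : ℝ), abs_sub_comm (an4 : ℝ), abs_sub_comm (an5 : ℝ), abs_sub_comm (an6 : ℝ)]
    exact h2

theorem Sat.add (h : Sat a E x) (h' : Sat b E y) : Sat (a.add b) E (x + y) := by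
  obtain ⟨ac, ad, ap0, an0, ap1, an1, ap2, an2, ap3, an3, ap4, an4, ap5, an5, ap6, an6, ar, aw⟩ := a
  obtain ⟨bc, bd, bp0, bn0, bp1, bn1, bp2, bn2, bp3, bn3, bp4, bn4, bp5, bn5, bp6, bn6, br, bw⟩ := b
  refine ⟨?_, mk'_t ..⟩
  have h1 := abs_le.1 h.h
  have h2 := abs_le.1 h'.h
  simp only [AF.L] at h1 h2
  simp only [AF.add, AF.ln, AF.mk', AF.L, ln_eq]
  simp only [Nat.add_eq, Nat.cast_add]
  rw [abs_le]; constructor <;> linarith [h1.1, h1.2, h2.1, h2.2]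

theorem Sat.sub (h : Sat a E x) (h' : Sat b E y) : Sat (a.sub b) E (x - y) := by
  rw [sub_eq_add_neg]; exact h.add h'.neg

theorem Sat.addc (h : Sat a E x) (u v : Nat) (k : ℝ) (hk : k * 4294967296 = (u : ℝ) - v) :
    Sat (a.addc u v) E (x + k) := by
  obtain ⟨ac, ad, ap0, an0, ap1, an1, ap2, an2, ap3, an3, ap4, an4, ap5, an5, ap6, an6, ar, aw⟩ := a
  refine ⟨?_, h.t⟩
  have h1 := abs_le.1 h.h
  simp only [AF.L] at h1
  simp only [AF.addc, AF.ln, AF.L, ln_eq]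
  simp only [Nat.add_eq, Nat.cast_add]
  rw [abs_le]; constructor <;> linarith [h1.1, h1.2]

theorem Sat.zm (h : Sat a E x) (k : Nat) : Sat (a.zm k) E (k * x) := by
  obtain ⟨ac, ad, ap0, an0, ap1, an1, ap2, an2, ap3, an3, ap4, an4, ap5, an5, ap6, an6, ar, aw⟩ := a
  obtain ⟨h1, h2⟩ := h
  simp only [AF.L, AF.N] at h1 h2
  have hk : (0 : ℝ) ≤ k := Nat.cast_nonneg _
  constructor
  · simp only [AF.zm, AF.L, Nat.mul_eq, Nat.cast_mul]
    refine le_trans (le_of_eq ?_) (mul_le_mul_of_nonneg_left h1 hk)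
    rw [← abs_of_nonneg hk, ← abs_mul, abs_of_nonneg hk]
    congr 1; ring
  · simp only [AF.zm, AF.N, Nat.mul_eq, Nat.cast_mul, ← mul_sub, abs_mul, abs_of_nonneg hk]
    nlinarith [mul_le_mul_of_nonneg_left h2 hk]

theorem Sat.sc (h : Sat a E x) (k q : Nat) (hq : 0 < q) : Sat (a.sc k q) E (k / q * x) := by
  obtain ⟨ac, ad, ap0, an0, ap1, an1, ap2, an2, ap3, an3, ap4, an4, ap5, an5, ap6, an6, ar, aw⟩ := a
  refine ⟨?_, mk'_t ..⟩
  have hq' : (0 : ℝ) < q := by exact_mod_cast hq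
  have hk : (0 : ℝ) ≤ k / q := by positivity
  have h1 := abs_le.1 h.h
  simp only [AF.L] at h1
  have h2 := abs_le.1 (lin7 E (dv_err (Nat.mul ap0 k) (Nat.mul an0 k) q hq) (dv_err (Nat.mul ap1 k) (Nat.mul an1 k) q hq) (dv_err (Nat.mul ap2 k) (Nat.mul an2 k) q hq) (dv_err (Nat.mul ap3 k) (Nat.mul an3 k) q hq) (dv_err (Nat.mul ap4 k) (Nat.mul an4 k) q hq) (dv_err (Nat.mul ap5 k) (Nat.mul an5 k) q hq) (dv_err (Nat.mul ap6 k) (Nat.mul an6 k) q hq))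
  have h3 := abs_le.1 (dv_err (Nat.mul ac k) (Nat.mul ad k) q hq)
  have h4 := dv_lt (Nat.mul ar k) q hq
  have h5 := mul_le_mul_of_nonneg_left h1.1 hk
  have h6 := mul_le_mul_of_nonneg_left h1.2 hk
  simp only [AF.sc, AF.mk', AF.L]
  simp only [Nat.add_eq, Nat.cast_add, Nat.cast_ofNat]
  simp only [Nat.mul_eq, Nat.cast_mul, div_eq_mul_inv] at h2 h3 h4 h5 h6 ⊢
  rw [abs_le]; constructor <;> linarith [h2.1, h2.2, h3.1, h3.2]

theorem Sat.rad (h : Sat a E x) : |x * 4294967296 - ((a.cp : ℝ) - a.cn)| ≤ a.t := by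
  have h1 := abs_le.1 h.h
  have h2 := abs_le.1 (absL a E)
  have h3 := h.t
  rw [abs_le]; constructor <;> linarith [h1.1, h1.2, h2.1, h2.2]

theorem mul_core {c d X Y La Lb ra rb ta tb : ℝ} (hc : 0 ≤ c) (hd : 0 ≤ d)
    (h1 : |X - c - La| ≤ ra) (h2 : |Y - d - Lb| ≤ rb) (h3 : |X - c| ≤ ta) (h4 : |Y - d| ≤ tb) :
    |X * Y - c * d - (c * Lb + d * La)| ≤ c * rb + d * ra + ta * tb := by
  have e : X * Y - c * d - (c * Lb + d * La) =
      c * (Y - d - Lb) + d * (X - c - La) + (X - c) * (Y - d) := by ring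
  rw [e]
  refine le_trans (abs_add_three _ _ _) ?_
  rw [abs_mul, abs_mul, abs_mul, abs_of_nonneg hc, abs_of_nonneg hd]
  have := mul_le_mul_of_nonneg_left h2 hc
  have := mul_le_mul_of_nonneg_left h1 hd
  have := mul_le_mul h3 h4 (abs_nonneg _) (le_trans (abs_nonneg _) h3)
  linarith

theorem Sat.mulc (h : Sat a E x) (h' : Sat b E y) {c d : Nat} (hc : (c : ℝ) = (a.cp : ℝ) - a.cn)
    (hd : (d : ℝ) = (b.cp : ℝ) - b.cn) : Sat (AF.mulc c d a b) E (x * y) := by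
  have k1 := h.h
  have k2 := h'.h
  have k3 := h.rad
  have k4 := h'.rad
  rw [← hc] at k1 k3
  rw [← hd] at k2 k4
  have h1 := abs_le.1 (mul_core (Nat.cast_nonneg c) (Nat.cast_nonneg d) k1 k2 k3 k4)
  clear k1 k2 k3 k4 hc hd h h'
  obtain ⟨ac, ad, ap0, an0, ap1, an1, ap2, an2, ap3, an3, ap4, an4, ap5, an5, ap6, an6, ar, aw⟩ := a
  obtain ⟨bc, bd, bp0, bn0, bp1, bn1, bp2, bn2, bp3, bn3, bp4, bn4, bp5, bn5, bp6, bn6, br, bw⟩ := b
  refine ⟨?_, mk'_t ..⟩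
  simp only [AF.L] at h1
  have h2 := abs_le.1 (lin7 E (ls_err (Nat.add (Nat.mul c bp0) (Nat.mul d ap0)) (Nat.add (Nat.mul c bn0) (Nat.mul d an0))) (ls_err (Nat.add (Nat.mul c bp1) (Nat.mul d ap1)) (Nat.add (Nat.mul c bn1) (Nat.mul d an1))) (ls_err (Nat.add (Nat.mul c bp2) (Nat.mul d ap2)) (Nat.add (Nat.mul c bn2) (Nat.mul d an2))) (ls_err (Nat.add (Nat.mul c bp3) (Nat.mul d ap3)) (Nat.add (Nat.mul c bn3) (Nat.mul d an3))) (ls_err (Nat.add (Nat.mul c bp4) (Nat.mul d ap4)) (Nat.add (Nat.mul c bn4) (Nat.mul d an4))) (ls_err (Nat.add (Nat.mul c bp5) (Nat.mul d ap5)) (Nat.add (Nat.mul c bn5) (Nat.mul d an5))) (ls_err (Nat.add (Nat.mul c bp6) (Nat.mul d ap6)) (Nat.add (Nat.mul c bn6) (Nat.mul d an6))))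
  have h3 := dv_le (Nat.mul c d) 4294967296
  have h3' := dv_lt (Nat.mul c d) 4294967296 (by norm_num)
  have h4 := dv_lt (Nat.add (Nat.add (Nat.mul c br) (Nat.mul d ar)) (Nat.mul aw bw)) 4294967296
    (by norm_num)
  rw [← sh_eq] at h3 h3' h4
  simp only [AF.mulc, AF.ls, AF.mk', AF.L]
  generalize Nat.shiftRight (Nat.mul c d) 32 = u at *
  generalize Nat.shiftRight (Nat.add (Nat.add (Nat.mul c br) (Nat.mul d ar)) (Nat.mul aw bw)) 32 = v at *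
  generalize Nat.shiftRight (Nat.sub (Nat.add (Nat.mul c bp0) (Nat.mul d ap0)) (Nat.add (Nat.mul c bn0) (Nat.mul d an0))) 32 = u0 at *
  generalize Nat.shiftRight (Nat.sub (Nat.add (Nat.mul c bn0) (Nat.mul d an0)) (Nat.add (Nat.mul c bp0) (Nat.mul d ap0))) 32 = v0 at *
  generalize Nat.shiftRight (Nat.sub (Nat.add (Nat.mul c bp1) (Nat.mul d ap1)) (Nat.add (Nat.mul c bn1) (Nat.mul d an1))) 32 = u1 at *
  generalize Nat.shiftRight (Nat.sub (Nat.add (Nat.mul c bn1) (Nat.mul d an1)) (Nat.add (Nat.mul c bp1) (Nat.mul d ap1))) 32 = v1 at *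
  generalize Nat.shiftRight (Nat.sub (Nat.add (Nat.mul c bp2) (Nat.mul d ap2)) (Nat.add (Nat.mul c bn2) (Nat.mul d an2))) 32 = u2 at *
  generalize Nat.shiftRight (Nat.sub (Nat.add (Nat.mul c bn2) (Nat.mul d an2)) (Nat.add (Nat.mul c bp2) (Nat.mul d ap2))) 32 = v2 at *
  generalize Nat.shiftRight (Nat.sub (Nat.add (Nat.mul c bp3) (Nat.mul d ap3)) (Nat.add (Nat.mul c bn3) (Nat.mul d an3))) 32 = u3 at *
  generalize Nat.shiftRight (Nat.sub (Nat.add (Nat.mul c bn3) (Nat.mul d an3)) (Nat.add (Nat.mul c bp3) (Nat.mul d ap3))) 32 = v3 at *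
  generalize Nat.shiftRight (Nat.sub (Nat.add (Nat.mul c bp4) (Nat.mul d ap4)) (Nat.add (Nat.mul c bn4) (Nat.mul d an4))) 32 = u4 at *
  generalize Nat.shiftRight (Nat.sub (Nat.add (Nat.mul c bn4) (Nat.mul d an4)) (Nat.add (Nat.mul c bp4) (Nat.mul d ap4))) 32 = v4 at *
  generalize Nat.shiftRight (Nat.sub (Nat.add (Nat.mul c bp5) (Nat.mul d ap5)) (Nat.add (Nat.mul c bn5) (Nat.mul d an5))) 32 = u5 at *
  generalize Nat.shiftRight (Nat.sub (Nat.add (Nat.mul c bn5) (Nat.mul d an5)) (Nat.add (Nat.mul c bp5) (Nat.mul d ap5))) 32 = v5 at *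
  generalize Nat.shiftRight (Nat.sub (Nat.add (Nat.mul c bp6) (Nat.mul d ap6)) (Nat.add (Nat.mul c bn6) (Nat.mul d an6))) 32 = u6 at *
  generalize Nat.shiftRight (Nat.sub (Nat.add (Nat.mul c bn6) (Nat.mul d an6)) (Nat.add (Nat.mul c bp6) (Nat.mul d ap6))) 32 = v6 at *
  simp only [Nat.add_eq, Nat.mul_eq, Nat.cast_add, Nat.cast_mul, Nat.cast_ofNat, Nat.cast_zero] at *
  rw [abs_le]; constructor <;> linarith [h1.1, h1.2, h2.1, h2.2]

theorem Sat.mulp (h : Sat a E x) (h' : Sat b E y) (ha : a.cn ≤ a.cp) (hb : b.cn ≤ b.cp) :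
    Sat (a.mulp b) E (x * y) :=
  h.mulc h' (Nat.cast_sub ha) (Nat.cast_sub hb)

theorem neg_le_of (h : ¬ a.cn ≤ a.cp) : a.neg.cn ≤ a.neg.cp := by
  obtain ⟨ac, ad, ap0, an0, ap1, an1, ap2, an2, ap3, an3, ap4, an4, ap5, an5, ap6, an6, ar, aw⟩ := a
  exact (not_le.1 h).le

theorem Sat.mul (h : Sat a E x) (h' : Sat b E y) : Sat (a.mul b) E (x * y) := by
  unfold AF.mul
  by_cases ha : a.cn ≤ a.cp <;> by_cases hb : b.cn ≤ b.cp
  · rw [Nat.ble_eq_true_of_le ha, Nat.ble_eq_true_of_le hb]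
    exact h.mulp h' ha hb
  · rw [Nat.ble_eq_true_of_le ha, Bool.eq_false_iff.2 (fun k => hb (Nat.le_of_ble_eq_true k))]
    simpa using (h.mulp h'.neg ha (neg_le_of hb)).neg
  · rw [Nat.ble_eq_true_of_le hb, Bool.eq_false_iff.2 (fun k => ha (Nat.le_of_ble_eq_true k))]
    simpa using (h.neg.mulp h' (neg_le_of ha) hb).neg
  · rw [Bool.eq_false_iff.2 (fun k => hb (Nat.le_of_ble_eq_true k)),
      Bool.eq_false_iff.2 (fun k => ha (Nat.le_of_ble_eq_true k))]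
    simpa using h.neg.mulp h'.neg (neg_le_of ha) (neg_le_of hb)

theorem Sat.nn (h : Sat a E x) (k : a.nn = true) : 0 ≤ x := by
  have h1 := abs_le.1 h.rad
  have h2 : a.cn + a.t ≤ a.cp := Nat.le_of_ble_eq_true k
  have h3 : (a.cn : ℝ) + a.t ≤ a.cp := by exact_mod_cast h2
  linarith [h1.1]

theorem Sat.pos (h : Sat a E x) (k : a.pos = true) : 0 < x := by
  have h1 := abs_le.1 h.rad
  have h2 : a.cn + a.t + 1 ≤ a.cp := Nat.le_of_ble_eq_true k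
  have h3 : (a.cn : ℝ) + a.t + 1 ≤ a.cp := by exact_mod_cast h2
  linarith [h1.1]

theorem inv_core {c X t u e M : ℝ} (ht : t < c) (h : |X - c| ≤ t) (hM : 0 ≤ M)
    (hu : t * M / c ≤ u) (he : u * u / (2 * (c - t)) ≤ e) :
    |M * M / X - (M * M / c + e) + (X - c) * (M * M) / (c * c)| ≤ e := by
  have ht0 : 0 ≤ t := le_trans (abs_nonneg _) h
  have hc : 0 < c := lt_of_le_of_lt ht0 ht
  have h1 := abs_le.1 h
  have hX : 0 < X := by linarith [h1.1]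
  have hl : 0 < c - t := by linarith
  have e1 : M * M / X - (M * M / c + e) + (X - c) * (M * M) / (c * c) =
      ((X - c) * M / c) ^ 2 / X - e := by field_simp; ring
  have h2 : |(X - c) * M / c| ≤ u := by
    rw [abs_div, abs_mul, abs_of_nonneg hM, abs_of_pos hc]
    exact le_trans (by gcongr) hu
  have h3 : ((X - c) * M / c) ^ 2 ≤ u * u := by
    rw [← sq_abs, sq]
    exact mul_le_mul h2 h2 (abs_nonneg _) (le_trans (abs_nonneg _) h2)
  have h4 : ((X - c) * M / c) ^ 2 / X ≤ u * u / (c - t) := by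
    apply div_le_div₀ (mul_self_nonneg u) h3 hl
    linarith [h1.1]
  have h5 : u * u / (c - t) = 2 * (u * u / (2 * (c - t))) := by field_simp
  have h6 : 0 ≤ ((X - c) * M / c) ^ 2 / X := by positivity
  rw [e1, abs_le]; constructor <;> linarith

theorem Sat.inv (h : Sat a E x) (k : a.pos = true) : Sat a.inv E x⁻¹ := by
  have hx := h.pos k
  have k2 : a.cn + a.t + 1 ≤ a.cp := Nat.le_of_ble_eq_true k
  have k1 := h.h
  have k3 := h.rad
  unfold AF.inv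
  have hc : ((Nat.sub a.cp a.cn : Nat) : ℝ) = (a.cp : ℝ) - a.cn := Nat.cast_sub (by omega)
  have hct : a.t < Nat.sub a.cp a.cn := by
    show a.t < a.cp - a.cn
    omega
  rw [← hc] at k1 k3
  generalize Nat.sub a.cp a.cn = c at *
  have hc0 : 0 < c := by omega
  have hcc : 0 < Nat.mul c c := Nat.mul_pos hc0 hc0
  have hlo : 0 < Nat.mul 2 (Nat.sub c a.t) := Nat.mul_pos (by norm_num) (Nat.sub_pos_of_lt hct)
  have hu := dv_lt (Nat.mul a.t 4294967296) c hc0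
  unfold AF.invd
  have hu' : (a.t : ℝ) * 4294967296 / c ≤
      ((Nat.add (Nat.div (Nat.mul a.t 4294967296) c) 1 : Nat) : ℝ) := by
    simpa using hu
  generalize Nat.add (Nat.div (Nat.mul a.t 4294967296) c) 1 = u at *
  have he := dv_lt (Nat.mul u u) _ hlo
  have he' : (u : ℝ) * u / (2 * ((c : ℝ) - a.t)) ≤ ((AF.ie u (Nat.sub c a.t) : Nat) : ℝ) := by
    have e : ((Nat.sub c a.t : Nat) : ℝ) = (c : ℝ) - a.t := Nat.cast_sub hct.le
    rw [← e]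
    simpa [AF.ie] using he
  generalize AF.ie u (Nat.sub c a.t) = e at *
  have h1 := abs_le.1 (inv_core (by exact_mod_cast hct) k3 (by norm_num) hu' he')
  have hcr : (0 : ℝ) < c := by exact_mod_cast hc0
  have hk : (0 : ℝ) ≤ 18446744073709551616 / ((c : ℝ) * c) := by positivity
  have h5 := mul_le_mul_of_nonneg_left (abs_le.1 k1).1 hk
  have h6 := mul_le_mul_of_nonneg_left (abs_le.1 k1).2 hk
  have e0 : (4294967296 : ℝ) * 4294967296 / (x * 4294967296) = x⁻¹ * 4294967296 := by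
    field_simp
  rw [e0] at h1
  clear k1 k2 k3 hc hct hu hu' he he' hlo h k e0
  obtain ⟨ac, ad, ap0, an0, ap1, an1, ap2, an2, ap3, an3, ap4, an4, ap5, an5, ap6, an6, ar, aw⟩ := a
  refine ⟨?_, mk'_t ..⟩
  have h2 := abs_le.1 (lin7 E (dv_err (Nat.mul an0 18446744073709551616) (Nat.mul ap0 18446744073709551616) _ hcc) (dv_err (Nat.mul an1 18446744073709551616) (Nat.mul ap1 18446744073709551616) _ hcc) (dv_err (Nat.mul an2 18446744073709551616) (Nat.mul ap2 18446744073709551616) _ hcc) (dv_err (Nat.mul an3 18446744073709551616) (Nat.mul ap3 18446744073709551616) _ hcc) (dv_err (Nat.mul an4 18446744073709551616) (Nat.mul ap4 18446744073709551616) _ hcc) (dv_err (Nat.mul an5 18446744073709551616) (Nat.mul ap5 18446744073709551616) _ hcc) (dv_err (Nat.mul an6 18446744073709551616) (Nat.mul ap6 18446744073709551616) _ hcc))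
  have h3 := dv_le 18446744073709551616 c
  have h3' := dv_lt 18446744073709551616 c hc0
  have h4 := dv_lt (Nat.mul ar 18446744073709551616) _ hcc
  simp only [AF.invc, AF.mk', AF.L] at h5 h6 ⊢
  simp only [Nat.add_eq, Nat.cast_add, Nat.cast_ofNat, Nat.cast_zero]
  simp only [Nat.mul_eq, Nat.cast_mul, Nat.cast_ofNat, div_eq_mul_inv] at h1 h2 h3 h3' h4 h5 h6 ⊢
  rw [abs_le]; constructor <;> linarith [h1.1, h1.2, h2.1, h2.2]

theorem exists_eps {lo hi : Nat} (h1 : (lo : ℝ) ≤ x * 4294967296) (h2 : x * 4294967296 ≤ hi) :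
    ∃ e : ℝ, |e| ≤ 1 ∧ x * 4294967296 =
      ((Nat.div (Nat.add lo hi) 2 : Nat) : ℝ) + ((AF.hw lo hi : Nat) : ℝ) * e := by
  have hl : lo ≤ hi := by exact_mod_cast h1.trans h2
  have a1 := dv_le (Nat.add lo hi) 2
  have a2 := dv_lt (Nat.sub hi lo) 2 (by norm_num)
  have a3 : ((Nat.sub hi lo : Nat) : ℝ) = (hi : ℝ) - lo := Nat.cast_sub hl
  have a4 : ((AF.hw lo hi : Nat) : ℝ) = ((Nat.div (Nat.sub hi lo) 2 : Nat) : ℝ) + 1 := by
    simp [AF.hw]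
  have a5 : hi ≤ Nat.div (Nat.add lo hi) 2 + AF.hw lo hi := by
    show hi ≤ (lo + hi) / 2 + ((hi - lo) / 2 + 1)
    omega
  have a6 : (hi : ℝ) ≤ ((Nat.div (Nat.add lo hi) 2 : Nat) : ℝ) + ((AF.hw lo hi : Nat) : ℝ) := by
    exact_mod_cast a5
  have a7 : (0 : ℝ) < ((AF.hw lo hi : Nat) : ℝ) := by rw [a4]; positivity
  rw [a3] at a2
  simp only [Nat.add_eq, Nat.cast_add, Nat.cast_ofNat] at a1 a2 a6 ⊢
  refine ⟨(x * 4294967296 - ((Nat.div (lo + hi) 2 : Nat) : ℝ)) / ((AF.hw lo hi : Nat) : ℝ), ?_, ?_⟩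
  · rw [abs_div, abs_of_pos a7, div_le_one a7, abs_le]
    constructor <;> linarith
  · field_simp; ring

theorem Sat.var0 {lo hi : Nat} (h : x * 4294967296 =
    ((Nat.div (Nat.add lo hi) 2 : Nat) : ℝ) + ((AF.hw lo hi : Nat) : ℝ) * E.e0) :
    Sat (AF.var0 lo hi) E x := by
  constructor
  · simp only [AF.var0, AF.L]
    rw [h]; simp
  · simp [AF.var0, AF.N]

theorem Sat.var1 {lo hi : Nat} (h : x * 4294967296 =
    ((Nat.div (Nat.add lo hi) 2 : Nat) : ℝ) + ((AF.hw lo hi : Nat) : ℝ) * E.e1) :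
    Sat (AF.var1 lo hi) E x := by
  constructor
  · simp only [AF.var1, AF.L]
    rw [h]; simp
  · simp [AF.var1, AF.N]

theorem Sat.var2 {lo hi : Nat} (h : x * 4294967296 =
    ((Nat.div (Nat.add lo hi) 2 : Nat) : ℝ) + ((AF.hw lo hi : Nat) : ℝ) * E.e2) :
    Sat (AF.var2 lo hi) E x := by
  constructor
  · simp only [AF.var2, AF.L]
    rw [h]; simp
  · simp [AF.var2, AF.N]

theorem Sat.var3 {lo hi : Nat} (h : x * 4294967296 =
    ((Nat.div (Nat.add lo hi) 2 : Nat) : ℝ) + ((AF.hw lo hi : Nat) : ℝ) * E.e3) :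
    Sat (AF.var3 lo hi) E x := by
  constructor
  · simp only [AF.var3, AF.L]
    rw [h]; simp
  · simp [AF.var3, AF.N]

theorem Sat.var4 {lo hi : Nat} (h : x * 4294967296 =
    ((Nat.div (Nat.add lo hi) 2 : Nat) : ℝ) + ((AF.hw lo hi : Nat) : ℝ) * E.e4) :
    Sat (AF.var4 lo hi) E x := by
  constructor
  · simp only [AF.var4, AF.L]
    rw [h]; simp
  · simp [AF.var4, AF.N]

theorem Sat.var5 {lo hi : Nat} (h : x * 4294967296 =
    ((Nat.div (Nat.add lo hi) 2 : Nat) : ℝ) + ((AF.hw lo hi : Nat) : ℝ) * E.e5) :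
    Sat (AF.var5 lo hi) E x := by
  constructor
  · simp only [AF.var5, AF.L]
    rw [h]; simp
  · simp [AF.var5, AF.N]

theorem Sat.var6 {lo hi : Nat} (h : x * 4294967296 =
    ((Nat.div (Nat.add lo hi) 2 : Nat) : ℝ) + ((AF.hw lo hi : Nat) : ℝ) * E.e6) :
    Sat (AF.var6 lo hi) E x := by
  constructor
  · simp only [AF.var6, AF.L]
    rw [h]; simp
  · simp [AF.var6, AF.N]

end Pool.Agent.Lib.MP_e508a7_gt.KB
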