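import Pool.Agent.Lib.MP_e508a7_gt.KBDefs
import Pool.Agent.Lib.MP_fcccf2_gt.PL

/-!
# Log-concavity in the centre
-/

set_option autoImplicit false

namespace Pool.Agent.Lib.MP_e508a7_gt.KB

open MeasureTheory Set Filter Topology Metric Bornology

theorem pl1_int {n : ℕ} {f : (Fin (n + 1) → ℝ) → ENNReal} (hf : Measurable f) :
    (Measurable fun y : ℝ × (Fin n → ℝ) => f (Fin.cons y.1 y.2)) ∧
      ∫⁻ x, f x = ∫⁻ a : ℝ, ∫⁻ x : Fin n → ℝ, f (Fin.cons a x) := by
  have h1 := (volume_preserving_piFinSuccAbove (fun _ : Fin (n + 1) => ℝ) 0).symm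
  have h2 : (fun y : ℝ × (Fin n → ℝ) => f (Fin.cons y.1 y.2)) =
      fun y => f ((MeasurableEquiv.piFinSuccAbove (fun _ : Fin (n + 1) => ℝ) 0).symm y) := by
    funext y
    simp [Fin.insertNthEquiv]
  have h3 : Measurable fun y : ℝ × (Fin n → ℝ) => f (Fin.cons y.1 y.2) := by
    rw [h2]
    exact hf.comp h1.measurable
  refine ⟨h3, ?_⟩
  rw [← h1.lintegral_comp hf, ← h2, Measure.volume_eq_prod, lintegral_prod _ h3.aemeasurable]

theorem pl1_pi (n : ℕ) : ∀ {f g h : (Fin n → ℝ) → ENNReal}, Measurable f → Measurable g →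
    Measurable h → (∀ a b, f a * g b ≤ h ((1 / 2 : ℝ) • (a + b)) ^ 2) →
    (∫⁻ a, f a) * (∫⁻ b, g b) ≤ (∫⁻ c, h c) ^ 2 := by
  induction n with
  | zero =>
    intro f g h _ _ _ H
    have h1 : (volume : Measure (Fin 0 → ℝ)) univ = 1 := by simp [volume_pi]
    simp only [lintegral_unique, h1, mul_one]
    exact (H _ _).trans (le_of_eq (congrArg (fun z => h z ^ 2) (Subsingleton.elim _ _)))
  | succ n ih =>
    intro f g h hf hg hh H
    rw [(pl1_int hf).2, (pl1_int hg).2, (pl1_int hh).2]
    refine MP_fcccf2_gt.pl_one (pl1_int hf).1.lintegral_prod_right'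
      (pl1_int hg).1.lintegral_prod_right' (pl1_int hh).1.lintegral_prod_right' fun a b => ?_
    refine ih ((pl1_int hf).1.comp measurable_prodMk_left)
      ((pl1_int hg).1.comp measurable_prodMk_left)
      ((pl1_int hh).1.comp measurable_prodMk_left) fun x y => (H _ _).trans (le_of_eq ?_)
    refine congrArg (fun z => h z ^ 2) (funext fun i => ?_)
    refine Fin.cases ?_ (fun j => ?_) i
    · simp only [Pi.smul_apply, Pi.add_apply, Fin.cons_zero, smul_eq_mul]
      ring
    · simp only [Pi.smul_apply, Pi.add_apply, Fin.cons_succ]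

theorem pl1_meas {K : Set V} (hm : MeasurableSet K) (p : V) : MeasurableSet (Sy K p) :=
  hm.inter (hm.preimage (measurable_const.sub measurable_id))

theorem fv_logconc {K : Set V} (hK : Convex ℝ K) (hm : MeasurableSet K) (hb : volume K ≠ ⊤)
    (p q : V) : fv K p * fv K q ≤ fv K ((1 / 2 : ℝ) • (p + q)) ^ 2 := by
  have h1 := pl1_pi 3 (f := (Sy K p).indicator 1) (g := (Sy K q).indicator 1)
    (h := (Sy K ((1 / 2 : ℝ) • (p + q))).indicator 1) (measurable_one.indicator (pl1_meas hm _))
    (measurable_one.indicator (pl1_meas hm _)) (measurable_one.indicator (pl1_meas hm _))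
    fun a b => by
      by_cases ha : a ∈ Sy K p
      · by_cases hb : b ∈ Sy K q
        · have h2 : (1 / 2 : ℝ) • (a + b) ∈ Sy K ((1 / 2 : ℝ) • (p + q)) := by
            have h3 := hK ha.1 hb.1 (a := 1 / 2) (b := 1 / 2) (by norm_num) (by norm_num)
              (by norm_num)
            have h4 := hK ha.2 hb.2 (a := 1 / 2) (b := 1 / 2) (by norm_num) (by norm_num)
              (by norm_num)
            have h5 : (2 : ℝ) • (1 / 2 : ℝ) • (p + q) - (1 / 2 : ℝ) • (a + b) =
                (1 / 2 : ℝ) • ((2 : ℝ) • p - a) + (1 / 2 : ℝ) • ((2 : ℝ) • q - b) := by module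
            exact ⟨by rwa [smul_add], by rwa [h5]⟩
          simp only [indicator_of_mem ha, indicator_of_mem hb, indicator_of_mem h2, Pi.one_apply,
            mul_one, one_pow, le_refl]
        · rw [indicator_of_notMem hb, mul_zero]
          exact zero_le
      · rw [indicator_of_notMem ha, zero_mul]
        exact zero_le
  rw [lintegral_indicator_one (pl1_meas hm _), lintegral_indicator_one (pl1_meas hm _),
    lintegral_indicator_one (pl1_meas hm _)] at h1
  have h6 : volume (Sy K ((1 / 2 : ℝ) • (p + q))) ≠ ⊤ :=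
    ne_top_of_le_ne_top hb (measure_mono fun x hx => hx.1)
  have h7 := ENNReal.toReal_mono (ENNReal.pow_ne_top h6) h1
  rwa [ENNReal.toReal_mul, ENNReal.toReal_pow] at h7

end Pool.Agent.Lib.MP_e508a7_gt.KB
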