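import Pool.Agent.Lib.MP_e508a7_gt.KBMin
import Pool.Agent.Lib.MP_e508a7_gt.KBPl

/-!
# From polytopes to convex bodies
-/

set_option autoImplicit false

namespace Pool.Agent.Lib.MP_e508a7_gt.KB

open MeasureTheory Set Filter Topology Metric Bornology

theorem outer {K : Set V} (hK : Convex ℝ K) (hc : IsCompact K) (h0 : K ∈ 𝓝 (0 : V)) {t : ℝ}
    (ht : 1 < t) : ∃ (m : ℕ) (a : Fin m → Fn), K ⊆ Kp a ∧ ∀ x ∈ Kp a, t⁻¹ • x ∈ K := by
  have t0 : 0 < t := zero_lt_one.trans ht
  set e := Homeomorph.smulOfNeZero (α := V) t⁻¹ (inv_ne_zero t0.ne')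
  have hT : IsCompact (e ⁻¹' K) := e.isCompact_preimage.2 hc
  have hin : K ⊆ interior (e ⁻¹' K) := fun x hx => by
    have := hK.combo_interior_self_mem_interior (mem_interior_iff_mem_nhds.2 h0) hx
      (sub_pos.2 (inv_lt_one_of_one_lt₀ ht)) (inv_pos.2 t0).le (sub_add_cancel _ _)
    rw [smul_zero, zero_add] at this
    rw [← e.preimage_interior]
    exact this
  have hf : ∀ x : V, ∃ f : Fn, (∀ y ∈ K, f y ≤ 1) ∧ (x ∉ K → 1 < f x) := fun x => by
    by_cases hx : x ∈ K
    · exact ⟨0, by simp, fun h => (h hx).elim⟩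
    obtain ⟨f, u, h1, h2⟩ := geometric_hahn_banach_closed_point hK hc.isClosed hx
    have u0 : 0 < u := by simpa using h1 0 (mem_of_mem_nhds h0)
    exact ⟨u⁻¹ • f, fun y hy => (inv_mul_le_one₀ u0).2 (h1 y hy).le,
      fun _ => (one_lt_inv_mul₀ u0).2 h2⟩
  choose f f1 f2 using hf
  obtain ⟨s, -, hs⟩ := (hT.diff isOpen_interior).elim_nhds_subcover (fun x => {y | 1 < f x y})
    fun x hx => (isOpen_lt continuous_const (f x).continuous).mem_nhds
      (f2 x fun h => hx.2 (hin h))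
  refine ⟨s.card, fun j => f (s.equivFin.symm j), fun y hy j => f1 _ y hy, fun x hx => ?_⟩
  refine interior_subset (s := e ⁻¹' K) ((convex_Kp _).isPreconnected.subset_left_of_subset_union
    isOpen_interior hT.isClosed.isOpen_compl (disjoint_compl_right.mono_left interior_subset)
    (fun y hy => ?_) ⟨0, mem_of_mem_nhds (Kp_nhds _), hin (mem_of_mem_nhds h0)⟩ hx)
  by_contra h1
  rw [mem_union, not_or, notMem_compl_iff] at h1
  obtain ⟨z, hz, h2⟩ := mem_iUnion₂.1 (hs ⟨h1.2, h1.1⟩)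
  have h3 := hy (s.equivFin ⟨z, hz⟩)
  simp only [Equiv.symm_apply_apply] at h3
  exact h3.not_gt h2

theorem ap1_zero (h : ∀ (m : ℕ) (a : Fin m → Fn), IsBounded (Kp a) →
      volume.real (Kp a) ≤ 2 * gv (Kp a))
    {K : Set V} (hK : Convex ℝ K) (hc : IsCompact K) (h0 : K ∈ 𝓝 (0 : V)) :
    volume.real K ≤ 2 * gv K := by
  have h1 : Tendsto (fun t : ℝ => 2 * (t ^ 3 * gv K)) (𝓝[>] 1) (𝓝 (2 * gv K)) :=
    (Continuous.tendsto' (by fun_prop) 1 _ (by simp)).mono_left nhdsWithin_le_nhds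
  refine ge_of_tendsto h1 ?_
  filter_upwards [self_mem_nhdsWithin] with t ht
  obtain ⟨m, a, h2, h3⟩ := outer hK hc h0 ht
  have t0 : 0 < t := zero_lt_one.trans ht
  have hT := (Homeomorph.smulOfNeZero t⁻¹ (inv_ne_zero t0.ne')).isCompact_preimage.2 hc
  have hb : IsBounded (Kp a) := hT.isBounded.subset h3
  refine ((measureReal_mono h2 hb.measure_lt_top.ne).trans (h m a hb)).trans
    (mul_le_mul_of_nonneg_left (ciSup_le fun p => ?_) zero_le_two)
  have h4 : Sy (Kp a) p ⊆ (t⁻¹ • ·) ⁻¹' Sy K (t⁻¹ • p) := fun x hx =>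
    ⟨h3 x hx.1, by rw [smul_comm, ← smul_sub]; exact h3 _ hx.2⟩
  refine (measureReal_mono h4 (hT.isBounded.subset fun x hx => hx.1).measure_lt_top.ne).trans ?_
  rw [measureReal_def, Measure.addHaar_preimage_smul _ (inv_ne_zero t0.ne'), ENNReal.toReal_mul,
    ENNReal.toReal_ofReal (abs_nonneg _), Module.finrank_fin_fun, inv_pow, inv_inv,
    abs_of_pos (pow_pos t0 3)]
  exact mul_le_mul_of_nonneg_left (fv_le_gv hc.isBounded _) (pow_pos t0 3).le

theorem approx (h : ∀ (m : ℕ) (a : Fin m → Fn), IsBounded (Kp a) →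
      volume.real (Kp a) ≤ 2 * gv (Kp a))
    {K : Set V} (hK : Convex ℝ K) (hc : IsCompact K) (hi : (interior K).Nonempty) :
    volume.real K ≤ 2 * gv K := by
  obtain ⟨c, hc0⟩ := hi
  have h1 := ap1_zero h (hK.translate_preimage_left c)
    ((Homeomorph.addRight c).isCompact_preimage.2 hc)
    ((continuous_add_const c).continuousAt.preimage_mem_nhds
      (by rw [zero_add]; exact mem_interior_iff_mem_nhds.1 hc0))
  rw [measureReal_def, measure_preimage_add_right] at h1
  refine h1.trans (mul_le_mul_of_nonneg_left (ciSup_le fun p => ?_) zero_le_two)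
  refine Eq.trans_le ?_ (fv_le_gv hc.isBounded (p + c))
  have h2 : Sy ((· + c) ⁻¹' K) p = (· + c) ⁻¹' Sy K (p + c) := by
    ext x
    simp only [Sy, mem_ofPred_eq, mem_preimage,
      show (2 : ℝ) • (p + c) - (x + c) = (2 : ℝ) • p - x + c by module]
  rw [fv, fv, h2, measureReal_def, measure_preimage_add_right, measureReal_def]

theorem ap2_convex {M : Set V} (hc : IsClosed M)
    (hm : ∀ p ∈ M, ∀ q ∈ M, (1 / 2 : ℝ) • (p + q) ∈ M) : Convex ℝ M := by
  refine convex_iff_add_mem.mpr fun x hx y hy s t hs ht hst => ?_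
  have hS : IsClosed {r : ℝ | (1 - r) • x + r • y ∈ M} := hc.preimage (by fun_prop)
  obtain ⟨a, ⟨ha, ha'⟩, hA⟩ := (isCompact_Icc.inter_right hS).exists_isGreatest
    ⟨0, ⟨le_rfl, ht⟩, by simpa using hx⟩
  obtain ⟨b, ⟨hb, hb'⟩, hB⟩ := ((isCompact_Icc (a := t) (b := 1)).inter_right hS).exists_isLeast
    ⟨1, ⟨by linarith, le_rfl⟩, by simpa using hy⟩
  have h1 : (a + b) / 2 ∈ {r : ℝ | (1 - r) • x + r • y ∈ M} := by
    have := hm _ ha' _ hb'
    rw [mem_ofPred_eq, show (1 - (a + b) / 2) • x + ((a + b) / 2) • y =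
      (1 / 2 : ℝ) • ((1 - a) • x + a • y + ((1 - b) • x + b • y)) by module]
    exact this
  have h2 : a = t := by
    rcases le_total ((a + b) / 2) t with h | h
    · have := hA ⟨⟨by linarith [ha.1, hb.1], h⟩, h1⟩
      linarith [ha.2, hb.1]
    · have := hB ⟨⟨h, by linarith [ha.2, hb.2]⟩, h1⟩
      linarith [ha.2, hb.1]
  rw [show s = 1 - t by linarith, ← h2]
  exact ha'

theorem ap2_vol (g : V ≃ᵃ[ℝ] V) (S : Set V) :
    volume (g '' S) = ENNReal.ofReal |LinearMap.det (g.linear : V →ₗ[ℝ] V)| * volume S := by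
  have : g '' S = (fun x => x + g 0) '' ((g.linear : V →ₗ[ℝ] V) '' S) := by
    rw [image_image]
    exact image_congr fun x _ => by simpa using g.map_vadd 0 x
  rw [this, image_add_right, measure_preimage_add_right, Measure.addHaar_image_linearMap]

theorem ap2_pres {K : Set V} (h0 : volume K ≠ 0) (h1 : volume K ≠ ⊤) {g : V ≃ᵃ[ℝ] V}
    (hg : g '' K = K) (S : Set V) : volume (g '' S) = volume S := by
  have := ap2_vol g K
  rw [hg] at this
  rw [ap2_vol, (ENNReal.mul_left_inj h0 h1).mp (this.symm.trans (one_mul _).symm), one_mul]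

theorem ap2_sy {K : Set V} {g : V ≃ᵃ[ℝ] V} (hg : g '' K = K) (p : V) :
    Sy K (g p) = g '' Sy K p := by
  have hm : ∀ x, g x ∈ K ↔ x ∈ K := fun x => by
    conv_lhs => rw [← hg]
    exact g.injective.mem_set_image
  have ha : ∀ x, g x = g.linear x + g 0 := fun x => by simpa using g.map_vadd 0 x
  ext z
  obtain ⟨x, rfl⟩ := g.surjective z
  have e : (2 : ℝ) • g p - g x = g ((2 : ℝ) • p - x) := by
    rw [ha p, ha x, ha (_ - _), map_sub, map_smul]
    module
  rw [g.injective.mem_set_image]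
  simp only [Sy, mem_ofPred_eq, e, hm]

theorem fixed {K : Set V} (hK : Convex ℝ K) (hc : IsCompact K) {θ : ℝ} (h0 : 0 < θ)
    (h1 : θ < gv K) : ∃ p : V, θ ≤ fv K p ∧ ∀ g : V ≃ᵃ[ℝ] V, g '' K = K → g p = p := by
  have hf := cont_body hK hc
  have hMc : IsClosed {p | θ ≤ fv K p} := isClosed_le continuous_const hf
  obtain ⟨R, hR⟩ := hc.isBounded.subset_closedBall 0
  have hMk : IsCompact {p | θ ≤ fv K p} :=
    (isCompact_closedBall 0 R).of_isClosed_subset hMc fun p hp => by
      by_contra h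
      rw [mem_closedBall_zero_iff, not_le] at h
      rw [mem_ofPred_eq, fv_far hR h] at hp
      linarith
  have hMv : Convex ℝ {p | θ ≤ fv K p} := ap2_convex hMc fun p hp q hq =>
    le_of_sq_le_sq (((sq θ).le.trans (mul_le_mul hp hq h0.le (fv_nonneg _ _))).trans
      (fv_logconc hK hc.measurableSet hc.measure_lt_top.ne p q)) (fv_nonneg _ _)
  obtain ⟨p₀, hp₀⟩ := exists_lt_of_lt_ciSup h1
  have hM0 : volume {p | θ ≤ fv K p} ≠ 0 :=
    (((isOpen_lt continuous_const hf).measure_pos volume ⟨p₀, hp₀⟩).trans_le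
      (measure_mono fun p (hp : θ < fv K p) => hp.le)).ne'
  have hK0 : volume K ≠ 0 := fun h => by
    have := fv_le hc.isBounded p₀
    rw [measureReal_def, h, ENNReal.toReal_zero] at this
    linarith
  have hi : IntegrableOn (fun x : V => x) {p | θ ≤ fv K p} :=
    continuous_id.continuousOn.integrableOn_compact hMk
  refine ⟨⨍ x in {p | θ ≤ fv K p}, x, hMv.set_average_mem hMc hM0 hMk.measure_lt_top.ne
    (ae_restrict_mem hMc.measurableSet) hi, fun g hg => ?_⟩
  have hv := ap2_pres hK0 hc.measure_lt_top.ne hg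
  have ha : ∀ x, g x = g.linear x + g 0 := fun x => by simpa using g.map_vadd 0 x
  let e : V ≃ₜ V := g.toContinuousAffineEquiv.toHomeomorph
  have hp : MeasurePreserving e volume volume := ⟨e.measurable, Measure.ext fun S hS => by
    rw [Measure.map_apply e.measurable hS, ← hv]
    exact congrArg _ (image_preimage_eq S g.surjective)⟩
  have hM : e ⁻¹' {p | θ ≤ fv K p} = {p | θ ≤ fv K p} := by
    ext p
    change θ ≤ fv K (g p) ↔ θ ≤ fv K p
    rw [fv, ap2_sy hg, measureReal_def, hv]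
    rfl
  have key := hp.setIntegral_preimage_emb e.measurableEmbedding (fun x => x) {p | θ ≤ fv K p}
  let L : V →L[ℝ] V := LinearMap.toContinuousLinearMap (g.linear : V →ₗ[ℝ] V)
  have e2 : (fun x => e x) = fun x => L x + g 0 := funext ha
  have hm : volume.real {p | θ ≤ fv K p} ≠ 0 :=
    ENNReal.toReal_ne_zero.mpr ⟨hM0, hMk.measure_lt_top.ne⟩
  rw [hM, e2, integral_add (L.integrable_comp hi) (integrableOn_const hMk.measure_lt_top.ne),
    L.integral_comp_comm hi, setIntegral_const] at key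
  rw [setAverage_eq, ha, map_smul]
  conv_rhs => rw [← key, smul_add, smul_smul, inv_mul_cancel₀ hm, one_smul]
  rfl

end Pool.Agent.Lib.MP_e508a7_gt.KB
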