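import Pool.Agent.Lib.MP_e508a7_gt.KBProfile

/-!
# The planar Brunn-Minkowski inequality and the path bound
-/

set_option autoImplicit false

namespace Pool.Agent.Lib.MP_e508a7_gt.KB

open MeasureTheory Set Filter Topology Metric Bornology

theorem bm1_line {K L C : Set ℝ} (hK : IsCompact K) (hL : IsCompact L) (hKn : K.Nonempty)
    (hLn : L.Nonempty) (H : ∀ a ∈ K, ∀ b ∈ L, a + b ∈ C) : volume K + volume L ≤ volume C := by
  obtain ⟨k, hk, hkm⟩ := hK.exists_isGreatest hKn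
  obtain ⟨l, hl, hlm⟩ := hL.exists_isLeast hLn
  have h1 : K ⊆ (fun a => a + l) ⁻¹' (C ∩ Iic (k + l)) := fun a ha =>
    ⟨H a ha l hl, add_le_add (hkm ha) le_rfl⟩
  have h2 : L ⊆ (fun b => k + b) ⁻¹' (C ∩ Ici (k + l)) := fun b hb =>
    ⟨H k hk b hb, add_le_add le_rfl (hlm hb)⟩
  refine (add_le_add (measure_mono h1) (measure_mono h2)).trans_eq ?_
  rw [measure_preimage_add_right, measure_preimage_add,
    ← measure_congr ((ae_eq_refl C).inter Ioi_ae_eq_Ici), ← compl_Iic]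
  exact measure_inter_add_sdiff C measurableSet_Iic

/-- the levels at which `S` contains a vertical chord of length `t` -/
def bm1_lev (S : Set R2) (t : ℝ) : Set ℝ := Prod.fst '' (S ∩ {x | x + (0, t) ∈ S})

theorem bm1_iff {S : Set R2} (hS : Convex ℝ S) (hc : IsCompact S) {t : ℝ} (ht : 0 < t) {s : ℝ} :
    s ∈ bm1_lev S t ↔ t ≤ pr S s := by
  constructor
  · rintro ⟨⟨s, v⟩, ⟨a, b⟩, rfl⟩
    simpa using le_pr hS hc (v' := v + t) a (by simpa using b)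
  · intro h
    obtain ⟨lo, hi, h1, h2, h3⟩ := slice hS hc (a := s) (by_contra fun e =>
      by linarith [pr_le (lo := 0) (hi := 0) le_rfl fun v hv => (e ⟨v, hv⟩).elim])
    exact ⟨(s, lo), ⟨(h2 _).2 ⟨le_rfl, h1⟩, by
      simpa using (h2 (lo + t)).2 ⟨by linarith, by linarith⟩⟩, rfl⟩

theorem bm1_cpt {S : Set R2} (hc : IsCompact S) (t : ℝ) : IsCompact (bm1_lev S t) :=
  (hc.inter_right (hc.isClosed.preimage (continuous_add_const _))).image continuous_fst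

theorem bm1_cake {S : Set R2} (hS : Convex ℝ S) (hc : IsCompact S) {M : ℝ} (hM : 0 < M) :
    ENNReal.ofReal (volume.real S / M) = ∫⁻ ρ in Ioi (0 : ℝ), volume (bm1_lev S (ρ * M)) := by
  have i := (integrable_pr hc).div_const M
  have n : 0 ≤ᵐ[volume] fun a => pr S a / M :=
    Eventually.of_forall fun a => div_nonneg (pr_nonneg S a) hM.le
  rw [area_pr hc, ← integral_div, ofReal_integral_eq_lintegral_ofReal i n,
    lintegral_eq_lintegral_meas_le _ n i.aemeasurable]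
  refine setLIntegral_congr_fun measurableSet_Ioi fun ρ hρ => congrArg _ (Set.ext fun s => ?_)
  rw [bm1_iff hS hc (mul_pos hρ hM)]
  exact le_div_iff₀ hM

theorem bm1_max {S : Set R2} (hS : Convex ℝ S) (hc : IsCompact S) (h : volume.real S ≠ 0) :
    ∃ M > 0, ∀ ρ > 0, (bm1_lev S (ρ * M)).Nonempty ↔ ρ ≤ 1 := by
  obtain ⟨s, hs⟩ : ∃ s, 0 < pr S s := by
    by_contra! e
    exact h (by rw [area_pr hc, funext fun s => (e s).antisymm (pr_nonneg S s), integral_zero])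
  have m : ∀ t, (bm1_lev S t).Nonempty → ∃ p ∈ S ×ˢ S ∩ {p | p.1.1 = p.2.1}, p.2.2 - p.1.2 = t :=
    fun t ⟨_, x, ⟨a, b⟩, _⟩ => ⟨(x, x + (0, t)), ⟨⟨a, b⟩, by simp⟩, by simp⟩
  obtain ⟨q, hq, e⟩ := m _ ⟨s, (bm1_iff hS hc hs).2 le_rfl⟩
  obtain ⟨⟨⟨a, v⟩, ⟨b, w⟩⟩, ⟨⟨p1, p2⟩, rfl : a = b⟩, hp⟩ := ((hc.prod hc).inter_right
    (isClosed_eq (by fun_prop) (by fun_prop))).exists_isMaxOn ⟨q, hq⟩
    (f := fun p => p.2.2 - p.1.2) (by fun_prop)
  have hM : 0 < w - v := (hs.trans_eq e.symm).trans_le (hp hq)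
  refine ⟨w - v, hM, fun ρ hρ => ⟨fun h => ?_, fun h => ⟨a, (bm1_iff hS hc (mul_pos hρ hM)).2
    ((mul_le_of_le_one_left hM.le h).trans (le_pr hS hc p1 p2))⟩⟩⟩
  obtain ⟨r, hr, e⟩ := m _ h
  exact (mul_le_iff_le_one_left hM).1 (e.symm.trans_le (hp hr))

theorem bm1_sub {B C : Set R2} (hC : IsCompact C) {a : R2} (h : ∀ b ∈ B, a + b ∈ C) :
    √(volume.real B) ≤ √(volume.real C) :=
  Real.sqrt_le_sqrt (ENNReal.toReal_mono hC.measure_lt_top.ne
    ((measure_mono (t := (fun b => a + b) ⁻¹' C) h).trans_eq (measure_preimage_add _ _ _)))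

theorem bm2 {A B C : Set R2} (hA : Convex ℝ A) (hAc : IsCompact A) (hAn : A.Nonempty)
    (hB : Convex ℝ B) (hBc : IsCompact B) (hBn : B.Nonempty) (hC : IsCompact C) (hCv : Convex ℝ C)
    (h : ∀ a ∈ A, ∀ b ∈ B, a + b ∈ C) :
    √(volume.real A) + √(volume.real B) ≤ √(volume.real C) := by
  by_cases a0 : volume.real A = 0
  · obtain ⟨a, ha⟩ := hAn
    simpa [a0] using bm1_sub hC (h a ha)
  by_cases b0 : volume.real B = 0
  · obtain ⟨b, hb⟩ := hBn
    simpa [b0] using bm1_sub hC fun a ha => add_comm a b ▸ h a ha b hb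
  obtain ⟨x, hx, h1⟩ := bm1_max hA hAc a0
  obtain ⟨y, hy, h2⟩ := bm1_max hB hBc b0
  have key : ENNReal.ofReal (volume.real A / x) + ENNReal.ofReal (volume.real B / y) ≤
      ENNReal.ofReal (volume.real C / (x + y)) := by
    rw [bm1_cake hA hAc hx, bm1_cake hB hBc hy, bm1_cake hCv hC (add_pos hx hy)]
    refine (le_lintegral_add _ _).trans (setLIntegral_mono' measurableSet_Ioi fun ρ hρ => ?_)
    by_cases e : ρ ≤ 1
    · refine bm1_line (bm1_cpt hAc _) (bm1_cpt hBc _) ((h1 ρ hρ).2 e) ((h2 ρ hρ).2 e) ?_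
      rintro _ ⟨a, ⟨a1, a2⟩, rfl⟩ _ ⟨b, ⟨b1, b2⟩, rfl⟩
      refine ⟨a + b, ⟨h a a1 b b1, ?_⟩, rfl⟩
      have := h _ a2 _ b2
      rwa [add_add_add_comm, Prod.mk_add_mk 0 0, add_zero, ← mul_add] at this
    · rw [not_nonempty_iff_eq_empty.1 (mt (h1 ρ hρ).1 e),
        not_nonempty_iff_eq_empty.1 (mt (h2 ρ hρ).1 e)]
      simp
  rw [← ENNReal.ofReal_add (by positivity) (by positivity),
    ENNReal.ofReal_le_ofReal_iff (by positivity), div_add_div _ _ hx.ne' hy.ne',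
    div_le_div_iff₀ (by positivity) (by positivity), ← Real.sq_sqrt (measureReal_nonneg (s := A)),
    ← Real.sq_sqrt (measureReal_nonneg (s := B))] at key
  refine Real.le_sqrt_of_sq_le (le_of_mul_le_mul_right ?_ (mul_pos hx hy))
  nlinarith [sq_nonneg (√(volume.real A) * y - √(volume.real B) * x)]

theorem bm2_sum {Z Y C : Set R2} (hZ : Convex ℝ Z) (hZc : IsCompact Z) (hY : Convex ℝ Y)
    (hYc : IsCompact Y) (hC : IsCompact C) (hCv : Convex ℝ C) {ε a w : ℝ}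
    (h0 : ∃ v, (a, v) ∈ Z) (h1 : ∃ v, (w, v) ∈ Y) (h : ∀ z ∈ Z, ∀ y ∈ Y, z + ε • y ∈ C) :
    pr Z a + ε * pr Y w ≤ pr C (a + ε * w) := by
  obtain ⟨l, u, hl, hm, e⟩ := slice hZ hZc h0
  obtain ⟨l', u', hl', hm', e'⟩ := slice hY hYc h1
  have h2 := le_pr hCv hC (a := a + ε * w) (v := l + ε * l') (v' := u + ε * u')
    (h _ ((hm l).2 ⟨le_rfl, hl⟩) _ ((hm' l').2 ⟨le_rfl, hl'⟩))
    (h _ ((hm u).2 ⟨hl, le_rfl⟩) _ ((hm' u').2 ⟨hl', le_rfl⟩))
  rw [e, e']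
  linarith

theorem bm2_zero {Z : Set R2} {a : ℝ} (h : ¬ ∃ v, (a, v) ∈ Z) : pr Z a = 0 :=
  le_antisymm ((pr_le le_rfl fun v hv => (h ⟨v, hv⟩).elim).trans_eq (sub_self 0)) (pr_nonneg Z a)

theorem bm2_sub (f : ℝ → ℝ) (p q : ℝ) :
    ∫ x in p..q, f x = (q - p) * ∫ θ in (0 : ℝ)..1, f ((q - p) * θ + p) := by
  have h := intervalIntegral.smul_integral_comp_mul_add (a := 0) (b := 1) f (q - p) p
  rw [mul_zero, zero_add, mul_one, sub_add_cancel, smul_eq_mul] at h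
  exact h.symm

theorem bm2_int {S : Set R2} (hc : IsCompact S) {c : ℝ} (h : 0 < c) (p : ℝ) :
    IntervalIntegrable (fun θ => pr S (c * θ + p)) volume 0 1 :=
  (((integrable_pr hc).comp_add_right p).comp_mul_left' h.ne').intervalIntegrable

theorem bm2_mid {S : Set R2} (hS : Convex ℝ S) (hc : IsCompact S) {p q x : ℝ}
    (h0 : ∃ v, (p, v) ∈ S) (h1 : ∃ v, (q, v) ∈ S) (hp : p ≤ x) (hq : x ≤ q) : ∃ v, (x, v) ∈ S := by
  obtain ⟨A, B, -, hm, -⟩ := exists_prof hS hc (h0.elim fun _ hv => ⟨_, hv⟩)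
  exact (hm x).2 ⟨((hm p).1 h0).1.trans hp, hq.trans ((hm q).1 h1).2⟩

theorem path {Z Y C : Set R2} (hZ : Convex ℝ Z) (hZc : IsCompact Z) (hY : Convex ℝ Y)
    (hYc : IsCompact Y) (hC : IsCompact C) (hCv : Convex ℝ C) {ε a₀ a₁ w₀ w₁ w₂ : ℝ} (hε : 0 ≤ ε)
    (ha : a₀ < a₁) (hw : w₀ < w₁) (hw' : w₁ ≤ w₂) (h0 : ∃ v, (a₀, v) ∈ Z) (h1 : ∃ v, (a₁, v) ∈ Z)
    (h2 : ∀ x ∈ Z, x.1 ≤ a₁) (h3 : ∃ v, (w₀, v) ∈ Y) (h4 : ∃ v, (w₂, v) ∈ Y)
    (h : ∀ z ∈ Z, ∀ y ∈ Y, z + ε • y ∈ C) :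
    volume.real Z + ε * ((w₁ - w₀) / (a₁ - a₀) * (∫ a in a₀..a₁, pr Z a) +
      (a₁ - a₀) / (w₁ - w₀) * (∫ a in w₀..w₁, pr Y a) + (w₂ - w₁) * pr Z a₁) ≤ volume.real C := by
  have iZ := integrable_pr hZc
  have iC := integrable_pr hC
  have hα : 0 < a₁ - a₀ := sub_pos.2 ha
  have hβ : 0 < w₁ - w₀ := sub_pos.2 hw
  have hγ : 0 < a₁ + ε * w₁ - (a₀ + ε * w₀) := by nlinarith
  have h12 : a₁ + ε * w₁ ≤ a₁ + ε * w₂ := by nlinarith
  have tr : ∀ a w, (∃ v, (w, v) ∈ Y) → pr Z a ≤ pr C (a + ε * w) := fun a w hy => by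
    by_cases hz : ∃ v, (a, v) ∈ Z
    · have := bm2_sum hZ hZc hY hYc hC hCv hz hy h
      have := mul_nonneg hε (pr_nonneg Y w)
      linarith
    · rw [bm2_zero hz]
      exact pr_nonneg _ _
  have e1 : volume.real Z = (∫ a in Iic a₀, pr Z a) + ∫ a in a₀..a₁, pr Z a := by
    rw [← intervalIntegral.integral_Iic_sub_Iic iZ.integrableOn iZ.integrableOn, add_sub_cancel,
      area_pr hZc, setIntegral_eq_integral_of_forall_compl_eq_zero]
    exact fun x hx => bm2_zero fun ⟨v, hv⟩ => hx (h2 _ hv)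
  have e2 : (∫ t in Iic (a₀ + ε * w₀), pr C t) + (∫ t in (a₀ + ε * w₀)..(a₁ + ε * w₁), pr C t) +
      (∫ t in (a₁ + ε * w₁)..(a₁ + ε * w₂), pr C t) ≤ volume.real C := by
    rw [← intervalIntegral.integral_Iic_sub_Iic iC.integrableOn iC.integrableOn,
      ← intervalIntegral.integral_Iic_sub_Iic iC.integrableOn iC.integrableOn, add_sub_cancel,
      add_sub_cancel, area_pr hC]
    exact setIntegral_le_integral iC (Eventually.of_forall (pr_nonneg C))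
  have p1 : ∫ a in Iic a₀, pr Z a ≤ ∫ t in Iic (a₀ + ε * w₀), pr C t := by
    rw [← integral_indicator measurableSet_Iic, ← integral_indicator measurableSet_Iic,
      ← integral_add_right_eq_self ((Iic (a₀ + ε * w₀)).indicator (pr C)) (ε * w₀)]
    refine integral_mono (iZ.indicator measurableSet_Iic)
      ((iC.indicator measurableSet_Iic).comp_add_right _) fun a => ?_
    by_cases ha' : a ∈ Iic a₀
    · simp only [indicator_of_mem ha', indicator_of_mem (show a + ε * w₀ ∈ Iic (a₀ + ε * w₀) from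
        mem_Iic.2 (add_le_add_left (mem_Iic.1 ha') _))]
      exact tr a w₀ h3
    · simp only [indicator_of_notMem ha']
      exact indicator_nonneg (fun _ _ => pr_nonneg _ _) _
  have p3 : ε * (w₂ - w₁) * pr Z a₁ ≤ ∫ t in (a₁ + ε * w₁)..(a₁ + ε * w₂), pr C t := by
    have h5 := intervalIntegral.integral_mono_on h12 (intervalIntegrable_const (c := pr Z a₁))
      iC.intervalIntegrable fun t ht => by
        rcases hε.eq_or_lt with rfl | hε'
        · have h6 := tr a₁ w₀ h3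
          have h7 : t = a₁ + 0 * w₀ := by
            have := ht.1
            have := ht.2
            linarith
          rwa [h7]
        · have h6 := tr a₁ ((t - a₁) / ε) (bm2_mid hY hYc h3 h4
            (hw.le.trans ((le_div_iff₀ hε').2 (by linarith [ht.1])))
            ((div_le_iff₀ hε').2 (by linarith [ht.2])))
          rwa [mul_div_cancel₀ _ hε'.ne', add_sub_cancel] at h6
    rw [intervalIntegral.integral_const, smul_eq_mul] at h5
    linarith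
  have p2 := intervalIntegral.integral_mono_on zero_le_one
    ((bm2_int hZc hα a₀).add ((bm2_int hYc hβ w₀).const_mul ε)) (bm2_int hC hγ (a₀ + ε * w₀))
    fun θ hθ => by
      have h5 := bm2_sum hZ hZc hY hYc hC hCv (a := (a₁ - a₀) * θ + a₀) (w := (w₁ - w₀) * θ + w₀)
        (bm2_mid hZ hZc h0 h1 (by nlinarith [hθ.1]) (by nlinarith [hθ.2]))
        (bm2_mid hY hYc h3 h4 (by nlinarith [hθ.1]) (by nlinarith [hθ.2])) h
      exact h5.trans_eq (congrArg (pr C) (by ring))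
  rw [intervalIntegral.integral_add (bm2_int hZc hα a₀) ((bm2_int hYc hβ w₀).const_mul ε),
    intervalIntegral.integral_const_mul] at p2
  rw [bm2_sub (pr C) (a₀ + ε * w₀)] at e2
  rw [e1, bm2_sub (pr Z), bm2_sub (pr Y)]
  have hQ : 0 ≤ ∫ θ in (0 : ℝ)..1, pr Y ((w₁ - w₀) * θ + w₀) :=
    intervalIntegral.integral_nonneg zero_le_one fun _ _ => pr_nonneg _ _
  generalize (∫ θ in (0 : ℝ)..1, pr Y ((w₁ - w₀) * θ + w₀)) = Q at p2 hQ ⊢
  generalize (∫ θ in (0 : ℝ)..1, pr Z ((a₁ - a₀) * θ + a₀)) = P at p2 ⊢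
  have h5 := mul_le_mul_of_nonneg_left p2 hγ.le
  have h6 : 0 ≤ ε * (w₁ - w₀) * (ε * Q) := by positivity
  rw [← mul_assoc, ← mul_assoc, div_mul_cancel₀ _ hα.ne', div_mul_cancel₀ _ hβ.ne']
  linarith

end Pool.Agent.Lib.MP_e508a7_gt.KB
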