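import Mathlib

/-!
# The scalar inequality in normalised units: hypotheses, goal and the real lemmas
-/

set_option autoImplicit false

namespace Pool.Agent.Lib.MP_e508a7_gt.KB

/-- the constant of the inequalities three and four -/
noncomputable def Cd (d : ℝ) : ℝ := if d ≤ 1 / 3 then 6 * d * (1 - d) else 3 / 4 * (1 + d) ^ 2

/-- the normalised hypotheses -/
structure Hyp (l T s W P η e g τ D : ℝ) : Prop where
  hl : 0 ≤ l
  hT : l ≤ T
  hP : 0 < P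
  hPW : P ≤ W
  hW : W ≤ 3
  he : 0 ≤ e
  heη : e ≤ η
  hη : η ≤ 1
  tent : 2 * η ≤ l * (W + η) * (3 - W + 2 * η)
  g1 : l * e / 2 ≤ g
  g2 : g ≤ l * η / 2
  K0 : 1 / 4 ≤ 2 / 3 * P * (1 / 4 - g) - l * P ^ 2 / 6
  K2 : 0 ≤ P * (4 * (1 / 2 - 2 * g) - 2 * l - P * (2 * T - s)) + (1 / 2 - 2 * g) - 3
  K3 : 0 ≤ P * (2 * T - s * P) - (1 / 2 - 2 * g)
  KD : 0 ≤ 2 * (1 / 2 - 2 * g) - P * (2 * T - s) - l
  KE : s * P ≤ T
  hτ : 0 ≤ τ
  hD : 0 ≤ D
  S1 : τ + 7 / 2 * D ≤ (l + (2 * l - 2 * T + s) * e) * (W + e) / 2 +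
      7 / 2 * (l * e + (2 * l - 2 * T + s) * e ^ 2 / 2 - g)
  S2 : 2 * l - 2 * T + s < 0 →
      2 * (2 * T - 2 * l - s) * (τ + 7 / 2 * D + 7 / 2 * g) ≤ 7 / 2 * l ^ 2

/-- the normalised goal -/
def Good (l T s W P η e g τ D : ℝ) : Prop :=
  ∃ r d, 0 ≤ r ∧ 0 < d ∧ d < 1 ∧ 0 ≤ l + s * r ∧ ∀ m : ℝ,
    (1 - l * η / 2) * (1 - d ^ 2 + Cd d / 3) - Cd d / W * (1 + l * η ^ 2 / 6) ≤ m →
    (1 / 4 - g + D + r * T / 2 + (l + s * r) * e / 2) ^ 3 ≤
      1 / 4 * (1 / 4 - g + r * T + s * r ^ 2 / 2 + D) *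
        (((1 - d) * W * (1 / 4 - g + r * T + s * r ^ 2 / 2) / (P + r) +
          (P + r) * m / ((1 - d) * W) + d * W * (l + s * r)) / 2 -
          (l + s * r) * (W + e) / 2 - τ - (1 / 4 - g + D + r * T / 2 + (l + s * r) * e / 2))

variable {l T s W P η e g τ D : ℝ}

theorem Hyp.g0 (H : Hyp l T s W P η e g τ D) : 0 ≤ g := by
  have := mul_nonneg H.hl H.he
  linarith [H.g1]

theorem Hyp.P1 (H : Hyp l T s W P η e g τ D) : 3 / 2 ≤ P := by
  have h1 := mul_nonneg H.hP.le H.g0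
  have h2 := mul_nonneg H.hl (sq_nonneg P)
  nlinarith [H.K0]

theorem Hyp.l1 (H : Hyp l T s W P η e g τ D) : l ≤ 1 / 6 := by
  have h1 := mul_nonneg H.hP.le H.g0
  have h2 : l * P ^ 2 ≤ 1 / 6 * P ^ 2 := by nlinarith [H.K0, sq_nonneg (P - 3)]
  exact le_of_mul_le_mul_right h2 (pow_pos H.hP 2)

theorem Hyp.η0 (H : Hyp l T s W P η e g τ D) : 0 ≤ η := H.he.trans H.heη

theorem Hyp.tent' (H : Hyp l T s W P η e g τ D) : 8 * η ≤ 9 * l * (1 + η) ^ 2 := by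
  have h1 : (W + η) * (3 - W + 2 * η) ≤ 9 / 4 * (1 + η) ^ 2 := by
    nlinarith [sq_nonneg (2 * W - 3 - η)]
  have h2 := mul_le_mul_of_nonneg_left h1 H.hl
  nlinarith [H.tent]

theorem Hyp.η1 (H : Hyp l T s W P η e g τ D) : η ≤ 1 / 3 := by
  have h1 := H.tent'
  have h2 := mul_le_mul_of_nonneg_right H.l1 (sq_nonneg (1 + η))
  by_contra h
  have h3 : 0 < (η - 1 / 3) * (3 - η) := mul_pos (by linarith) (by linarith [H.hη])
  nlinarith

theorem Hyp.η2 (H : Hyp l T s W P η e g τ D) : η ≤ 2 * l := by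
  have h1 := H.tent'
  have h2 : (1 + η) ^ 2 ≤ 16 / 9 := by nlinarith [H.η1, H.η0]
  have h3 := mul_le_mul_of_nonneg_left h2 H.hl
  nlinarith

theorem Hyp.z1 (H : Hyp l T s W P η e g τ D) : 2 * T - s ≤ 2 / 3 := by
  by_contra h
  have h1 : 3 / 2 * (2 / 3) < P * (2 * T - s) :=
    mul_lt_mul' H.P1 (by linarith) (by norm_num) H.hP
  linarith [H.KD, H.g0, H.hl]

theorem Hyp.s1 (H : Hyp l T s W P η e g τ D) : s ≤ 1 / 3 := by
  by_contra h
  have h1 : s * (3 / 2) ≤ s * P := mul_le_mul_of_nonneg_left H.P1 (by linarith)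
  linarith [H.KE, H.z1]

theorem Hyp.g3 (H : Hyp l T s W P η e g τ D) : g ≤ 1 / 36 := by
  have := mul_le_mul H.l1 H.η1 H.η0 (by norm_num)
  linarith [H.g2]

/-- convexity of the tent function -/
theorem eta_le {x a c : ℝ} (hl : 0 ≤ l) (hx : 2 * x ≤ l * (W + x) * (3 - W + 2 * x))
    (hxc : x ≤ c) (ha : l * ((W + a) * (3 + 2 * a - W)) - 2 * a ≤ 0)
    (hc : l * ((W + c) * (3 + 2 * c - W)) - 2 * c < 0) : x ≤ a := by
  by_contra h
  have h0 : 0 < x - a := by linarith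
  have h1 := mul_pos h0 (sub_pos.2 hc)
  have h2 := mul_nonneg (sub_nonneg.2 hxc) (sub_nonneg.2 ha)
  have h3 : 0 ≤ l * ((x - a) * ((c - x) * (c - a))) :=
    mul_nonneg hl (mul_nonneg h0.le (mul_nonneg (by linarith) (by linarith)))
  have h4 := mul_nonneg (show 0 ≤ c - a by linarith) (sub_nonneg.2 hx)
  nlinarith

/-- two vertices suffice -/
theorem conc {a A B S : ℝ} (ha : 0 ≤ a) (hA : 0 < A) (hτ : 0 ≤ τ) (hD : 0 ≤ D)
    (hS : τ + 7 / 2 * D ≤ S) (h0 : a ^ 3 ≤ 1 / 4 * A * (B - S - a))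
    (h1 : (a + 2 / 7 * S) ^ 3 ≤ 1 / 4 * (A + 2 / 7 * S) * (B - (a + 2 / 7 * S))) :
    (a + D) ^ 3 ≤ 1 / 4 * (A + D) * (B - τ - (a + D)) := by
  obtain ⟨X, hX⟩ : ∃ X, X = 2 / 7 * S := ⟨_, rfl⟩
  have hS' : S = 7 / 2 * X := by linarith
  rw [← hX] at h1
  subst hS'
  have hDX : D ≤ X := by linarith
  rcases (hD.trans hDX).eq_or_lt with h | h
  · have e1 : D = 0 := by linarith
    have e2 : τ = 0 := by linarith
    subst e1 e2
    rw [← h] at h0
    simpa using h0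
  have y1 : 0 < A + D := by linarith
  have y2 : 0 < A + X := by linarith
  have k0 : a ^ 3 / A ≤ 1 / 4 * (B - 7 / 2 * X - a) := by
    rw [div_le_iff₀ hA]; linarith
  have k1 : (a + X) ^ 3 / (A + X) ≤ 1 / 4 * (B - (a + X)) := by
    rw [div_le_iff₀ y2]; linarith
  have hc : (A - a) ^ 3 ≤ A * (A + D) * (A + X) := by
    rcases le_total (A - a) 0 with hc | hc
    · have : (A - a) ^ 3 ≤ 0 := Odd.pow_nonpos (by decide) hc
      have : 0 < A * (A + D) * (A + X) := by positivity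
      linarith
    · calc (A - a) ^ 3 = (A - a) * (A - a) * (A - a) := by ring
        _ ≤ A * (A + D) * (A + X) := by gcongr <;> linarith
  have key : (X - D) * (a ^ 3 / A) + D * ((a + X) ^ 3 / (A + X)) - X * ((a + D) ^ 3 / (A + D)) =
      D * (X - D) * X * (1 - (A - a) ^ 3 / (A * (A + D) * (A + X))) := by
    field_simp; ring
  have hp : 0 ≤ D * (X - D) * X * (1 - (A - a) ^ 3 / (A * (A + D) * (A + X))) := by
    have : (A - a) ^ 3 / (A * (A + D) * (A + X)) ≤ 1 := by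
      rw [div_le_one (by positivity)]; exact hc
    exact mul_nonneg (mul_nonneg (mul_nonneg hD (by linarith)) h.le) (by linarith)
  have m0 := mul_le_mul_of_nonneg_left k0 (sub_nonneg.2 hDX)
  have m1 := mul_le_mul_of_nonneg_left k1 hD
  have m2 := mul_le_mul_of_nonneg_left hS h.le
  have fin : X * ((a + D) ^ 3 / (A + D)) ≤ X * (1 / 4 * (B - τ - (a + D))) := by linarith
  have fin' := le_of_mul_le_mul_left fin h
  rw [div_le_iff₀ y1] at fin'
  linarith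

/-- the goal from the two checked inequalities -/
theorem good_of (H : Hyp l T s W P η e g τ D) {r d p q1 q2 F M S Q : ℝ} (hr : 0 ≤ r)
    (hz : 0 ≤ l + s * r) (d0 : 0 < d) (d1 : d < 1) (hp : p = (1 - d) / 2)
    (hq1 : q1 / 40 * (1 - d) = 1 - d ^ 2 + Cd d / 3) (hq2 : q2 / 40 * (1 - d) = Cd d)
    (hq1' : 0 ≤ q1) (hq2' : 0 ≤ q2)
    (hF : F ≤ 1 - l * η / 2) (hM : W⁻¹ * (1 + l * η ^ 2 / 6) ≤ M)
    (hS : 4 * (τ + 7 / 2 * D) ≤ S)
    (hQ : Q = p * (W * ((1 / 2 - 2 * g + 2 * (r * T) + s * r * r) * (P + r)⁻¹ - 2 * (l + s * r))) +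
      1 / 40 * ((P + r) * W⁻¹ * (q1 * F - q2 * M)) - (l + s * r) * e)
    (m0 : 0 ≤ (1 / 2 - 2 * g + 2 * (r * T) + s * r * r) *
        (2 * Q - S - 2 * (1 / 2 - 2 * g + r * T + (l + s * r) * e)) -
      4 * (1 / 2 - 2 * g + r * T + (l + s * r) * e) ^ 3)
    (m1 : 0 ≤ (1 / 2 - 2 * g + 2 * (r * T) + s * r * r + S / 7) *
        (Q - (1 / 2 - 2 * g + r * T + (l + s * r) * e + S / 7)) -
      2 * (1 / 2 - 2 * g + r * T + (l + s * r) * e + S / 7) ^ 3) :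
    Good l T s W P η e g τ D := by
  refine ⟨r, d, hr, d0, d1, hz, fun m hm => ?_⟩
  have hT0 : 0 ≤ T := H.hl.trans H.hT
  have hW0 : 0 < W := H.hP.trans_le H.hPW
  have hPp : 0 < P + r := by linarith [H.hP]
  have hd : 0 < 1 - d := by linarith
  have a0 : 0 ≤ 1 / 4 - g + r * T / 2 + (l + s * r) * e / 2 := by
    have := mul_nonneg hr hT0
    have := mul_nonneg hz H.he
    linarith [H.g3]
  have A0 : 0 < 1 / 4 - g + r * T + s * r ^ 2 / 2 := by
    have := mul_nonneg hr hT0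
    have := mul_nonneg hr hz
    have := mul_nonneg hr (sub_nonneg.2 H.hT)
    nlinarith [H.g3]
  have c := conc (B := Q / 2) (S := S / 4) a0 A0 H.hτ H.hD (by linarith)
    (by linarith) (by linarith)
  have hm' : 1 / 40 * (q1 * F - q2 * M) ≤ m / (1 - d) := by
    rw [le_div_iff₀ hd]
    have i1 := mul_le_mul_of_nonneg_left hF hq1'
    have i2 := mul_le_mul_of_nonneg_left hM hq2'
    have i3 : 1 / 40 * (q1 * F - q2 * M) ≤
        q1 / 40 * (1 - l * η / 2) - q2 / 40 * (W⁻¹ * (1 + l * η ^ 2 / 6)) := by linarith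
    have i4 := mul_le_mul_of_nonneg_right i3 hd.le
    refine i4.trans (le_trans (le_of_eq ?_) hm)
    rw [← hq1, div_eq_mul_inv (Cd d) W]
    nth_rewrite 1 [← hq2]
    ring
  have hB : Q / 2 ≤ ((1 - d) * W * (1 / 4 - g + r * T + s * r ^ 2 / 2) / (P + r) +
      (P + r) * m / ((1 - d) * W) + d * W * (l + s * r)) / 2 - (l + s * r) * (W + e) / 2 := by
    have i1 := mul_le_mul_of_nonneg_left hm' (show 0 ≤ (P + r) * W⁻¹ by positivity)
    have e1 : (P + r) * m / ((1 - d) * W) = (P + r) * W⁻¹ * (m / (1 - d)) := by field_simp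
    rw [e1, hQ, hp, div_eq_mul_inv _ (P + r)]
    linarith
  have hA : 0 ≤ 1 / 4 * (1 / 4 - g + r * T + s * r ^ 2 / 2 + D) := by linarith [H.hD]
  have := mul_le_mul_of_nonneg_left hB hA
  have e2 : 1 / 4 - g + D + r * T / 2 + (l + s * r) * e / 2 =
    1 / 4 - g + r * T / 2 + (l + s * r) * e / 2 + D := by ring
  rw [e2]
  linarith

theorem v_ge {p : ℝ} (hW : 3 / 2 ≤ W) (hW' : W ≤ 3) (hp : 3 / 2 ≤ p) :
    1 + 2 / 15 * (p - 3 / 2) ≤ W / (5 * p) + p / W * (8 / 5 - 6 / (5 * W)) := by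
  have W0 : 0 < W := by linarith
  have p0 : 0 < p := by linarith
  have e1 : W / (5 * p) + p / W * (8 / 5 - 6 / (5 * W)) - (1 + 2 / 15 * (p - 3 / 2)) =
      (W - 3) ^ 2 * (2 * W - 3) / (15 * W ^ 2) +
        (p - 3 / 2) * ((3 - W) * (4 * W ^ 2 + 18 * W - 18) / (45 * W ^ 2)) +
        4 * W * (p - 3 / 2) ^ 2 / (45 * p) := by
    field_simp; ring
  have i1 : 0 ≤ (W - 3) ^ 2 * (2 * W - 3) / (15 * W ^ 2) :=
    div_nonneg (mul_nonneg (sq_nonneg _) (by linarith)) (by positivity)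
  have i2 : 0 ≤ (p - 3 / 2) * ((3 - W) * (4 * W ^ 2 + 18 * W - 18) / (45 * W ^ 2)) :=
    mul_nonneg (by linarith) (div_nonneg (mul_nonneg (by linarith) (by nlinarith)) (by positivity))
  have i3 : 0 ≤ 4 * W * (p - 3 / 2) ^ 2 / (45 * p) := by positivity
  linarith

/-- the region near the extremal configuration -/
theorem hand (H : Hyp l T s W P η e g τ D) (hl : l ≤ 5 / 1024) (hs : s ≤ -1 / 8) :
    Good l T s W P η e g τ D := by
  have l0 := H.hl
  have g0 := H.g0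
  have P1 := H.P1
  have hT := H.hT
  have hT0 : 0 ≤ T := l0.trans hT
  have hT1 : T ≤ 1 / 2 := by linarith [H.z1]
  have W1 : 3 / 2 ≤ W := P1.trans H.hPW
  have W0 : 0 < W := by linarith
  have s0 : 0 < -s := by linarith
  obtain ⟨r, hr⟩ : ∃ r, r = l / -s := ⟨_, rfl⟩
  have hsr : s * r = -l := by
    have : s ≠ 0 := (show s < 0 by linarith).ne
    rw [hr]; field_simp
  have r0 : 0 ≤ r := by rw [hr]; positivity
  have r1 : r ≤ 8 * l := by nlinarith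
  have hz : l + s * r = 0 := by linarith
  have hC : Cd (1 / 5) = 24 / 25 := by unfold Cd; norm_num
  refine ⟨r, 1 / 5, r0, by norm_num, by norm_num, hz.ge, fun m hm => ?_⟩
  have e0 : s * r ^ 2 = -(l * r) := by rw [pow_two, ← mul_assoc, hsr]; ring
  rw [hC] at hm
  rw [hz, e0]
  have lr0 : 0 ≤ l * r := mul_nonneg l0 r0
  have lr1 : l * r ≤ 5 / 1024 * r := mul_le_mul_of_nonneg_right hl r0
  have lr2 : l * r ≤ r * T := by nlinarith
  have rT1 : r * T ≤ 40 / 1024 * T := mul_le_mul_of_nonneg_right (by linarith) hT0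
  have hS : τ + 7 / 2 * D + 7 / 2 * g ≤ 7 / 4 * (l * r) := by
    have h1 := H.S2 (by linarith)
    have h2 : 0 ≤ τ + 7 / 2 * D + 7 / 2 * g := by linarith [H.hτ, H.hD]
    have h3 := mul_nonneg (sub_nonneg.2 hT) h2
    have h4 : -s * (τ + 7 / 2 * D + 7 / 2 * g) ≤ -s * (7 / 4 * (l * r)) := by
      have : -s * (7 / 4 * (l * r)) = 7 / 4 * l ^ 2 := by
        have : -s * (7 / 4 * (l * r)) = -(7 / 4 * l * (s * r)) := by ring
        rw [this, hsr]; ring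
      rw [this]; linarith
    exact le_of_mul_le_mul_left h4 s0
  have hPl : 3 / 2 * l + 3 / 4 * T ≤ P - 3 / 2 := by
    have h1 := mul_nonneg g0 H.hP.le
    have h2 := mul_nonneg l0 (sub_nonneg.2 P1)
    have h3 : 0 ≤ T * (P * (P - 1) - 3 / 4) := mul_nonneg hT0 (by nlinarith)
    linarith [H.K2, H.K3]
  have hτ := H.hτ
  have hD := H.hD
  obtain ⟨p, hp⟩ : ∃ p, p = P + r := ⟨_, rfl⟩
  rw [← hp]
  have p1 : 3 / 2 ≤ p := by linarith
  have p0 : 0 < p := by linarith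
  have hv := v_ge W1 H.hW p1
  have t1 : W / (5 * p) - 8 / 5 * g ≤ (1 - 1 / 5) * W * (1 / 4 - g + r * T + -(l * r) / 2) / p := by
    have h1 : W / p ≤ 2 := by rw [div_le_iff₀ p0]; linarith [H.hW]
    have h2 : 0 ≤ W / p := by positivity
    have h3 := mul_le_mul_of_nonneg_right h1 g0
    have h4 := mul_nonneg h2 (show 0 ≤ r * T - l * r / 2 by linarith)
    have e1 : (1 - 1 / 5) * W * (1 / 4 - g + r * T + -(l * r) / 2) / p =
      4 / 5 * (W / p * (1 / 4 - g + (r * T - l * r / 2))) := by field_simp; ring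
    have e2 : W / (5 * p) = W / p / 5 := by field_simp
    rw [e1, e2]; linarith
  have t2 : p / W * (8 / 5 - 6 / (5 * W)) - l / 100 ≤ p * m / ((1 - 1 / 5) * W) := by
    have h1 : p / W ≤ 11 / 10 := by rw [div_le_iff₀ W0]; linarith [H.hPW]
    have h2 : 0 ≤ p / W := by positivity
    have h3 : 1 / W ≤ 2 / 3 := by rw [div_le_iff₀ W0]; linarith
    have h4 : l * η ≤ l * (10 / 1024) := mul_le_mul_of_nonneg_left (by linarith [H.η2]) l0
    have h5 : 0 ≤ l * η := mul_nonneg l0 H.η0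
    have h6 : l * η ^ 2 ≤ l * η / 3 := by nlinarith [H.η1]
    have h7 : 0 ≤ l * η ^ 2 := by positivity
    have h8 : 1 / W * (l * η ^ 2) ≤ 2 / 3 * (l * η / 3) := mul_le_mul h3 h6 h7 (by norm_num)
    have e1 : p * m / ((1 - 1 / 5) * W) = p / W * (5 / 4 * m) := by field_simp; ring
    have e2 : 6 / (5 * W) = 6 / 5 * (1 / W) := by field_simp
    have e3 : 24 / 25 / W = 24 / 25 * (1 / W) := by field_simp
    rw [e3] at hm
    have h9 : 8 / 5 - 6 / 5 * (1 / W) - 9 / 10 * (l * η) ≤ 5 / 4 * m := by linarith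
    have h10 := mul_le_mul_of_nonneg_left h9 h2
    have h11 := mul_le_mul_of_nonneg_right h1 h5
    rw [e1, e2]; linarith
  obtain ⟨x, hx⟩ : ∃ x, x = r * T / 2 - g + D := ⟨_, rfl⟩
  obtain ⟨u, hu⟩ : ∃ u, u = r * T / 2 - l * r / 2 := ⟨_, rfl⟩
  have u0 : 0 ≤ u := by linarith
  have u1 : u ≤ 1 / 100 := by linarith
  have x0 : -1 / 1000 ≤ x := by linarith
  have x1 : x ≤ 1 / 50 := by linarith
  have x2 : x ^ 2 ≤ 1 / 50 * (r * T / 2 + g + D) := by
    have rT0 := mul_nonneg r0 hT0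
    rcases le_total 0 x with h | h
    · have := mul_le_mul_of_nonneg_right x1 h
      linarith
    · have := mul_le_mul_of_nonneg_right (show -x ≤ 1 / 50 by linarith) (show 0 ≤ -x by linarith)
      linarith
  have ea : 1 / 4 - g + D + r * T / 2 + 0 * e / 2 = 1 / 4 + x := by rw [hx]; ring
  have eA : 1 / 4 - g + r * T + -(l * r) / 2 + D = 1 / 4 + x + u := by rw [hx, hu]; ring
  rw [ea, eA]
  obtain ⟨B, hB⟩ : ∃ B, B = ((1 - 1 / 5) * W * (1 / 4 - g + r * T + -(l * r) / 2) / p +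
    p * m / ((1 - 1 / 5) * W) + 1 / 5 * W * 0) / 2 - 0 * (W + e) / 2 - τ - (1 / 4 + x) := ⟨_, rfl⟩
  rw [← hB]
  have hB0 : 4 * (1 / 4 + x) ^ 2 - 9 / 10 * u ≤ B := by
    rw [hB]; linarith
  have h1 := mul_le_mul_of_nonneg_left hB0 (show 0 ≤ 1 / 4 * (1 / 4 + x + u) by linarith)
  have h2 : 0 ≤ u * ((1 / 4 + x) ^ 2 - 9 / 40 * (1 / 4 + x + u)) := mul_nonneg u0 (by linarith [sq_nonneg x])
  linarith

end Pool.Agent.Lib.MP_e508a7_gt.KB
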