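import Pool.Agent.Lib.MP_e508a7_gt.KBAff
import Pool.Agent.Lib.MP_e508a7_gt.KBReal

/-!
# The checker of the subdivision tree and its soundness
-/

set_option autoImplicit false

namespace Pool.Agent.Lib.MP_e508a7_gt.KB

/-- a box -/
structure Bx where
  l0 : Nat
  h0 : Nat
  l1 : Nat
  h1 : Nat
  l2 : Nat
  h2 : Nat
  l3 : Nat
  h3 : Nat
  l4 : Nat
  h4 : Nat
  l5 : Nat
  h5 : Nat

/-- a subdivision tree -/
inductive Tr where
  | hand : Tr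
  | inf (eta a0 a1 a2 a3 a4 : Nat) : Tr
  | ok (eta cp cn r1 r2 d si a0 a1 a2 a3 a4 b0 b1 b2 b3 b4 : Nat) : Tr
  | nd (k m : Nat) (A B : Tr) : Tr

/-- the forms shared by the leaves -/
structure Fm where
  l : AF
  T : AF
  s : AF
  sp : AF
  b : AF
  W : AF
  P : AF
  e : AF
  th : AF
  le : AF
  g2 : AF
  k2 : AF
  sg : AF
  K0 : AF
  K1 : AF
  K2 : AF
  K3 : AF
  K4 : AF

/-- third layer -/
def mkH (l T s sp b P e th le g2 k2 sg Pz sP : AF) : Fm :=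
  ⟨l, T, s, sp, b, b.inv, P, e, th, le, g2, k2, sg,
    ((P.mul (((k2.zm 4).sub (l.zm 2)).sub Pz)).add k2).addc 0 12884901888,
    (P.mul ((T.zm 2).sub sP)).sub k2, ((k2.zm 2).sub Pz).sub l,
    (b.mul P).neg.addc 4294967296 0, T.sub sP⟩

/-- second layer -/
def mkG (l rho T s sp b P e th le g2 : AF) : Fm :=
  mkH l T s sp b P e th le g2 (g2.neg.addc 2147483648 0) (s.sub (rho.zm 2))
    (P.mul ((T.zm 2).sub s)) (s.mul P)

/-- first layer -/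
def mkE (l rho sp b P e th le : AF) : Fm :=
  mkG l rho (l.add rho) (sp.addc 0 4294967296) sp b P e th le (le.add th)

/-- the forms from the variables -/
def mkD (l rho sp b P e th : AF) : Fm := mkE l rho sp b P e th (l.mul e)

/-- the minimum -/
def nmin (a b : Nat) : Nat := cond (Nat.ble a b) a b

/-- the forms of a box -/
def mkF (x : Bx) (η : Nat) : Fm :=
  mkD (AF.var0 x.l0 x.h0) (AF.var1 x.l1 x.h1) (AF.var2 x.l2 x.h2) (AF.var3 x.l3 x.h3)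
    (AF.var4 x.l4 x.h4) (AF.var5 x.l5 (nmin x.h5 η))
    (AF.var6 0 (Nat.add (Nat.shiftRight (Nat.mul x.h0 (Nat.sub η x.l5)) 32) 1))

/-- subtract a multiple -/
def csub (k : Nat) (a m : AF) : AF := cond (Nat.beq k 0) m (m.sub (a.sc k 4096))

/-- add a multiple -/
def cadd (k : Nat) (a m : AF) : AF := cond (Nat.beq k 0) m (m.add (a.sc k 4096))

/-- subtract multiples of the constraints -/
def lsub (F : Fm) (a0 a1 a2 a3 a4 : Nat) (m : AF) : AF :=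
  csub a4 F.K4 (csub a3 F.K3 (csub a2 F.K2 (csub a1 F.K1 (csub a0 F.K0 m))))

/-- the tent function -/
def ften (l W : AF) (η : Nat) : AF :=
  (l.mul ((W.addc η 0).mul (W.neg.addc (Nat.add 12884901888 (Nat.mul 2 η)) 0))).addc 0 (Nat.mul 2 η)

/-- the tent check -/
def etaB (l W : AF) (η : Nat) : Bool :=
  Nat.ble 1431655766 η || ((ften l W 1431655766).neg.pos && (ften l W η).neg.nn)

/-- the tent check of a box -/
def etaC (x : Bx) (η : Nat) : Bool :=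
  (AF.var3 x.l3 x.h3).pos && etaB (AF.var0 x.l0 x.h0) (AF.var3 x.l3 x.h3).inv η

/-- menu of levels -/
def dpf : Nat → Nat
  | 0 => 24
  | 1 => 20
  | 2 => 15
  | _ => 10

/-- menu of levels -/
def q1f : Nat → Nat
  | 0 => 64
  | 1 => 80
  | 2 => 105
  | _ => 150

/-- menu of levels -/
def q2f : Nat → Nat
  | 0 => 48
  | 1 => 80
  | 2 => 135
  | _ => 250

/-- first score bound -/
def sA (F : Fm) (se : AF) : AF :=
  (((F.l.add se).mul (F.W.add F.e)).zm 2).add (((F.le.sub F.th).add (se.mul F.e)).zm 7)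

/-- second score bound -/
def sB (F : Fm) : AF := (((F.l.mul F.l).mul F.sg.neg.inv).sub F.g2).zm 7

/-- the two final checks -/
def finB (F : Fm) (A2 al Q S4 X a : AF) (a0 a1 a2 a3 a4 b0 b1 b2 b3 b4 : Nat) : Bool :=
  (lsub F a0 a1 a2 a3 a4
    ((A2.mul (((Q.zm 2).sub S4).sub (al.zm 2))).sub ((al.mul (al.mul al)).zm 4))).nn &&
  (lsub F b0 b1 b2 b3 b4 (((A2.add X).mul (Q.sub a)).sub ((a.mul (a.mul a)).zm 2))).nn

/-- the two final checks -/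
def finA (F : Fm) (A2 al Q S4 X : AF) (a0 a1 a2 a3 a4 b0 b1 b2 b3 b4 : Nat) : Bool :=
  finB F A2 al Q S4 X (al.add X) a0 a1 a2 a3 a4 b0 b1 b2 b3 b4

/-- the lower bound of twice the mixed area -/
def mkQ (F : Fm) (η d : Nat) (A2 zt ze Pp : AF) : AF :=
  (((F.W.mul ((A2.mul Pp.inv).sub (zt.zm 2))).sc (dpf d) 60).add
    (((Pp.mul F.b).mul ((((F.l.sc η 8589934592).neg.addc 4294967296 0).zm (q1f d)).sub
      ((F.b.mul ((F.l.sc (Nat.add (Nat.shiftRight (Nat.mul η η) 32) 1) 25769803776).addc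
        4294967296 0)).zm (q2f d)))).sc 1 40)).sub ze

/-- leaf check, third layer -/
def okC (F : Fm) (η d : Nat) (S4 A2 zt ze rT Pp : AF) (a0 a1 a2 a3 a4 b0 b1 b2 b3 b4 : Nat) : Bool :=
  Pp.pos && finA F A2 ((F.k2.add rT).add ze) (mkQ F η d A2 zt ze Pp) S4 (S4.sc 1 7)
    a0 a1 a2 a3 a4 b0 b1 b2 b3 b4

/-- leaf check, second layer -/
def okB (F : Fm) (c : Bool) (η d : Nat) (S4 r sr zt rT : AF)
    (a0 a1 a2 a3 a4 b0 b1 b2 b3 b4 : Nat) : Bool :=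
  (c || (r.nn && zt.nn)) &&
    okC F η d S4 ((F.k2.add (rT.zm 2)).add (sr.mul r)) zt (zt.mul F.e) rT (F.P.add r)
      a0 a1 a2 a3 a4 b0 b1 b2 b3 b4

/-- leaf check, first layer -/
def okA (F : Fm) (c : Bool) (η d : Nat) (S4 r sr : AF)
    (a0 a1 a2 a3 a4 b0 b1 b2 b3 b4 : Nat) : Bool :=
  okB F c η d S4 r sr (F.l.add sr) (r.mul F.T) a0 a1 a2 a3 a4 b0 b1 b2 b3 b4

/-- leaf check for a given shift -/
def okR (F : Fm) (c : Bool) (η d : Nat) (S4 r : AF)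
    (a0 a1 a2 a3 a4 b0 b1 b2 b3 b4 : Nat) : Bool :=
  okA F c η d S4 r (F.s.mul r) a0 a1 a2 a3 a4 b0 b1 b2 b3 b4

/-- leaf check for given forms -/
def okF (F : Fm) (l2 η cp cn r1 r2 d si a0 a1 a2 a3 a4 b0 b1 b2 b3 b4 : Nat) : Bool :=
  (Nat.beq si 0 || F.sg.neg.pos) &&
  okR F (Nat.beq cp 0 && (Nat.beq cn 0 && (Nat.beq r2 0 &&
      Nat.ble (Nat.mul r1 (Nat.sub 4294967296 l2)) 17592186044416))) η d
    (cond (Nat.beq si 0) (sA F (F.sg.mul F.e)) (sB F))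
    (cadd r2 F.sp (cadd r1 F.l (AF.cst (Nat.mul cp 65536) (Nat.mul cn 65536))))
    a0 a1 a2 a3 a4 b0 b1 b2 b3 b4

/-- lower half of a box -/
def Bx.lo (x : Bx) (k m : Nat) : Bx :=
  match k with
  | 0 => ⟨x.l0, m, x.l1, x.h1, x.l2, x.h2, x.l3, x.h3, x.l4, x.h4, x.l5, x.h5⟩
  | 1 => ⟨x.l0, x.h0, x.l1, m, x.l2, x.h2, x.l3, x.h3, x.l4, x.h4, x.l5, x.h5⟩
  | 2 => ⟨x.l0, x.h0, x.l1, x.h1, x.l2, m, x.l3, x.h3, x.l4, x.h4, x.l5, x.h5⟩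
  | 3 => ⟨x.l0, x.h0, x.l1, x.h1, x.l2, x.h2, x.l3, m, x.l4, x.h4, x.l5, x.h5⟩
  | 4 => ⟨x.l0, x.h0, x.l1, x.h1, x.l2, x.h2, x.l3, x.h3, x.l4, m, x.l5, x.h5⟩
  | _ => ⟨x.l0, x.h0, x.l1, x.h1, x.l2, x.h2, x.l3, x.h3, x.l4, x.h4, x.l5, m⟩

/-- upper half of a box -/
def Bx.hi (x : Bx) (k m : Nat) : Bx :=
  match k with
  | 0 => ⟨m, x.h0, x.l1, x.h1, x.l2, x.h2, x.l3, x.h3, x.l4, x.h4, x.l5, x.h5⟩
  | 1 => ⟨x.l0, x.h0, m, x.h1, x.l2, x.h2, x.l3, x.h3, x.l4, x.h4, x.l5, x.h5⟩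
  | 2 => ⟨x.l0, x.h0, x.l1, x.h1, m, x.h2, x.l3, x.h3, x.l4, x.h4, x.l5, x.h5⟩
  | 3 => ⟨x.l0, x.h0, x.l1, x.h1, x.l2, x.h2, m, x.h3, x.l4, x.h4, x.l5, x.h5⟩
  | 4 => ⟨x.l0, x.h0, x.l1, x.h1, x.l2, x.h2, x.l3, x.h3, m, x.h4, x.l5, x.h5⟩
  | _ => ⟨x.l0, x.h0, x.l1, x.h1, x.l2, x.h2, x.l3, x.h3, x.l4, x.h4, m, x.h5⟩

/-- check of an infeasible leaf -/
def infX (x : Bx) (η a0 a1 a2 a3 a4 : Nat) : Bool :=
  etaC x η && (Nat.ble (Nat.add η 1) x.l5 || (lsub (mkF x η) a0 a1 a2 a3 a4 (AF.cst 0 0)).pos)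

/-- check of a good leaf -/
def okX (x : Bx) (η cp cn r1 r2 d si a0 a1 a2 a3 a4 b0 b1 b2 b3 b4 : Nat) : Bool :=
  etaC x η && okF (mkF x η) x.l2 η cp cn r1 r2 d si a0 a1 a2 a3 a4 b0 b1 b2 b3 b4

/-- the checker -/
noncomputable def chk (t : Tr) : Bx → Bool :=
  Tr.rec (motive := fun _ => Bx → Bool)
    (fun x => Nat.ble x.h0 20971520 && Nat.ble x.h2 3758096384)
    (fun eta a0 a1 a2 a3 a4 x => infX x (Nat.mul eta 65536) a0 a1 a2 a3 a4)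
    (fun eta cp cn r1 r2 d si a0 a1 a2 a3 a4 b0 b1 b2 b3 b4 x =>
      okX x (Nat.mul eta 65536) cp cn r1 r2 d si a0 a1 a2 a3 a4 b0 b1 b2 b3 b4)
    (fun k m _ _ f g x => f (x.lo k m) && g (x.hi k m)) t

end Pool.Agent.Lib.MP_e508a7_gt.KB
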