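import Pool.Agent.Lib.MP_e508a7_gt.KBDefs

/-!
# Inequalities for concave functions on an interval
-/

set_option autoImplicit false

namespace Pool.Agent.Lib.MP_e508a7_gt.KB

open MeasureTheory Set Filter Topology Metric Bornology

variable {φ : ℝ → ℝ} {A B : ℝ}

theorem Prof.mono (h : Prof φ A B) {A' B' : ℝ} (h1 : A ≤ A') (h2 : A' ≤ B') (h3 : B' ≤ B) :
    Prof φ A' B' := by
  refine ⟨h2, h.conc.subset (Icc_subset_Icc h1 h3) (convex_Icc _ _),
    fun y hy => h.nn y (Icc_subset_Icc h1 h3 hy), h.int.mono_set ?_⟩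
  rw [uIcc_of_le h2, uIcc_of_le h.le]
  exact Icc_subset_Icc h1 h3

theorem Prof.neg (h : Prof φ A B) : Prof (fun y => φ (-y)) (-B) (-A) := by
  have m : ∀ y ∈ Icc (-B) (-A), -y ∈ Icc A B := fun y hy => ⟨by linarith [hy.2], by linarith [hy.1]⟩
  refine ⟨neg_le_neg h.le, ⟨convex_Icc _ _, fun x hx y hy a b ha hb hab => ?_⟩,
    fun y hy => h.nn _ (m y hy), ((IntervalIntegrable.iff_comp_neg).1 h.int).symm⟩
  simpa [add_comm] using h.conc.2 (m x hx) (m y hy) ha hb hab

theorem od1_three (h : Prof φ A B) {x y z : ℝ} (hx : A ≤ x) (hxy : x ≤ y) (hyz : y ≤ z)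
    (hz : z ≤ B) : φ x * (z - y) + φ z * (y - x) ≤ (z - x) * φ y := by
  rcases hxy.eq_or_lt with rfl | hxy
  · linarith
  rcases hyz.eq_or_lt with rfl | hyz
  · linarith
  have := h.conc.neg.secant_mono_aux1 ⟨hx, by linarith⟩ ⟨by linarith, hz⟩ hxy hyz
  simp only [Pi.neg_apply] at this
  linarith

theorem od1_int (h : Prof φ A B) {a b c0 c1 c2 : ℝ} (hp : ∀ y ∈ Icc A B,
    c0 + c1 * (y - A) + c2 * (y - A) ^ 2 ≤ a * φ y + b * ((y - A) * φ y)) :
    c0 * (B - A) + c1 * (B - A) ^ 2 / 2 + c2 * (B - A) ^ 3 / 3 ≤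
      a * (∫ y in A..B, φ y) + b * ∫ y in A..B, (y - A) * φ y := by
  have i0 := h.int.const_mul a
  have i1 := (h.int.continuousOn_mul (g := fun y => y - A) (by fun_prop)).const_mul b
  have := intervalIntegral.integral_mono_on h.le (Continuous.intervalIntegrable (by fun_prop) _ _)
    (i0.add i1) hp
  rw [intervalIntegral.integral_add i0 i1, intervalIntegral.integral_const_mul,
    intervalIntegral.integral_const_mul,
    intervalIntegral.integral_eq_sub_of_hasDerivAt (f := fun y => c0 * (y - A) +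
      c1 * (y - A) ^ 2 / 2 + c2 * (y - A) ^ 3 / 3) (fun y _ => ?_)
      (Continuous.intervalIntegrable (by fun_prop) _ _)] at this
  · linarith
  · have d := (hasDerivAt_id' y).sub_const A
    exact (((d.const_mul c0).add (((d.pow 2).const_mul c1).div_const 2)).add
      (((d.pow 3).const_mul c2).div_const 3)).congr_deriv (by push_cast; ring)

theorem Prof.lin (h : Prof φ A B) : ∫ y in A..B, (y - A) * φ y ≤
    2 / 3 * (B - A) * (∫ y in A..B, φ y) - φ A * (B - A) ^ 2 / 6 := by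
  rcases h.le.eq_or_lt with rfl | hD
  · simp
  obtain ⟨m, hm⟩ : ∃ m, m = 2 / 3 * (B - A) := ⟨_, rfl⟩
  have m0 : 0 < m := by linarith
  obtain ⟨s, hs⟩ : ∃ s, φ (A + m) = φ A + s * m := ⟨(φ (A + m) - φ A) / m, by field_simp; ring⟩
  have := od1_int h (a := m) (b := -1) (c0 := m * φ A) (c1 := m * s - φ A) (c2 := -s) fun y hy => by
    rcases le_total y (A + m) with e | e
    · have := od1_three h le_rfl hy.1 e (by linarith)
      have : φ A + s * (y - A) ≤ φ y := le_of_mul_le_mul_left (by rw [hs] at this; linarith) m0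
      nlinarith [mul_nonneg (sub_nonneg.2 e) (sub_nonneg.2 this)]
    · have := od1_three h le_rfl (by linarith) e hy.2
      have : φ y ≤ φ A + s * (y - A) := le_of_mul_le_mul_left (by rw [hs] at this; linarith) m0
      nlinarith [mul_nonneg (sub_nonneg.2 e) (sub_nonneg.2 this)]
  subst hm
  linarith

theorem Prof.lin' (h : Prof φ A B) : ∫ y in A..B, (B - y) * φ y ≤
    2 / 3 * (B - A) * (∫ y in A..B, φ y) - φ B * (B - A) ^ 2 / 6 := by
  have := h.neg.lin
  rw [intervalIntegral.integral_comp_neg φ,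
    show (fun y => (y - -B) * φ (-y)) = fun y => (fun y => (B - y) * φ y) (-y) from
      funext fun y => by ring, intervalIntegral.integral_comp_neg fun y => (B - y) * φ y] at this
  simp only [neg_neg] at this
  linarith

theorem Prof.lin0 (h : Prof φ A B) :
    (B - A) / 3 * (∫ y in A..B, φ y) ≤ ∫ y in A..B, (y - A) * φ y := by
  have := h.lin'
  rw [show (fun y => (B - y) * φ y) = fun y => (B - A) * φ y - (y - A) * φ y from
    funext fun y => by ring, intervalIntegral.integral_sub (h.int.const_mul _)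
      (h.int.continuousOn_mul (by fun_prop)), intervalIntegral.integral_const_mul] at this
  linarith [mul_nonneg (h.nn B ⟨h.le, le_rfl⟩) (sq_nonneg (B - A))]

theorem Prof.chord (h : Prof φ A B) : (φ A + φ B) * (B - A) / 2 ≤ ∫ y in A..B, φ y := by
  rcases h.le.eq_or_lt with rfl | hD
  · simp
  have := od1_int h (a := B - A) (b := 0) (c0 := φ A * (B - A)) (c1 := φ B - φ A) (c2 := 0)
    fun y hy => by linarith [od1_three h le_rfl hy.1 hy.2 le_rfl]
  exact le_of_mul_le_mul_left (by linarith) (sub_pos.2 hD)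

theorem Prof.chord1 (h : Prof φ A B) :
    (φ A + 2 * φ B) * (B - A) ^ 2 / 6 ≤ ∫ y in A..B, (y - A) * φ y := by
  rcases h.le.eq_or_lt with rfl | hD
  · simp
  have := od1_int h (a := 0) (b := B - A) (c0 := 0) (c1 := φ A * (B - A)) (c2 := φ B - φ A)
    fun y hy => by
      linarith [mul_le_mul_of_nonneg_left (od1_three h le_rfl hy.1 hy.2 le_rfl) (sub_nonneg.2 hy.1)]
  exact le_of_mul_le_mul_left (by linarith) (sub_pos.2 hD)

theorem od2_int (h : Prof φ A B) : IntervalIntegrable (fun y => y * φ y) volume A B :=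
  h.int.continuousOn_mul continuousOn_id

theorem od2_lin (h : Prof φ A B) (α β : ℝ) : ∫ y in A..B, (α + β * y) * φ y =
    α * (∫ y in A..B, φ y) + β * ∫ y in A..B, y * φ y := by
  simp only [add_mul, mul_assoc]
  rw [intervalIntegral.integral_add (h.int.const_mul _) ((od2_int h).const_mul _),
    intervalIntegral.integral_const_mul, intervalIntegral.integral_const_mul]

theorem od2_sub (h : Prof φ A B) (c : ℝ) : ∫ y in A..B, (y - c) * φ y =
    (∫ y in A..B, y * φ y) - c * ∫ y in A..B, φ y := by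
  simp only [sub_mul]
  rw [intervalIntegral.integral_sub (od2_int h) (h.int.const_mul _),
    intervalIntegral.integral_const_mul]

theorem od2_le (h : Prof φ A B) (α β p q : ℝ)
    (H : ∀ y ∈ Icc A B, (α + β * y) * φ y ≤ (α + β * y) * (p + q * y)) :
    α * (∫ y in A..B, φ y) + β * ∫ y in A..B, y * φ y ≤
      α * p * (B - A) + (α * q + β * p) * (B ^ 2 - A ^ 2) / 2 + β * q * (B ^ 3 - A ^ 3) / 3 := by
  have h1 := intervalIntegral.integral_mono_on h.le (h.int.continuousOn_mul (by fun_prop))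
    (Continuous.intervalIntegrable (by fun_prop) _ _) H
  have h2 := intervalIntegral.integral_eq_sub_of_hasDerivAt (a := A) (b := B)
    (f := fun y => α * p * y + (α * q + β * p) * y ^ 2 / 2 + β * q * y ^ 3 / 3)
    (f' := fun y => (α + β * y) * (p + q * y)) (fun y _ => ((((hasDerivAt_id' y).const_mul _).add
      (((hasDerivAt_pow 2 y).const_mul _).div_const 2)).add
      (((hasDerivAt_pow 3 y).const_mul _).div_const 3)).congr_deriv (by push_cast; ring))
    (Continuous.intervalIntegrable (by fun_prop) _ _)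
  rw [od2_lin h, h2] at h1
  linarith

theorem od2_split (h : Prof φ A B) {r : ℝ} (h1 : A ≤ r) (h2 : r ≤ B) :
    (∫ y in A..B, φ y) = (∫ y in A..r, φ y) + (∫ y in r..B, φ y) ∧
      (∫ y in A..B, y * φ y) = (∫ y in A..r, y * φ y) + ∫ y in r..B, y * φ y :=
  ⟨(intervalIntegral.integral_add_adjacent_intervals (h.mono le_rfl h1 h2).int
    (h.mono h1 h2 le_rfl).int).symm, (intervalIntegral.integral_add_adjacent_intervals
    (od2_int (h.mono le_rfl h1 h2)) (od2_int (h.mono h1 h2 le_rfl))).symm⟩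

/-- the secant through two points of the graph -/
theorem od2_sec (h : Prof φ A B) {r s : ℝ} (h1 : A ≤ r) (h2 : r < s) (h3 : s ≤ B) :
    ∃ p q, ∀ y ∈ Icc A B, (y ≤ r ∨ s ≤ y → φ y ≤ p + q * y) ∧
      (r ≤ y → y ≤ s → p + q * y ≤ φ y) := by
  obtain ⟨q, hq⟩ : ∃ q, q = (φ s - φ r) / (s - r) := ⟨_, rfl⟩
  have hq' : q * (s - r) = φ s - φ r := by rw [hq, div_mul_cancel₀ _ (sub_pos.2 h2).ne']
  have hr : r ∈ Icc A B := ⟨h1, h2.le.trans h3⟩
  have hs : s ∈ Icc A B := ⟨h1.trans h2.le, h3⟩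
  refine ⟨φ r - q * r, q, fun y hy => ⟨fun h4 => ?_, fun h4 h5 => ?_⟩⟩
  · rcases h4 with h4 | h4
    · rcases h4.eq_or_lt with rfl | h4
      · linarith
      have := h.conc.slope_anti_adjacent hy hs h4 h2
      rw [← hq, le_div_iff₀ (sub_pos.2 h4)] at this
      linarith
    · rcases h4.eq_or_lt with rfl | h4
      · linarith
      have := h.conc.slope_anti_adjacent hr hy h2 h4
      rw [← hq, div_le_iff₀ (sub_pos.2 h4)] at this
      linarith
  · rcases h4.eq_or_lt with rfl | h4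
    · linarith
    rcases h5.eq_or_lt with rfl | h5
    · linarith
    have := h.conc.slope_anti_adjacent hr hs h4 h5
    rw [div_le_div_iff₀ (sub_pos.2 h5) (sub_pos.2 h4)] at this
    exact le_of_mul_le_mul_right (by linear_combination this + (y - r) * hq') (sub_pos.2 h2)

theorem od2_mir (h : Prof φ A B) :
    ∫ y in A..B, y * φ y ≤ (A + 2 * B) / 3 * ∫ y in A..B, φ y := by
  have h1 := h.lin
  rw [od2_sub h] at h1
  linarith [mul_nonneg (h.nn A ⟨le_rfl, h.le⟩) (sq_nonneg (B - A))]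

theorem Prof.three (h : Prof φ A B) {d : ℝ} (h0 : 0 ≤ d) (h1 : d ≤ 1 / 3) :
    (B - A) * ∫ y in (B - d * (B - A))..B, φ y ≤
      (d ^ 2 - 2 * d * (1 - d)) * (B - A) * (∫ y in A..B, φ y) +
        6 * d * (1 - d) * ∫ y in A..B, (y - A) * φ y := by
  rcases h.le.eq_or_lt with rfl | hD
  · simp
  obtain ⟨e, he⟩ : ∃ e, e * (6 * (1 - d)) = d := ⟨_, div_mul_cancel₀ _ (by linarith)⟩
  have e0 : 0 ≤ e := by nlinarith
  have e1 : e ≤ 1 / 12 := by nlinarith
  have hC : 0 ≤ 6 * d * (1 - d) := by nlinarith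
  have hD' := sub_pos.2 hD
  have a1 : A ≤ B - d * (B - A) := by nlinarith
  have a2 : B - d * (B - A) ≤ B := by nlinarith
  obtain ⟨p, q, H⟩ := od2_sec h (r := A + (B - A) * (1 / 3 - e)) (s := B - d * (B - A))
    (by nlinarith) (by nlinarith) a2
  have b1 := od2_le (h.mono le_rfl a1 a2)
    (6 * d * (1 - d) * A + (2 * d * (1 - d) - d ^ 2) * (B - A)) (-(6 * d * (1 - d))) p q
    fun y hy => by
      have H' := H y ⟨hy.1, hy.2.trans a2⟩
      have e2 : 6 * d * (1 - d) * A + (2 * d * (1 - d) - d ^ 2) * (B - A) + -(6 * d * (1 - d)) * y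
          = 6 * d * (1 - d) * (A + (B - A) * (1 / 3 - e) - y) := by
        linear_combination d * (B - A) * he
      rw [e2]
      rcases le_total y (A + (B - A) * (1 / 3 - e)) with h2 | h2
      · exact mul_le_mul_of_nonneg_left (H'.1 (Or.inl h2)) (mul_nonneg hC (sub_nonneg.2 h2))
      · exact mul_le_mul_of_nonpos_left (H'.2 h2 hy.2)
          (mul_nonpos_of_nonneg_of_nonpos hC (sub_nonpos.2 h2))
  have b2 := od2_le (h.mono a1 a2 le_rfl)
    (B - A + 6 * d * (1 - d) * A + (2 * d * (1 - d) - d ^ 2) * (B - A)) (-(6 * d * (1 - d))) p q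
    fun y hy => by
      refine mul_le_mul_of_nonneg_left ((H y ⟨a1.trans hy.1, hy.2⟩).1 (Or.inr hy.1)) ?_
      have := mul_nonneg hD'.le (mul_nonneg (show 0 ≤ 1 - d by linarith)
        (show 0 ≤ 1 - 3 * d by linarith))
      linarith [mul_nonneg hC (sub_nonneg.2 hy.2)]
  obtain ⟨s1, s2⟩ := od2_split h a1 a2
  rw [od2_sub h, s1, s2]
  linarith

theorem Prof.four (h : Prof φ A B) {d : ℝ} (h0 : 1 / 3 ≤ d) (h1 : d ≤ 1) :
    (B - A) * ∫ y in (B - d * (B - A))..B, φ y ≤
      (d ^ 2 - (1 + d) ^ 2 / 4) * (B - A) * (∫ y in A..B, φ y) +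
        3 / 4 * (1 + d) ^ 2 * ∫ y in A..B, (y - A) * φ y := by
  rcases h1.eq_or_lt with rfl | h1
  · rw [one_mul, sub_sub_cancel]
    linarith [h.lin0]
  obtain ⟨s, hs⟩ : ∃ s, s * (1 + d) = 2 * (1 - d) := ⟨_, div_mul_cancel₀ _ (by linarith)⟩
  have s0 : 0 < s := by nlinarith
  have s1 : s ≤ 1 := by nlinarith
  have hD := sub_nonneg.2 h.le
  obtain ⟨m, hm⟩ : ∃ m, m = A + s * (B - A) := ⟨_, rfl⟩
  have a1 : A ≤ m := by nlinarith
  have a2 : m ≤ B := by nlinarith
  have e1 : m - (1 - d) / 2 * (m - A) = B - d * (B - A) := by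
    rw [hm]
    linear_combination (B - A) / 2 * hs
  have a3 : A ≤ B - d * (B - A) := by nlinarith
  have a4 : B - d * (B - A) ≤ m := by nlinarith
  have b1 := (h.mono le_rfl a1 a2).three (d := (1 - d) / 2) (by linarith) (by linarith)
  have b2 := (h.mono a1 a2 le_rfl).lin0
  rw [e1, od2_sub (h.mono le_rfl a1 a2)] at b1
  rw [od2_sub (h.mono a1 a2 le_rfl)] at b2
  obtain ⟨t1, t2⟩ := od2_split h a1 a2
  rw [od2_sub h, t1, t2, (od2_split (h.mono a3 (a4.trans a2) le_rfl) a4 a2).1]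
  generalize ∫ y in (B - d * (B - A))..m, φ y = P at *
  generalize ∫ y in A..m, φ y = J0 at *
  generalize ∫ y in A..m, y * φ y = J1 at *
  generalize ∫ y in m..B, φ y = K0 at *
  generalize ∫ y in m..B, y * φ y = K1 at *
  subst hm
  have c1 : (B - A) * P ≤ (d ^ 2 - (1 + d) ^ 2 / 4) * (B - A) * J0 +
      3 / 4 * (1 + d) ^ 2 * (J1 - A * J0) :=
    le_of_mul_le_mul_left (by linear_combination b1 - 3 / 4 * (1 + d) * (J1 - A * J0) * hs) s0
  linear_combination c1 + 3 / 4 * (1 + d) ^ 2 * b2 - (1 + d) / 2 * (B - A) * K0 * hs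

theorem Prof.tent (h : Prof φ A B) {l η : ℝ} (hl : 0 ≤ l) (hη : 0 ≤ η) (hB : B ≤ 1 + η)
    (h1 : ∫ y in A..B, φ y = 1) (h2 : ∫ y in A..B, y * φ y = 0)
    (h3 : ∀ y ∈ Icc A B, η * φ y ≤ l * (1 + η - y)) :
    2 * η ≤ l * (1 - A + η) * (2 + A + 2 * η) := by
  have m1 := od2_mir h
  rw [h1, h2] at m1
  have hAB := h.le
  rcases hη.eq_or_lt with rfl | hη
  · exact (mul_zero _).trans_le (mul_nonneg (mul_nonneg hl (by linarith)) (by linarith))
  obtain ⟨K, rfl⟩ : ∃ K, l = η * K := ⟨l / η, (mul_div_cancel₀ _ hη.ne').symm⟩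
  have K0 : 0 ≤ K := nonneg_of_mul_nonneg_right hl hη
  have h4 : ∀ y ∈ Icc A B, φ y ≤ K * (1 + η) + -K * y := fun y hy =>
    le_of_mul_le_mul_left (by linarith [h3 y hy]) hη
  obtain ⟨D, hD⟩ : ∃ D, D = 1 - A + η := ⟨_, rfl⟩
  have D0 : 0 ≤ D := by linarith
  have b0 := od2_le h 1 0 _ _ fun y hy => mul_le_mul_of_nonneg_left (h4 y hy) (by simp)
  have b1 : 2 ≤ K * D * D := by
    rw [h1] at b0
    rw [hD]
    linarith [mul_nonneg K0 (sq_nonneg (1 + η - B))]
  have KD : 0 < K * D := (mul_nonneg K0 D0).lt_of_ne fun e => by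
    rw [← e] at b1
    linarith
  obtain ⟨m, hm⟩ : ∃ m, K * D * m = 2 := ⟨_, mul_div_cancel₀ _ KD.ne'⟩
  have m0 : 0 < m := by nlinarith
  have m2 : m ≤ D := le_of_mul_le_mul_left (by linarith) KD
  suffices h5 : m ≤ 2 + A + 2 * η by
    rw [← hD]
    linear_combination η * mul_le_mul_of_nonneg_left h5 KD.le - η * hm
  rcases le_total B (1 + η - m) with h6 | h6
  · linarith
  have a1 : A ≤ 1 + η - m := by linarith
  obtain ⟨s1, s2⟩ := od2_split h a1 h6
  have b2 := od2_mir (h.mono le_rfl a1 h6)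
  have b3 := od2_le (h.mono a1 h6 le_rfl) ((A + 2 * (1 + η - m)) / -3) 1 _ _ fun y hy =>
    mul_le_mul_of_nonneg_left (h4 y ⟨a1.trans hy.1, hy.2⟩) (by linarith [hy.1])
  have b4 : 0 ≤ K * (1 + η - B) ^ 2 * ((2 * m + D) / 6 - (1 + η - B) / 3) :=
    mul_nonneg (mul_nonneg K0 (sq_nonneg _)) (by linarith)
  subst hD
  linear_combination 3 * b2 + 3 * b3 + 3 * b4 + 3 * s2 - 3 * h2 - (A + 2 * (1 + η - m)) * s1 +
    (A + 2 * (1 + η - m)) * h1 + m / 2 * hm

end Pool.Agent.Lib.MP_e508a7_gt.KB
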