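import Pool.Agent.Lib.MP_e508a7_gt.KBProfile
import Pool.Agent.Lib.MP_e508a7_gt.KBOneD

/-!
# At most two touching chords
-/

set_option autoImplicit false

namespace Pool.Agent.Lib.MP_e508a7_gt.KB

open MeasureTheory Set Filter Topology Metric Bornology

theorem cl1_img {T : R2 ≃L[ℝ] R2} (hT : MeasurePreserving T volume volume) {G : Set R2}
    (hc : IsCompact G) (h : (∫ y in G, y) = 0) :
    volume.real (T '' G) = volume.real G ∧ ∫ x in T '' G, x.1 = 0 := by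
  have he : MeasurableEmbedding T := T.toHomeomorph.measurableEmbedding
  constructor
  · rw [measureReal_def, measureReal_def, ← hT.measure_preimage_emb he,
      preimage_image_eq _ T.injective]
  · rw [hT.setIntegral_image_emb he]
    have := ((ContinuousLinearMap.fst ℝ ℝ ℝ).comp (T : R2 →L[ℝ] R2)).integral_comp_comm
      (continuous_id.continuousOn.integrableOn_compact hc (μ := volume))
    simpa [h] using this

theorem cl1_coord {a b : ℝ} (h : a ≠ 0 ∨ b ≠ 0) : ∃ T : R2 ≃L[ℝ] R2,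
    (∀ x, (T x).1 = a * x.1 + b * x.2) ∧ (∀ x y, dt (T x) (T y) = dt x y) ∧
      MeasurePreserving T volume volume := by
  refine exists_coord (a • ContinuousLinearMap.fst ℝ ℝ ℝ + b • ContinuousLinearMap.snd ℝ ℝ ℝ)
    fun e => ?_
  have e1 := DFunLike.congr_fun e (1, 0)
  have e2 := DFunLike.congr_fun e (0, 1)
  simp at e1 e2
  exact h.elim (· e1) (· e2)

theorem c1 {G : Set R2} (hG : Convex ℝ G) (hc : IsCompact G) (h0 : 0 < volume.real G)
    (h : (∫ y in G, y) = 0)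
    {p q : R2} (hp : p ∈ G) (hq : q ∈ G) : 3 * |dt p q| ≤ 2 * volume.real G := by
  by_cases hd : dt p q = 0
  · rw [hd, abs_zero]
    linarith
  obtain ⟨T, t1, t2, t3⟩ := cl1_coord (a := (q.2 - p.2) / dt p q) (b := (p.1 - q.1) / dt p q) (by
    by_contra e
    simp only [not_or, not_not, div_eq_zero_iff, hd, or_false, sub_eq_zero] at e
    exact hd (by rw [dt, e.1, e.2, mul_comm, sub_self]))
  have p1 : (T p).1 = 1 := by rw [t1]; field_simp; rw [dt]; ring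
  have q1 : (T q).1 = 1 := by rw [t1]; field_simp; rw [dt]; ring
  obtain ⟨v1, v2⟩ := cl1_img t3 hc h
  have hS : Convex ℝ (T '' G) := hG.linear_image (T : R2 →ₗ[ℝ] R2)
  have hSc : IsCompact (T '' G) := hc.image T.continuous
  have mp : ((1 : ℝ), (T p).2) ∈ T '' G := ⟨p, hp, Prod.ext p1 rfl⟩
  have mq : ((1 : ℝ), (T q).2) ∈ T '' G := ⟨q, hq, Prod.ext q1 rfl⟩
  have hl : |dt p q| ≤ pr (T '' G) 1 := by
    rw [← t2, dt, p1, q1, one_mul, mul_one, abs_sub_le_iff]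
    exact ⟨le_pr hS hSc mp mq, le_pr hS hSc mq mp⟩
  obtain ⟨A, B, hP, hAB, a1, a2⟩ := exists_prof hS hSc ⟨_, mp⟩
  obtain ⟨hA, hB⟩ := (hAB 1).1 ⟨_, mp⟩
  generalize pr (T '' G) = φ at *
  rw [v1] at a1
  rw [v2] at a2
  have P1 := hP.mono le_rfl hA hB
  have P2 := hP.mono hA hB le_rfl
  have i1 := P1.int.continuousOn_mul (g := fun y => 1 - y) (by fun_prop)
  have i2 := P2.int.continuousOn_mul (g := fun y => 1 - y) (by fun_prop)
  have i3 := hP.int.continuousOn_mul (g := fun y => y) (by fun_prop)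
  have k1 := intervalIntegral.integral_add_adjacent_intervals P1.int P2.int
  have k2 := intervalIntegral.integral_add_adjacent_intervals i1 i2
  have k3 : 0 ≤ ∫ y in (1 : ℝ)..B, φ y := intervalIntegral.integral_nonneg hB P2.nn
  have k4 : ∫ y in (1 : ℝ)..B, (1 - y) * φ y ≤ 0 := by
    have := intervalIntegral.integral_mono_on hB i2 (intervalIntegrable_const (c := (0 : ℝ)))
      fun y hy => mul_nonpos_of_nonpos_of_nonneg (sub_nonpos.2 hy.1) (P2.nn y hy)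
    simpa using this
  have k5 : ∫ y in A..B, (1 - y) * φ y = volume.real G := by
    simp only [sub_mul, one_mul]
    rw [intervalIntegral.integral_sub hP.int i3, ← a1, ← a2, sub_zero]
  have k6 := P1.lin'
  have hD : 0 ≤ 1 - A := sub_nonneg.2 hA
  generalize 1 - A = D at k6 hD
  have k7 : φ 1 * D ^ 2 ≤ (4 * D - 6) * volume.real G := by
    nlinarith [mul_nonneg hD k3]
  have hD' : 0 < D ^ 2 := by
    refine pow_pos (hD.lt_of_ne ?_) 2
    rintro rfl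
    linarith
  have k8 : 3 * φ 1 ≤ 2 * volume.real G :=
    le_of_mul_le_mul_right (by nlinarith [mul_nonneg h0.le (sq_nonneg (D - 3))]) hD'
  linarith

theorem cl1_pos {F : Set R2} (hc : IsCompact F) (h : (∫ y in F, y) = 0) {n n' : R2}
    (h1 : ∀ x ∈ F, n.1 * x.1 + n.2 * x.2 ≤ 1) (h2 : ∀ x ∈ F, n'.1 * x.1 + n'.2 * x.2 ≤ 1)
    (hd : 0 < dt n n') : 2 * dt n n' * volume.real F ≤ 9 := by
  obtain ⟨T, t1, t2, t3⟩ := cl1_coord (a := n.1 + n'.1) (b := n.2 + n'.2) (by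
    by_contra e
    simp only [not_or, not_not] at e
    exact hd.ne' (by rw [dt]; linear_combination n.1 * e.2 - n.2 * e.1))
  obtain ⟨v1, v2⟩ := cl1_img t3 hc h
  have hSc : IsCompact (T '' F) := hc.image T.continuous
  have hp (a : ℝ) (ha : a ≤ 2) : pr (T '' F) a ≤ (2 - a) / dt n n' := by
    have := pr_le (S := T '' F) (a := a) (lo := (a * (T (-n.2, n.1)).2 - 1) / dt n n')
      (hi := (a * (T (-n.2, n.1)).2 - a + 1) / dt n n')
      (div_le_div_of_nonneg_right (by linarith) hd.le) ?_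
    · exact this.trans_eq (by ring)
    rintro v ⟨x, hx, e⟩
    have e1 := t2 x (-n.2, n.1)
    have e2 := t1 x
    rw [dt, t1 (-n.2, n.1), e] at e1
    rw [e] at e2
    rw [div_le_iff₀ hd, le_div_iff₀ hd]
    simp only [dt] at e1 e2 ⊢
    exact ⟨by linarith [h1 x hx], by linarith [h2 x hx]⟩
  have hm : MeasurableSet {x : R2 | -1 ≤ x.1 ∧ x.1 ≤ 2} := measurable_fst measurableSet_Icc
  have i1 : IntegrableOn (fun x : R2 => x.1) (T '' F) :=
    continuous_fst.continuousOn.integrableOn_compact hSc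
  have i0 : IntegrableOn (fun _ : R2 => (1 : ℝ)) (T '' F) :=
    continuous_const.continuousOn.integrableOn_compact hSc
  have k1 := integral_inter_add_sdiff hm (i0.add i1)
  have k2 : ∫ x in T '' F \ {x : R2 | -1 ≤ x.1 ∧ x.1 ≤ 2}, (1 + x.1) ≤ 0 := by
    refine setIntegral_nonpos (hSc.measurableSet.diff hm) ?_
    rintro _ ⟨⟨x, hx, rfl⟩, hy⟩
    have : (T x).1 ≤ 2 := by rw [t1]; linarith [h1 x hx, h2 x hx]
    have : ¬ -1 ≤ (T x).1 := fun e => hy ⟨e, this⟩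
    linarith
  have k3 := int_slab hSc (w := fun a => 1 + a) (by fun_prop) (s := -1) (t := 2) (by norm_num)
  have k4 : ∫ a in (-1 : ℝ)..2, (1 + a) * pr (T '' F) a ≤
      ∫ a in (-1 : ℝ)..2, (2 + a - a ^ 2) / dt n n' := by
    refine intervalIntegral.integral_mono_on (by norm_num)
      ((integrable_pr hSc).intervalIntegrable.continuousOn_mul (by fun_prop))
      (Continuous.intervalIntegrable (by fun_prop) _ _) fun a ha => ?_
    exact (mul_le_mul_of_nonneg_left (hp a ha.2) (by linarith [ha.1])).trans_eq (by ring)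
  have k5 : ∫ a in (-1 : ℝ)..2, (2 + a - a ^ 2) = 9 / 2 := by
    rw [intervalIntegral.integral_sub (Continuous.intervalIntegrable (by fun_prop) _ _)
      (Continuous.intervalIntegrable (by fun_prop) _ _), intervalIntegral.integral_add
      (Continuous.intervalIntegrable (by fun_prop) _ _)
      (Continuous.intervalIntegrable (by fun_prop) _ _), integral_pow, integral_id,
      intervalIntegral.integral_const]
    norm_num
  rw [intervalIntegral.integral_div, k5, le_div_iff₀ hd] at k4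
  simp only [Pi.add_apply] at k1
  rw [integral_add i0 i1, v2, setIntegral_const, v1, smul_eq_mul, k3] at k1
  nlinarith

theorem c2 {F : Set R2} (hc : IsCompact F) (h : (∫ y in F, y) = 0) {n n' : R2}
    (h1 : ∀ x ∈ F, n.1 * x.1 + n.2 * x.2 ≤ 1) (h2 : ∀ x ∈ F, n'.1 * x.1 + n'.2 * x.2 ≤ 1) :
    2 * |dt n n'| * volume.real F ≤ 9 := by
  rcases lt_trichotomy 0 (dt n n') with hd | hd | hd
  · rw [abs_of_pos hd]
    exact cl1_pos hc h h1 h2 hd
  · rw [← hd]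
    norm_num
  · have e : dt n' n = -dt n n' := by rw [dt, dt]; ring
    rw [abs_of_neg hd, ← e]
    exact cl1_pos hc h h2 h1 (by linarith)

theorem c3 {p q r n n' n'' : R2} {a₁ a₂ b₁ b₂ c₁ c₂ : ℝ}
    (hp : n.1 * p.1 + n.2 * p.2 = 1) (hq : n'.1 * q.1 + n'.2 * q.2 = 1)
    (hr : n''.1 * r.1 + n''.2 * r.2 = 1)
    (e1 : n.1 * q.1 + n.2 * q.2 = a₁) (e2 : n'.1 * p.1 + n'.2 * p.2 = a₂)
    (e3 : n'.1 * r.1 + n'.2 * r.2 = b₁) (e4 : n''.1 * q.1 + n''.2 * q.2 = b₂)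
    (e5 : n''.1 * p.1 + n''.2 * p.2 = c₁) (e6 : n.1 * r.1 + n.2 * r.2 = c₂)
    (ha : 1 / 4 < a₁ * a₂) (hb : 1 / 4 < b₁ * b₂) (hc : 1 / 4 < c₁ * c₂) :
    0 < a₁ * b₁ * c₁ := by
  have hd : 1 * 1 * 1 + a₁ * b₁ * c₁ + a₂ * b₂ * c₂ = a₁ * a₂ * 1 + 1 * (b₁ * b₂) + c₁ * c₂ * 1 := by
    nth_rw 1 [← hp]
    nth_rw 4 [← hp]
    nth_rw 1 [← hq]
    nth_rw 3 [← hq]
    rw [← hr, ← e1, ← e2, ← e3, ← e4, ← e5, ← e6]
    ring
  have h1 : 1 / 16 < a₁ * a₂ * (b₁ * b₂) := by nlinarith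
  have h2 : 1 / 64 < a₁ * b₁ * c₁ * (a₂ * b₂ * c₂) := by nlinarith
  generalize a₁ * b₁ * c₁ = X at *
  generalize a₂ * b₂ * c₂ = Y at *
  by_contra hX
  have hY : Y ≤ 0 := by nlinarith
  nlinarith [sq_nonneg (X - Y)]

theorem cu_fn (f : R2 →L[ℝ] ℝ) (x : R2) : f (1, 0) * x.1 + f (0, 1) * x.2 = f x := by
  have e : x = x.1 • ((1, 0) : R2) + x.2 • ((0, 1) : R2) := by ext <;> simp
  conv_rhs => rw [e]
  rw [map_add, map_smul, map_smul, smul_eq_mul, smul_eq_mul]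
  ring

theorem cu_sup {F : Set R2} (hF : Convex ℝ F) (h0 : F ∈ 𝓝 (0 : R2)) {x : R2}
    (hx : x ∉ interior F) : ∃ f : R2 →L[ℝ] ℝ, f x = 1 ∧ ∀ y ∈ F, f y ≤ 1 := by
  obtain ⟨f, hf⟩ := geometric_hahn_banach_open_point hF.interior isOpen_interior hx
  have hi := mem_interior_iff_mem_nhds.2 h0
  have hp : 0 < f x := by simpa using hf 0 hi
  refine ⟨(f x)⁻¹ • f, by simp [hp.ne'], fun y hy => ?_⟩
  have h1 : y ∈ closure (interior F) := by
    rw [hF.closure_interior_eq_closure_of_nonempty_interior ⟨0, hi⟩]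
    exact subset_closure hy
  have h2 : f y ≤ f x := closure_minimal (fun z hz => (hf z hz).le)
    (isClosed_le f.continuous continuous_const) h1
  rw [smul_apply, smul_eq_mul, inv_mul_le_iff₀ hp, mul_one]
  exact h2

theorem cu_proj {F H : Set R2} (hF : Convex ℝ F) (hFc : IsCompact F) (hH : Convex ℝ H)
    (h0 : F ∈ 𝓝 (0 : R2)) (h0' : (0 : R2) ∈ H) {x : R2} (hx : x ∈ H) (hx' : x ∉ F) :
    ∃ t : ℝ, 0 < t ∧ t < 1 ∧ t • x ∈ (F ∩ H) \ interior F := by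
  have h1 : 1 < gauge F x := by
    by_contra h
    exact hx' (hFc.isClosed.closure_eq ▸ (gauge_le_one_iff_mem_closure hF h0).1 (not_lt.1 h))
  have hp : 0 < gauge F x := one_pos.trans h1
  have h2 : (gauge F x)⁻¹ • x ∈ frontier F := (gauge_eq_one_iff_mem_frontier hF h0).1 (by
    rw [gauge_smul_of_nonneg (inv_pos.2 hp).le, smul_eq_mul, inv_mul_cancel₀ hp.ne'])
  have h3 := inv_lt_one_of_one_lt₀ h1
  exact ⟨_, inv_pos.2 hp, h3, ⟨hFc.isClosed.closure_subset h2.1,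
    hH.smul_mem_of_zero_mem h0' hx ⟨(inv_pos.2 hp).le, h3.le⟩⟩, h2.2⟩

/-- support functionals at the touching points -/
structure Tch (F B : Set R2) (n : R2 → R2 →L[ℝ] ℝ) : Prop where
  sub : B ⊆ F
  one : ∀ x ∈ B, n x x = 1
  le : ∀ x ∈ B, ∀ y ∈ F, n x y ≤ 1
  prod : ∀ x ∈ B, ∀ y ∈ B, 1 / 4 < n x y * n y x

variable {F G B : Set R2} {n : R2 → R2 →L[ℝ] ℝ}

theorem Tch.tri (h : Tch F B n) {p q r : R2} (hp : p ∈ B) (hq : q ∈ B) (hr : r ∈ B) :
    0 < n p q * n q r * n r p :=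
  c3 (p := p) (q := q) (r := r) (n := (n p (1, 0), n p (0, 1))) (n' := (n q (1, 0), n q (0, 1)))
    (n'' := (n r (1, 0), n r (0, 1))) ((cu_fn _ _).trans (h.one p hp))
    ((cu_fn _ _).trans (h.one q hq)) ((cu_fn _ _).trans (h.one r hr)) (cu_fn _ _) (cu_fn _ _)
    (cu_fn _ _) (cu_fn _ _) (cu_fn _ _) (cu_fn _ _) (h.prod p hp q hq) (h.prod q hq r hr)
    (h.prod r hr p hp)

theorem Tch.pos (h : Tch F B n) {p q : R2} (hp : p ∈ B) (hq : q ∈ B) (h0 : 0 ≤ n p q) :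
    0 < n p q ∧ 0 < n q p := by
  have := h.prod p hp q hq
  have h1 : 0 < n p q := lt_of_le_of_ne h0 fun e => by rw [← e] at this; linarith
  exact ⟨h1, (mul_pos_iff_of_pos_left h1).1 (by linarith)⟩

theorem Tch.neg (h : Tch F B n) {p q : R2} (hp : p ∈ B) (hq : q ∈ B) (h0 : ¬0 ≤ n p q) :
    n q p < 0 := by
  by_contra h1
  exact h0 (h.pos hq hp (not_lt.1 h1)).2.le

theorem Tch.near (h : Tch F B n) {p x y : R2} (hp : p ∈ B) (hx : x ∈ B) (hy : y ∈ B)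
    (h1 : 0 ≤ n p x) (h2 : 0 ≤ n p y) : 0 < n x y := by
  have := h.tri hp hx hy
  rw [mul_right_comm] at this
  exact (mul_pos_iff_of_pos_left (mul_pos (h.pos hp hx h1).1 (h.pos hp hy h2).2)).1 this

theorem Tch.far (h : Tch F B n) {p x y : R2} (hp : p ∈ B) (hx : x ∈ B) (hy : y ∈ B)
    (h1 : 0 ≤ n p x) (h2 : ¬0 ≤ n p y) : n x y < 0 := by
  have := h.tri hp hx hy
  rw [mul_right_comm] at this
  have h3 := mul_neg_of_pos_of_neg (h.pos hp hx h1).1 (h.neg hp hy h2)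
  nlinarith

theorem Tch.two (h : Tch F B n) {p x y : R2} (hp : p ∈ B) (hx : x ∈ B) (hy : y ∈ B)
    (h1 : ¬0 ≤ n p x) (h2 : ¬0 ≤ n p y) : 0 < n x y := by
  have := h.tri hp hx hy
  rw [mul_right_comm] at this
  exact (mul_pos_iff_of_pos_left (mul_pos_of_neg_of_neg (not_le.1 h1) (h.neg hp hy h2))).1 this

theorem cu_coef {c d : ℝ} (c0 : 0 < c) (c1 : c ≤ 1) (d0 : 0 < d) (d1 : d ≤ 1) :
    ∃ α β : ℝ, 0 ≤ α ∧ α ≤ 1 ∧ 0 ≤ β ∧ β ≤ 1 ∧ α + β * c = 1 ∧ α * d + β = 1 := by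
  by_cases h : c * d < 1
  · have hp := sub_pos.2 h
    refine ⟨(1 - c) / (1 - c * d), (1 - d) / (1 - c * d), div_nonneg (by linarith) hp.le,
      (div_le_one hp).2 (by nlinarith), div_nonneg (by linarith) hp.le,
      (div_le_one hp).2 (by nlinarith), ?_, ?_⟩ <;> field_simp <;> ring
  · exact ⟨1, 0, zero_le_one, le_rfl, le_rfl, zero_le_one, by ring, by nlinarith⟩

theorem cu_dt {f : R2 →L[ℝ] ℝ} {p : R2} (hp : f p = 1) (x y : R2) :
    dt x y = f x * dt p y - f y * dt p x := by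
  rw [← cu_fn] at hp
  rw [← cu_fn f x, ← cu_fn f y]
  unfold dt
  linear_combination (-(x.1 * y.2 - x.2 * y.1)) * hp

theorem Tch.cls (h : Tch F B n) (hB : IsCompact B) (hG : B ⊆ G) {p₀ x₀ : R2} (hp₀ : p₀ ∈ B)
    (hx₀ : x₀ ∈ B) (h1 : 0 ≤ n p₀ x₀) (h2 : dt p₀ x₀ ≠ 0) :
    ∃ u η, Cl F G u η ∧ (∀ x ∈ B, 0 ≤ n p₀ x → 1 ≤ u x) ∧ ∀ x ∈ B, ¬0 ≤ n p₀ x → u x < 0 := by
  have hQ : IsCompact (B ∩ {x | 0 ≤ n p₀ x}) :=
    hB.inter_right (isClosed_le continuous_const (n p₀).continuous)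
  have hp₀' : p₀ ∈ B ∩ {x | 0 ≤ n p₀ x} := ⟨hp₀, by simp [h.one p₀ hp₀]⟩
  have hs : ∀ x ∈ B ∩ {x | 0 ≤ n p₀ x}, 0 < n p₀ x := fun x hx => (h.pos hp₀ hx.1 hx.2).1
  have hc : ContinuousOn (fun x => dt p₀ x / n p₀ x) (B ∩ {x | 0 ≤ n p₀ x}) :=
    ContinuousOn.div (by unfold dt; fun_prop) (n p₀).continuous.continuousOn
      fun x hx => (hs x hx).ne'
  obtain ⟨p, hp, hmin⟩ := hQ.exists_isMinOn ⟨_, hp₀'⟩ hc
  obtain ⟨q, hq, hmax⟩ := hQ.exists_isMaxOn ⟨_, hp₀'⟩ hc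
  have k1 : ∀ x ∈ B ∩ {x | 0 ≤ n p₀ x}, 0 ≤ dt p x := fun x hx => by
    have := (div_le_div_iff₀ (hs p hp) (hs x hx)).1 (hmin hx)
    rw [cu_dt (h.one p₀ hp₀)]
    linarith
  have k2 : ∀ x ∈ B ∩ {x | 0 ≤ n p₀ x}, 0 ≤ dt x q := fun x hx => by
    have := (div_le_div_iff₀ (hs x hx) (hs q hq)).1 (hmax hx)
    rw [cu_dt (h.one p₀ hp₀)]
    linarith
  have k3 : 0 < dt p q := by
    refine lt_of_le_of_ne (k1 q hq) fun e => h2 ?_
    rw [cu_dt (h.one p₀ hp₀)] at e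
    have e1 : dt p₀ p / n p₀ p = dt p₀ q / n p₀ q :=
      (div_eq_div_iff (hs p hp).ne' (hs q hq).ne').2 (by linarith)
    have a1 : dt p₀ p / n p₀ p ≤ dt p₀ p₀ / n p₀ p₀ := hmin hp₀'
    have a2 : dt p₀ p₀ / n p₀ p₀ ≤ dt p₀ q / n p₀ q := hmax hp₀'
    have a3 : dt p₀ p / n p₀ p ≤ dt p₀ x₀ / n p₀ x₀ := hmin ⟨hx₀, h1⟩
    have a4 : dt p₀ x₀ / n p₀ x₀ ≤ dt p₀ q / n p₀ q := hmax ⟨hx₀, h1⟩
    have a5 : dt p₀ p₀ = 0 := by unfold dt; ring
    rw [a5, zero_div] at a1 a2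
    have a6 : dt p₀ x₀ / n p₀ x₀ = 0 := by linarith
    exact (div_eq_zero_iff.1 a6).resolve_right (hs x₀ ⟨hx₀, h1⟩).ne'
  obtain ⟨α, β, a0, a1, b0, b1, e1, e2⟩ := cu_coef (h.near hp₀ hq.1 hp.1 hq.2 hp.2)
    (h.le q hq.1 p (h.sub hp.1)) (h.near hp₀ hp.1 hq.1 hp.2 hq.2) (h.le p hp.1 q (h.sub hq.1))
  have c1 := h.le q hq.1 p (h.sub hp.1)
  have up : (α • n p + β • n q) p = 1 := by
    simp only [add_apply, smul_apply, smul_eq_mul, h.one p hp.1]; linarith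
  have uq : (α • n p + β • n q) q = 1 := by
    simp only [add_apply, smul_apply, smul_eq_mul, h.one q hq.1]; linarith
  refine ⟨α • n p + β • n q, α + β - 1, ⟨by nlinarith, by linarith, fun x hx => ?_,
    p, hG hp.1, q, hG hq.1, fun e => ?_, up, uq, fun x hx μ hμ => ?_⟩, fun x hx h0 => ?_,
    fun x hx h0 => ?_⟩
  · simp only [add_apply, smul_apply, smul_eq_mul]
    nlinarith [h.le p hp.1 x hx, h.le q hq.1 x hx]
  · rw [e] at k3
    unfold dt at k3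
    linarith
  · have f1 := h.le p hp.1 x hx
    have f2 := h.le q hq.1 x hx
    have f3 := h.le p hp.1 _ hμ
    have f4 := h.le q hq.1 _ hμ
    simp only [add_apply, smul_apply, smul_eq_mul, map_add, map_smul, map_sub, h.one p hp.1,
      h.one q hq.1] at f3 f4 ⊢
    rcases le_total 0 μ with hm | hm
    · rw [abs_of_nonneg hm]
      have e3 : α + β - 1 = β * (1 - n q p) := by linarith
      have := mul_le_mul_of_nonneg_left f4 b0
      have := mul_le_mul_of_nonneg_left f1 a0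
      nth_rewrite 1 [e3]
      linarith
    · rw [abs_of_nonpos hm]
      have e3 : α + β - 1 = α * (1 - n p q) := by linarith
      have := mul_le_mul_of_nonneg_left f3 a0
      have := mul_le_mul_of_nonneg_left f2 b0
      nth_rewrite 1 [e3]
      linarith
  · have e : x = (dt x q / dt p q) • p + (dt p x / dt p q) • q := by
      have := k3.ne'
      refine Prod.ext ?_ ?_ <;>
        simp only [Prod.fst_add, Prod.snd_add, Prod.smul_fst, Prod.smul_snd, smul_eq_mul] <;>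
        field_simp <;> unfold dt <;> ring
    have g1 := div_nonneg (k2 x ⟨hx, h0⟩) k3.le
    have g2 := div_nonneg (k1 x ⟨hx, h0⟩) k3.le
    have g3 := congrArg (n x) e
    have g4 := congrArg (α • n p + β • n q) e
    rw [map_add, map_smul, map_smul, smul_eq_mul, smul_eq_mul] at g3 g4
    rw [up, uq] at g4
    rw [h.one x hx] at g3
    have := mul_le_mul_of_nonneg_left (h.le x hx p (h.sub hp.1)) g1
    have := mul_le_mul_of_nonneg_left (h.le x hx q (h.sub hq.1)) g2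
    linarith
  · have f1 := h.far hp₀ hp.1 hx hp.2 h0
    have f2 := h.far hp₀ hq.1 hx hq.2 h0
    simp only [add_apply, smul_apply, smul_eq_mul]
    rcases a0.eq_or_lt with e | e
    · have : β = 1 := by rw [← e] at e2; linarith
      rw [← e, this]; linarith
    · nlinarith [mul_neg_of_pos_of_neg e f1]

theorem cu_second {H : Set R2} (hF : Convex ℝ F) (hFc : IsCompact F) (hH : Convex ℝ H)
    (h0 : F ∈ 𝓝 (0 : R2)) (h0' : H ∈ 𝓝 (0 : R2)) {x : R2} (hx : x ∈ H) (hx' : x ∉ F)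
    {f : R2 →L[ℝ] ℝ} (hf : 0 < f x) :
    ∃ y ∈ (F ∩ H) \ interior F, 0 ≤ f y ∧ dt x y ≠ 0 := by
  have hne : x ≠ 0 := fun e => hx' (e ▸ mem_of_mem_nhds h0)
  have hsq : 0 < x.1 ^ 2 + x.2 ^ 2 := by
    by_contra h
    exact hne (Prod.ext (by simp only [Prod.fst_zero]; nlinarith [sq_nonneg x.1, sq_nonneg x.2])
      (by simp only [Prod.snd_zero]; nlinarith [sq_nonneg x.1, sq_nonneg x.2]))
  have t1 : Tendsto (fun s : ℝ => s • ((-x.2, x.1) : R2)) (𝓝[>] 0) (𝓝 0) := by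
    have : Continuous fun s : ℝ => s • ((-x.2, x.1) : R2) := by fun_prop
    simpa using (this.tendsto 0).mono_left nhdsWithin_le_nhds
  have t2 : Tendsto (fun s : ℝ => (1 - s) • x + s • s • ((-x.2, x.1) : R2)) (𝓝[>] 0) (𝓝 x) := by
    have : Continuous fun s : ℝ => (1 - s) • x + s • s • ((-x.2, x.1) : R2) := by fun_prop
    simpa using (this.tendsto 0).mono_left nhdsWithin_le_nhds
  obtain ⟨s, ⟨⟨s1, s2⟩, s3⟩, s4⟩ := ((((t1.eventually h0').and
    (t2.eventually (hFc.isClosed.isOpen_compl.mem_nhds hx'))).and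
    (((f.continuous.tendsto x).comp t2).eventually (lt_mem_nhds hf))).and
    (Ioo_mem_nhdsGT (zero_lt_one' ℝ))).exists
  obtain ⟨t, t0, -, ht⟩ := cu_proj hF hFc hH h0 (mem_of_mem_nhds h0')
    (hH hx s1 (sub_nonneg.2 s4.2.le) s4.1.le (sub_add_cancel 1 s)) s2
  refine ⟨_, ht, ?_, ?_⟩
  · rw [map_smul]
    exact (mul_pos t0 s3).le
  · have e : dt x (t • ((1 - s) • x + s • s • ((-x.2, x.1) : R2))) =
        t * s * s * (x.1 ^ 2 + x.2 ^ 2) := by
      simp only [dt, Prod.fst_add, Prod.snd_add, Prod.smul_fst, Prod.smul_snd, smul_eq_mul]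
      ring
    rw [e]
    have := s4.1
    positivity

theorem cluster {F H : Set R2} (hF : Convex ℝ F) (hFc : IsCompact F) (hH : Convex ℝ H)
    (hHc : IsCompact H) (h0 : 0 < volume.real (F ∩ H))
    (h4 : 4 * volume.real (F ∩ H) < volume.real F)
    (cF : (∫ y in F, y) = 0) (cG : (∫ y in F ∩ H, y) = 0) :
    H ⊆ F ∨ (∃ u η, Cl F (F ∩ H) u η ∧ ∀ x ∈ H, x ∉ F → 1 < u x) ∨
      ∃ u₁ η₁ u₂ η₂, Cl F (F ∩ H) u₁ η₁ ∧ Cl F (F ∩ H) u₂ η₂ ∧
        ∀ x ∈ H, x ∉ F → (1 < u₁ x ∧ u₂ x < 0) ∨ (1 < u₂ x ∧ u₁ x < 0) := by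
  have hG := hF.inter hH
  have hGc := hFc.inter hHc
  have nG := zero_mem_interior hG hGc h0 cG
  have nF : F ∈ 𝓝 (0 : R2) := mem_of_superset nG inter_subset_left
  have nH : H ∈ 𝓝 (0 : R2) := mem_of_superset nG inter_subset_right
  have hB : IsCompact ((F ∩ H) \ interior F) := hGc.diff isOpen_interior
  have ex : ∀ x : R2, ∃ f : R2 →L[ℝ] ℝ, x ∉ interior F → f x = 1 ∧ ∀ y ∈ F, f y ≤ 1 := fun x => by
    by_cases hx : x ∈ interior F
    · exact ⟨0, fun h => absurd hx h⟩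
    · obtain ⟨f, hf⟩ := cu_sup hF nF hx
      exact ⟨f, fun _ => hf⟩
  choose n hn using ex
  have T : Tch F ((F ∩ H) \ interior F) n := by
    refine ⟨fun x hx => hx.1.1, fun x hx => (hn x hx.2).1, fun x hx => (hn x hx.2).2,
      fun x hx y hy => ?_⟩
    have k1 := c1 hG hGc h0 cG hx.1 hy.1
    have k2 := c2 hFc cF (n := (n x (1, 0), n x (0, 1))) (n' := (n y (1, 0), n y (0, 1)))
      (fun z hz => (cu_fn _ _).trans_le ((hn x hx.2).2 z hz))
      (fun z hz => (cu_fn _ _).trans_le ((hn y hy.2).2 z hz))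
    have e : dt (n x (1, 0), n x (0, 1)) (n y (1, 0), n y (0, 1)) * dt x y =
        n x x * n y y - n x y * n y x := by
      rw [← cu_fn (n x) x, ← cu_fn (n y) y, ← cu_fn (n x) y, ← cu_fn (n y) x]
      unfold dt
      ring
    rw [(hn x hx.2).1, (hn y hy.2).1] at e
    have k3 := le_abs_self (dt (n x (1, 0), n x (0, 1)) (n y (1, 0), n y (0, 1)) * dt x y)
    rw [e, ← e, abs_mul, e] at k3
    have k4 := mul_le_mul k2 k1 (by positivity) (by norm_num)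
    have hΦ : 0 < volume.real F := by linarith
    by_contra hc
    rw [not_lt] at hc
    have k5 := mul_le_mul_of_nonneg_right
      (show 3 / 4 ≤ |dt (n x (1, 0), n x (0, 1)) (n y (1, 0), n y (0, 1))| * |dt x y| by linarith)
      hΦ.le
    nlinarith
  have key : ∀ x ∈ H, x ∉ F → ∀ t : ℝ, 0 < t → t • x ∈ (F ∩ H) \ interior F →
      ∃ u η, Cl F (F ∩ H) u η ∧ (∀ y ∈ (F ∩ H) \ interior F, 0 ≤ n (t • x) y → 1 ≤ u y) ∧
        ∀ y ∈ (F ∩ H) \ interior F, ¬0 ≤ n (t • x) y → u y < 0 := by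
    intro x hx hx' t t0 ht
    have h1 := T.one _ ht
    rw [map_smul, smul_eq_mul] at h1
    obtain ⟨y, hy, k1, k2⟩ := cu_second hF hFc hH nF nH hx hx' (f := n (t • x))
      ((mul_pos_iff_of_pos_left t0).1 (h1 ▸ one_pos))
    refine T.cls hB sdiff_subset ht hy k1 ?_
    have e : dt (t • x) y = t * dt x y := by
      simp only [dt, Prod.smul_fst, Prod.smul_snd, smul_eq_mul]; ring
    rw [e]
    exact mul_ne_zero t0.ne' k2
  have up : ∀ (u : R2 →L[ℝ] ℝ) (x : R2) (t : ℝ), 0 < t → t < 1 → 1 ≤ u (t • x) → 1 < u x := by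
    intro u x t t0 t1 h
    rw [map_smul, smul_eq_mul] at h
    nlinarith [(mul_pos_iff_of_pos_left t0).1 (one_pos.trans_le h)]
  have dn : ∀ (u : R2 →L[ℝ] ℝ) (x : R2) (t : ℝ), 0 < t → u (t • x) < 0 → u x < 0 := by
    intro u x t t0 h
    rw [map_smul, smul_eq_mul] at h
    exact neg_of_mul_neg_right h t0.le
  by_cases hHF : H ⊆ F
  · exact Or.inl hHF
  obtain ⟨x₁, hx₁, hx₁'⟩ := not_subset.1 hHF
  have pj := fun x (hx : x ∈ H) (hx' : x ∉ F) => cu_proj hF hFc hH nF (mem_of_mem_nhds nH) hx hx'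
  obtain ⟨t₁, a0, -, a2⟩ := pj x₁ hx₁ hx₁'
  obtain ⟨u₁, η₁, C₁, b1, b2⟩ := key x₁ hx₁ hx₁' t₁ a0 a2
  by_cases hall : ∀ x ∈ H, x ∉ F → 1 < u₁ x
  · exact Or.inr (Or.inl ⟨u₁, η₁, C₁, hall⟩)
  push Not at hall
  obtain ⟨x₂, hx₂, hx₂', hu⟩ := hall
  obtain ⟨t₂, d0, d1, d2⟩ := pj x₂ hx₂ hx₂'
  obtain ⟨u₂, η₂, C₂, e1, e2⟩ := key x₂ hx₂ hx₂' t₂ d0 d2
  have far : ¬0 ≤ n (t₁ • x₁) (t₂ • x₂) := fun h => absurd (up _ _ _ d0 d1 (b1 _ d2 h)) (not_lt.2 hu)
  refine Or.inr (Or.inr ⟨u₁, η₁, u₂, η₂, C₁, C₂, fun x hx hx' => ?_⟩)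
  obtain ⟨t, t0, t1, ht⟩ := pj x hx hx'
  by_cases h : 0 ≤ n (t₁ • x₁) (t • x)
  · refine Or.inl ⟨up _ _ _ t0 t1 (b1 _ ht h), dn _ _ _ t0 (e2 _ ht (not_le.2 ?_))⟩
    exact T.neg ht d2 (not_le.2 (T.far a2 ht d2 h far))
  · exact Or.inr ⟨up _ _ _ t0 t1 (e1 _ ht (T.two a2 d2 ht far h).le), dn _ _ _ t0 (b2 _ ht h)⟩

end Pool.Agent.Lib.MP_e508a7_gt.KB
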