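import Pool.Agent.Lib.MP_e508a7_gt.KBDefs

/-!
# Continuity of the volumes
-/

set_option autoImplicit false

namespace Pool.Agent.Lib.MP_e508a7_gt.KB

open MeasureTheory Set Filter Topology Metric Bornology

variable {m : ℕ}

theorem isClosed_Kp (a : Fin m → Fn) : IsClosed (Kp a) := by
  have e : Kp a = ⋂ j, {x : V | a j x ≤ 1} := by
    ext x
    simp [Kp]
  rw [e]
  exact isClosed_iInter fun j => isClosed_le (a j).continuous continuous_const

theorem convex_Kp (a : Fin m → Fn) : Convex ℝ (Kp a) := by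
  intro x hx y hy s t hs ht hst j
  have h1 := mul_le_mul_of_nonneg_left (hx j) hs
  have h2 := mul_le_mul_of_nonneg_left (hy j) ht
  simp only [map_add, map_smul, smul_eq_mul]
  linarith

theorem Kp_nhds (a : Fin m → Fn) : Kp a ∈ 𝓝 (0 : V) := by
  have h : ∀ᶠ x in 𝓝 (0 : V), ∀ j, a j x ≤ 1 := by
    refine eventually_all.2 fun j => ?_
    have h0 : a j 0 < 1 := by simp
    exact ((a j).continuous.continuousAt.eventually_lt continuousAt_const h0).mono
      fun x hx => hx.le
  exact h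

theorem isCompact_Kp {a : Fin m → Fn} (hb : IsBounded (Kp a)) : IsCompact (Kp a) := by
  exact Metric.isCompact_of_isClosed_isBounded (isClosed_Kp a) hb

theorem null_plane (l : Fn) (t : ℝ) (h : l ≠ 0 ∨ t ≠ 0) : volume {x : V | l x = t} = 0 := by
  by_cases hl : l = 0
  · have ht : t ≠ 0 := h.resolve_left fun h' => h' hl
    have e : {x : V | l x = t} = ∅ := by
      ext x
      simp [hl, ht.symm]
    rw [e, measure_empty]
  · obtain ⟨v, hv⟩ : ∃ v, l v ≠ 0 := by
      by_contra hn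
      push Not at hn
      exact hl (ContinuousLinearMap.ext fun v => by simpa using hn v)
    have e : {x : V | l x = t} =
        (fun x => x + (-(t / l v)) • v) ⁻¹' (LinearMap.ker (l : V →ₗ[ℝ] ℝ) : Set V) := by
      ext x
      simp only [mem_ofPred_eq, mem_preimage, SetLike.mem_coe, LinearMap.mem_ker,
        ContinuousLinearMap.coe_coe, map_add, map_smul, smul_eq_mul, neg_mul,
        div_mul_cancel₀ _ hv, add_neg_eq_zero]
    rw [e, measure_preimage_add_right]
    refine Measure.addHaar_submodule volume _ fun h' => hv ?_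
    have : v ∈ LinearMap.ker (l : V →ₗ[ℝ] ℝ) := h' ▸ Submodule.mem_top
    simpa using this

theorem vol_pos {a : Fin m → Fn} (hb : IsBounded (Kp a)) : 0 < volume.real (Kp a) := by
  exact ENNReal.toReal_pos (Measure.measure_pos_of_mem_nhds volume (Kp_nhds a)).ne'
    hb.measure_lt_top.ne

theorem fv_zero_pos {a : Fin m → Fn} (hb : IsBounded (Kp a)) : 0 < fv (Kp a) 0 := by
  have hc : Continuous fun x : V => (2 : ℝ) • (0 : V) - x := by fun_prop
  have h2 : (fun x : V => (2 : ℝ) • (0 : V) - x) ⁻¹' Kp a ∈ 𝓝 (0 : V) := by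
    refine hc.continuousAt.preimage_mem_nhds ?_
    simpa using Kp_nhds a
  have h : Sy (Kp a) 0 ∈ 𝓝 (0 : V) := inter_mem (Kp_nhds a) h2
  have hs : Sy (Kp a) 0 ⊆ Kp a := fun x hx => hx.1
  exact ENNReal.toReal_pos (Measure.measure_pos_of_mem_nhds volume h).ne'
    (hb.subset hs).measure_lt_top.ne

theorem fv_nonneg (K : Set V) (p : V) : 0 ≤ fv K p := by
  exact measureReal_nonneg

theorem fv_le {K : Set V} (hb : IsBounded K) (p : V) : fv K p ≤ volume.real K := by
  exact measureReal_mono (fun x hx => hx.1) hb.measure_lt_top.ne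

theorem fv_le_gv {K : Set V} (hb : IsBounded K) (p : V) : fv K p ≤ gv K := by
  refine le_ciSup (f := fun p => fv K p) ⟨volume.real K, ?_⟩ p
  rintro _ ⟨q, rfl⟩
  exact fv_le hb q

theorem fv_far {K : Set V} {R : ℝ} (h : K ⊆ closedBall 0 R) {p : V} (hp : R < ‖p‖) :
    fv K p = 0 := by
  have e : Sy K p = ∅ := by
    refine eq_empty_of_forall_notMem fun x hx => ?_
    have h1 := mem_closedBall_zero_iff.1 (h hx.1)
    have h2 := mem_closedBall_zero_iff.1 (h hx.2)
    have h3 := norm_add_le x ((2 : ℝ) • p - x)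
    rw [add_sub_cancel, norm_smul, Real.norm_two] at h3
    linarith
  simp [fv, e]

theorem bdd_near {a₀ : Fin m → Fn} (hb : IsBounded (Kp a₀)) :
    ∃ R : ℝ, ∀ᶠ a in 𝓝 a₀, Kp a ⊆ closedBall 0 R := by
  obtain ⟨R, hR, hK⟩ := hb.subset_closedBall_lt 0 0
  refine ⟨2 * R, ?_⟩
  have hε : 0 < 1 / (2 * R) := by positivity
  filter_upwards [ball_mem_nhds a₀ hε] with a ha x hx
  have hd : ‖a - a₀‖ < 1 / (2 * R) := by simpa [dist_eq_norm] using ha
  have hx0 := norm_nonneg x
  have hc : 0 < 1 + ‖x‖ / (2 * R) := by positivity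
  have hj : ∀ j, a₀ j x ≤ 1 + ‖x‖ / (2 * R) := by
    intro j
    have h1 : ‖(a - a₀) j‖ ≤ 1 / (2 * R) := (norm_le_pi_norm _ j).trans hd.le
    have h2 : ‖(a - a₀) j x‖ ≤ 1 / (2 * R) * ‖x‖ :=
      (((a - a₀) j).le_opNorm x).trans (mul_le_mul_of_nonneg_right h1 hx0)
    have h3 : (a - a₀) j x = a j x - a₀ j x := rfl
    rw [h3, Real.norm_eq_abs] at h2
    have h4 := (abs_le.1 h2).1
    have h5 := hx j
    have h6 : 1 / (2 * R) * ‖x‖ = ‖x‖ / (2 * R) := by ring
    linarith
  have hm : (1 + ‖x‖ / (2 * R))⁻¹ • x ∈ Kp a₀ := by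
    intro j
    rw [map_smul, smul_eq_mul, inv_mul_le_iff₀ hc, mul_one]
    exact hj j
  have h7 := mem_closedBall_zero_iff.1 (hK hm)
  rw [norm_smul, norm_inv, Real.norm_of_nonneg hc.le, inv_mul_le_iff₀ hc] at h7
  have h8 : (1 + ‖x‖ / (2 * R)) * R = R + ‖x‖ / 2 := by field_simp
  rw [mem_closedBall_zero_iff]
  linarith

theorem ct2_gen {T : Type} [TopologicalSpace T] [FirstCountableTopology T] {S : T → Set V} {t₀ : T}
    (hm : ∀ t, MeasurableSet (S t)) {R : ℝ} (hb : ∀ᶠ t in 𝓝 t₀, S t ⊆ closedBall 0 R)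
    (h : ∀ᵐ x, ∀ᶠ t in 𝓝 t₀, (x ∈ S t ↔ x ∈ S t₀)) :
    ContinuousAt (fun t => volume.real (S t)) t₀ := by
  simp only [← integral_indicator_one (hm _)]
  refine continuousAt_of_dominated (bound := (closedBall (0 : V) R).indicator 1)
    (Eventually.of_forall fun t => aestronglyMeasurable_const.indicator (hm t))
    (hb.mono fun t ht => Eventually.of_forall fun x => ?_)
    ((integrable_indicator_iff measurableSet_closedBall).mpr
      (integrableOn_const (isCompact_closedBall _ _).measure_ne_top))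
    (h.mono fun x hx => continuousAt_const.congr (f := fun _ => (S t₀).indicator 1 x)
      (hx.mono fun t ht => ?_))
  · exact (Real.norm_of_nonneg (indicator_nonneg (fun _ _ => zero_le_one) x)).le.trans
      (indicator_le_indicator_of_subset ht (fun _ => zero_le_one) x)
  · by_cases e : x ∈ S t₀ <;> simp [e, ht]

theorem ct2_le {T : Type} [TopologicalSpace T] {f : T → ℝ} {t₀ : T} (hf : ContinuousAt f t₀)
    (h : f t₀ ≠ 1) : ∀ᶠ t in 𝓝 t₀, (f t ≤ 1 ↔ f t₀ ≤ 1) := by
  rcases h.lt_or_gt with e | e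
  · exact (hf.eventually_lt continuousAt_const e).mono fun t ht => iff_of_true ht.le e.le
  · exact (continuousAt_const.eventually_lt hf e).mono fun t ht => iff_of_false ht.not_ge e.not_ge

theorem ct2_refl (p : V) {N : Set V} (h : volume N = 0) : ∀ᵐ x, (2 : ℝ) • p - x ∉ N :=
  (Measure.measurePreserving_sub_left volume ((2 : ℝ) • p)).quasiMeasurePreserving.ae
    (measure_eq_zero_iff_ae_notMem.mp h)

theorem ct2_Kp {T : Type} [TopologicalSpace T] {a : T → Fin m → Fn} {y : T → V} {t₀ : T}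
    (ha : ContinuousAt a t₀) (hy : ContinuousAt y t₀) (h : ∀ j, a t₀ j (y t₀) ≠ 1) :
    ∀ᶠ t in 𝓝 t₀, (y t ∈ Kp (a t) ↔ y t₀ ∈ Kp (a t₀)) :=
  (eventually_all.mpr fun j => ct2_le (f := fun t => a t j (y t))
    (((continuous_apply j).continuousAt.comp ha).clm_apply hy) (h j)).mono
    fun _ ht => forall_congr' ht

theorem ct2_null (a : Fin m → Fn) : volume (⋃ j, {x : V | a j x = 1}) = 0 :=
  measure_iUnion_null fun j => null_plane (a j) 1 (Or.inr one_ne_zero)

theorem ct2_meas {K : Set V} (hK : IsClosed K) (p : V) : MeasurableSet (Sy K p) :=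
  (hK.inter (hK.preimage (continuous_const.sub continuous_id))).measurableSet

theorem cont_vol {a₀ : Fin m → Fn} (hb : IsBounded (Kp a₀)) :
    ContinuousAt (fun a : Fin m → Fn => volume.real (Kp a)) a₀ := by
  obtain ⟨R, hR⟩ := bdd_near hb
  exact ct2_gen (fun a => (isClosed_Kp a).measurableSet) hR
    ((measure_eq_zero_iff_ae_notMem.mp (ct2_null a₀)).mono fun x hx =>
      ct2_Kp continuousAt_id continuousAt_const fun j e => hx (mem_iUnion.mpr ⟨j, e⟩))

theorem cont_fv {a₀ : Fin m → Fn} (hb : IsBounded (Kp a₀)) (p₀ : V) :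
    ContinuousAt (fun z : (Fin m → Fn) × V => fv (Kp z.1) z.2) (a₀, p₀) := by
  obtain ⟨R, hR⟩ := bdd_near hb
  refine ct2_gen (S := fun z : (Fin m → Fn) × V => Sy (Kp z.1) z.2) (R := R)
    (fun z => ct2_meas (isClosed_Kp _) _)
    ((continuousAt_fst.eventually hR).mono fun z hz x hx => hz hx.1) ?_
  filter_upwards [measure_eq_zero_iff_ae_notMem.mp (ct2_null a₀), ct2_refl p₀ (ct2_null a₀)]
    with x h1 h2
  filter_upwards [ct2_Kp (a := fun z : (Fin m → Fn) × V => z.1) (y := fun _ => x) (t₀ := (a₀, p₀))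
      continuousAt_fst continuousAt_const fun j e => h1 (mem_iUnion.mpr ⟨j, e⟩),
    ct2_Kp (a := fun z : (Fin m → Fn) × V => z.1) (y := fun z => (2 : ℝ) • z.2 - x)
      (t₀ := (a₀, p₀)) continuousAt_fst (by fun_prop) fun j e => h2 (mem_iUnion.mpr ⟨j, e⟩)]
    with z e1 e2
  exact and_congr e1 e2

theorem cont_body {K : Set V} (hK : Convex ℝ K) (hc : IsCompact K) : Continuous (fv K) := by
  obtain ⟨R, hR⟩ := hc.isBounded.subset_closedBall 0
  refine continuous_iff_continuousAt.mpr fun p₀ => ct2_gen (S := Sy K) (R := R)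
    (ct2_meas hc.isClosed) (Eventually.of_forall fun p x hx => hR hx.1) ?_
  filter_upwards [ct2_refl p₀ (hK.addHaar_frontier volume)] with x hx
  have h1 : ContinuousAt (fun p : V => (2 : ℝ) • p - x) p₀ := by fun_prop
  by_cases h : (2 : ℝ) • p₀ - x ∈ K
  · filter_upwards [h1.eventually (mem_interior_iff_mem_nhds.mp
      (by_contra fun e => hx ⟨subset_closure h, e⟩))] with p hp
    exact and_congr_right fun _ => iff_of_true hp h
  · filter_upwards [h1.eventually (hc.isClosed.isOpen_compl.mem_nhds h)] with p hp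
    exact and_congr_right fun _ => iff_of_false hp h

end Pool.Agent.Lib.MP_e508a7_gt.KB
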