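import Pool.Agent.Lib.MP_e508a7_gt.KBMain
import Pool.Agent.Lib.MP_e508a7_gt.KBBm

/-!
# The test body
-/

set_option autoImplicit false

namespace Pool.Agent.Lib.MP_e508a7_gt.KB

open MeasureTheory Set Filter Topology Metric Bornology

variable {F H : Set R2} {W P e v₁ v₂ a₁ a₂ : ℝ} {ω : R2 →L[ℝ] ℝ} {μ h z C r : ℝ}

theorem z_low (M : Main F H W P e v₁ v₂ a₁ a₂) (Wl : Wall F H ω μ h z C) (hr : 0 ≤ r)
    (hz : 0 ≤ pr H 1 + (a₂ - a₁) * r) :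
    volume.real (H ∩ {x | ω x ≤ μ} ∩ {x | x.1 ≤ 1}) + r * (v₂ - v₁ + (a₂ - a₁) / 2) +
      (a₂ - a₁) * r ^ 2 / 2 ≤ volume.real (Ins (H ∩ {x | ω x ≤ μ}) a₁ a₂ r (1 + r)) ∧
    volume.real (F ∩ H ∩ {x | x.1 ≤ 1}) + r * (v₂ - v₁ + (a₂ - a₁) / 2) + (a₂ - a₁) * r ^ 2 / 2 ≤
      ∫ t in (1 - P)..(1 + r), pr (Ins (H ∩ {x | ω x ≤ μ}) a₁ a₂ r (1 + r)) t ∧
    pr H 1 + (a₂ - a₁) * r ≤ pr (Ins (H ∩ {x | ω x ≤ μ}) a₁ a₂ r (1 + r)) (1 + r) ∧
    (∃ v, (1 - P, v) ∈ Ins (H ∩ {x | ω x ≤ μ}) a₁ a₂ r (1 + r)) ∧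
    ∃ v, (1 + r, v) ∈ Ins (H ∩ {x | ω x ≤ μ}) a₁ a₂ r (1 + r) := by
  have hb := M.basic
  have cS : Convex ℝ (H ∩ {x | ω x ≤ μ}) := M.cH.inter (convex_halfSpace_le ω.isLinear μ)
  have kS : IsCompact (H ∩ {x | ω x ≤ μ}) :=
    M.kH.inter_right (isClosed_le ω.continuous continuous_const)
  have hG : F ∩ H ⊆ H ∩ {x | ω x ≤ μ} := fun x hx => ⟨hx.2, Wl.hG x hx⟩
  have hs : ∀ t v, 0 ≤ t → t ≤ 1 → (t, v) ∈ H → (t, v) ∈ H ∩ {x | ω x ≤ μ} :=
    fun t v h0 h1 h => hG ⟨M.strip _ h h0 h1, h⟩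
  have sup : Sup (H ∩ {x | ω x ≤ μ}) (1 / 2) v₁ v₂ a₁ a₂ :=
    ⟨hs _ _ (by norm_num) (by norm_num) M.sup.m₁, hs _ _ (by norm_num) (by norm_num) M.sup.m₂,
      fun y hy => M.sup.s₁ y hy.1, fun y hy => M.sup.s₂ y hy.1⟩
  have hp : ∀ t, 0 ≤ t → t ≤ 1 → pr H t ≤ pr (H ∩ {x | ω x ≤ μ}) t := fun t h0 h1 =>
    pr_mono kS fun v hv => hs t v h0 h1 hv
  have one : ∃ v, ((1 : ℝ), v) ∈ H ∩ {x | ω x ≤ μ} := M.one.imp fun v hv => hG hv
  have low := fun A (hA : A ≤ 1 / 2) => ins_lower cS kS sup hr hA (b := 1) (by norm_num) one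
    fun t h0 h1 => (M.mid_nn hr hz h0 h1).trans (by linarith [hp t (by linarith) h1])
  have top := high_pr (a₁ := a₁) (a₂ := a₂) (c := 1 + r) cS kS hr le_rfl one
    (by linarith [hp 1 zero_le_one le_rfl]) le_rfl
  have kI := isCompact_Ins (a₁ := a₁) (a₂ := a₂) (r := r) (c := 1 + r) kS
  refine ⟨?_, ?_, by linarith [top.2, hp 1 zero_le_one le_rfl],
    M.bG'.imp fun v hv => ins_self hr (hG hv) (by linarith [hb.1]), top.1⟩
  · obtain ⟨A, hA⟩ := ((kS.union kI).image continuous_fst).bddBelow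
    have h0 : A ≤ 0 := hA ⟨0, .inl (hG M.zero), rfl⟩
    have h1 := low A (by linarith)
    rw [← area_cut kS (fun y hy => hA ⟨y, .inl hy, rfl⟩) (by linarith),
      ← area_cut kI (fun y hy => hA ⟨y, .inr hy, rfl⟩) (by linarith)] at h1
    have h2 := measureReal_mono (μ := volume) (inter_subset_left (t := {x : R2 | x.1 ≤ 1 + r}))
      kI.measure_ne_top
    linarith
  · have kG := M.kF.inter M.kH
    have h1 := low (1 - P) (by linarith [hb.1])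
    have h2 : ∫ t in (1 - P)..1, pr (F ∩ H) t ≤ ∫ t in (1 - P)..1, pr (H ∩ {x | ω x ≤ μ}) t :=
      intervalIntegral.integral_mono_on (by linarith [hb.1]) (in_ii kG _ _) (in_ii kS _ _)
        fun t _ => pr_mono kS fun v hv => hG hv
    rw [area_cut kG M.bG (by linarith [hb.1])]
    linarith

theorem zy_low (M : Main F H W P e v₁ v₂ a₁ a₂) {Z : Set R2} (cZ : Convex ℝ Z) (kZ : IsCompact Z)
    {A A₁ zt d ε : ℝ} (hr : 0 ≤ r) (hd : 0 < d) (hd1 : d < 1) (hε : 0 ≤ ε)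
    (h1 : A ≤ volume.real Z) (h2 : A₁ ≤ ∫ t in (1 - P)..(1 + r), pr Z t) (h3 : zt ≤ pr Z (1 + r))
    (h4 : ∃ v, (1 - P, v) ∈ Z) (h5 : ∃ v, (1 + r, v) ∈ Z) (h6 : ∀ x ∈ Z, x.1 ≤ 1 + r) :
    Convex ℝ (image2 (fun x y => x - ε • y) Z F) ∧ IsCompact (image2 (fun x y => x - ε • y) Z F) ∧
    A + ε * ((1 - d) * W * A₁ / (P + r) +
      (P + r) * (∫ t in (1 - (1 - d) * W)..1, pr F t) / ((1 - d) * W) + d * W * zt) ≤
      volume.real (image2 (fun x y => x - ε • y) Z F) := by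
  have hb := M.basic
  have hW : 0 < W := by linarith [hb.1, hb.2.1]
  have cC : Convex ℝ (image2 (fun x y => x - ε • y) Z F) := by
    rintro _ ⟨x, hx, y, hy, rfl⟩ _ ⟨x', hx', y', hy', rfl⟩ s t hs ht hst
    exact ⟨_, cZ hx hx' hs ht hst, _, M.cF hy hy' hs ht hst, by module⟩
  have kC : IsCompact (image2 (fun x y => x - ε • y) Z F) := by
    rw [← image_uncurry_prod]
    exact (kZ.prod M.kF).image (by fun_prop)
  have hp : ∀ a, pr (-F) a = pr F (-a) := fun a => by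
    rw [pr, pr, measureReal_def, measureReal_def, ← Measure.measure_preimage_neg]
    congr 2
    ext v
    simp
  obtain ⟨v, hv⟩ := M.one
  obtain ⟨w, hw⟩ := M.bF'
  have k0 : 0 < (1 - d) * W := mul_pos (sub_pos.2 hd1) hW
  have k1 : 0 < P + r := by linarith [hb.1]
  have h := path cZ kZ M.cF.neg M.kF.neg kC cC hε (a₀ := 1 - P) (a₁ := 1 + r) (w₀ := -1)
    (w₁ := -(1 - (1 - d) * W)) (w₂ := W - 1) (by linarith) (by linarith) (by nlinarith) h4 h5 h6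
    ⟨-v, by simpa using hv.1⟩ ⟨-w, by simpa using hw⟩
    fun z hz y hy => ⟨z, hz, -y, hy, by simp⟩
  simp only [hp, intervalIntegral.integral_comp_neg, neg_neg] at h
  rw [show 1 + r - (1 - P) = P + r by ring, show -(1 - (1 - d) * W) - -1 = (1 - d) * W by ring,
    show W - 1 - -(1 - (1 - d) * W) = d * W by ring] at h
  refine ⟨cC, kC, le_trans (add_le_add h1 (mul_le_mul_of_nonneg_left (add_le_add (add_le_add ?_
    (le_of_eq (by ring))) (mul_le_mul_of_nonneg_left h3 (by positivity))) hε)) h⟩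
  rw [mul_div_right_comm]
  exact mul_le_mul_of_nonneg_left h2 (by positivity)

/-- the enlarged set -/
def Hs (H : Set R2) (ω : R2 →L[ℝ] ℝ) (ε c : ℝ) : Set R2 := {x | (1 + ε)⁻¹ • x ∈ H ∧ ω x ≤ c}

open scoped Pointwise in
theorem co2_eq {ε : ℝ} (hε : 0 ≤ ε) (c : ℝ) : Hs H ω ε c = (1 + ε) • H ∩ {x | ω x ≤ c} :=
  Set.ext fun x => and_congr_left' (mem_smul_set_iff_inv_smul_mem₀ (by positivity) H x).symm

theorem co2_mem {ε c : ℝ} (hε : 0 ≤ ε) (t v : ℝ) :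
    ((1 + ε) * t, (1 + ε) * v) ∈ Hs H ω ε c ↔ (t, v) ∈ H ∧ (1 + ε) * ω (t, v) ≤ c := by
  change (1 + ε)⁻¹ • (1 + ε) • (t, v) ∈ H ∧ ω ((1 + ε) • (t, v)) ≤ c ↔ _
  rw [inv_smul_smul₀ (by positivity), map_smul, smul_eq_mul]

theorem co2_div {ε : ℝ} (hε : 0 ≤ ε) (t : ℝ) : ∃ s, t = (1 + ε) * s :=
  ⟨_, (mul_div_cancel₀ t (by positivity)).symm⟩

theorem Hs_basic (cH : Convex ℝ H) (kH : IsCompact H) {ε : ℝ} (hε : 0 ≤ ε) (c : ℝ) :
    Convex ℝ (Hs H ω ε c) ∧ IsCompact (Hs H ω ε c) := by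
  rw [co2_eq hε]
  exact ⟨(cH.smul _).inter (convex_halfSpace_le ω.isLinear c),
    (kH.smul _).inter_right (isClosed_le ω.continuous continuous_const)⟩

theorem Hs_area (kH : IsCompact H) (Wl : Wall F H ω μ h z C) {ε c : ℝ} (hε : 0 ≤ ε) (hc : μ ≤ c) :
    volume.real (Hs H ω ε (μ + ε * c) ∩ {x | x.1 ≤ 1 + ε}) ≤ (1 + ε) ^ 2 *
      (volume.real (H ∩ {x | ω x ≤ μ} ∩ {x | x.1 ≤ 1}) +
        ε * (c - μ) * (z + C * (ε * (c - μ)))) := by
  have k : 0 < 1 + ε := by positivity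
  have d : 0 ≤ ε * (c - μ) := mul_nonneg hε (sub_nonneg.2 hc)
  have h1 : Hs H ω ε (μ + ε * c) ∩ {x | x.1 ≤ 1 + ε} ⊆ (fun x => (1 + ε) • x) ''
      (H ∩ {x | ω x ≤ μ} ∩ {x | x.1 ≤ 1} ∪ H ∩ {x | μ < ω x ∧ ω x ≤ μ + ε * (c - μ)}) := by
    rintro ⟨t, v⟩ ⟨h1, h2⟩
    obtain ⟨t, rfl⟩ := co2_div hε t
    obtain ⟨v, rfl⟩ := co2_div hε v
    obtain ⟨h3, h4⟩ := (co2_mem hε t v).1 h1
    refine ⟨(t, v), (le_or_gt (ω (t, v)) μ).imp (fun e => ⟨⟨h3, e⟩, ?_⟩) fun e => ⟨h3, e, ?_⟩, rfl⟩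
    · exact (mul_le_iff_le_one_right k).1 h2
    · exact le_of_mul_le_mul_left (by nlinarith [mul_nonneg hε d]) k
  have h2 : ∀ S : Set R2, volume ((fun x => (1 + ε) • x) '' S) =
      ENNReal.ofReal ((1 + ε) ^ 2) * volume S := fun S =>
    (Measure.addHaar_smul_of_nonneg volume k.le S).trans (by simp)
  refine (measureReal_mono h1 ?_).trans ?_
  · rw [h2]
    exact ENNReal.mul_ne_top ENNReal.ofReal_ne_top (measure_ne_top_of_subset (union_subset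
      (inter_subset_left.trans inter_subset_left) inter_subset_left) kH.measure_ne_top)
  · rw [measureReal_def, h2, ENNReal.toReal_mul, ENNReal.toReal_ofReal (by positivity)]
    exact mul_le_mul_of_nonneg_left ((measureReal_union_le _ _).trans
      (add_le_add le_rfl (Wl.strip _ d))) (by positivity)

theorem Hs_pr (cH : Convex ℝ H) (kH : IsCompact H) {ε : ℝ} (hε : 0 ≤ ε) (c t : ℝ) :
    pr (Hs H ω ε c) ((1 + ε) * t) ≤ (1 + ε) * pr H t ∧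
    ((∀ v, (t, v) ∈ H → (1 + ε) * ω (t, v) ≤ c) →
      (1 + ε) * pr H t ≤ pr (Hs H ω ε c) ((1 + ε) * t)) := by
  have k : 0 < 1 + ε := by positivity
  obtain ⟨cS, kS⟩ := Hs_basic (ω := ω) cH kH hε c
  by_cases hn : ∃ v, (t, v) ∈ H
  · obtain ⟨lo, hi, l, e, e'⟩ := slice cH kH hn
    rw [e', mul_sub]
    refine ⟨pr_le (by gcongr) fun w hw => ?_, fun h => le_pr cS kS
      ((co2_mem hε t lo).2 ⟨(e lo).2 ⟨le_rfl, l⟩, h _ ((e lo).2 ⟨le_rfl, l⟩)⟩)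
      ((co2_mem hε t hi).2 ⟨(e hi).2 ⟨l, le_rfl⟩, h _ ((e hi).2 ⟨l, le_rfl⟩)⟩)⟩
    obtain ⟨w, rfl⟩ := co2_div hε w
    obtain ⟨h1, h2⟩ := (e w).1 ((co2_mem hε t w).1 hw).1
    exact ⟨by gcongr, by gcongr⟩
  · rw [bm2_zero hn, mul_zero]
    refine ⟨(bm2_zero fun ⟨w, hw⟩ => ?_).le, fun _ => pr_nonneg _ _⟩
    obtain ⟨w, rfl⟩ := co2_div hε w
    exact hn ⟨w, ((co2_mem hε t w).1 hw).1⟩

theorem cont_up (M : Main F H W P e v₁ v₂ a₁ a₂) (Wl : Wall F H ω μ h z C) (hr : 0 ≤ r)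
    (hz : 0 ≤ pr H 1 + (a₂ - a₁) * r) {ε c₁ c₂ : ℝ} (hε : 0 ≤ ε) (h1 : 1 ≤ c₁) (h2 : μ ≤ c₂) :
    volume.real (Ins (Hs H ω ε (μ + ε * c₂)) a₁ a₂ r (1 + ε * c₁ + r)) ≤ (1 + ε) ^ 2 *
      (volume.real (H ∩ {x | ω x ≤ μ} ∩ {x | x.1 ≤ 1}) +
        ε * (c₂ - μ) * (z + C * (ε * (c₂ - μ)))) + r * ((1 + ε) * (v₂ - v₁)) +
      (a₂ - a₁) * r ^ 2 / 2 + (a₂ - a₁) * r * ((1 + ε) / 2) +
      ((1 + ε * c₁) * pr H 1 + (a₂ - a₁) * r) * (ε * (c₁ - 1)) := by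
  have k : 0 < 1 + ε := by positivity
  obtain ⟨cS, kS⟩ := Hs_basic (ω := ω) M.cH M.kH hε (μ + ε * c₂)
  have hs : ∀ t v, 0 ≤ t → t ≤ 1 → (t, v) ∈ H → (1 + ε) * ω (t, v) ≤ μ + ε * c₂ :=
    fun t v h0 h1 h => by
      have := Wl.hG _ ⟨M.strip _ h h0 h1, h⟩
      nlinarith
  have sup : Sup (Hs H ω ε (μ + ε * c₂)) ((1 + ε) * (1 / 2)) ((1 + ε) * v₁) ((1 + ε) * v₂) a₁ a₂ := by
    refine ⟨(co2_mem hε _ _).2 ⟨M.sup.m₁, hs _ _ (by norm_num) (by norm_num) M.sup.m₁⟩,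
      (co2_mem hε _ _).2 ⟨M.sup.m₂, hs _ _ (by norm_num) (by norm_num) M.sup.m₂⟩, ?_, ?_⟩ <;>
      rintro ⟨t, v⟩ hy <;> obtain ⟨t, rfl⟩ := co2_div hε t <;> obtain ⟨v, rfl⟩ := co2_div hε v
    · linarith [mul_le_mul_of_nonneg_left (M.sup.s₁ _ ((co2_mem hε t v).1 hy).1) k.le]
    · linarith [mul_le_mul_of_nonneg_left (M.sup.s₂ _ ((co2_mem hε t v).1 hy).1) k.le]
  have kI := isCompact_Ins (a₁ := a₁) (a₂ := a₂) (r := r) (c := 1 + ε * c₁ + r) kS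
  obtain ⟨A, hA⟩ := (((kS.union kI).image continuous_fst).insert 0).bddBelow
  have h0 : A ≤ 0 := hA (mem_insert _ _)
  have p1 := pr_nonneg H 1
  have e1 : ε ≤ ε * c₁ := le_mul_of_one_le_right hε h1
  have up := ins_upper cS kS sup hr (A := A) (b := 1 + ε) (c := 1 + ε * c₁)
    (M := (1 + ε * c₁) * pr H 1 + (a₂ - a₁) * r) (by linarith) (by linarith) (by linarith)
    (fun t t0 t1 => by
      obtain ⟨t, rfl⟩ := co2_div hε t
      have t2 := le_of_mul_le_mul_left t0 k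
      have t3 := (mul_le_iff_le_one_right k).1 t1
      linarith [(Hs_pr (ω := ω) M.cH M.kH hε _ t).2 fun v => hs t v (by linarith) t3,
        M.mid_nn hr hz t2 t3, mul_nonneg hε (pr_nonneg H t)])
    (by nlinarith)
    fun t t0 t1 => by
      obtain ⟨t, rfl⟩ := co2_div hε t
      have t2 := pr_grow M.cH M.kH M.zero.2 one_pos ((le_mul_iff_one_le_right k).1 t0)
      linarith [(Hs_pr (ω := ω) M.cH M.kH hε (μ + ε * c₂) t).1,
        mul_le_mul_of_nonneg_left t2 k.le, mul_le_mul_of_nonneg_right t1 p1]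
  rw [← area_cut kS (fun y hy => hA (.inr ⟨y, .inl hy, rfl⟩)) (by linarith),
    ← area_cut kI (fun y hy => hA (.inr ⟨y, .inr hy, rfl⟩)) (by linarith),
    inter_eq_left.2 fun y hy => hy.2] at up
  linarith [Hs_area M.kH Wl hε h2]

theorem incl (M : Main F H W P e v₁ v₂ a₁ a₂) (Wl : Wall F H ω μ h z C) {ε t : ℝ} (hε : 0 ≤ ε)
    (ht : 1 < t) {x y q : R2} (hx : x ∈ Ins (H ∩ {x | ω x ≤ μ}) a₁ a₂ r (1 + r)) (hy : y ∈ F)
    (hq : q ∈ Lc F H t) :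
    x - (ε * ((t - 1) / (t + 1))) • y + (ε * (2 / (t + 1))) • q ∈
      Ins (Hs H ω ε (μ + ε * (μ + (t - 1) / (t + 1) * (μ + h)))) a₁ a₂ r
        (1 + ε * (1 + e + (t - 1) / (t + 1) * (W + e)) + r) := by
  have h0 : 0 < t + 1 := by linarith
  have k1 := Wl.hG _ hq.1
  have k2 := M.tG _ hq.1
  have k3 := Wl.hF y hy
  have k4 := M.bF y hy
  rw [map_smul, smul_eq_mul, inv_mul_le_iff₀ (by linarith)] at k1
  rw [Prod.smul_fst, smul_eq_mul, inv_mul_le_iff₀ (by linarith)] at k2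
  have e1 : x - (ε * ((t - 1) / (t + 1))) • y + (ε * (2 / (t + 1))) • q =
      x + ε • (t + 1)⁻¹ • ((2 : ℝ) • q - (t - 1) • y) := by
    simp only [div_eq_mul_inv]
    module
  have k5 : ω ((t + 1)⁻¹ • ((2 : ℝ) • q - (t - 1) • y)) ≤ μ + (t - 1) / (t + 1) * (μ + h) := by
    rw [map_smul, map_sub, map_smul, map_smul, smul_eq_mul, smul_eq_mul, smul_eq_mul,
      inv_mul_le_iff₀ h0]
    field_simp
    nlinarith
  have k6 : ((t + 1)⁻¹ • ((2 : ℝ) • q - (t - 1) • y)).1 ≤ 1 + e + (t - 1) / (t + 1) * (W + e) := by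
    rw [Prod.smul_fst, Prod.fst_sub, Prod.smul_fst, Prod.smul_fst, smul_eq_mul, smul_eq_mul,
      smul_eq_mul, inv_mul_le_iff₀ h0]
    field_simp
    nlinarith
  have k7 := hq.2 y hy
  generalize (t + 1)⁻¹ • ((2 : ℝ) • q - (t - 1) • y) = N at e1 k5 k6 k7
  rw [e1]
  refine add_Ins (fun u hu => And.intro ?_ ?_) ?_ hx
  · have h1 : 0 < 1 + ε := by linarith
    have := M.cH hu.1 k7 (inv_nonneg.2 h1.le) (mul_nonneg (inv_nonneg.2 h1.le) hε)
      (by field_simp)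
    rwa [smul_add, smul_smul]
  · rw [map_add, map_smul, smul_eq_mul]
    exact add_le_add hu.2 (mul_le_mul_of_nonneg_left k5 hε)
  · rw [Prod.smul_fst, smul_eq_mul]
    linarith [mul_le_mul_of_nonneg_left k6 hε]

open scoped Pointwise in
theorem co3_smul (c : ℝ) (hc : 0 ≤ c) (S : Set R2) :
    √(volume.real (c • S)) = c * √(volume.real S) := by
  rw [measureReal_def, Measure.addHaar_smul, ENNReal.toReal_mul, ENNReal.toReal_ofReal
    (abs_nonneg _), Module.finrank_prod, Module.finrank_self, abs_of_nonneg (pow_nonneg hc _),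
    Real.sqrt_mul (pow_nonneg hc _), Real.sqrt_sq hc, measureReal_def]

open scoped Pointwise in
theorem co3_bm {Z L D : Set R2} (cZ : Convex ℝ Z) (kZ : IsCompact Z) (nZ : Z.Nonempty)
    (cL : Convex ℝ L) (kL : IsCompact L) (nL : L.Nonempty) (kD : IsCompact D) (cD : Convex ℝ D)
    {c A : ℝ} (hc : 0 ≤ c) (hA : 0 ≤ A) (h1 : A ≤ volume.real Z)
    (h : ∀ x ∈ Z, ∀ q ∈ L, x + c • q ∈ D) :
    volume.real Z + 2 * (c * √(A * volume.real L)) ≤ volume.real D := by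
  have bm := bm2 cZ kZ nZ (cL.smul c) (kL.smul c) nL.smul_set kD cD (by
    rintro x hx _ ⟨q, hq, rfl⟩
    exact h x hx q hq)
  rw [co3_smul c hc] at bm
  have h2 := pow_le_pow_left₀ (by positivity) bm 2
  rw [Real.sq_sqrt measureReal_nonneg, add_sq, Real.sq_sqrt measureReal_nonneg] at h2
  have h3 := mul_le_mul_of_nonneg_right (Real.sqrt_le_sqrt h1)
    (mul_nonneg hc (Real.sqrt_nonneg (volume.real L)))
  rw [Real.sqrt_mul hA]
  nlinarith [sq_nonneg (c * √(volume.real L))]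

theorem core (M : Main F H W P e v₁ v₂ a₁ a₂) (Wl : Wall F H ω μ h z C) (hr : 0 ≤ r)
    (hz : 0 ≤ pr H 1 + (a₂ - a₁) * r) {d t l s T A₀ A₁ m : ℝ} (hd : 0 < d) (hd1 : d < 1)
    (ht : 1 < t) (hn : (Lc F H t).Nonempty) (hl : l = pr H 1) (hs : s = a₂ - a₁)
    (hT : T = v₂ - v₁ + s / 2) (h0 : A₀ = volume.real (H ∩ {x | ω x ≤ μ} ∩ {x | x.1 ≤ 1}))
    (h1 : A₁ = volume.real (F ∩ H ∩ {x | x.1 ≤ 1}))
    (hm : m = ∫ t in (1 - (1 - d) * W)..1, pr F t) :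
    2 * √((A₀ + r * T + s * r ^ 2 / 2) * volume.real (Lc F H t)) ≤
      (t + 1) * (A₀ + r * T / 2 + (l + s * r) * e / 2) -
      (t - 1) * (((1 - d) * W * (A₁ + r * T + s * r ^ 2 / 2) / (P + r) +
        (P + r) * m / ((1 - d) * W) + d * W * (l + s * r)) / 2 - (l + s * r) * (W + e) / 2 -
        z * (μ + h) / 2) := by
  have h0' : 0 < t + 1 := by linarith
  obtain ⟨b1, b2, b3, b4⟩ := M.basic
  obtain ⟨lam, hlam⟩ : ∃ lam, lam = (t - 1) / (t + 1) := ⟨_, rfl⟩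
  have hl0 : 0 ≤ lam := hlam ▸ div_nonneg (by linarith) h0'.le
  have l0 : 0 ≤ l := hl ▸ measureReal_nonneg
  rw [← hl, ← hs] at hz b4
  rw [← hT] at b4
  have a0 : 0 ≤ r * T + s * r ^ 2 / 2 := by nlinarith
  have a1 : 0 ≤ A₀ := h0 ▸ measureReal_nonneg
  have a2 : 0 ≤ A₁ := h1 ▸ measureReal_nonneg
  have a3 : 0 < (1 - d) * W := mul_pos (by linarith) (by linarith)
  have a4 : 0 ≤ m := hm ▸ intervalIntegral.integral_nonneg (by linarith)
    fun _ _ => measureReal_nonneg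
  obtain ⟨Q, hQ⟩ : ∃ Q, Q = (1 - d) * W * (A₁ + r * T + s * r ^ 2 / 2) / (P + r) +
      (P + r) * m / ((1 - d) * W) + d * W * (l + s * r) := ⟨_, rfl⟩
  have q0 : 0 ≤ Q := hQ ▸ add_nonneg (add_nonneg (div_nonneg (mul_nonneg a3.le (by linarith))
    (by linarith)) (div_nonneg (mul_nonneg (by linarith) a4) a3.le))
    (mul_nonneg (mul_nonneg hd.le (by linarith)) hz)
  obtain ⟨z1, z2, z3, z4, z5⟩ := z_low M Wl hr (by rwa [← hl, ← hs])
  have cS : Convex ℝ (H ∩ {x | ω x ≤ μ}) := M.cH.inter (convex_halfSpace_le ω.isLinear μ)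
  have kS : IsCompact (H ∩ {x | ω x ≤ μ}) :=
    M.kH.inter_right (isClosed_le ω.continuous continuous_const)
  have key : ∀ ε : ℝ, 0 < ε → lam * Q + 2 * (2 / (t + 1) *
      √((A₀ + r * T + s * r ^ 2 / 2) * volume.real (Lc F H t))) ≤
      (2 + ε) * A₀ + (1 + ε) ^ 2 * (lam * (μ + h) * (z + C * (ε * (lam * (μ + h))))) + r * T +
        ((1 + ε * (1 + e + lam * (W + e))) * l + s * r) * (e + lam * (W + e)) := fun ε hε => by
    obtain ⟨y1, y2, y3⟩ := zy_low M (convex_Ins cS) (isCompact_Ins kS) hr hd hd1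
      (mul_nonneg hε.le hl0) z1 z2 z3 z4 z5 fun x hx => hx.2
    obtain ⟨g1, g2⟩ := Hs_basic (ω := ω) M.cH M.kH hε.le (μ + ε * (μ + lam * (μ + h)))
    have u := cont_up M Wl hr (by rwa [← hl, ← hs]) hε.le (c₁ := 1 + e + lam * (W + e))
      (c₂ := μ + lam * (μ + h)) (by nlinarith) (by nlinarith [Wl.m0, Wl.h0])
    have hp : 0 ≤ ε * (2 / (t + 1)) := by positivity
    rw [← hl, ← hs, ← h0, ← h1, ← hT, ← hm, ← hQ] at y3
    have bm := co3_bm y1 y2 (z4.elim fun v hv => ⟨_, mem_image2_of_mem hv M.zero.1⟩)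
      (Lc_convex M.cF M.cH t) (Lc_compact M.kF M.kH (by linarith)) hn
      (isCompact_Ins (a₁ := a₁) (a₂ := a₂) (r := r) (c := 1 + ε * (1 + e + lam * (W + e)) + r) g2)
      (convex_Ins g1) hp (A := A₀ + r * T + s * r ^ 2 / 2) (by linarith)
      (by linarith [mul_nonneg (mul_nonneg hε.le hl0) q0]) (by
        rintro _ ⟨x, hx, y, hy, rfl⟩ q hq
        subst hlam
        exact incl M Wl hε.le ht hx hy hq)
    rw [← hl, ← hs, ← h0, show v₂ - v₁ = T - s / 2 by linarith] at u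
    refine le_of_mul_le_mul_left ?_ hε
    linarith
  have lim := ge_of_tendsto (f := fun ε : ℝ => (2 + ε) * A₀ + (1 + ε) ^ 2 *
      (lam * (μ + h) * (z + C * (ε * (lam * (μ + h))))) + r * T +
        ((1 + ε * (1 + e + lam * (W + e))) * l + s * r) * (e + lam * (W + e))) (x := 𝓝[>] 0)
    (Tendsto.mono_left (Continuous.tendsto (by fun_prop) 0) nhdsWithin_le_nhds)
    (eventually_nhdsWithin_of_forall key)
  rw [← hQ]
  generalize √((A₀ + r * T + s * r ^ 2 / 2) * volume.real (Lc F H t)) = R at lim ⊢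
  have e1 : lam * (t + 1) = t - 1 := by rw [hlam]; field_simp
  have e2 : 2 / (t + 1) * R * (t + 1) = 2 * R := by field_simp
  have := mul_le_mul_of_nonneg_right lim h0'.le
  have e3 := congrArg (· * (Q - (l + s * r) * (W + e) - z * (μ + h))) e1
  linarith

open scoped Pointwise in
theorem zero_case (cF : Convex ℝ F) (kF : IsCompact F) (cH : Convex ℝ H) (kH : IsCompact H)
    (h0 : 0 < volume.real (F ∩ H)) (h4 : 4 * volume.real (F ∩ H) < volume.real F) (hHF : H ⊆ F) :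
    Concl F H := by
  have e : F ∩ H = H := inter_eq_right.2 hHF
  have nF : F.Nonempty := nonempty_iff_ne_empty.2 fun e => by simp [e] at h0
  rw [Concl]
  generalize hk : volume.real (F ∩ H) = k at h0 h4 ⊢
  have hb : 2 * k ≤ √(k * volume.real F) := Real.le_sqrt_of_sq_le (by nlinarith)
  refine integ (A := k) (α := k) (β := √(k * volume.real F))
    (fun t ht => Lc_compact kF kH (by linarith)) h0 h0 h0 (fun t ht hn => ?_)
    (by nlinarith [mul_le_mul_of_nonneg_left hb (mul_pos h0 h0).le])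
  have h1 : 0 < t + 1 := by linarith
  have bm := bm2 ((Lc_convex cF cH t).smul (2 / (t + 1)))
    ((Lc_compact kF kH (by linarith : 0 < t)).smul (2 / (t + 1))) hn.smul_set
    (cF.neg.smul ((t - 1) / (t + 1))) (kF.neg.smul ((t - 1) / (t + 1))) nF.neg.smul_set kH cH (by
      rintro _ ⟨q, hq, rfl⟩ _ ⟨y, hy, rfl⟩
      have e1 : (2 / (t + 1)) • q + ((t - 1) / (t + 1)) • y =
          (t + 1)⁻¹ • ((2 : ℝ) • q - (t - 1) • -y) := by
        simp only [div_eq_mul_inv]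
        module
      exact e1 ▸ hq.2 _ hy)
  rw [co3_smul _ (by positivity), co3_smul _ (div_nonneg (by linarith) h1.le),
    measureReal_def _ (-F), Measure.measure_neg, ← measureReal_def,
    show volume.real H = k by rw [← hk, e]] at bm
  have h3 := Real.mul_self_sqrt h0.le
  rw [Real.sqrt_mul h0.le, Real.sqrt_mul h0.le]
  field_simp at bm
  have h2 := mul_le_mul_of_nonneg_left bm (Real.sqrt_nonneg k)
  nlinarith

end Pool.Agent.Lib.MP_e508a7_gt.KB
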