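import Pool.Agent.Lib.MP_e508a7_gt.KBDefs

/-!
# Volumes as exponential integrals
-/

set_option autoImplicit false

namespace Pool.Agent.Lib.MP_e508a7_gt.KB

open MeasureTheory Set Filter Topology Metric Bornology

theorem ex1_dim : Module.finrank ℝ V = 3 := by simp

theorem ex1_pow {c : ℝ} (hc : 0 < c) (n : ℕ) :
    IntegrableOn (fun y : ℝ => y ^ n * Real.exp (-(c * y))) (Ioi 0) := by
  have h := integrableOn_rpow_mul_exp_neg_mul_rpow (p := 1) (s := n) (b := c)
    (by have : (0 : ℝ) ≤ n := Nat.cast_nonneg n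
        linarith) one_pos hc
  simpa using h

theorem integrable_exp {c : ℝ} (hc : 0 < c) :
    Integrable fun x : V => Real.exp (-(c * ‖x‖)) := by
  refine (integrable_fun_norm_addHaar (volume : Measure V)
    (f := fun y => Real.exp (-(c * y)))).2 ?_
  simpa [ex1_dim] using ex1_pow hc 2

theorem integrable_mul_exp {c : ℝ} (hc : 0 < c) :
    Integrable fun x : V => ‖x‖ * Real.exp (-(c * ‖x‖)) := by
  refine (integrable_fun_norm_addHaar (volume : Measure V)
    (f := fun y => y * Real.exp (-(c * y)))).2 ?_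
  refine (ex1_pow hc 3).congr_fun (fun y _ => ?_) measurableSet_Ioi
  simp only [ex1_dim, smul_eq_mul]
  ring

theorem ex1_tail (g : ℝ) : ENNReal.ofReal (Real.exp (-g)) =
    ∫⁻ s, (Ici g).indicator (fun s => ENNReal.ofReal (Real.exp (-s))) s := by
  rw [lintegral_indicator measurableSet_Ici, ← restrict_Ioi_eq_restrict_Ici,
    ← ofReal_integral_eq_lintegral_ofReal (integrableOn_exp_neg_Ioi g)
      (Eventually.of_forall fun s => (Real.exp_pos _).le), integral_exp_neg_Ioi]

theorem ex1_six :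
    ∫⁻ s in Ioi (0 : ℝ), ENNReal.ofReal (s ^ 3 * Real.exp (-(1 * s))) = ENNReal.ofReal 6 := by
  rw [← ofReal_integral_eq_lintegral_ofReal (ex1_pow one_pos 3)]
  · congr 1
    have h := Real.integral_rpow_mul_exp_neg_mul_Ioi (a := (3 : ℕ) + 1) (r := 1)
      (by positivity) one_pos
    rw [Real.Gamma_nat_eq_factorial] at h
    simp only [add_sub_cancel_right, Real.rpow_natCast] at h
    rw [h]
    norm_num [Nat.factorial]
  · filter_upwards [ae_restrict_mem measurableSet_Ioi] with s hs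
    have : 0 < s := hs
    positivity

open scoped Pointwise in
theorem ex1_level {γ : V → ℝ} (hh : ∀ t : ℝ, 0 < t → ∀ x, γ (t • x) = t * γ x) {s : ℝ}
    (hs : 0 < s) : volume {x | γ x ≤ s} = ENNReal.ofReal (s ^ 3) * volume {x | γ x ≤ 1} := by
  have e : {x | γ x ≤ s} = s • {x | γ x ≤ 1} := by
    ext x
    rw [mem_smul_set_iff_inv_smul_mem₀ hs.ne']
    simp only [mem_ofPred_eq]
    rw [hh _ (inv_pos.2 hs), inv_mul_le_iff₀ hs, mul_one]
  rw [e, Measure.addHaar_smul, ex1_dim, abs_of_pos (pow_pos hs 3)]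

theorem exp_vol {γ : V → ℝ} (hγ : Continuous γ) (hh : ∀ t : ℝ, 0 < t → ∀ x, γ (t • x) = t * γ x)
    {c : ℝ} (hc : 0 < c) (hl : ∀ x, c * ‖x‖ ≤ γ x) :
    ∫ x, Real.exp (-γ x) = 6 * volume.real {x | γ x ≤ 1} := by
  have hlev : ∀ s : ℝ, ENNReal.ofReal (Real.exp (-s)) * volume {x | γ x ≤ s} =
      (Ioi (0 : ℝ)).indicator (fun s => ENNReal.ofReal (s ^ 3 * Real.exp (-(1 * s))) *
        volume {x | γ x ≤ 1}) s := by
    intro s
    rcases lt_or_ge 0 s with hs | hs
    · rw [indicator_of_mem (mem_Ioi.2 hs), ex1_level hh hs,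
        ENNReal.ofReal_mul (pow_pos hs 3).le, one_mul]
      ring
    · have e : {x | γ x ≤ s} ⊆ {0} := by
        intro x hx
        have h1 : c * ‖x‖ ≤ 0 := (hl x).trans (le_trans hx hs)
        have h2 : ‖x‖ ≤ 0 := by
          by_contra h
          exact absurd h1 (not_le.2 (mul_pos hc (not_le.1 h)))
        exact norm_le_zero_iff.1 h2
      rw [measure_mono_null e (measure_singleton 0), mul_zero,
        indicator_of_notMem (by simpa using hs)]
  have hF : Measurable (Function.uncurry fun (x : V) (s : ℝ) =>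
      if γ x ≤ s then ENNReal.ofReal (Real.exp (-s)) else 0) := by
    refine Measurable.ite ?_ ?_ measurable_const
    · exact measurableSet_le (hγ.measurable.comp measurable_fst) measurable_snd
    · fun_prop
  have h1 : ∫⁻ x, ENNReal.ofReal (Real.exp (-γ x)) =
      ∫⁻ x, ∫⁻ s, if γ x ≤ s then ENNReal.ofReal (Real.exp (-s)) else 0 := by
    refine lintegral_congr fun x => ?_
    rw [ex1_tail]
    refine lintegral_congr fun s => ?_
    simp [indicator]
  have h2 : ∀ s : ℝ, ∫⁻ x, (if γ x ≤ s then ENNReal.ofReal (Real.exp (-s)) else 0) =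
      ENNReal.ofReal (Real.exp (-s)) * volume {x | γ x ≤ s} := by
    intro s
    rw [← lintegral_indicator_const (measurableSet_le hγ.measurable measurable_const)]
    refine lintegral_congr fun x => ?_
    simp [indicator]
  have h3 : ∫⁻ x, ENNReal.ofReal (Real.exp (-γ x)) = ENNReal.ofReal 6 * volume {x | γ x ≤ 1} := by
    rw [h1, lintegral_lintegral_swap hF.aemeasurable]
    simp only [h2, hlev]
    rw [lintegral_indicator measurableSet_Ioi, lintegral_mul_const _ (by fun_prop), ex1_six]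
  rw [integral_eq_lintegral_of_nonneg_ae (Eventually.of_forall fun x => (Real.exp_pos _).le)
    (by fun_prop), h3, ENNReal.toReal_mul, ENNReal.toReal_ofReal (by norm_num)]
  rfl

theorem ex2_lip {a s t : ℝ} (hs : a ≤ s) (ht : a ≤ t) :
    |Real.exp (-s) - Real.exp (-t)| ≤ Real.exp (-a) * |s - t| := by
  wlog h : s ≤ t generalizing s t
  · rw [abs_sub_comm, abs_sub_comm s]
    exact this ht hs (le_of_not_ge h)
  have e : Real.exp (-t) = Real.exp (-s) * Real.exp (s - t) := by
    rw [← Real.exp_add, neg_add_eq_sub, sub_sub_cancel_left]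
  rw [abs_of_nonneg (sub_nonneg.2 (Real.exp_le_exp.2 (neg_le_neg h))),
    abs_of_nonpos (sub_nonpos.2 h), e]
  nlinarith [Real.add_one_le_exp (s - t), Real.exp_pos (-s), Real.exp_le_exp.2 (neg_le_neg hs)]

theorem strict {Λ : Type} {l : Filter Λ} [l.IsCountablyGenerated] (M u₀ u₁ : Λ → V → ℝ)
    (τ : Λ → ℝ) (M' u' d : V → ℝ) {c C : ℝ} (hc : 0 < c)
    (hm : ∀ z, Continuous (M z) ∧ Continuous (u₀ z) ∧ Continuous (u₁ z))
    (hm' : Continuous M' ∧ Continuous u')
    (hb : ∀ᶠ z in l, τ z ≠ 0 ∧ ∀ x, c * ‖x‖ ≤ max (M z x) (u₀ z x) ∧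
      c * ‖x‖ ≤ max (M z x) (u₁ z x) ∧ |u₁ z x - u₀ z x| ≤ C * |τ z| * ‖x‖)
    (hM : ∀ x, Tendsto (fun z => M z x) l (𝓝 (M' x)))
    (h0 : ∀ x, Tendsto (fun z => u₀ z x) l (𝓝 (u' x)))
    (h1 : ∀ x, Tendsto (fun z => u₁ z x) l (𝓝 (u' x)))
    (hd : ∀ x, M' x < u' x → Tendsto (fun z => (u₁ z x - u₀ z x) / τ z) l (𝓝 (d x)))
    (hne : ∀ᵐ x, M' x ≠ u' x) :
    Tendsto (fun z => ((∫ x, Real.exp (-max (M z x) (u₁ z x))) -
        ∫ x, Real.exp (-max (M z x) (u₀ z x))) / τ z) l
      (𝓝 (-∫ x in {x | M' x < u' x}, d x * Real.exp (-u' x))) := by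
  have ie : ∀ γ : V → ℝ, Continuous γ → (∀ x, c * ‖x‖ ≤ γ x) →
      Integrable fun x => Real.exp (-γ x) := fun γ a b =>
    (integrable_exp hc).mono' (by fun_prop) (Eventually.of_forall fun x =>
      (Real.abs_exp _).trans_le (Real.exp_le_exp.2 (neg_le_neg (b x))))
  rw [← integral_neg, ← integral_indicator (isOpen_lt hm'.1 hm'.2).measurableSet]
  refine (tendsto_integral_filter_of_dominated_convergence (F := fun z x =>
    (Real.exp (-max (M z x) (u₁ z x)) - Real.exp (-max (M z x) (u₀ z x))) / τ z)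
    (fun x => C * (‖x‖ * Real.exp (-(c * ‖x‖)))) (Eventually.of_forall fun z => ?_)
    (hb.mono fun z hz => Eventually.of_forall fun x => ?_) ((integrable_mul_exp hc).const_mul C)
    (hne.mono fun x hx => ?_)).congr' (hb.mono fun z hz => ?_)
  · obtain ⟨a, b, d⟩ := hm z
    exact Continuous.aestronglyMeasurable (by fun_prop)
  · obtain ⟨a, b, d⟩ := hz.2 x
    rw [Real.norm_eq_abs, abs_div, div_le_iff₀ (abs_pos.2 hz.1)]
    refine (ex2_lip b a).trans ((mul_le_mul_of_nonneg_left
      (((abs_max_sub_max_le_max _ _ _ _).trans_eq (by simp)).trans d) (Real.exp_pos _).le).trans_eq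
      (by ring))
  · rcases hx.lt_or_gt with hx | hx
    · rw [indicator_of_mem (s := {x | M' x < u' x}) hx]
      have hE := (continuousAt_dslope_same.2 (Real.differentiableAt_exp (x := 0))).tendsto.comp
        (show Tendsto (fun z => u₀ z x - u₁ z x) l (𝓝 0) from sub_self (u' x) ▸ (h0 x).sub (h1 x))
      rw [dslope_same, Real.deriv_exp, Real.exp_zero] at hE
      have := (((hd x hx).mul (h0 x).neg.rexp).mul hE).neg
      rw [mul_one] at this
      refine this.congr' ?_
      filter_upwards [(hM x).eventually_lt (h0 x) hx, (hM x).eventually_lt (h1 x) hx] with z a b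
      have e := sub_smul_dslope Real.exp 0 (u₀ z x - u₁ z x)
      rw [sub_zero, smul_eq_mul, Real.exp_zero, eq_sub_iff_add_eq] at e
      rw [max_eq_right a.le, max_eq_right b.le, show -u₁ z x = -u₀ z x + (u₀ z x - u₁ z x) by ring,
        Real.exp_add, ← e, Function.comp_apply]
      ring
    · rw [indicator_of_notMem (s := {x | M' x < u' x}) hx.not_gt]
      refine tendsto_const_nhds.congr' ?_
      filter_upwards [(h0 x).eventually_lt (hM x) hx, (h1 x).eventually_lt (hM x) hx] with z a b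
      rw [max_eq_left a.le, max_eq_left b.le, sub_self, zero_div]
  · obtain ⟨a, b, d⟩ := hm z
    simp only
    rw [integral_div, integral_sub (ie _ (a.max d) fun x => (hz.2 x).2.1)
      (ie _ (a.max b) fun x => (hz.2 x).1)]

end Pool.Agent.Lib.MP_e508a7_gt.KB
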