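import Pool.Agent.Lib.MP_e508a7_gt.KBCont
import Pool.Agent.Lib.MP_e508a7_gt.KBExp

/-!
# The cap over one facet
-/

set_option autoImplicit false

namespace Pool.Agent.Lib.MP_e508a7_gt.KB

open MeasureTheory Set Filter Topology Metric Bornology

variable {m : ℕ}

/-- the cone over a planar set -/
def cone (S : Set R2) : Set (R2 × ℝ) := {x | 0 < x.2 ∧ x.2⁻¹ • x.1 ∈ S}

lemma fc1_meas {S : Set R2} (hS : IsCompact S) : MeasurableSet (cone S) :=
  (measurableSet_lt measurable_const measurable_snd).inter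
    ((measurable_snd.inv.smul measurable_fst) hS.measurableSet)

open scoped Pointwise in
lemma fc1_mem {S : Set R2} {s : ℝ} (hs : 0 < s) (y : R2) : (y, s) ∈ cone S ↔ y ∈ s • S := by
  rw [Set.mem_smul_set_iff_inv_smul_mem₀ hs.ne']
  exact ⟨fun h => h.2, fun h => ⟨hs, h⟩⟩

lemma fc1_rank : Module.finrank ℝ R2 = 2 := by
  simp [R2]

open scoped Pointwise in
lemma fc1_area (S : Set R2) (s : ℝ) : volume (s • S) = ENNReal.ofReal (s ^ 2) * volume S := by
  rw [Measure.addHaar_smul, fc1_rank, abs_of_nonneg (sq_nonneg s)]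

lemma fc1_vol {S : Set R2} (hS : IsCompact S) {T : Set ℝ} (hT : MeasurableSet T) :
    volume (cone S ∩ {x | x.2 ∈ T}) =
      (∫⁻ s in Ioi 0 ∩ T, ENNReal.ofReal (s ^ 2)) * volume S := by
  have hm : MeasurableSet (cone S ∩ {x | x.2 ∈ T}) := (fc1_meas hS).inter (measurable_snd hT)
  rw [Measure.volume_eq_prod, Measure.prod_apply_symm hm,
    ← lintegral_mul_const _ (by fun_prop), ← lintegral_indicator (measurableSet_Ioi.inter hT)]
  refine lintegral_congr fun s => ?_
  by_cases hs : s ∈ Ioi 0 ∩ T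
  · rw [indicator_of_mem hs, ← fc1_area]
    congr 1
    ext y
    rw [← fc1_mem hs.1]
    exact ⟨fun h => h.1, fun h => ⟨h, hs.2⟩⟩
  · rw [indicator_of_notMem hs]
    have h : (fun y : R2 => (y, s)) ⁻¹' (cone S ∩ {x | x.2 ∈ T}) = ∅ :=
      eq_empty_of_forall_notMem fun y hy => hs ⟨hy.1.1, hy.2⟩
    rw [h, measure_empty]



theorem cone_vol {S : Set R2} (hS : IsCompact S) :
    volume (cone S ∩ {x | x.2 ≤ 1}) = ENNReal.ofReal (1 / 3 * volume.real S) := by
  have h := fc1_vol hS (T := Iic 1) measurableSet_Iic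
  have h1 : ∫⁻ s in Ioi (0 : ℝ) ∩ Iic 1, ENNReal.ofReal (s ^ 2) = ENNReal.ofReal (1 / 3) := by
    rw [Ioi_inter_Iic, ← ofReal_integral_eq_lintegral_ofReal
      ((continuous_pow 2).integrableOn_Icc.mono_set Ioc_subset_Icc_self)
      (Eventually.of_forall fun s => sq_nonneg s),
      ← intervalIntegral.integral_of_le zero_le_one, integral_pow]
    norm_num
  rw [h1] at h
  rw [ENNReal.ofReal_mul (by norm_num), Measure.real, ENNReal.ofReal_toReal hS.measure_lt_top.ne]
  exact h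

theorem cone_null {S : Set R2} (hS : IsCompact S) (h : volume.real S = 0) :
    volume (cone S) = 0 := by
  have h0 : volume S = 0 := by
    rwa [Measure.real, ENNReal.toReal_eq_zero_iff, or_iff_left hS.measure_lt_top.ne] at h
  have h1 := fc1_vol hS (T := univ) MeasurableSet.univ
  rw [h0, mul_zero] at h1
  simpa using h1

open scoped Pointwise in
lemma fc1_ind {S : Set R2} (G : R2 × ℝ → ℝ) (s : ℝ) :
    (fun y : R2 => (cone S).indicator G (y, s)) =
      if 0 < s then (s • S).indicator fun y => G (y, s) else fun _ => 0 := by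
  funext y
  split_ifs with hs
  · by_cases hy : y ∈ s • S
    · rw [indicator_of_mem hy, indicator_of_mem ((fc1_mem hs y).2 hy)]
    · rw [indicator_of_notMem hy, indicator_of_notMem fun h => hy ((fc1_mem hs y).1 h)]
  · exact indicator_of_notMem (fun h => hs h.1) _

lemma fc1_sec {S : Set R2} (hS : IsCompact S) {φ : R2 × ℝ → ℝ}
    (hh : ∀ t : ℝ, 0 < t → ∀ x, φ (t • x) = t * φ x) (s : ℝ) :
    ∫ y : R2, (cone S).indicator (fun x => φ x * Real.exp (-x.2)) (y, s) =
      (Ioi (0 : ℝ)).indicator (fun s => Real.exp (-s) * s ^ 3 * ∫ y in S, φ (y, 1)) s := by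
  rw [fc1_ind]
  split_ifs with hs
  · have h1 := Measure.setIntegral_comp_smul_of_pos volume
      (fun y : R2 => φ (y, s) * Real.exp (-s)) S hs
    have h2 : ∀ y : R2, φ (s • y, s) * Real.exp (-s) = Real.exp (-s) * s * φ (y, 1) := by
      intro y
      have h3 : ((s • y, s) : R2 × ℝ) = s • (y, 1) := by simp
      rw [h3, hh s hs]
      ring
    simp only [h2] at h1
    rw [integral_const_mul, fc1_rank, smul_eq_mul, eq_inv_mul_iff_mul_eq₀ (by positivity)] at h1
    rw [integral_indicator (hS.smul s).measurableSet, indicator_of_mem (mem_Ioi.2 hs), ← h1]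
    ring
  · rw [indicator_of_notMem fun h => hs (mem_Ioi.1 h), integral_zero]

lemma fc1_pow : EqOn (fun s : ℝ => Real.exp (-s) * s ^ ((4 : ℝ) - 1))
    (fun s => Real.exp (-s) * s ^ 3) (Ioi 0) := by
  intro s _
  have h : (4 : ℝ) - 1 = ((3 : ℕ) : ℝ) := by norm_num
  simp only [h, Real.rpow_natCast]

lemma fc1_gint : IntegrableOn (fun s : ℝ => Real.exp (-s) * s ^ 3) (Ioi 0) :=
  (Real.GammaIntegral_convergent (by norm_num : (0 : ℝ) < 4)).congr_fun fc1_pow measurableSet_Ioi

lemma fc1_gval : ∫ s in Ioi (0 : ℝ), Real.exp (-s) * s ^ 3 = 6 := by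
  rw [← setIntegral_congr_fun measurableSet_Ioi fc1_pow,
    ← Real.Gamma_eq_integral (by norm_num : (0 : ℝ) < 4)]
  have h := Real.Gamma_nat_eq_factorial 3
  norm_num [Nat.factorial] at h ⊢



theorem cone_int {S : Set R2} (hS : IsCompact S) (w : (R2 × ℝ) →L[ℝ] ℝ) :
    ∫ x in cone S, w x * Real.exp (-x.2) = 6 * ∫ y in S, w (y, 1) := by
  have hc : Continuous fun x : R2 × ℝ => w x * Real.exp (-x.2) := by fun_prop
  have hi : Integrable ((cone S).indicator fun x => w x * Real.exp (-x.2))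
      ((volume : Measure R2).prod volume) := by
    rw [integrable_prod_iff' (hc.aestronglyMeasurable.indicator (fc1_meas hS))]
    refine ⟨Eventually.of_forall fun s => ?_, ?_⟩
    · rw [fc1_ind]
      split_ifs with hs
      · rw [integrable_indicator_iff (hS.smul s).measurableSet]
        exact (hc.comp (by fun_prop)).continuousOn.integrableOn_compact (hS.smul s)
      · exact integrable_zero _ _ _
    · have h1 : ∀ x : R2 × ℝ, ‖(cone S).indicator (fun x => w x * Real.exp (-x.2)) x‖ =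
          (cone S).indicator (fun x => |w x| * Real.exp (-x.2)) x := by
        intro x
        rw [norm_indicator_eq_indicator_norm]
        simp only [Real.norm_eq_abs, abs_mul, Real.abs_exp]
      have h2 := fc1_sec hS (φ := fun x => |w x|) fun t ht x => by
        rw [map_smul, smul_eq_mul, abs_mul, abs_of_pos ht]
      simp only [h1, h2]
      rw [integrable_indicator_iff measurableSet_Ioi]
      exact fc1_gint.mul_const _
  have h3 := fc1_sec hS (φ := fun x => w x) fun t _ x => by rw [map_smul, smul_eq_mul]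
  rw [← integral_indicator (fc1_meas hS), Measure.volume_eq_prod, integral_prod_symm _ hi]
  simp only [h3]
  rw [integral_indicator measurableSet_Ioi, integral_mul_const, fc1_gval]

theorem exists_chart (l : Fn) (v : V) (h : l v = 1) :
    ∃ (L : V ≃L[ℝ] (R2 × ℝ)) (c : NNReal), 0 < c ∧ (∀ x, (L x).2 = l x) ∧ L v = (0, 1) ∧
      Measure.map L volume = c • volume := by
  have hs : Function.Surjective l.toLinearMap := fun s => ⟨s • v, by simp [h]⟩
  have h1 := LinearMap.finrank_range_add_finrank_ker l.toLinearMap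
  rw [LinearMap.range_eq_top.2 hs, finrank_top, Module.finrank_self, Module.finrank_fin_fun] at h1
  let e : LinearMap.ker l.toLinearMap ≃ₗ[ℝ] R2 := LinearEquiv.ofFinrankEq _ _ (by
    rw [Module.finrank_prod, Module.finrank_self]
    omega)
  let p : V →ₗ[ℝ] LinearMap.ker l.toLinearMap :=
    (LinearMap.id - l.toLinearMap.smulRight v).codRestrict _ fun x => by simp [h]
  have hp : ∀ x, (p x : V) = x - l x • v := fun _ => rfl
  let L : V ≃ₗ[ℝ] (R2 × ℝ) := LinearEquiv.ofInjectiveOfFinrankEq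
    ((e.toLinearMap.comp p).prod l.toLinearMap) ((injective_iff_map_eq_zero _).2 fun x hx => by
      have h2 : l x = 0 := congrArg Prod.snd hx
      have h3 := hp x
      rw [e.map_eq_zero_iff.1 (congrArg Prod.fst hx), h2, zero_smul, sub_zero] at h3
      exact h3.symm) (by simp)
  have : (volume : Measure R2).IsAddHaarMeasure := Measure.prod.instIsAddHaarMeasure _ _
  have : (volume : Measure (R2 × ℝ)).IsAddHaarMeasure := Measure.prod.instIsAddHaarMeasure _ _
  have := L.toContinuousLinearEquiv.isAddHaarMeasure_map volume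
  refine ⟨L.toContinuousLinearEquiv, _, Measure.addHaarScalarFactor_pos_of_isAddHaarMeasure
    (Measure.map L.toContinuousLinearEquiv volume) volume, fun _ => rfl, Prod.ext ?_ h,
    Measure.isAddLeftInvariant_eq_smul _ _⟩
  exact e.map_eq_zero_iff.2 (Subtype.ext (by simp [hp, h]))

theorem fa_meas {S : Set R2} (hS : MeasurableSet S) : MeasurableSet (cone S) :=
  (measurableSet_lt measurable_const measurable_snd).inter
    ((by fun_prop : Measurable fun x : R2 × ℝ => x.2⁻¹ • x.1) hS)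

/-- the section of a set at height one in a chart -/
def sec (L : V ≃L[ℝ] (R2 × ℝ)) (K : Set V) : Set R2 := {y | L.symm (y, 1) ∈ K}

theorem sec_compact (L : V ≃L[ℝ] (R2 × ℝ)) {K : Set V} (hK : IsCompact K) :
    IsCompact (sec L K) := by
  have h1 : IsClosedEmbedding fun y : R2 => ((y, 1) : R2 × ℝ) :=
    (Isometry.of_dist_eq fun x y => by simp [Prod.dist_eq]).isClosedEmbedding
  exact (L.symm.toHomeomorph.isClosedEmbedding.comp h1).isCompact_preimage hK

theorem sec_convex (L : V ≃L[ℝ] (R2 × ℝ)) {K : Set V} (hK : Convex ℝ K) : Convex ℝ (sec L K) := by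
  intro x hx y hy s t hs ht hst
  have := hK hx hy hs ht hst
  have e : s • ((x, 1) : R2 × ℝ) + t • (y, 1) = (s • x + t • y, 1) :=
    Prod.ext rfl (by simpa using hst)
  rw [← map_smul, ← map_smul, ← map_add, e] at this
  exact this

theorem sec_scale (L : V ≃L[ℝ] (R2 × ℝ)) {x : V} (hx : 0 < (L x).2) :
    L.symm (((L x).2)⁻¹ • (L x).1, 1) = ((L x).2)⁻¹ • x := by
  rw [L.symm_apply_eq, map_smul]
  exact Prod.ext rfl (inv_mul_cancel₀ hx.ne').symm

theorem fa_Cf {b : Fin m → Fn} {i : Fin m} {L : V ≃L[ℝ] (R2 × ℝ)} (hL : ∀ x, (L x).2 = b i x) :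
    Cf b i = L ⁻¹' cone (sec L (Kp b)) := by
  ext x
  simp only [Cf, cone, sec, Kp, mem_ofPred_eq, mem_preimage]
  rw [← hL]
  refine and_congr_right fun hx => ?_
  rw [sec_scale L hx]
  refine forall_congr' fun j => ?_
  rw [map_smul, smul_eq_mul, inv_mul_le_iff₀ hx, mul_one]

theorem fa_Cg {b : Fin m → Fn} {i : Fin m} {L : V ≃L[ℝ] (R2 × ℝ)} (hL : ∀ x, (L x).2 = b i x) :
    Cg b i = L ⁻¹' cone (sec L (Kp b) ∩ sec L ((fun x => -x) ⁻¹' Kp b)) := by
  ext x
  simp only [Cg, cone, sec, Kp, mem_ofPred_eq, mem_preimage, mem_inter_iff, ← forall_and]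
  rw [← hL]
  refine and_congr_right fun hx => ?_
  rw [sec_scale L hx]
  refine forall_congr' fun j => ?_
  rw [map_neg, map_smul, smul_eq_mul, inv_mul_le_iff₀ hx, ← mul_neg, inv_mul_le_iff₀ hx, mul_one,
    abs_le, neg_le, and_comm]

theorem fa_int {L : V ≃L[ℝ] (R2 × ℝ)} {c : NNReal} (hc : Measure.map L volume = c • volume)
    {l : Fn} (hL : ∀ x, (L x).2 = l x) {S : Set R2} (hS : IsCompact S) (w : Fn) :
    ∫ x in L ⁻¹' cone S, w x * Real.exp (-l x) = c * (6 * ∫ y in S, w (L.symm (y, 1))) := by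
  have h := L.toHomeomorph.measurableEmbedding.setIntegral_map (μ := volume)
    (fun z : R2 × ℝ => (w.comp L.symm.toContinuousLinearMap) z * Real.exp (-z.2)) (cone S)
  have e : (L.toHomeomorph : V → R2 × ℝ) = L := rfl
  rw [e, hc, Measure.restrict_smul, integral_smul_nnreal_measure, cone_int hS] at h
  simp only [ContinuousLinearMap.comp_apply, ContinuousLinearEquiv.coe_coe,
    ContinuousLinearEquiv.symm_apply_apply, hL] at h
  rw [← h, NNReal.smul_def, smul_eq_mul]

theorem fa_vol {L : V ≃L[ℝ] (R2 × ℝ)} {c : NNReal} (hc : Measure.map L volume = c • volume)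
    (T : Set (R2 × ℝ)) : volume (L ⁻¹' T) = c * volume T := by
  have h := L.toHomeomorph.measurableEmbedding.map_apply volume T
  have e : (L.toHomeomorph : V → R2 × ℝ) = L := rfl
  rw [e, hc] at h
  rw [← h, Measure.smul_apply, ENNReal.smul_def, smul_eq_mul]

theorem fa_zero {S : Set R2} (hS : IsCompact S) (h1 : ∫ y in S, y.1 = 0) (h2 : ∫ y in S, y.2 = 0) :
    (∫ y in S, y) = 0 := by
  have hi : IntegrableOn (fun y : R2 => y) S := continuous_id.continuousOn.integrableOn_compact hS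
  exact Prod.ext (((ContinuousLinearMap.fst ℝ ℝ ℝ).integral_comp_comm hi).symm.trans h1)
    (((ContinuousLinearMap.snd ℝ ℝ ℝ).integral_comp_comm hi).symm.trans h2)

theorem fa_cap {b : Fin m → Fn} {i : Fin m} {L : V ≃L[ℝ] (R2 × ℝ)} (hL : ∀ x, (L x).2 = b i x)
    {y : R2} {t : ℝ} (h1 : -L.symm (y, t) ∈ Kp b) (h2 : 1 < t)
    (h3 : ∀ j, b j (L.symm (y, t)) ≤ b i (L.symm (y, t))) :
    y ∈ Lc (sec L (Kp b)) (sec L ((fun x => -x) ⁻¹' Kp b)) t := by
  have ht : 0 < t := one_pos.trans h2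
  have e0 : b i (L.symm (y, t)) = t := by rw [← hL, L.apply_symm_apply]
  have e1 : L.symm (t⁻¹ • y, 1) = t⁻¹ • L.symm (y, t) := by
    rw [← map_smul]
    congr 1
    exact Prod.ext rfl (inv_mul_cancel₀ ht.ne').symm
  refine ⟨⟨fun j => ?_, fun j => ?_⟩, fun z hz j => ?_⟩
  · rw [e1, map_smul, smul_eq_mul, inv_mul_le_iff₀ ht, mul_one]
    exact (h3 j).trans_eq e0
  · have := h1 j
    change b j (-L.symm (t⁻¹ • y, 1)) ≤ 1
    rw [e1, ← smul_neg, map_smul, smul_eq_mul, inv_mul_le_iff₀ ht]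
    linarith
  · have e2 : L.symm ((t + 1)⁻¹ • ((2 : ℝ) • y - (t - 1) • z), 1) =
        (t + 1)⁻¹ • ((2 : ℝ) • L.symm (y, t) - (t - 1) • L.symm (z, 1)) := by
      rw [← map_smul, ← map_smul, ← map_sub, ← map_smul]
      congr 1
      refine Prod.ext rfl ?_
      simp only [Prod.smul_snd, Prod.snd_sub, smul_eq_mul]
      field_simp
      ring
    have h4 := h1 j
    have h5 := hz j
    change b j (-L.symm ((t + 1)⁻¹ • ((2 : ℝ) • y - (t - 1) • z), 1)) ≤ 1
    rw [map_neg] at h4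
    rw [e2, map_neg, map_smul, map_sub, map_smul, map_smul, smul_eq_mul, smul_eq_mul, smul_eq_mul,
      ← mul_neg, inv_mul_le_iff₀ (by linarith)]
    nlinarith

theorem facet (hP : Planar) {b : Fin m → Fn} (hb : IsBounded (Kp b)) (i : Fin m) (hi : b i ≠ 0)
    {ρ : ℝ} (h0 : 0 < ρ) (h1 : ρ < 1 / 2)
    (h : ∀ w : Fn, 2 * ∫ x in Cg b i, w x * Real.exp (-b i x) =
      ρ * ∫ x in Cf b i, w x * Real.exp (-b i x)) :
    volume {x | -x ∈ Kp b ∧ 1 < b i x ∧ ∀ j, b j x ≤ b i x} ≤
      2 * volume (Cg b i ∩ {x | b i x ≤ 1}) := by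
  have hK := isCompact_Kp hb
  have hK' : IsCompact ((fun x : V => -x) ⁻¹' Kp b) := (Homeomorph.neg V).isCompact_preimage.2 hK
  have cK' : Convex ℝ ((fun x : V => -x) ⁻¹' Kp b) :=
    (convex_Kp b).is_linear_preimage ⟨neg_add, fun c x => (smul_neg c x).symm⟩
  obtain ⟨v₀, hv₀⟩ : ∃ v, b i v = 1 := by
    obtain ⟨x, hx⟩ : ∃ x, b i x ≠ 0 := by
      by_contra h
      exact hi (ContinuousLinearMap.ext fun x => not_not.1 fun e => h ⟨x, e⟩)
    exact ⟨(b i x)⁻¹ • x, by rw [map_smul, smul_eq_mul, inv_mul_cancel₀ hx]⟩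
  obtain ⟨L₀, c₀, hc₀, hL₀, -, hm₀⟩ := exists_chart (b i) v₀ hv₀
  have hF₀ := sec_compact L₀ hK
  by_cases hz : volume.real (sec L₀ (Kp b)) = 0
  · have h2 : volume (Cf b i) = 0 := by rw [fa_Cf hL₀, fa_vol hm₀, cone_null hF₀ hz, mul_zero]
    refine (measure_mono_null (fun x hx => ?_) h2).trans_le zero_le
    exact ⟨one_pos.trans hx.2.1, hx.2.2⟩
  have hX : ∀ w : Fn, ∫ y in sec L₀ (Kp b), w (L₀.symm (y, 1)) =
      w (∫ y in sec L₀ (Kp b), L₀.symm (y, 1)) := fun w => w.integral_comp_comm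
    ((by fun_prop : Continuous fun y : R2 => L₀.symm (y, 1)).continuousOn.integrableOn_compact hF₀)
  set X := ∫ y in sec L₀ (Kp b), L₀.symm (y, 1) with hXd
  have hX1 : b i X = volume.real (sec L₀ (Kp b)) := by
    rw [← hX]
    simp only [← hL₀, ContinuousLinearEquiv.apply_symm_apply, integral_const, smul_eq_mul, mul_one,
      measureReal_restrict_apply_univ]
  obtain ⟨L, c, hc, hL, hv, hm⟩ := exists_chart (b i) ((b i X)⁻¹ • X)
    (by rw [map_smul, smul_eq_mul, inv_mul_cancel₀ (hX1 ▸ hz)])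
  set F := sec L (Kp b) with hFd
  set H := sec L ((fun x => -x) ⁻¹' Kp b) with hHd
  have hF : IsCompact F := sec_compact L hK
  have hH : IsCompact H := sec_compact L hK'
  have hG : IsCompact (F ∩ H) := hF.inter hH
  have hc' : (0 : ℝ) < c := hc
  have hc₀' : (0 : ℝ) < c₀ := hc₀
  have hLX : L X = b i X • ((0, 1) : R2 × ℝ) := by
    rw [← hv, ← map_smul, smul_smul, mul_inv_cancel₀ (hX1 ▸ hz), one_smul]
  have k1 : ∀ w : (R2 × ℝ) →L[ℝ] ℝ, (c : ℝ) * ∫ y in F, w (y, 1) = c₀ * (b i X * w (0, 1)) := by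
    intro w
    have e1 := fa_int hm hL hF (w.comp L.toContinuousLinearMap)
    have e2 := fa_int hm₀ hL₀ hF₀ (w.comp L.toContinuousLinearMap)
    rw [← fa_Cf hL₀, hX, fa_Cf hL, e1] at e2
    simp only [ContinuousLinearMap.comp_apply, ContinuousLinearEquiv.coe_coe,
      ContinuousLinearEquiv.apply_symm_apply, hLX, map_smul, smul_eq_mul] at e2
    linarith
  have k2 : ∀ w : (R2 × ℝ) →L[ℝ] ℝ, 2 * ∫ y in F ∩ H, w (y, 1) = ρ * ∫ y in F, w (y, 1) := by
    intro w
    have e := h (w.comp L.toContinuousLinearMap)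
    rw [fa_Cf hL, fa_Cg hL, fa_int hm hL hF, fa_int hm hL hG] at e
    simp only [ContinuousLinearMap.comp_apply, ContinuousLinearEquiv.coe_coe,
      ContinuousLinearEquiv.apply_symm_apply] at e
    exact mul_left_cancel₀ hc'.ne' (by linarith)
  have a1 := k1 (ContinuousLinearMap.snd ℝ R2 ℝ)
  have a2 := k2 (ContinuousLinearMap.snd ℝ R2 ℝ)
  have a3 := k1 ((ContinuousLinearMap.fst ℝ ℝ ℝ).comp (ContinuousLinearMap.fst ℝ R2 ℝ))
  have a4 := k2 ((ContinuousLinearMap.fst ℝ ℝ ℝ).comp (ContinuousLinearMap.fst ℝ R2 ℝ))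
  have a5 := k1 ((ContinuousLinearMap.snd ℝ ℝ ℝ).comp (ContinuousLinearMap.fst ℝ R2 ℝ))
  have a6 := k2 ((ContinuousLinearMap.snd ℝ ℝ ℝ).comp (ContinuousLinearMap.fst ℝ R2 ℝ))
  simp only [ContinuousLinearMap.comp_apply, ContinuousLinearMap.coe_fst',
    ContinuousLinearMap.coe_snd', integral_const, smul_eq_mul, mul_one, Prod.fst_zero,
    Prod.snd_zero, mul_zero, measureReal_restrict_apply_univ, mul_eq_zero, hc'.ne', false_or]
    at a1 a2 a3 a4 a5 a6
  have pF : 0 < volume.real F := by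
    have : 0 < b i X := hX1 ▸ lt_of_le_of_ne measureReal_nonneg (Ne.symm hz)
    exact (mul_pos_iff_of_pos_left hc').1 (a1 ▸ mul_pos hc₀' this)
  have hpl := hP F H (sec_convex L (convex_Kp b)) hF (sec_convex L cK') hH (by nlinarith)
    (by nlinarith) (fa_zero hF a3 a5) (fa_zero hG (by rw [a3] at a4; linarith)
      (by rw [a5] at a6; linarith))
  set cap := {x | -x ∈ Kp b ∧ 1 < b i x ∧ ∀ j, b j x ≤ b i x} with hcap
  have mc : MeasurableSet cap := by
    have e : cap = (fun x : V => -x) ⁻¹' Kp b ∩ ({x | 1 < b i x} ∩ ⋂ j, {x | b j x ≤ b i x}) := by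
      ext x; simp [hcap]
    rw [e]
    exact hK'.measurableSet.inter ((measurableSet_lt measurable_const
      (b i).continuous.measurable).inter (MeasurableSet.iInter fun j =>
        measurableSet_le (b j).continuous.measurable (b i).continuous.measurable))
  have e1 : cap = L ⁻¹' (L.symm ⁻¹' cap) := by ext x; simp
  have e2 : Cg b i ∩ {x | b i x ≤ 1} = L ⁻¹' (cone (F ∩ H) ∩ {x | x.2 ≤ 1}) := by
    rw [fa_Cg hL]
    ext x
    simp only [mem_inter_iff, mem_preimage, mem_ofPred_eq, hL]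
    rfl
  have e3 : volume (L.symm ⁻¹' cap) ≤ ∫⁻ t in Ioi (1 : ℝ), volume (Lc F H t) := by
    rw [Measure.volume_eq_prod, Measure.prod_apply_symm (L.symm.continuous.measurable mc),
      ← lintegral_indicator measurableSet_Ioi]
    refine lintegral_mono fun t => ?_
    have hb1 : ∀ y : R2, b i (L.symm (y, t)) = t := fun y => by rw [← hL, L.apply_symm_apply]
    by_cases ht : t ∈ Ioi (1 : ℝ)
    · rw [indicator_of_mem ht]
      exact measure_mono fun y hy => fa_cap hL hy.1 ht hy.2.2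
    · have : (fun y : R2 => (y, t)) ⁻¹' (L.symm ⁻¹' cap) = ∅ :=
        eq_empty_of_forall_notMem fun y hy => ht (by have := hy.2.1; rwa [hb1] at this)
      simp only [this, measure_empty, zero_le]
  rw [e1, e2, fa_vol hm, fa_vol hm, cone_vol hG, mul_left_comm]
  refine mul_le_mul' le_rfl (e3.trans (hpl.trans_eq ?_))
  rw [← ENNReal.ofReal_ofNat, ← ENNReal.ofReal_mul (by norm_num)]
  congr 1
  ring

end Pool.Agent.Lib.MP_e508a7_gt.KB
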