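import Pool.Agent.Lib.MP_e508a7_gt.KBDefs

/-!
# Stationarity at a minimax point by penalisation
-/

set_option autoImplicit false

namespace Pool.Agent.Lib.MP_e508a7_gt.KB

open MeasureTheory Set Filter Topology Metric Bornology

theorem pn1_w (R : ℝ) {η : ℝ} (hη : 0 < η) : ∃ w : V → ℝ, Continuous w ∧ (∀ p, 0 < w p) ∧
    (∀ p, w p ≤ 1) ∧ (∀ p, ‖p‖ ≤ R → 1 - η ≤ w p) ∧
      ∀ p q, p ≠ q → w p * w q < w ((1 / 2 : ℝ) • (p + q)) ^ 2 := by
  obtain ⟨e, he, h1⟩ : ∃ e : ℝ, 0 < e ∧ e * (3 * R ^ 2) ≤ η :=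
    ⟨η / (3 * R ^ 2 + 1), by positivity, by
      rw [div_mul_eq_mul_div, div_le_iff₀ (by positivity)]
      nlinarith⟩
  refine ⟨fun p => Real.exp (-(e * ∑ i, p i ^ 2)), by fun_prop, fun p => Real.exp_pos _,
    fun p => Real.exp_le_one_iff.2 (neg_nonpos.2 (by positivity)), fun p hp => ?_,
    fun p q hpq => ?_⟩
  · have h2 : ∀ i, p i ^ 2 ≤ R ^ 2 := fun i =>
      sq_le_sq' (neg_le_of_abs_le ((norm_le_pi_norm p i).trans hp))
        (le_of_abs_le ((norm_le_pi_norm p i).trans hp))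
    have h3 : ∑ i, p i ^ 2 ≤ 3 * R ^ 2 := by
      rw [Fin.sum_univ_three]
      linarith [h2 0, h2 1, h2 2]
    have h4 := mul_le_mul_of_nonneg_left h3 he.le
    linarith [Real.add_one_le_exp (-(e * ∑ i, p i ^ 2))]
  · obtain ⟨i, hi⟩ := Function.ne_iff.1 hpq
    have h2 : 0 < ∑ i, (p i - q i) ^ 2 := Finset.sum_pos' (fun _ _ => sq_nonneg _)
      ⟨i, Finset.mem_univ i, sq_pos_of_ne_zero (sub_ne_zero.2 hi)⟩
    rw [sq, ← Real.exp_add, ← Real.exp_add, Real.exp_lt_exp]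
    simp only [Fin.sum_univ_three, Pi.smul_apply, Pi.add_apply, smul_eq_mul] at h2 ⊢
    nlinarith [mul_pos he h2]

/-- the unique maximiser depends continuously on the parameter -/
theorem pn1_max {A : Type} [TopologicalSpace A] {F : A → V → ℝ} {B : Set A} {R : ℝ}
    (hc : ContinuousOn (fun z : A × V => F z.1 z.2) (B ×ˢ univ))
    (hR : ∀ a ∈ B, ∀ p, R < ‖p‖ → F a p = 0) (hpos : ∀ a ∈ B, 0 < F a 0)
    (hl : ∀ a ∈ B, ∀ p q, p ≠ q → 0 < F a p → 0 < F a q →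
      F a p * F a q < F a ((1 / 2 : ℝ) • (p + q)) ^ 2) (h0 : ∀ a p, 0 ≤ F a p) :
    ∃ m : A → V, ContinuousOn m B ∧ ∀ a ∈ B, ‖m a‖ ≤ R ∧ ∀ p, F a p ≤ F a (m a) := by
  have key : ∀ a ∈ B, ∃ m : V, ‖m‖ ≤ R ∧ ∀ p, F a p ≤ F a m := fun a ha => by
    have h1 : (0 : V) ∈ closedBall (0 : V) R :=
      mem_closedBall_zero_iff.2 (not_lt.1 fun k => (hpos a ha).ne' (hR a ha 0 k))
    obtain ⟨m, h2, h3⟩ := (isCompact_closedBall (0 : V) R).exists_isMaxOn ⟨0, h1⟩ (f := F a)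
      (hc.comp (f := fun p => (a, p)) (by fun_prop) fun p _ => ⟨ha, trivial⟩)
    refine ⟨m, mem_closedBall_zero_iff.1 h2, fun p => ?_⟩
    rcases le_or_gt ‖p‖ R with k | k
    · exact h3 (mem_closedBall_zero_iff.2 k)
    · exact (hR a ha p k).trans_le (h0 _ _)
  choose! m hm using key
  refine ⟨m, fun a ha => (tendsto_nhds.2 fun U hU h1 => ?_), hm⟩
  have h2 := ((isCompact_closedBall (0 : V) R).diff hU).eventually_forall_of_forall_eventually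
    (x₀ := a) (P := fun a' p => a' ∈ B → F a' p < F a' (m a)) fun p hp => by
      have h3 : F a p < F a (m a) := ((hm a ha).2 p).lt_of_ne fun e => by
        have h4 := (hpos a ha).trans_le ((hm a ha).2 0)
        have h5 := hl a ha p (m a) (fun k => hp.2 (k ▸ h1)) (e ▸ h4) h4
        have h6 := pow_le_pow_left₀ (h0 _ _) ((hm a ha).2 ((1 / 2 : ℝ) • (p + m a))) 2
        rw [e] at h5
        linarith
      have h4 : ContinuousWithinAt (fun z : A × V => F z.1 (m a)) (B ×ˢ univ) (a, p) :=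
        ContinuousWithinAt.comp (g := fun z : A × V => F z.1 z.2) (f := fun z : A × V => (z.1, m a))
          (hc _ ⟨ha, trivial⟩) (by fun_prop) fun z hz => ⟨hz.1, trivial⟩
      exact (eventually_nhdsWithin_iff.1 ((hc (a, p) ⟨ha, trivial⟩).eventually_lt h4 h3)).mono
        fun z hz k => hz ⟨k, trivial⟩
  refine eventually_nhdsWithin_iff.2 (h2.mono fun a' h3 h4 => not_not.1 fun k => ?_)
  exact (h3 _ ⟨mem_closedBall_zero_iff.2 (hm a' h4).1, k⟩ h4).not_ge ((hm a' h4).2 _)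

theorem pn1_core {A : Type} [NormedAddCommGroup A] [ProperSpace A]
    {φ : A → V → ℝ} {a₀ : A} {δ R : ℝ} (hδ : 0 < δ)
    (hc : ContinuousOn (fun z : A × V => φ z.1 z.2) (closedBall a₀ δ ×ˢ univ))
    (h0 : ∀ a p, 0 ≤ φ a p)
    (hR : ∀ a ∈ closedBall a₀ δ, ∀ p, R < ‖p‖ → φ a p = 0)
    (hl : ∀ a ∈ closedBall a₀ δ, ∀ p q, φ a p * φ a q ≤ φ a ((1 / 2 : ℝ) • (p + q)) ^ 2)
    (hpos : ∀ a ∈ closedBall a₀ δ, 0 < φ a 0) {g : ℝ} (hg : ∀ p, φ a₀ p ≤ g)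
    (hmin : ∀ a ∈ closedBall a₀ δ, ∃ p, g ≤ φ a p) {s : ℝ} (hs : 0 < s) :
    ∃ a ∈ closedBall a₀ δ, ∃ p : V, ‖p‖ ≤ R ∧ ‖a - a₀‖ ≤ s ∧ g - s ^ 2 ≤ φ a p ∧ ∀ U ∈ 𝓝 p,
      ∀ᶠ a' in 𝓝[closedBall a₀ δ] a, ∃ p' ∈ U, -(2 * s * ‖a' - a‖) ≤ φ a' p' - φ a p' := by
  have b0 := mem_closedBall_self (x := a₀) hδ.le
  have g0 : 0 < g := (hpos a₀ b0).trans_le (hg 0)
  obtain ⟨w, w1, w2, w3, w4, w5⟩ := pn1_w R (η := min (1 / 2) (s ^ 2 / g)) (by positivity)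
  have hF : ContinuousOn (fun z : A × V => φ z.1 z.2 * w z.2) (closedBall a₀ δ ×ˢ univ) :=
    hc.mul (by fun_prop)
  obtain ⟨m, m1, m2⟩ := pn1_max (F := fun a p => φ a p * w p) (R := R) hF
    (fun a ha p hp => by rw [hR a ha p hp, zero_mul]) (fun a ha => mul_pos (hpos a ha) (w2 0))
    (fun a ha p q hpq hp hq => by
      rw [mul_mul_mul_comm, mul_pow]
      exact mul_lt_mul' (hl a ha p q) (w5 p q hpq) (mul_pos (w2 p) (w2 q)).le
        ((mul_pos ((pos_iff_pos_of_mul_pos hp).2 (w2 p))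
          ((pos_iff_pos_of_mul_pos hq).2 (w2 q))).trans_le (hl a ha p q)))
    fun a p => mul_nonneg (h0 a p) (w2 p).le
  obtain ⟨a, ha, h1⟩ := (isCompact_closedBall a₀ δ).exists_isMinOn ⟨a₀, b0⟩
    (f := fun a => φ a (m a) * w (m a) + s * ‖a - a₀‖)
    ((hF.comp (f := fun a => (a, m a)) (continuousOn_id.prodMk m1) fun a ha => ⟨ha, trivial⟩).add
      (by fun_prop))
  have h2 : g - s ^ 2 ≤ φ a (m a) * w (m a) := by
    obtain ⟨p, hp⟩ := hmin a ha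
    have h3 := w4 p (not_lt.1 fun k => (g0.trans_le hp).ne' (hR a ha p k))
    have h4 : g * min (1 / 2) (s ^ 2 / g) ≤ s ^ 2 :=
      (mul_le_mul_of_nonneg_left (min_le_right _ _) g0.le).trans_eq (by field_simp)
    have h5 := mul_le_mul hp h3 (by linarith [min_le_left (1 / 2) (s ^ 2 / g)]) (h0 a p)
    linarith [(m2 a ha).2 p]
  refine ⟨a, ha, m a, (m2 a ha).1, ?_, h2.trans (mul_le_of_le_one_right (h0 _ _) (w3 _)),
    fun U hU => ?_⟩
  · have h3 : φ a (m a) * w (m a) + s * ‖a - a₀‖ ≤ φ a₀ (m a₀) * w (m a₀) + s * ‖a₀ - a₀‖ := h1 b0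
    have h4 := (mul_le_of_le_one_right (h0 a₀ (m a₀)) (w3 (m a₀))).trans (hg _)
    rw [sub_self, norm_zero] at h3
    exact le_of_mul_le_mul_left (by linarith) hs
  · filter_upwards [m1 a ha hU, self_mem_nhdsWithin] with a' h3 h4
    refine ⟨m a', h3, ?_⟩
    have h5 : φ a (m a) * w (m a) + s * ‖a - a₀‖ ≤ φ a' (m a') * w (m a') + s * ‖a' - a₀‖ := h1 h4
    have h6 := (m2 a ha).2 (m a')
    have h7 := mul_le_mul_of_nonneg_left (norm_sub_le_norm_sub_add_norm_sub a' a a₀) hs.le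
    have h8 := w4 _ (m2 a' h4).1
    have h9 : 0 ≤ s * ‖a' - a‖ := by positivity
    refine le_of_mul_le_mul_right ?_ (w2 (m a'))
    nlinarith [min_le_left (1 / 2) (s ^ 2 / g)]

theorem pen {A : Type} [NormedAddCommGroup A] [NormedSpace ℝ A] [ProperSpace A]
    (φ : A → V → ℝ) (a₀ : A) (δ R : ℝ) (hδ : 0 < δ)
    (hc : ContinuousOn (fun z : A × V => φ z.1 z.2) (closedBall a₀ δ ×ˢ univ))
    (h0 : ∀ a p, 0 ≤ φ a p)
    (hR : ∀ a ∈ closedBall a₀ δ, ∀ p, R < ‖p‖ → φ a p = 0)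
    (hl : ∀ a ∈ closedBall a₀ δ, ∀ p q, φ a p * φ a q ≤ φ a ((1 / 2 : ℝ) • (p + q)) ^ 2)
    (hpos : ∀ a ∈ closedBall a₀ δ, 0 < φ a 0)
    (hmin : ∀ a ∈ closedBall a₀ δ, (⨆ p, φ a₀ p) ≤ ⨆ p, φ a p) :
    ∃ p₀ : V, (∀ p, φ a₀ p ≤ φ a₀ p₀) ∧ ∀ (h : A) (D : ℝ),
      Tendsto (fun z : (A × V) × ℝ => (φ (z.1.1 + z.2 • h) z.1.2 - φ z.1.1 z.1.2) / z.2)
        (𝓝 (a₀, p₀) ×ˢ 𝓝[≠] 0) (𝓝 D) → D = 0 := by
  have b0 := mem_closedBall_self (x := a₀) hδ.le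
  have key : ∀ a ∈ closedBall a₀ δ, ∃ m, ∀ p, φ a p ≤ φ a m := fun a ha => by
    refine Continuous.exists_forall_ge_of_hasCompactSupport ?_ ?_
    · exact continuousOn_univ.1
        (hc.comp (f := fun p => (a, p)) (by fun_prop) fun p _ => ⟨ha, trivial⟩)
    · exact HasCompactSupport.intro (isCompact_closedBall 0 R) fun p hp =>
        hR a ha p (by simpa using hp)
  obtain ⟨m₀, hm₀⟩ := key a₀ b0
  have hmin' : ∀ a ∈ closedBall a₀ δ, ∃ p, φ a₀ m₀ ≤ φ a p := fun a ha => by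
    obtain ⟨m, hm⟩ := key a ha
    exact ⟨m, ((le_ciSup ⟨_, forall_mem_range.2 hm₀⟩ m₀).trans (hmin a ha)).trans (ciSup_le hm)⟩
  choose a ha p h1 h2 h3 h4 using fun n : ℕ =>
    pn1_core hδ hc h0 hR hl hpos hm₀ hmin' (Nat.one_div_pos_of_nat (n := n))
  obtain ⟨p₀, -, ν, hν, h5⟩ := (isCompact_closedBall (0 : V) R).tendsto_subseq (x := p)
    fun n => mem_closedBall_zero_iff.2 (h1 n)
  have h6 : Tendsto (fun n => 1 / ((ν n : ℝ) + 1)) atTop (𝓝 0) :=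
    tendsto_one_div_add_atTop_nhds_zero_nat.comp hν.tendsto_atTop
  have h7 : Tendsto (fun n => a (ν n)) atTop (𝓝 a₀) :=
    tendsto_iff_norm_sub_tendsto_zero.2 (squeeze_zero (fun _ => norm_nonneg _) (fun _ => h2 _) h6)
  have h8 := h7.prodMk_nhds h5
  refine ⟨p₀, fun q => (hm₀ q).trans ?_, fun h D hD => by_contra fun D0 => ?_⟩
  · refine le_of_tendsto_of_tendsto' (by simpa using (h6.pow 2).const_sub (φ a₀ m₀))
      ((hc (a₀, p₀) ⟨b0, trivial⟩).tendsto.comp (tendsto_nhdsWithin_iff.2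
        ⟨h8, Eventually.of_forall fun n => ⟨ha _, trivial⟩⟩)) fun n => ?_
    simpa using h3 (ν n)
  obtain ⟨S, hS, T, hT, h9⟩ := Filter.mem_prod_iff.1
    (hD (ball_mem_nhds D (half_pos (abs_pos.2 D0))))
  obtain ⟨n, k1, k2, k3⟩ := ((h8.eventually (eventually_mem_nhds_iff.2 hS)).and
    ((h7.eventually (isOpen_ball.eventually_mem (mem_ball_self hδ))).and
      (((h6.const_mul 2).mul_const ‖h‖).eventually (gt_mem_nhds (a := |D| / 2)
        (by simpa using D0))))).exists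
  have k4 := h4 (ν n) _ ((Continuous.prodMk_right (a (ν n))).continuousAt.preimage_mem_nhds k1)
  rw [nhdsWithin_eq_nhds.2 (closedBall_mem_nhds_of_mem k2)] at k4
  have k5 : Tendsto (fun r : ℝ => a (ν n) + (r * -D) • h) (𝓝[>] 0) (𝓝 (a (ν n))) :=
    (Continuous.tendsto' (by fun_prop) _ _ (by simp)).mono_left nhdsWithin_le_nhds
  have k6 : Tendsto (fun r : ℝ => r * -D) (𝓝[>] 0) (𝓝[≠] 0) := tendsto_nhdsWithin_iff.2
    ⟨(Continuous.tendsto' (by fun_prop) _ _ (by simp)).mono_left nhdsWithin_le_nhds,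
      eventually_mem_nhdsWithin.mono fun r hr => mul_ne_zero (ne_of_gt hr) (neg_ne_zero.2 D0)⟩
  obtain ⟨r, ⟨q, r1, r2⟩, r3, r4⟩ := ((k5.eventually k4).and ((k6.eventually_mem hT).and
    eventually_mem_nhdsWithin)).exists
  have r5 := h9 (mk_mem_prod r1 r3)
  have r6 : 0 < r := r4
  rw [mem_preimage, mem_ball, Real.dist_eq] at r5
  rw [add_sub_cancel_left, norm_smul, Real.norm_eq_abs, abs_mul, abs_neg, abs_of_pos r6] at r2
  simp only at r5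
  generalize φ (a (ν n) + (r * -D) • h) q - φ (a (ν n)) q = E at r2 r5
  have r7 : E = r * -D * (E / (r * -D)) := by field_simp
  generalize E / (r * -D) = Q at r5 r7
  have r8 := mul_le_mul_of_nonneg_left (neg_abs_le (D * (Q - D))) r6.le
  have r9 := mul_lt_mul_of_pos_left r5 (mul_pos r6 (abs_pos.2 D0))
  have r10 := mul_lt_mul_of_pos_left k3 (mul_pos r6 (abs_pos.2 D0))
  rw [abs_mul] at r8
  nlinarith [abs_mul_abs_self D]

end Pool.Agent.Lib.MP_e508a7_gt.KB
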