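import Pool.Agent.Lib.MP_e508a7_gt.KBCont
import Pool.Agent.Lib.MP_e508a7_gt.KBPl
import Pool.Agent.Lib.MP_e508a7_gt.KBPen
import Pool.Agent.Lib.MP_e508a7_gt.KBExp

/-!
# First order conditions
-/

set_option autoImplicit false

namespace Pool.Agent.Lib.MP_e508a7_gt.KB

open MeasureTheory Set Filter Topology Metric Bornology

variable {m : ℕ}

/-- a functional normalised at the centre `p` -/
noncomputable def ur (β : Fn) (p x : V) : ℝ := β x / (1 - β p)

/-- the gauge of the translated polytope -/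
noncomputable def gV (a : Fin m → Fn) (p x : V) : ℝ := ‖fun j => max (ur (a j) p x) 0‖

/-- the gauge of the symmetric part -/
noncomputable def gF (a : Fin m → Fn) (p x : V) : ℝ := ‖fun j => ur (a j) p x‖

theorem fi_cont (β : Fn) (p : V) : Continuous (ur β p) := by
  unfold ur; fun_prop

theorem fi_smul (β : Fn) (p x : V) (t : ℝ) : ur β p (t • x) = t * ur β p x := by
  simp only [ur, map_smul, smul_eq_mul, mul_div_assoc]

theorem fi_split (y : Fin m → ℝ) (i : Fin m) : ‖y‖ = max ‖Function.update y i 0‖ |y i| := by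
  apply le_antisymm
  · refine (pi_norm_le_iff_of_nonneg (le_max_of_le_left (norm_nonneg _))).2 fun j => ?_
    by_cases h : j = i
    · subst h; exact le_max_right _ _
    · refine le_max_of_le_left ?_
      have := norm_le_pi_norm (Function.update y i 0) j
      rwa [Function.update_of_ne h] at this
  · refine max_le ((pi_norm_le_iff_of_nonneg (norm_nonneg _)).2 fun j => ?_) (norm_le_pi_norm y i)
    by_cases h : j = i
    · subst h; simp
    · rw [Function.update_of_ne h]; exact norm_le_pi_norm y j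

theorem fi_low {γ : V → ℝ} (hh : ∀ t : ℝ, 0 < t → ∀ x, γ (t • x) = t * γ x)
    {R : ℝ} (hR : 0 < R) (h : ∀ x, γ x ≤ 1 → ‖x‖ ≤ R) (x : V) : R⁻¹ * ‖x‖ ≤ γ x := by
  by_contra hc
  rw [not_le] at hc
  by_cases h0 : γ x ≤ 0
  · by_cases hx : x = 0
    · subst hx
      have h1 := hh 2 two_pos 0
      rw [smul_zero] at h1
      simp only [norm_zero, mul_zero] at hc
      linarith
    · have hn : 0 < ‖x‖ := norm_pos_iff.2 hx
      have ht : 0 < (R + 1) / ‖x‖ := by positivity
      have h1 := h (((R + 1) / ‖x‖) • x) (by rw [hh _ ht]; nlinarith)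
      rw [norm_smul, Real.norm_of_nonneg ht.le, div_mul_cancel₀ _ hn.ne'] at h1
      linarith
  · rw [not_le] at h0
    have h1 := h ((γ x)⁻¹ • x) (by rw [hh _ (inv_pos.2 h0), inv_mul_cancel₀ h0.ne'])
    rw [norm_smul, Real.norm_of_nonneg (inv_pos.2 h0).le, inv_mul_le_iff₀ h0] at h1
    rw [lt_inv_mul_iff₀ hR] at hc
    linarith

theorem gV_cont (a : Fin m → Fn) (p : V) : Continuous (gV a p) :=
  (continuous_pi fun j => (fi_cont (a j) p).max continuous_const).norm

theorem gF_cont (a : Fin m → Fn) (p : V) : Continuous (gF a p) :=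
  (continuous_pi fun j => fi_cont (a j) p).norm

theorem gV_smul (a : Fin m → Fn) (p : V) (t : ℝ) (ht : 0 < t) (x : V) :
    gV a p (t • x) = t * gV a p x := by
  have e : (fun j => max (ur (a j) p (t • x)) 0) = t • fun j => max (ur (a j) p x) 0 := by
    funext j
    rw [fi_smul, Pi.smul_apply, smul_eq_mul, mul_max_of_nonneg _ _ ht.le, mul_zero]
  rw [gV, e, norm_smul, Real.norm_of_nonneg ht.le, gV]

theorem gF_smul (a : Fin m → Fn) (p : V) (t : ℝ) (ht : 0 < t) (x : V) :
    gF a p (t • x) = t * gF a p x := by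
  have e : (fun j => ur (a j) p (t • x)) = t • fun j => ur (a j) p x := by
    funext j
    rw [fi_smul, Pi.smul_apply, smul_eq_mul]
  rw [gF, e, norm_smul, Real.norm_of_nonneg ht.le, gF]

theorem gV_le_one {a : Fin m → Fn} {p : V} (hp : ∀ j, a j p < 1) (x : V) :
    gV a p x ≤ 1 ↔ x + p ∈ Kp a := by
  rw [gV, pi_norm_le_iff_of_nonneg zero_le_one]
  refine forall_congr' fun j => ?_
  rw [Real.norm_of_nonneg (le_max_right _ _), max_le_iff, ur, div_le_one (sub_pos.2 (hp j)),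
    map_add]
  exact ⟨fun h => by linarith [h.1], fun h => ⟨by linarith, zero_le_one⟩⟩

theorem gF_le_one {a : Fin m → Fn} {p : V} (hp : ∀ j, a j p < 1) (x : V) :
    gF a p x ≤ 1 ↔ x + p ∈ Sy (Kp a) p := by
  rw [gF, pi_norm_le_iff_of_nonneg zero_le_one]
  simp only [Sy, Kp, mem_ofPred_eq, ← forall_and]
  refine forall_congr' fun j => ?_
  rw [Real.norm_eq_abs, ur, abs_div, abs_of_pos (sub_pos.2 (hp j)), div_le_one (sub_pos.2 (hp j)),
    abs_le, map_sub, map_add, map_smul, smul_eq_mul]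
  exact ⟨fun h => ⟨by linarith [h.2], by linarith [h.1]⟩,
    fun h => ⟨by linarith [h.2], by linarith [h.1]⟩⟩

theorem gV_low {a : Fin m → Fn} {p : V} (hp : ∀ j, a j p < 1) {R R' : ℝ}
    (hR : Kp a ⊆ closedBall 0 R) (h1 : R + ‖p‖ ≤ R') (h0 : 0 < R') (x : V) :
    R'⁻¹ * ‖x‖ ≤ gV a p x := by
  refine fi_low (gV_smul a p) h0 (fun y hy => ?_) x
  have h2 := mem_closedBall_zero_iff.1 (hR ((gV_le_one hp y).1 hy))
  have h3 := norm_sub_le (y + p) p
  rw [add_sub_cancel_right] at h3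
  linarith

theorem gF_low {a : Fin m → Fn} {p : V} (hp : ∀ j, a j p < 1) {R R' : ℝ}
    (hR : Kp a ⊆ closedBall 0 R) (h1 : R + ‖p‖ ≤ R') (h0 : 0 < R') (x : V) :
    R'⁻¹ * ‖x‖ ≤ gF a p x := by
  refine fi_low (gF_smul a p) h0 (fun y hy => ?_) x
  have h2 := mem_closedBall_zero_iff.1 (hR ((gF_le_one hp y).1 hy).1)
  have h3 := norm_sub_le (y + p) p
  rw [add_sub_cancel_right] at h3
  linarith

theorem repV {a : Fin m → Fn} {p : V} (hp : ∀ j, a j p < 1) {R R' : ℝ}
    (hR : Kp a ⊆ closedBall 0 R) (h1 : R + ‖p‖ ≤ R') (h0 : 0 < R') :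
    ∫ x, Real.exp (-gV a p x) = 6 * volume.real (Kp a) := by
  rw [exp_vol (gV_cont a p) (gV_smul a p) (inv_pos.2 h0) (gV_low hp hR h1 h0)]
  have e : {x | gV a p x ≤ 1} = (fun x => x + p) ⁻¹' Kp a := Set.ext (gV_le_one hp)
  rw [e, Measure.real, measure_preimage_add_right, Measure.real]

theorem repF {a : Fin m → Fn} {p : V} (hp : ∀ j, a j p < 1) {R R' : ℝ}
    (hR : Kp a ⊆ closedBall 0 R) (h1 : R + ‖p‖ ≤ R') (h0 : 0 < R') :
    ∫ x, Real.exp (-gF a p x) = 6 * fv (Kp a) p := by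
  rw [exp_vol (gF_cont a p) (gF_smul a p) (inv_pos.2 h0) (gF_low hp hR h1 h0)]
  have e : {x | gF a p x ≤ 1} = (fun x => x + p) ⁻¹' Sy (Kp a) p := Set.ext (gF_le_one hp)
  rw [e, Measure.real, measure_preimage_add_right, fv, Measure.real]

/-- the part of the gauge that does not depend on the slot `i` -/
noncomputable def mV (a : Fin m → Fn) (i : Fin m) (p x : V) : ℝ :=
  ‖Function.update (fun j => max (ur (a j) p x) 0) i 0‖

/-- the same for the symmetric part -/
noncomputable def mF (a : Fin m → Fn) (i : Fin m) (p x : V) : ℝ :=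
  ‖Function.update (fun j => ur (a j) p x) i 0‖

theorem gV_split (a : Fin m → Fn) (i : Fin m) (p x : V) :
    gV a p x = max (mV a i p x) (ur (a i) p x) := by
  rw [gV, fi_split _ i, abs_of_nonneg (le_max_right _ _), mV, max_comm (ur _ _ _) 0, ← max_assoc,
    max_eq_left (norm_nonneg _)]

theorem gF_split (a : Fin m → Fn) (i : Fin m) (p x : V) :
    gF a p x = max (mF a i p x) |ur (a i) p x| := fi_split _ i

theorem mV_add (a : Fin m → Fn) (i : Fin m) (p x : V) (t : ℝ) (w : Fn) :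
    mV (a + t • (Pi.single i w : Fin m → Fn)) i p x = mV a i p x := by
  unfold mV
  congr 1
  funext j
  by_cases h : j = i
  · subst h; simp
  · simp [Function.update_of_ne h, Pi.single_eq_of_ne h]

theorem mF_add (a : Fin m → Fn) (i : Fin m) (p x : V) (t : ℝ) (w : Fn) :
    mF (a + t • (Pi.single i w : Fin m → Fn)) i p x = mF a i p x := by
  unfold mF
  congr 1
  funext j
  by_cases h : j = i
  · subst h; simp
  · simp [Function.update_of_ne h, Pi.single_eq_of_ne h]

theorem mV_cont (a : Fin m → Fn) (i : Fin m) (p : V) : Continuous (mV a i p) :=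
  ((continuous_pi fun j => (fi_cont (a j) p).max continuous_const).update i continuous_const).norm

theorem mF_cont (a : Fin m → Fn) (i : Fin m) (p : V) : Continuous (mF a i p) :=
  ((continuous_pi fun j => fi_cont (a j) p).update i continuous_const).norm

theorem ev_tendsto {Λ : Type} {l : Filter Λ} {β : Λ → Fn} {p : Λ → V} {β₀ : Fn} {p₀ : V}
    (hβ : Tendsto β l (𝓝 β₀)) (hp : Tendsto p l (𝓝 p₀)) :
    Tendsto (fun z => β z (p z)) l (𝓝 (β₀ p₀)) :=
  ((by fun_prop : Continuous fun y : Fn × V => y.1 y.2).tendsto (β₀, p₀)).comp (hβ.prodMk_nhds hp)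

theorem ur_tendsto {Λ : Type} {l : Filter Λ} {β : Λ → Fn} {p : Λ → V} {β₀ : Fn} {p₀ : V}
    (hβ : Tendsto β l (𝓝 β₀)) (hp : Tendsto p l (𝓝 p₀)) (h : β₀ p₀ < 1) (x : V) :
    Tendsto (fun z => ur (β z) (p z) x) l (𝓝 (ur β₀ p₀ x)) := by
  have hc : ContinuousAt (fun y : Fn × V => ur y.1 y.2 x) (β₀, p₀) := by
    unfold ur
    exact ContinuousAt.div (by fun_prop) (by fun_prop) (sub_pos.2 h).ne'
  exact hc.tendsto.comp (hβ.prodMk_nhds hp)

/-- the difference quotient of `ur` as a functional -/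
noncomputable def nq (β w : Fn) (p : V) (t : ℝ) : Fn :=
  ((1 - β p) * (1 - (β + t • w) p))⁻¹ • ((1 - β p) • w + w p • β)

theorem ur_sub {β w : Fn} {p : V} {t : ℝ} (h0 : β p < 1) (h1 : (β + t • w) p < 1) (x : V) :
    ur (β + t • w) p x - ur β p x = t * nq β w p t x := by
  have e0 := (sub_pos.2 h0).ne'
  have e1 := (sub_pos.2 h1).ne'
  simp only [ur, nq, smul_apply, add_apply, smul_eq_mul]
    at e1 ⊢
  field_simp
  ring

theorem nq_tendsto {Λ : Type} {l : Filter Λ} {β : Λ → Fn} {p : Λ → V} {t : Λ → ℝ} {β₀ : Fn}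
    {p₀ : V} (hβ : Tendsto β l (𝓝 β₀)) (hp : Tendsto p l (𝓝 p₀)) (ht : Tendsto t l (𝓝 0))
    (h : β₀ p₀ < 1) (w : Fn) :
    Tendsto (fun z => nq (β z) w (p z) (t z)) l (𝓝 (nq β₀ w p₀ 0)) := by
  have h1 : Tendsto (fun z => 1 - β z (p z)) l (𝓝 (1 - β₀ p₀)) :=
    tendsto_const_nhds.sub (ev_tendsto hβ hp)
  have h2 : Tendsto (fun z => β z + t z • w) l (𝓝 (β₀ + (0 : ℝ) • w)) := hβ.add (ht.smul_const w)
  have h3 : Tendsto (fun z => 1 - (β z + t z • w) (p z)) l (𝓝 (1 - (β₀ + (0 : ℝ) • w) p₀)) :=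
    tendsto_const_nhds.sub (ev_tendsto h2 hp)
  have h4 : (1 - β₀ p₀) * (1 - (β₀ + (0 : ℝ) • w) p₀) ≠ 0 := by
    rw [zero_smul, add_zero]
    exact mul_self_ne_zero.2 (sub_pos.2 h).ne'
  exact ((h1.mul h3).inv₀ h4).smul ((h1.smul_const w).add
    (((w.continuous.tendsto p₀).comp hp).smul hβ))

theorem nq_onto {β : Fn} {p : V} (h : β p < 1) (w' : Fn) :
    nq β ((1 - β p) • (w' - w' p • β)) p 0 = w' := by
  have e0 := (sub_pos.2 h).ne'
  ext1 x
  simp only [nq, smul_apply, add_apply,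
    sub_apply, smul_eq_mul, zero_smul, add_zero]
  field_simp
  ring

/-- the filter along which difference quotients are taken -/
noncomputable abbrev fl (a : Fin m → Fn) (p : V) : Filter (((Fin m → Fn) × V) × ℝ) :=
  𝓝 (a, p) ×ˢ 𝓝[≠] 0

section
variable {a : Fin m → Fn} {p : V} (i : Fin m) (w : Fn)

theorem fl_a : Tendsto (fun z : ((Fin m → Fn) × V) × ℝ => z.1.1) (fl a p) (𝓝 a) :=
  (continuous_fst.tendsto (a, p)).comp tendsto_fst

theorem fl_p : Tendsto (fun z : ((Fin m → Fn) × V) × ℝ => z.1.2) (fl a p) (𝓝 p) :=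
  (continuous_snd.tendsto (a, p)).comp tendsto_fst

theorem fl_t : Tendsto (fun z : ((Fin m → Fn) × V) × ℝ => z.2) (fl a p) (𝓝 0) :=
  tendsto_snd.mono_right nhdsWithin_le_nhds

theorem fl_ne : ∀ᶠ z : ((Fin m → Fn) × V) × ℝ in fl a p, z.2 ≠ 0 :=
  tendsto_snd.eventually self_mem_nhdsWithin

theorem fl_a' (h : Fin m → Fn) :
    Tendsto (fun z : ((Fin m → Fn) × V) × ℝ => z.1.1 + z.2 • h) (fl a p) (𝓝 a) := by
  have := (fl_a (a := a) (p := p)).add ((fl_t (a := a) (p := p)).smul_const h)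
  rwa [zero_smul, add_zero] at this

theorem fl_j (j : Fin m) :
    Tendsto (fun z : ((Fin m → Fn) × V) × ℝ => z.1.1 j) (fl a p) (𝓝 (a j)) :=
  ((continuous_apply j).tendsto a).comp fl_a

theorem fl_i : Tendsto (fun z : ((Fin m → Fn) × V) × ℝ => z.1.1 i + z.2 • w) (fl a p)
    (𝓝 (a i)) := by
  have := (fl_j (a := a) (p := p) i).add ((fl_t (a := a) (p := p)).smul_const w)
  rwa [zero_smul, add_zero] at this

theorem add_single (a : Fin m → Fn) (t : ℝ) :
    (a + t • (Pi.single i w : Fin m → Fn)) i = a i + t • w := by simp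

theorem fl_good (hb : IsBounded (Kp a)) (hp : ∀ j, a j p < 1) :
    ∃ R R' : ℝ, 0 < R' ∧ ∀ᶠ z : ((Fin m → Fn) × V) × ℝ in fl a p,
      z.2 ≠ 0 ∧ R + ‖z.1.2‖ ≤ R' ∧ Kp z.1.1 ⊆ closedBall 0 R ∧
      Kp (z.1.1 + z.2 • (Pi.single i w : Fin m → Fn)) ⊆ closedBall 0 R ∧ (∀ j, z.1.1 j z.1.2 < 1) ∧
      (∀ j, (z.1.1 + z.2 • (Pi.single i w : Fin m → Fn)) j z.1.2 < 1) ∧
      ‖nq (z.1.1 i) w z.1.2 z.2‖ ≤ ‖nq (a i) w p 0‖ + 1 := by
  obtain ⟨R, hR⟩ := bdd_near hb
  refine ⟨R, |R| + ‖p‖ + 1, by positivity, ?_⟩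
  have h1 : ∀ᶠ z : ((Fin m → Fn) × V) × ℝ in fl a p, ‖z.1.2‖ < ‖p‖ + 1 :=
    fl_p.norm.eventually (gt_mem_nhds (lt_add_one _))
  have h2 : ∀ᶠ z : ((Fin m → Fn) × V) × ℝ in fl a p, ∀ j, z.1.1 j z.1.2 < 1 :=
    eventually_all.2 fun j => (ev_tendsto (fl_j j) fl_p).eventually (gt_mem_nhds (hp j))
  have h3 : ∀ᶠ z : ((Fin m → Fn) × V) × ℝ in fl a p,
      ∀ j, (z.1.1 + z.2 • (Pi.single i w : Fin m → Fn)) j z.1.2 < 1 :=
    eventually_all.2 fun j => (ev_tendsto (((continuous_apply j).tendsto a).comp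
      (fl_a' (Pi.single i w))) fl_p).eventually (gt_mem_nhds (hp j))
  have h4 : ∀ᶠ z : ((Fin m → Fn) × V) × ℝ in fl a p,
      ‖nq (z.1.1 i) w z.1.2 z.2‖ < ‖nq (a i) w p 0‖ + 1 :=
    (nq_tendsto (fl_j i) fl_p fl_t (hp i) w).norm.eventually (gt_mem_nhds (lt_add_one _))
  filter_upwards [fl_ne, h1, fl_a.eventually hR, (fl_a' (Pi.single i w)).eventually hR, h2, h3, h4]
    with z e0 e1 e2 e3 e4 e5 e6
  exact ⟨e0, by linarith [le_abs_self R], e2, e3, e4, e5, e6.le⟩

theorem ur_lip {β : Fn} {q : V} {t C : ℝ} (h0 : β q < 1) (h1 : (β + t • w) q < 1)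
    (hC : ‖nq β w q t‖ ≤ C) (x : V) : |ur (β + t • w) q x - ur β q x| ≤ C * |t| * ‖x‖ := by
  rw [ur_sub h0 h1, abs_mul]
  have := ((nq β w q t).le_opNorm x).trans (mul_le_mul_of_nonneg_right hC (norm_nonneg x))
  rw [Real.norm_eq_abs] at this
  nlinarith [abs_nonneg t]

theorem mV_tendsto (hp : ∀ j, a j p < 1) (x : V) :
    Tendsto (fun z : ((Fin m → Fn) × V) × ℝ => mV z.1.1 i z.1.2 x) (fl a p) (𝓝 (mV a i p x)) :=
  ((tendsto_pi_nhds.2 fun j => (ur_tendsto (fl_j j) fl_p (hp j) x).max tendsto_const_nhds).update i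
    tendsto_const_nhds).norm

theorem mF_tendsto (hp : ∀ j, a j p < 1) (x : V) :
    Tendsto (fun z : ((Fin m → Fn) × V) × ℝ => mF z.1.1 i z.1.2 x) (fl a p) (𝓝 (mF a i p x)) :=
  ((tendsto_pi_nhds.2 fun j => ur_tendsto (fl_j j) fl_p (hp j) x).update i
    tendsto_const_nhds).norm

theorem quot_tendsto (hb : IsBounded (Kp a)) (hp : ∀ j, a j p < 1) (x : V) :
    Tendsto (fun z : ((Fin m → Fn) × V) × ℝ =>
      (ur (z.1.1 i + z.2 • w) z.1.2 x - ur (z.1.1 i) z.1.2 x) / z.2) (fl a p)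
      (𝓝 (nq (a i) w p 0 x)) := by
  obtain ⟨R, R', -, h⟩ := fl_good i w hb hp
  refine (ev_tendsto (nq_tendsto (fl_j i) fl_p fl_t (hp i) w) tendsto_const_nhds).congr' ?_
  filter_upwards [h] with z hz
  have h1 := hz.2.2.2.2.2.1 i
  rw [add_single] at h1
  rw [ur_sub (hz.2.2.2.2.1 i) h1, mul_div_cancel_left₀ _ hz.1]

theorem dV (hb : IsBounded (Kp a)) (hp : ∀ j, a j p < 1)
    (hne : ∀ᵐ x, mV a i p x ≠ ur (a i) p x) :
    Tendsto (fun z : ((Fin m → Fn) × V) × ℝ =>
      (volume.real (Kp (z.1.1 + z.2 • (Pi.single i w : Fin m → Fn))) - volume.real (Kp z.1.1)) / z.2)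
      (fl a p) (𝓝 (6⁻¹ * -∫ x in {x | mV a i p x < ur (a i) p x},
        nq (a i) w p 0 x * Real.exp (-ur (a i) p x))) := by
  obtain ⟨R, R', hR', h⟩ := fl_good i w hb hp
  have h1 := strict (l := fl a p) (fun z x => mV z.1.1 i z.1.2 x) (fun z x => ur (z.1.1 i) z.1.2 x)
    (fun z x => ur (z.1.1 i + z.2 • w) z.1.2 x) (fun z => z.2) (mV a i p) (ur (a i) p)
    (nq (a i) w p 0) (C := ‖nq (a i) w p 0‖ + 1) (inv_pos.2 hR')
    (fun z => ⟨mV_cont _ _ _, fi_cont _ _, fi_cont _ _⟩) ⟨mV_cont _ _ _, fi_cont _ _⟩ ?_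
    (mV_tendsto i hp) (ur_tendsto (fl_j i) fl_p (hp i)) (ur_tendsto (fl_i i w) fl_p (hp i))
    (fun x _ => quot_tendsto i w hb hp x) hne
  · refine (h1.const_mul 6⁻¹).congr' ?_
    filter_upwards [h] with z ⟨e0, e1, e2, e3, e4, e5, e6⟩
    have f0 := repV e4 e2 e1 hR'
    have f1 := repV e5 e3 e1 hR'
    simp only [gV_split _ i] at f0 f1
    simp only [mV_add, add_single] at f1
    rw [f0, f1]
    ring
  · filter_upwards [h] with z ⟨e0, e1, e2, e3, e4, e5, e6⟩
    refine ⟨e0, fun x => ⟨?_, ?_, ?_⟩⟩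
    · rw [← gV_split]; exact gV_low e4 e2 e1 hR' x
    · have := gV_low e5 e3 e1 hR' x
      rwa [gV_split _ i, mV_add, add_single] at this
    · exact ur_lip w (e4 i) (by rw [← add_single]; exact e5 i) e6 x

theorem dF (hb : IsBounded (Kp a)) (hp : ∀ j, a j p < 1)
    (hne : ∀ᵐ x, mF a i p x ≠ |ur (a i) p x|) :
    Tendsto (fun z : ((Fin m → Fn) × V) × ℝ =>
      (fv (Kp (z.1.1 + z.2 • (Pi.single i w : Fin m → Fn))) z.1.2 - fv (Kp z.1.1) z.1.2) / z.2)
      (fl a p) (𝓝 (6⁻¹ * -∫ x in {x | mF a i p x < |ur (a i) p x|},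
        (if 0 < ur (a i) p x then nq (a i) w p 0 x else -nq (a i) w p 0 x) *
          Real.exp (-|ur (a i) p x|))) := by
  obtain ⟨R, R', hR', h⟩ := fl_good i w hb hp
  have h1 := strict (l := fl a p) (fun z x => mF z.1.1 i z.1.2 x)
    (fun z x => |ur (z.1.1 i) z.1.2 x|)
    (fun z x => |ur (z.1.1 i + z.2 • w) z.1.2 x|) (fun z => z.2) (mF a i p)
    (fun x => |ur (a i) p x|)
    (fun x => if 0 < ur (a i) p x then nq (a i) w p 0 x else -nq (a i) w p 0 x)
    (C := ‖nq (a i) w p 0‖ + 1) (inv_pos.2 hR')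
    (fun z => ⟨mF_cont _ _ _, (fi_cont _ _).abs, (fi_cont _ _).abs⟩)
    ⟨mF_cont _ _ _, (fi_cont _ _).abs⟩ ?_
    (mF_tendsto i hp) (fun x => (ur_tendsto (fl_j i) fl_p (hp i) x).abs)
    (fun x => (ur_tendsto (fl_i i w) fl_p (hp i) x).abs) ?_ hne
  · refine (h1.const_mul 6⁻¹).congr' ?_
    filter_upwards [h] with z ⟨e0, e1, e2, e3, e4, e5, e6⟩
    have f0 := repF e4 e2 e1 hR'
    have f1 := repF e5 e3 e1 hR'
    simp only [gF_split _ i] at f0 f1
    simp only [mF_add, add_single] at f1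
    rw [f0, f1]
    ring
  · filter_upwards [h] with z ⟨e0, e1, e2, e3, e4, e5, e6⟩
    refine ⟨e0, fun x => ⟨?_, ?_, ?_⟩⟩
    · rw [← gF_split]; exact gF_low e4 e2 e1 hR' x
    · have := gF_low e5 e3 e1 hR' x
      rwa [gF_split _ i, mF_add, add_single] at this
    · exact (abs_abs_sub_abs_le_abs_sub _ _).trans
        (ur_lip w (e4 i) (by rw [← add_single]; exact e5 i) e6 x)
  · intro x hx
    have t0 := ur_tendsto (fl_j (a := a) (p := p) i) fl_p (hp i) x
    have t1 := ur_tendsto (fl_i (a := a) (p := p) i w) fl_p (hp i) x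
    have hq := quot_tendsto i w hb hp x
    by_cases h0 : 0 < ur (a i) p x
    · rw [if_pos h0]
      refine hq.congr' ?_
      filter_upwards [t0.eventually (lt_mem_nhds h0), t1.eventually (lt_mem_nhds h0)] with z e0 e1
      rw [abs_of_pos e0, abs_of_pos e1]
    · rw [if_neg h0]
      have h2 : ur (a i) p x < 0 := lt_of_le_of_ne (not_lt.1 h0) fun e => by
        rw [e, abs_zero] at hx
        exact absurd hx (not_lt.2 (norm_nonneg _))
      refine hq.neg.congr' ?_
      filter_upwards [t0.eventually (gt_mem_nhds h2), t1.eventually (gt_mem_nhds h2)] with z e0 e1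
      rw [abs_of_neg e0, abs_of_neg e1]
      ring

end

theorem nrm_lt (y : Fin m → ℝ) (i : Fin m) (c : ℝ) :
    ‖Function.update y i 0‖ < c ↔ 0 < c ∧ ∀ j, j ≠ i → |y j| < c := by
  constructor
  · intro h
    refine ⟨(norm_nonneg _).trans_lt h, fun j hj => ?_⟩
    have := norm_le_pi_norm (Function.update y i 0) j
    rw [Function.update_of_ne hj] at this
    exact this.trans_lt h
  · rintro ⟨h0, h⟩
    refine (pi_norm_lt_iff h0).2 fun j => ?_
    by_cases e : j = i
    · subst e; simpa using h0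
    · rw [Function.update_of_ne e]; exact h j e

theorem nrm_ne (y : Fin m → ℝ) (i : Fin m) {c : ℝ} (h0 : c ≠ 0) (h : ∀ j, j ≠ i → |y j| ≠ c) :
    ‖Function.update y i 0‖ ≠ c := by
  intro e
  have h1 : 0 < c := lt_of_le_of_ne (e ▸ norm_nonneg _) h0.symm
  refine absurd ((nrm_lt y i c).2 ⟨h1, fun j hj => lt_of_le_of_ne ?_ (h j hj)⟩) (by simp [e])
  have := norm_le_pi_norm (Function.update y i 0) j
  rwa [Function.update_of_ne hj, e] at this

theorem ae_gen {b : Fin m → Fn} (hi : Function.Injective b) (i : Fin m) (hn : b i ≠ 0) :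
    ∀ᵐ x : V, b i x ≠ 0 ∧ ∀ j, j ≠ i → b j x ≠ b i x := by
  refine (measure_eq_zero_iff_ae_notMem.1 (null_plane (b i) 0 (Or.inl hn))).and
    (ae_all_iff.2 fun j => ?_)
  by_cases e : j = i
  · exact Eventually.of_forall fun x h => absurd e h
  · filter_upwards [measure_eq_zero_iff_ae_notMem.1 (null_plane (b j - b i) 0
      (Or.inl (sub_ne_zero.2 (hi.ne e))))] with x hx _
    exact fun h => hx (by simp [h])

theorem ae_gen' {b : Fin m → Fn} (i : Fin m) (hd : ∀ j, b j ≠ -b i) :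
    ∀ᵐ x : V, ∀ j, b j x ≠ -b i x := by
  refine ae_all_iff.2 fun j => ?_
  filter_upwards [measure_eq_zero_iff_ae_notMem.1 (null_plane (b j + b i) 0
    (Or.inl fun h => hd j (eq_neg_of_add_eq_zero_left h)))] with x hx
  exact fun h => hx (by simp [h])

theorem abs_ne_of {s t : ℝ} (h1 : s ≠ t) (h2 : s ≠ -t) : |s| ≠ |t| := fun h =>
  (abs_eq_abs.1 h).elim h1 h2

theorem setV {b : Fin m → Fn} (hi : Function.Injective b) (i : Fin m) (hn : b i ≠ 0) :
    (∀ᵐ x : V, ‖Function.update (fun j => max (b j x) 0) i 0‖ ≠ b i x) ∧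
    {x : V | ‖Function.update (fun j => max (b j x) 0) i 0‖ < b i x} =ᵐ[volume] Cf b i := by
  constructor
  · filter_upwards [ae_gen hi i hn] with x hx
    refine nrm_ne _ i hx.1 fun j hj => ?_
    rw [abs_of_nonneg (le_max_right _ _)]
    rcases le_total (b j x) 0 with h | h
    · rw [max_eq_right h]; exact hx.1.symm
    · rw [max_eq_left h]; exact hx.2 j hj
  · filter_upwards [ae_gen hi i hn] with x hx
    refine propext ((nrm_lt _ i _).trans (and_congr_right fun h0 => ⟨fun h j => ?_, fun h j hj => ?_⟩))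
    · by_cases e : j = i
      · rw [e]
      · exact (le_max_left _ _).trans ((le_abs_self _).trans (h j e).le)
    · rw [abs_of_nonneg (le_max_right _ _)]
      exact max_lt (lt_of_le_of_ne (h j) (hx.2 j hj)) h0

theorem setF {b : Fin m → Fn} (hi : Function.Injective b) (i : Fin m) (hn : b i ≠ 0)
    (hd : ∀ j, b j ≠ -b i) :
    (∀ᵐ x : V, ‖Function.update (fun j => b j x) i 0‖ ≠ |b i x|) ∧
    {x : V | ‖Function.update (fun j => b j x) i 0‖ < |b i x|} =ᵐ[volume]
      (Cg b i ∪ (fun x => -x) ⁻¹' Cg b i : Set V) := by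
  constructor
  · filter_upwards [ae_gen hi i hn, ae_gen' i hd] with x hx hx'
    exact nrm_ne _ i (abs_ne_zero.2 hx.1) fun j hj => abs_ne_of (hx.2 j hj) (hx' j)
  · filter_upwards [ae_gen hi i hn, ae_gen' i hd] with x hx hx'
    refine propext ((nrm_lt _ i _).trans ⟨fun h => ?_, fun h => ⟨abs_pos.2 hx.1, fun j hj =>
      lt_of_le_of_ne ?_ (abs_ne_of (hx.2 j hj) (hx' j))⟩⟩)
    · have h1 : ∀ j, |b j x| ≤ |b i x| := fun j => by
        by_cases e : j = i
        · rw [e]
        · exact (h.2 j e).le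
      rcases lt_or_gt_of_ne hx.1 with h2 | h2
      · refine Or.inr ⟨by rw [map_neg]; exact neg_pos.2 h2, fun j => ?_⟩
        rw [map_neg, map_neg, abs_neg, ← abs_of_neg h2]
        exact h1 j
      · exact Or.inl ⟨h2, fun j => (h1 j).trans_eq (abs_of_pos h2)⟩
    · rcases h with h | h
      · exact (h.2 j).trans (le_abs_self _)
      · have := h.2 j
        rw [map_neg, map_neg, abs_neg] at this
        exact this.trans (neg_le_abs _)

theorem meas_Cg (b : Fin m → Fn) (i : Fin m) : MeasurableSet (Cg b i) := by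
  have e : Cg b i = {x | 0 < b i x} ∩ ⋂ j, {x | |b j x| ≤ b i x} := by
    ext x; simp [Cg]
  rw [e]
  exact (measurableSet_lt measurable_const (b i).continuous.measurable).inter
    (MeasurableSet.iInter fun j => measurableSet_le (b j).continuous.abs.measurable
      (b i).continuous.measurable)

theorem int_Cg {b : Fin m → Fn} (hb : IsBounded (Kp b)) (i : Fin m) (w : Fn) :
    IntegrableOn (fun x => w x * Real.exp (-b i x)) (Cg b i) := by
  obtain ⟨R, hR⟩ := hb.subset_closedBall 0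
  have h0 : 0 < |R| + 1 := by positivity
  have hp : ∀ j, b j (0 : V) < 1 := fun j => by simp
  refine Integrable.mono' ((integrable_mul_exp (inv_pos.2 h0)).const_mul ‖w‖).integrableOn
    (by fun_prop : Continuous fun x => w x * Real.exp (-b i x)).aestronglyMeasurable ?_
  filter_upwards [self_mem_ae_restrict (meas_Cg b i)] with x hx
  have h1 := gF_low hp hR (by simp; linarith [le_abs_self R]) h0 x
  have h2 : gF b 0 x ≤ b i x := (pi_norm_le_iff_of_nonneg hx.1.le).2 fun j => by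
    simpa [ur] using hx.2 j
  rw [norm_mul, Real.norm_of_nonneg (Real.exp_pos _).le, ← mul_assoc]
  exact mul_le_mul (w.le_opNorm x) (Real.exp_le_exp.2 (by linarith)) (Real.exp_pos _).le
    (by positivity)

theorem intF {b : Fin m → Fn} (hb : IsBounded (Kp b)) (i : Fin m) (w : Fn) :
    ∫ x in (Cg b i ∪ (fun x => -x) ⁻¹' Cg b i : Set V),
      (if 0 < b i x then w x else -w x) * Real.exp (-|b i x|) =
      2 * ∫ x in Cg b i, w x * Real.exp (-b i x) := by
  have hm := meas_Cg b i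
  have hm' : MeasurableSet ((fun x : V => -x) ⁻¹' Cg b i) := measurable_neg hm
  have mp : MeasurePreserving (fun x : V => -x) volume volume := Measure.measurePreserving_neg _
  have me : MeasurableEmbedding (fun x : V => -x) := measurableEmbedding_neg
  have e1 : EqOn (fun x => w x * Real.exp (-b i x))
      (fun x => (if 0 < b i x then w x else -w x) * Real.exp (-|b i x|)) (Cg b i) := fun x hx => by
    simp only [if_pos hx.1, abs_of_pos hx.1]
  have e2 : EqOn (fun x => w (-x) * Real.exp (-b i (-x)))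
      (fun x => (if 0 < b i x then w x else -w x) * Real.exp (-|b i x|))
      ((fun x : V => -x) ⁻¹' Cg b i) := fun x hx => by
    have h : b i x < 0 := by
      have := hx.1
      rwa [map_neg, neg_pos] at this
    simp only [if_neg (not_lt.2 h.le), abs_of_neg h, map_neg]
  have i1 := int_Cg hb i w
  have i2 : IntegrableOn (fun x => w (-x) * Real.exp (-b i (-x))) ((fun x : V => -x) ⁻¹' Cg b i) :=
    (mp.integrableOn_comp_preimage me).2 i1
  rw [setIntegral_union ?_ hm' (i1.congr_fun e1 hm) (i2.congr_fun e2 hm'),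
    ← setIntegral_congr_fun hm e1, ← setIntegral_congr_fun hm' e2,
    mp.setIntegral_preimage_emb me (fun x => w x * Real.exp (-b i x)), two_mul]
  refine disjoint_left.2 fun x h1 h2 => ?_
  have h3 := h2.1
  rw [map_neg, neg_pos] at h3
  exact lt_asymm h1.1 h3

theorem first {a : Fin m → Fn} (hb : IsBounded (Kp a)) (hi : Function.Injective a)
    (hn : ∀ j, a j ≠ 0) (hmin : ∀ a' : Fin m → Fn, IsBounded (Kp a') →
      gv (Kp a) / volume.real (Kp a) ≤ gv (Kp a') / volume.real (Kp a')) :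
    ∃ b : Fin m → Fn, IsBounded (Kp b) ∧ Function.Injective b ∧ (∀ j, b j ≠ 0) ∧
      volume.real (Kp b) = volume.real (Kp a) ∧ fv (Kp b) 0 = gv (Kp a) ∧
      ∀ i, (∀ j, b j ≠ -b i) → ∀ w : Fn,
        2 * volume.real (Kp b) * ∫ x in Cg b i, w x * Real.exp (-b i x) =
          fv (Kp b) 0 * ∫ x in Cf b i, w x * Real.exp (-b i x) := by
  obtain ⟨R, hR⟩ := bdd_near hb
  obtain ⟨δ, hδ, hδ'⟩ := Metric.nhds_basis_closedBall.eventually_iff.1 hR
  have hbd : ∀ a' ∈ closedBall a δ, IsBounded (Kp a') := fun a' h =>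
    isBounded_closedBall.subset (hδ' h)
  have hs : ∀ a' : Fin m → Fn, (⨆ p, fv (Kp a') p / volume.real (Kp a')) =
      gv (Kp a') / volume.real (Kp a') := fun a' => by
    simp only [div_eq_mul_inv]
    exact (Real.iSup_mul_of_nonneg (inv_nonneg.2 measureReal_nonneg) _).symm
  obtain ⟨p, hp1, hp2⟩ := pen (fun a' p => fv (Kp a') p / volume.real (Kp a')) a δ R hδ
    (fun z hz => (((cont_fv (hbd _ hz.1) z.2).div
      ((cont_vol (hbd _ hz.1)).comp continuousAt_fst) (vol_pos (hbd _ hz.1)).ne')).continuousWithinAt)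
    (fun a' p => div_nonneg (fv_nonneg _ _) measureReal_nonneg)
    (fun a' h p hp => by rw [fv_far (hδ' h) hp, zero_div])
    (fun a' h p q => by
      rw [div_mul_div_comm, div_pow, sq (volume.real _)]
      exact div_le_div_of_nonneg_right (fv_logconc (convex_Kp _) (isClosed_Kp _).measurableSet
        (isCompact_Kp (hbd _ h)).measure_lt_top.ne p q) (mul_self_nonneg _))
    (fun a' h => div_pos (fv_zero_pos (hbd _ h)) (vol_pos (hbd _ h)))
    (fun a' h => by rw [hs, hs]; exact hmin a' (hbd _ h))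
  have hV := vol_pos hb
  have hmax : ∀ q, fv (Kp a) q ≤ fv (Kp a) p := fun q =>
    (div_le_div_iff_of_pos_right hV).1 (hp1 q)
  have hg : fv (Kp a) p = gv (Kp a) := le_antisymm (fv_le_gv hb p) (ciSup_le hmax)
  have hf : 0 < fv (Kp a) p := (fv_zero_pos hb).trans_le (hmax 0)
  have hp : ∀ j, a j p < 1 := fun j => by
    by_contra h
    rw [not_lt] at h
    have h1 : volume (Sy (Kp a) p) = 0 := by
      refine measure_mono_null (fun x hx => ?_) (null_plane (a j) 1 (Or.inl (hn j)))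
      have h2 := hx.2 j
      rw [map_sub, map_smul, smul_eq_mul] at h2
      exact le_antisymm (hx.1 j) (by linarith)
    rw [fv, Measure.real, h1] at hf
    exact lt_irrefl _ hf
  set b : Fin m → Fn := fun j => (1 - a j p)⁻¹ • a j with hbdef
  have hu : ∀ j x, ur (a j) p x = b j x := fun j x => by
    simp only [ur, hbdef, smul_apply, smul_eq_mul, div_eq_inv_mul]
  have hK : Kp b = (fun x => x + p) ⁻¹' Kp a := by
    ext x
    refine forall_congr' fun j => ?_
    rw [← hu, ur, div_le_one (sub_pos.2 (hp j)), map_add]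
    exact le_sub_iff_add_le
  have hbb : IsBounded (Kp b) := by
    rw [hK]
    exact ((Homeomorph.addRight p).isCompact_preimage.2 (isCompact_Kp hb)).isBounded
  have hbi : Function.Injective b := fun i j h => by
    have h1 : b i p = b j p := by rw [h]
    have ci := (sub_pos.2 (hp i)).ne'
    have cj := (sub_pos.2 (hp j)).ne'
    rw [← hu, ← hu, ur, ur, div_eq_div_iff ci cj] at h1
    have h2 : a i p = a j p := by linarith
    refine hi ?_
    have h3 : (1 - a i p)⁻¹ • a i = (1 - a j p)⁻¹ • a j := h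
    rw [h2] at h3
    exact smul_right_injective _ (inv_ne_zero cj) h3
  have hbn : ∀ j, b j ≠ 0 := fun j => smul_ne_zero (inv_ne_zero (sub_pos.2 (hp j)).ne') (hn j)
  have hvol : volume.real (Kp b) = volume.real (Kp a) := by
    rw [hK, Measure.real, measure_preimage_add_right, Measure.real]
  have hfv : fv (Kp b) 0 = fv (Kp a) p := by
    have e : Sy (Kp b) 0 = (fun x => x + p) ⁻¹' Sy (Kp a) p := by
      ext x
      have e1 : (2 : ℝ) • (0 : V) - x + p = (2 : ℝ) • p - (x + p) := by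
        rw [two_smul, two_smul]; abel
      simp only [Sy, hK, mem_ofPred_eq, mem_preimage, e1]
    rw [fv, e, Measure.real, measure_preimage_add_right, fv, Measure.real]
  refine ⟨b, hbb, hbi, hbn, hvol, hfv.trans hg, fun i hd w' => ?_⟩
  obtain ⟨v1, v2⟩ := setV hbi i (hbn i)
  obtain ⟨f1, f2⟩ := setF hbi i (hbn i) hd
  set w : Fn := (1 - a i p) • (w' - w' p • a i) with hw
  have d1 := dV i w hb hp (by simpa only [mV, hu] using v1)
  have d2 := dF i w hb hp (by simpa only [mF, hu] using f1)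
  simp only [mV, mF, hu, hw, nq_onto (hp i)] at d1 d2
  rw [setIntegral_congr_set v2] at d1
  rw [setIntegral_congr_set f2, intF hbb] at d2
  have c0 : Tendsto (fun z : ((Fin m → Fn) × V) × ℝ => volume.real (Kp z.1.1)) (fl a p)
      (𝓝 (volume.real (Kp a))) := (cont_vol hb).tendsto.comp fl_a
  have c1 : Tendsto (fun z : ((Fin m → Fn) × V) × ℝ =>
      volume.real (Kp (z.1.1 + z.2 • (Pi.single i w : Fin m → Fn)))) (fl a p)
      (𝓝 (volume.real (Kp a))) := (cont_vol hb).tendsto.comp (fl_a' _)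
  have c2 : Tendsto (fun z : ((Fin m → Fn) × V) × ℝ => fv (Kp z.1.1) z.1.2) (fl a p)
      (𝓝 (fv (Kp a) p)) := (cont_fv hb p).tendsto.comp tendsto_fst
  have key := hp2 (Pi.single i w) _ (((d2.div c1 hV.ne').sub
    ((c2.mul d1).div (c1.mul c0) (mul_pos hV hV).ne')).congr' (by
      filter_upwards [fl_ne, c0.eventually (lt_mem_nhds hV), c1.eventually (lt_mem_nhds hV)]
        with z e0 e1 e2
      simp only [Pi.div_apply, hw] at e1 e2 ⊢
      field_simp
      ring))
  rw [hvol, hfv]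
  field_simp at key
  linarith

end Pool.Agent.Lib.MP_e508a7_gt.KB
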