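import Pool.Agent.Lib.MP_e508a7_gt.KBMin
import Pool.Agent.Lib.MP_e508a7_gt.KBFirst
import Pool.Agent.Lib.MP_e508a7_gt.KBFacet

/-!
# Counting caps and pyramids
-/

set_option autoImplicit false

namespace Pool.Agent.Lib.MP_e508a7_gt.KB

open MeasureTheory Set Filter Topology Metric Bornology

variable {m : ℕ}

/-- the double pyramid over the facet `i` -/
def cn1_Z (b : Fin m → Fn) (i : Fin m) : Set V :=
  (Cg b i ∩ {x | b i x ≤ 1}) ∪ -(Cg b i ∩ {x | b i x ≤ 1})

theorem cn1_meas (b : Fin m → Fn) (i : Fin m) : MeasurableSet (Cg b i ∩ {x | b i x ≤ 1}) := by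
  have h1 : MeasurableSet {x : V | 0 < b i x} :=
    (isOpen_lt continuous_const (b i).continuous).measurableSet
  have h2 : MeasurableSet {x : V | ∀ j, |b j x| ≤ b i x} := by
    rw [setOf_forall]
    exact MeasurableSet.iInter fun j =>
      (isClosed_le (b j).continuous.abs (b i).continuous).measurableSet
  have h3 : MeasurableSet {x : V | b i x ≤ 1} :=
    (isClosed_le (b i).continuous continuous_const).measurableSet
  exact (h1.inter h2).inter h3

theorem cn1_Zmeas (b : Fin m → Fn) (i : Fin m) : MeasurableSet (cn1_Z b i) :=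
  (cn1_meas b i).union (cn1_meas b i).neg

theorem cn1_Zvol (b : Fin m → Fn) (i : Fin m) :
    volume (cn1_Z b i) = 2 * volume (Cg b i ∩ {x | b i x ≤ 1}) := by
  unfold cn1_Z
  rw [measure_union _ (cn1_meas b i).neg, Measure.measure_neg, two_mul]
  rw [Set.disjoint_left]
  intro x hx hy
  have h1 : 0 < b i x := hx.1.1
  have h2 : 0 < b i (-x) := (Set.mem_neg.1 hy).1.1
  rw [map_neg] at h2
  linarith

theorem cn1_Zabs {b : Fin m → Fn} {i : Fin m} {x : V} (hx : x ∈ cn1_Z b i) :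
    |b i x| ≤ 1 ∧ ∀ j, |b j x| ≤ |b i x| := by
  rcases hx with hx | hx
  · have h1 : 0 < b i x := hx.1.1
    have h2 : b i x ≤ 1 := hx.2
    rw [abs_of_pos h1]
    exact ⟨h2, hx.1.2⟩
  · have hy := Set.mem_neg.1 hx
    have h1 : 0 < b i (-x) := hy.1.1
    have h2 : b i (-x) ≤ 1 := hy.2
    have h3 : ∀ j, |b j (-x)| ≤ b i (-x) := hy.1.2
    have h4 : |b i x| = b i (-x) := by
      rw [map_neg] at h1 ⊢
      exact abs_of_neg (by linarith)
    rw [h4]
    refine ⟨h2, fun j => ?_⟩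
    have := h3 j
    rwa [map_neg, abs_neg] at this

theorem cn1_Zsub (b : Fin m → Fn) (i : Fin m) : cn1_Z b i ⊆ Sy (Kp b) 0 := by
  intro x hx
  obtain ⟨h1, h2⟩ := cn1_Zabs hx
  refine ⟨fun j => (le_abs_self _).trans ((h2 j).trans h1), fun j => ?_⟩
  rw [smul_zero, zero_sub, map_neg]
  exact (neg_le_abs _).trans ((h2 j).trans h1)

theorem cn1_Zdisj {b : Fin m → Fn} {i j : Fin m} (h1 : b i ≠ b j) (h2 : b j ≠ -b i) :
    AEDisjoint volume (cn1_Z b i) (cn1_Z b j) := by
  have n1 := null_plane (b i - b j) 0 (Or.inl (sub_ne_zero.2 h1))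
  have n2 := null_plane (b j + b i) 0 (Or.inl fun h => h2 (eq_neg_of_add_eq_zero_left h))
  refine measure_mono_null ?_ (measure_union_null n1 n2)
  intro x hx
  have e : |b i x| = |b j x| := le_antisymm ((cn1_Zabs hx.2).2 i) ((cn1_Zabs hx.1).2 j)
  rcases abs_eq_abs.1 e with e | e
  · left
    show (b i - b j) x = 0
    rw [ContinuousLinearMap.sub_apply, e, sub_self]
  · right
    show (b j + b i) x = 0
    rw [ContinuousLinearMap.add_apply, e, add_neg_cancel]

theorem count {b : Fin m → Fn} (hb : IsBounded (Kp b)) (hi : Function.Injective b)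
    (h : ∀ i, (∀ j, b j ≠ -b i) → volume {x | -x ∈ Kp b ∧ 1 < b i x ∧ ∀ j, b j x ≤ b i x} ≤
      2 * volume (Cg b i ∩ {x | b i x ≤ 1})) :
    volume.real (Kp b) ≤ 2 * fv (Kp b) 0 := by
  classical
  let N : Finset (Fin m) := Finset.univ.filter fun i => ∀ j, b j ≠ -b i
  have hN : ∀ i, i ∈ N ↔ ∀ j, b j ≠ -b i := fun i => by simp [N]
  have cov : -Kp b ⊆ Sy (Kp b) 0 ∪
      ⋃ i ∈ N, {x | -x ∈ Kp b ∧ 1 < b i x ∧ ∀ j, b j x ≤ b i x} := by
    intro x hx
    have hx' : -x ∈ Kp b := Set.mem_neg.1 hx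
    by_cases hK : x ∈ Kp b
    · left
      refine ⟨hK, ?_⟩
      rwa [smul_zero, zero_sub]
    · right
      have hK' : ∃ j, 1 < b j x := by
        by_contra hc
        exact hK fun j => not_lt.1 fun hj => hc ⟨j, hj⟩
      obtain ⟨j₀, hj₀⟩ := hK'
      haveI : Nonempty (Fin m) := ⟨j₀⟩
      obtain ⟨i, hi'⟩ := Finite.exists_max fun j => b j x
      have h1 : 1 < b i x := hj₀.trans_le (hi' j₀)
      refine mem_iUnion₂.2 ⟨i, (hN i).2 fun j hj => ?_, hx', h1, hi'⟩
      have h2 : b j (-x) ≤ 1 := hx' j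
      rw [hj, ContinuousLinearMap.neg_apply, map_neg, neg_neg] at h2
      linarith
  have hZ : ∑ i ∈ N, volume (cn1_Z b i) ≤ volume (Sy (Kp b) 0) := by
    rw [← measure_biUnion_finset₀]
    · exact measure_mono (iUnion₂_subset fun i _ => cn1_Zsub b i)
    · intro i hi1 j _ hij
      exact cn1_Zdisj (fun e => hij (hi e)) ((hN i).1 hi1 j)
    · intro i _
      exact (cn1_Zmeas b i).nullMeasurableSet
  have key : volume (Kp b) ≤ 2 * volume (Sy (Kp b) 0) := by
    rw [← Measure.measure_neg volume (Kp b), two_mul]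
    refine (measure_mono cov).trans ((measure_union_le _ _).trans (add_le_add le_rfl ?_))
    refine (measure_biUnion_finset_le _ _).trans (le_trans ?_ hZ)
    refine Finset.sum_le_sum fun i hi1 => ?_
    rw [cn1_Zvol]
    exact h i ((hN i).1 hi1)
  have fin : volume (Sy (Kp b) 0) ≠ ⊤ :=
    ((measure_mono fun x hx => hx.1).trans_lt (isCompact_Kp hb).measure_lt_top).ne
  have := ENNReal.toReal_mono (ENNReal.mul_ne_top (by norm_num) fin) key
  rw [ENNReal.toReal_mul] at this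
  simpa [fv, Measure.real] using this

theorem poly (hP : Planar) {a : Fin m → Fn} (hb : IsBounded (Kp a)) :
    volume.real (Kp a) ≤ 2 * gv (Kp a) := by
  by_contra hc
  obtain ⟨n, a₀, hb₀, hlt, hinj, hne, hmin⟩ := exists_min ⟨m, a, hb, not_le.1 hc⟩
  obtain ⟨b, hbb, hbi, hbn, hv, hf, hfo⟩ := first hb₀ hinj hne hmin
  have vp := vol_pos hbb
  have fp := fv_zero_pos hbb
  have hlt' : 2 * fv (Kp b) 0 < volume.real (Kp b) := by rw [hv, hf]; exact hlt
  refine absurd (count hbb hbi fun i hi => ?_) (not_le.2 hlt')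
  refine facet hP hbb i (hbn i) (ρ := fv (Kp b) 0 / volume.real (Kp b)) (div_pos fp vp) ?_ ?_
  · rw [div_lt_iff₀ vp]
    linarith
  · intro w
    have := hfo i hi w
    rw [div_mul_eq_mul_div, eq_div_iff vp.ne', ← this]
    ring

end Pool.Agent.Lib.MP_e508a7_gt.KB
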