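import Pool.Agent.Lib.MP_e508a7_gt.KBTop

/-!
# The scalar inequality
-/

set_option autoImplicit false

namespace Pool.Agent.Lib.MP_e508a7_gt.KB

theorem Cd_nonneg {d : ℝ} (h0 : 0 < d) (h1 : d < 1) : 0 ≤ Cd d := by
  unfold Cd
  split_ifs
  · exact mul_nonneg (by linarith) (by linarith)
  · positivity

/-- Units: chord at u = 1, centroid u = 0, no normalisation of areas.
Φ = |F|, k = |G|, l = pr H 1, T - s/2 = pr H (1/2), s = a2 - a1, W = 1 - min u on F,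
P = 1 - min u on G, η from Cl, 1 + e = max u on G, g = |G ∩ u > 1|, (τ, D) = cost of the other
cluster, m d = mass of F in the levels [1 - (1-d) W, 1]. -/
theorem scalar {Φ k l T s W P η e g τ D : ℝ} {m : ℝ → ℝ}
    (hk : 0 < k) (h4 : 4 * k ≤ Φ) (hl : 0 ≤ l) (hT : l ≤ T) (hP : 0 < P) (hPW : P ≤ W)
    (hW : W ≤ 3) (he : 0 ≤ e) (heη : e ≤ η) (hη : η ≤ 1)
    (tent : 2 * η * Φ ≤ l * (W + η) * (3 - W + 2 * η))
    (g1 : l * e / 2 ≤ g) (g2 : g ≤ l * η / 2)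
    (K0 : k ≤ 2 / 3 * P * (k - g) - l * P ^ 2 / 6)
    (K2 : k - (k - g) / 2 ≤ 2 / 3 * (P - 1 / 2) * (k - g - (l + (T - s / 2)) / 4) -
      (T - s / 2) * (P - 1 / 2) ^ 2 / 6 - (2 * l + (T - s / 2)) / 24)
    (K3 : k - g ≤ T * P - s * P ^ 2 / 2)
    (KD : P * (T - s / 2) + l / 2 ≤ 2 * (k - g))
    (KE : s * P ≤ T)
    (hτ : 0 ≤ τ) (hD : 0 ≤ D)
    (S1 : τ + 7 / 2 * D ≤ (l + (2 * l - 2 * T + s) * e) * (W + e) / 2 +
      7 / 2 * (l * e + (2 * l - 2 * T + s) * e ^ 2 / 2 - g))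
    (S2 : 2 * l - 2 * T + s < 0 →
      2 * (2 * T - 2 * l - s) * (τ + 7 / 2 * D + 7 / 2 * g) ≤ 7 / 2 * l ^ 2)
    (hm : ∀ d, 0 < d → d < 1 → 0 ≤ m d ∧
      (Φ - l * η / 2) * (1 - d ^ 2 + Cd d / 3) - Cd d / W * (Φ + l * η ^ 2 / 6) ≤ m d) :
    ∃ r d, 0 ≤ r ∧ 0 < d ∧ d < 1 ∧ 0 ≤ l + s * r ∧
      (k - g + D + r * T / 2 + (l + s * r) * e / 2) ^ 3 ≤
        k * (k - g + r * T + s * r ^ 2 / 2 + D) *
          (((1 - d) * W * (k - g + r * T + s * r ^ 2 / 2) / (P + r) +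
            (P + r) * m d / ((1 - d) * W) + d * W * (l + s * r)) / 2 -
            (l + s * r) * (W + e) / 2 - τ - (k - g + D + r * T / 2 + (l + s * r) * e / 2)) := by
  obtain ⟨c, hc⟩ : ∃ c, c = 4 * k := ⟨_, rfl⟩
  have c0 : 0 < c := by linarith
  have hkc : k = c * (1 / 4) := by linarith
  obtain ⟨l, rfl⟩ : ∃ x, l = c * x := ⟨l / c, by field_simp⟩
  obtain ⟨T, rfl⟩ : ∃ x, T = c * x := ⟨T / c, by field_simp⟩
  obtain ⟨s, rfl⟩ : ∃ x, s = c * x := ⟨s / c, by field_simp⟩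
  obtain ⟨g, rfl⟩ : ∃ x, g = c * x := ⟨g / c, by field_simp⟩
  obtain ⟨τ, rfl⟩ : ∃ x, τ = c * x := ⟨τ / c, by field_simp⟩
  obtain ⟨D, rfl⟩ : ∃ x, D = c * x := ⟨D / c, by field_simp⟩
  rw [← hc] at h4
  clear hc hk
  subst hkc
  have can : ∀ {x y : ℝ}, c * x ≤ c * y → x ≤ y := fun h => le_of_mul_le_mul_left h c0
  have η0 : 0 ≤ η := he.trans heη
  have H : Hyp l T s W P η e g τ D :=
    { hl := can (by linarith)
      hT := can hT
      hP := hP
      hPW := hPW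
      hW := hW
      he := he
      heη := heη
      hη := hη
      tent := can (by linarith [mul_le_mul_of_nonneg_left h4 η0])
      g1 := can (by linarith)
      g2 := can (by linarith)
      K0 := can (by linarith)
      K2 := can (by linarith)
      K3 := can (by linarith)
      KD := can (by linarith)
      KE := can (by linarith)
      hτ := can (by linarith)
      hD := can (by linarith)
      S1 := can (by linarith)
      S2 := fun h => can (can (by linarith [S2 (by linarith [mul_neg_of_pos_of_neg c0 h])])) }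
  obtain ⟨r, d, r0, d0, d1, hz, hG⟩ := good_all H
  refine ⟨r, d, r0, d0, d1, by linarith [mul_nonneg c0.le hz], ?_⟩
  obtain ⟨m0, m1⟩ := hm d d0 d1
  obtain ⟨μ, hμ⟩ : ∃ x, m d = c * x := ⟨m d / c, by field_simp⟩
  rw [hμ] at m0 m1 ⊢
  have W0 : 0 < W := hP.trans_le hPW
  have C0 := Cd_nonneg d0 d1
  have C1 : 0 ≤ Cd d / W := by positivity
  have C2 : 0 ≤ 1 - d ^ 2 + Cd d / 3 := by nlinarith
  have i1 : 0 ≤ c * (l * η * (1 - d ^ 2 + Cd d / 3)) :=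
    mul_nonneg c0.le (mul_nonneg (mul_nonneg H.hl η0) C2)
  have i2 : 0 ≤ c * (l * η ^ 2 * (Cd d / W)) :=
    mul_nonneg c0.le (mul_nonneg (mul_nonneg H.hl (sq_nonneg _)) C1)
  have h1 := hG μ (can (by
    rcases le_total 0 (1 - d ^ 2 + Cd d / 3 - Cd d / W) with h | h
    · linarith [mul_le_mul_of_nonneg_right h4 h]
    · linarith [mul_nonneg c0.le (neg_nonneg.2 h)]))
  have h2 := mul_le_mul_of_nonneg_left h1 (pow_pos c0 3).le
  refine le_trans (le_of_eq ?_) (h2.trans (le_of_eq ?_)) <;> ring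

end Pool.Agent.Lib.MP_e508a7_gt.KB
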