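import Pool.Agent.Lib.MP_e508a7_gt.KBMain
import Pool.Agent.Lib.MP_e508a7_gt.KBCluster
import Pool.Agent.Lib.MP_e508a7_gt.KBScalar

/-!
# The scalar data of the main chord
-/

set_option autoImplicit false

namespace Pool.Agent.Lib.MP_e508a7_gt.KB

open MeasureTheory Set Filter Topology Metric Bornology

variable {F H : Set R2} {W P e v₁ v₂ a₁ a₂ η : ℝ}

theorem Main.split (M : Main F H W P e v₁ v₂ a₁ a₂) :
    volume.real (F ∩ H ∩ {x | x.1 ≤ 1}) = ∫ t in (1 - P)..1, pr (F ∩ H) t ∧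
    volume.real (F ∩ H ∩ {x | 1 < x.1}) = ∫ t in (1 : ℝ)..(1 + e), pr (F ∩ H) t ∧
    volume.real (F ∩ H) =
      volume.real (F ∩ H ∩ {x | x.1 ≤ 1}) + volume.real (F ∩ H ∩ {x | 1 < x.1}) := by
  obtain ⟨hP, -, he, -⟩ := M.basic
  have kG : IsCompact (F ∩ H) := M.kF.inter M.kH
  have h1 := area_cut kG M.bG (b := 1) (by linarith)
  have h2 := area_cut kG M.bG (b := 1 + e) (by linarith)
  rw [inter_eq_left.2 (show F ∩ H ⊆ {x | x.1 ≤ 1 + e} from M.tG),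
    (od2_split M.prof (r := 1) (by linarith) (by linarith)).1] at h2
  have h3 := measureReal_inter_add_sdiff (μ := volume) (s := F ∩ H) (t := {x : R2 | x.1 ≤ 1})
    (measurableSet_le measurable_fst measurable_const) kG.measure_lt_top.ne
  rw [show (F ∩ H) \ {x : R2 | x.1 ≤ 1} = F ∩ H ∩ {x | 1 < x.1} from
    Set.ext fun x => and_congr_right fun _ => (not_le : ¬x.1 ≤ 1 ↔ 1 < x.1)] at h3
  exact ⟨h1, by linarith, h3.symm⟩

theorem da1_sub {φ : ℝ → ℝ} {A B : ℝ} (h : Prof φ A B) (c : ℝ) : ∫ y in A..B, (c - y) * φ y =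
    c * (∫ y in A..B, φ y) - ∫ y in A..B, y * φ y := by
  simp only [sub_mul]
  rw [intervalIntegral.integral_sub (h.int.const_mul _) (od2_int h),
    intervalIntegral.integral_const_mul]

theorem Main.mom (M : Main F H W P e v₁ v₂ a₁ a₂) (cG : (∫ y in F ∩ H, y) = 0) :
    volume.real (F ∩ H) ≤ ∫ t in (1 - P)..1, (1 - t) * pr (F ∩ H) t := by
  obtain ⟨hP, -, he, -⟩ := M.basic
  obtain ⟨s1, s2, s3⟩ := M.split
  have kG : IsCompact (F ∩ H) := M.kF.inter M.kH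
  have h1 := int_slab kG continuous_id (s := 1 - P) (t := 1 + e) (by linarith)
  have h2 := (ContinuousLinearMap.fst ℝ ℝ ℝ).integral_comp_comm
    (continuous_id.continuousOn.integrableOn_compact kG (μ := volume))
  rw [inter_eq_left.2 (show F ∩ H ⊆ {x | 1 - P ≤ x.1 ∧ x.1 ≤ 1 + e} from
    fun x hx => ⟨M.bG x hx, M.tG x hx⟩)] at h1
  simp only [id, ContinuousLinearMap.coe_fst', cG, Prod.fst_zero] at h1 h2
  rw [h2, (od2_split M.prof (r := 1) (by linarith) (by linarith)).2] at h1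
  have p2 := M.prof.mono (A' := 1) (by linarith) (by linarith) le_rfl
  have h3 : 0 ≤ ∫ y in (1 : ℝ)..(1 + e), (y - 1) * pr (F ∩ H) y :=
    intervalIntegral.integral_nonneg p2.le fun y hy => mul_nonneg (sub_nonneg.2 hy.1) (p2.nn y hy)
  rw [od2_sub p2] at h3
  rw [da1_sub (M.prof.mono le_rfl (by linarith) (by linarith))]
  linarith

theorem Main.dataG (M : Main F H W P e v₁ v₂ a₁ a₂) (cG : (∫ y in F ∩ H, y) = 0)
    {k l T s g : ℝ} (hk : k = volume.real (F ∩ H)) (hl : l = pr H 1) (hs : s = a₂ - a₁)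
    (hT : T = v₂ - v₁ + s / 2) (hg : g = volume.real (F ∩ H ∩ {x | 1 < x.1})) :
    l * e / 2 ≤ g ∧ k ≤ 2 / 3 * P * (k - g) - l * P ^ 2 / 6 ∧
    k - (k - g) / 2 ≤ 2 / 3 * (P - 1 / 2) * (k - g - (l + (T - s / 2)) / 4) -
      (T - s / 2) * (P - 1 / 2) ^ 2 / 6 - (2 * l + (T - s / 2)) / 24 ∧
    k - g ≤ T * P - s * P ^ 2 / 2 ∧ P * (T - s / 2) + l / 2 ≤ 2 * (k - g) ∧ s * P ≤ T := by
  obtain ⟨hP, -, he, -⟩ := M.basic
  obtain ⟨s1, s2, s3⟩ := M.split
  have m0 := M.mom cG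
  have e1 : pr (F ∩ H) 1 = l := (M.pr_strip zero_le_one le_rfl).trans hl.symm
  have e2 : pr (F ∩ H) (1 / 2) = T - s / 2 := by
    rw [M.pr_strip (by norm_num) (by norm_num), M.sup.pr_eq M.cH M.kH, hT, add_sub_cancel_right]
  have p1 := M.prof.mono (B' := 1) le_rfl (by linarith) (by linarith)
  have p2 := M.prof.mono (A' := 1) (by linarith) (by linarith) le_rfl
  have p3 := p1.mono (B' := 1 / 2) le_rfl (by linarith) (by norm_num)
  have p4 := p1.mono (A' := 1 / 2) (by linarith) (by norm_num) le_rfl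
  obtain ⟨t1, t2⟩ := od2_split p1 p3.le p4.le
  have tan : ∀ t ∈ Icc (1 - P) 1, pr H t ≤ T - s + s * t := fun t ht => by
    obtain ⟨v, hv⟩ := M.bG'
    obtain ⟨v', hv'⟩ := M.one
    obtain ⟨θ, -, -, -, h⟩ := in_level M.cH hv.2 hv'.2 ht.1 ht.2
    have := M.pr_tan ⟨_, h⟩
    rw [← hs] at this
    linarith
  have a1 := p2.chord
  have a2 := p1.lin'
  have a3 := p3.lin'
  have a4 := p4.chord
  have a5 := p4.chord1
  have a6 := od2_le p1 1 0 (T - s) s fun y hy => mul_le_mul_of_nonneg_left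
    ((pr_mono M.kH fun v hv => hv.2).trans (tan y hy)) (by simp)
  have a7 := p3.chord
  have a8 := (pr_nonneg H _).trans (tan (1 - P) ⟨le_rfl, p1.le⟩)
  have n1 := mul_nonneg (pr_nonneg (F ∩ H) (1 + e)) he
  have n2 := mul_nonneg (pr_nonneg (F ∩ H) (1 - P)) (show 0 ≤ P - 1 / 2 by linarith)
  have n3 := mul_le_mul_of_nonneg_left a4 (show 0 ≤ P - 1 / 2 by linarith)
  rw [da1_sub p1] at m0 a2
  rw [da1_sub p3] at a3
  rw [od2_sub p4] at a5
  rw [← hk] at m0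
  have e3 : k - g = ∫ t in (1 - P)..1, pr (F ∩ H) t := by linarith
  rw [← hg] at s2
  rw [e3, s2]
  simp only [e1, e2] at a1 a2 a3 a4 a5 a7 n3
  rw [t1] at *
  refine ⟨by linarith, by linarith, by linarith, by linarith, by linarith, by linarith⟩

theorem da2_zero {S : Set R2} {a : ℝ} (h : ¬∃ v, (a, v) ∈ S) : pr S a = 0 :=
  le_antisymm ((pr_le (lo := 0) (hi := 0) le_rfl fun v hv => absurd ⟨v, hv⟩ h).trans_eq
    (sub_self _)) (pr_nonneg S a)

theorem da2_slab {S X : Set R2} (hc : IsCompact S) {c a b r : ℝ} (h0 : 0 ≤ c) (hr : 0 ≤ r)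
    (hX : ∀ x ∈ X, x ∈ S ∧ 1 ≤ x.1 ∧ x.1 ≤ 1 + r)
    (h : ∀ w, 0 ≤ w → w ≤ r → c * pr S (1 + w) ≤ a + b * w) :
    c * volume.real X ≤ a * r + b * r ^ 2 / 2 := by
  have h1 : (1 : ℝ) ≤ 1 + r := by linarith
  have k1 : volume.real X ≤ volume.real (S ∩ {x | 1 ≤ x.1 ∧ x.1 ≤ 1 + r}) :=
    measureReal_mono (fun x hx => hX x hx)
      ((measure_mono inter_subset_left).trans_lt hc.measure_lt_top).ne
  rw [area_slab hc h1] at k1
  have k2 : ∫ t in (1 : ℝ)..(1 + r), c * pr S t ≤ ∫ t in (1 : ℝ)..(1 + r), (a - b + b * t) := by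
    refine intervalIntegral.integral_mono_on h1
      ((integrable_pr hc).intervalIntegrable.const_mul c)
      (Continuous.intervalIntegrable (by fun_prop) _ _) fun t ht => ?_
    have := h (t - 1) (by linarith [ht.1]) (by linarith [ht.2])
    rw [add_sub_cancel] at this
    linarith
  rw [intervalIntegral.integral_const_mul, intervalIntegral.integral_add
    intervalIntegrable_const (Continuous.intervalIntegrable (by fun_prop) _ _),
    intervalIntegral.integral_const, intervalIntegral.integral_const_mul, integral_id,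
    smul_eq_mul] at k2
  nlinarith [mul_le_mul_of_nonneg_left k1 h0]

theorem cl_fst (cF : Convex ℝ F) (kF : IsCompact F) (cH : Convex ℝ H) (kH : IsCompact H)
    (h : Cl F (F ∩ H) (ContinuousLinearMap.fst ℝ ℝ ℝ) η) :
    (∃ v, ((1 : ℝ), v) ∈ F ∩ H) ∧ 0 < pr H 1 ∧
      ∀ t, t ≤ 1 + η → η * pr F t ≤ pr H 1 * (1 + η - t) := by
  obtain ⟨⟨p1, p2⟩, hp, ⟨q1, q2⟩, hq, hne, e1, e2, hh⟩ := h.ch
  obtain rfl : p1 = 1 := e1
  obtain rfl : q1 = 1 := e2
  have hd : q2 - p2 ≠ 0 := fun e => hne (by rw [sub_eq_zero.1 e])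
  have ha : |q2 - p2| ≤ pr H 1 :=
    abs_sub_le_iff.2 ⟨le_pr cH kH hp.2 hq.2, le_pr cH kH hq.2 hp.2⟩
  have hp0 : 0 < |q2 - p2| := abs_pos.2 hd
  refine ⟨⟨p2, hp⟩, hp0.trans_le ha, fun t ht => ?_⟩
  have h1 : 0 ≤ 1 + η - t := sub_nonneg.2 ht
  by_cases hn : ∃ v, (t, v) ∈ F
  · obtain ⟨lo, hi, k1, k2, k3⟩ := slice cF kF hn
    have k4 := hh (t, lo) ((k2 lo).2 ⟨le_rfl, k1⟩) ((hi - lo) / (q2 - p2)) (by
      have : ((t, lo) : R2) + ((hi - lo) / (q2 - p2)) • (((1, q2) : R2) - (1, p2)) = (t, hi) := by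
        refine Prod.ext (by simp) ?_
        simp only [Prod.snd_add, Prod.smul_snd, Prod.snd_sub, smul_eq_mul]
        rw [div_mul_cancel₀ _ hd, add_sub_cancel]
      rw [this]
      exact (k2 hi).2 ⟨k1, le_rfl⟩)
    change _ ≤ 1 + η - t at k4
    rw [abs_div, abs_of_nonneg (sub_nonneg.2 k1), div_mul_eq_mul_div, div_le_iff₀ hp0] at k4
    rw [k3]
    nlinarith [mul_le_mul_of_nonneg_left ha h1]
  · rw [da2_zero hn, mul_zero]
    exact mul_nonneg (pr_nonneg _ _) h1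

theorem Main.l_le (M : Main F H W P e v₁ v₂ a₁ a₂) (h0 : 0 < volume.real (F ∩ H))
    (cG : (∫ y in F ∩ H, y) = 0) : 3 * pr H 1 ≤ 2 * volume.real (F ∩ H) := by
  have cG' := M.cF.inter M.cH
  have kG := M.kF.inter M.kH
  obtain ⟨lo, hi, k1, k2, k3⟩ := slice cG' kG M.one
  have := c1 cG' kG h0 cG ((k2 lo).2 ⟨le_rfl, k1⟩) ((k2 hi).2 ⟨k1, le_rfl⟩)
  rw [dt, one_mul, mul_one, abs_of_nonneg (sub_nonneg.2 k1)] at this
  rwa [← M.pr_strip zero_le_one le_rfl, k3]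

theorem Main.dataF (M : Main F H W P e v₁ v₂ a₁ a₂) (cF : (∫ y in F, y) = 0) {Φ l : ℝ}
    (hΦ : Φ = volume.real F) (hl : 0 < l) (h6 : 6 * l ≤ Φ) (h0 : 0 ≤ η) (h1 : η ≤ 1)
    (top : ∀ x ∈ F, x.1 ≤ 1 + η) (wd : ∀ t, t ≤ 1 + η → η * pr F t ≤ l * (1 + η - t)) :
    e ≤ η ∧ W ≤ 3 ∧ 2 * η * Φ ≤ l * (W + η) * (3 - W + 2 * η) ∧
      volume.real (F ∩ H ∩ {x | 1 < x.1}) ≤ l * η / 2 := by
  obtain ⟨b1, b2, b3, -⟩ := M.basic
  have hΦ0 : 0 < Φ := by linarith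
  obtain ⟨A, B, hP, hAB, a1, a2⟩ := exists_prof M.cF M.kF ⟨_, M.zero.1⟩
  obtain rfl : A = 1 - W := by
    obtain ⟨v, hv⟩ := (hAB A).2 ⟨le_rfl, hP.le⟩
    exact le_antisymm ((hAB _).1 M.bF').1 (M.bF _ hv)
  have hB : B ≤ 1 + η := by
    obtain ⟨v, hv⟩ := (hAB B).2 ⟨hP.le, le_rfl⟩
    exact top _ hv
  have hc : ∫ x in F, x.1 = 0 := by
    have := (ContinuousLinearMap.fst ℝ ℝ ℝ).integral_comp_comm
      (continuous_id.continuousOn.integrableOn_compact M.kF (μ := volume))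
    simpa [cF] using this
  have hi : 0 ≤ Φ⁻¹ := inv_nonneg.2 hΦ0.le
  have hQ : Prof (fun y => Φ⁻¹ * pr F y) (1 - W) B :=
    ⟨hP.le, hP.conc.smul hi, fun y hy => mul_nonneg hi (hP.nn y hy), hP.int.const_mul _⟩
  have ht := hQ.tent (l := Φ⁻¹ * l) (mul_nonneg hi hl.le) h0 hB
    (by rw [intervalIntegral.integral_const_mul, ← a1, ← hΦ, inv_mul_cancel₀ hΦ0.ne'])
    (by
      simp only [mul_left_comm _ Φ⁻¹]
      rw [intervalIntegral.integral_const_mul, ← a2, hc, mul_zero])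
    (fun y hy => by
      have := mul_le_mul_of_nonneg_left (wd y (hy.2.trans hB)) hi
      linarith)
  have k : 2 * η * Φ ≤ l * (W + η) * (3 - W + 2 * η) := by
    have := mul_le_mul_of_nonneg_right ht hΦ0.le
    refine this.trans_eq ?_
    field_simp
    ring
  refine ⟨?_, ?_, k, ?_⟩
  · obtain ⟨v, hv⟩ := M.tG'
    have := top _ hv.1
    simpa using this
  · by_contra hW
    rw [not_le] at hW
    have p1 : 0 < l * (W + η) := mul_pos hl (by linarith)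
    have p2 : 0 ≤ 3 - W + 2 * η :=
      nonneg_of_mul_nonneg_right ((by positivity : 0 ≤ 2 * η * Φ).trans k) p1
    have p3 : l * (W + η) ≤ Φ := by nlinarith
    nlinarith [mul_le_mul_of_nonneg_right p3 p2]
  · rcases h0.eq_or_lt with rfl | hη
    · have : F ∩ H ∩ {x | 1 < x.1} = ∅ :=
        eq_empty_of_forall_notMem fun x hx => by linarith [top x hx.1.1, show 1 < x.1 from hx.2]
      simp [this]
    · have := da2_slab (X := F ∩ H ∩ {x | 1 < x.1}) M.kF (a := l * η) (b := -l) h0 h0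
        (fun x hx => ⟨hx.1.1, le_of_lt hx.2, top x hx.1.1⟩) fun w _ hw => by
          linarith [wd (1 + w) (by linarith)]
      exact le_of_mul_le_mul_left (by linarith) hη

theorem da3_tip {φ : ℝ → ℝ} {A B d : ℝ} (h : Prof φ A B) (hd : 0 < d) (hd1 : d < 1) :
    0 ≤ Cd d ∧ (B - A) * ∫ y in A..(A + d * (B - A)), φ y ≤
      (d ^ 2 - Cd d / 3) * (B - A) * (∫ y in A..B, φ y) +
        Cd d * (B * (∫ y in A..B, φ y) - ∫ y in A..B, y * φ y) := by
  have e1 : ∫ y in (-A - d * (-A - -B))..(-A), φ (-y) = ∫ y in A..(A + d * (B - A)), φ y := by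
    rw [intervalIntegral.integral_comp_neg φ, neg_neg,
      show -(-A - d * (-A - -B)) = A + d * (B - A) by ring]
  have e2 : ∫ y in (-B)..(-A), φ (-y) = ∫ y in A..B, φ y := by
    rw [intervalIntegral.integral_comp_neg φ, neg_neg, neg_neg]
  have e3 : ∫ y in (-B)..(-A), (y - -B) * φ (-y) =
      B * (∫ y in A..B, φ y) - ∫ y in A..B, y * φ y := by
    rw [show (fun y => (y - -B) * φ (-y)) = fun y => (fun y => (B + -1 * y) * φ y) (-y) from
      funext fun y => by ring, intervalIntegral.integral_comp_neg fun y => (B + -1 * y) * φ y,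
      neg_neg, neg_neg, od2_lin h]
    ring
  unfold Cd
  split_ifs with h3
  · have := h.neg.three hd.le h3
    rw [e1, e2, e3] at this
    exact ⟨mul_nonneg (by linarith) (by linarith), by linarith⟩
  · have := h.neg.four (not_le.1 h3).le hd1.le
    rw [e1, e2, e3] at this
    exact ⟨by positivity, by linarith⟩

theorem da3_cap {φ : ℝ → ℝ} {B l : ℝ} (h : Prof φ 1 B) (hl : 0 < l) (h0 : 0 ≤ η)
    (hB : B ≤ 1 + η) (wd : ∀ t, t ≤ 1 + η → η * φ t ≤ l * (1 + η - t)) :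
    ∫ y in (1 : ℝ)..B, φ y ≤ l * η / 2 ∧
      (∫ y in (1 : ℝ)..B, y * φ y) - ∫ y in (1 : ℝ)..B, φ y ≤ l * η ^ 2 / 6 := by
  have h1 := h.le
  rcases h0.eq_or_lt with rfl | h0
  · obtain rfl : B = 1 := by linarith
    simp
  obtain ⟨u, rfl⟩ : ∃ u, l = u * η := ⟨l / η, (div_mul_cancel₀ _ h0.ne').symm⟩
  have hu : 0 < u := (mul_pos_iff_of_pos_right h0).1 hl
  have hb : ∀ y ∈ Icc 1 B, φ y ≤ u * (1 + η) + -u * y := fun y hy =>
    le_of_mul_le_mul_left (by linarith [wd y (hy.2.trans hB)]) h0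
  have i1 := od2_le h 1 0 _ _ fun y hy => mul_le_mul_of_nonneg_left (hb y hy) (by linarith)
  have i2 := od2_le h (-1) 1 _ _ fun y hy =>
    mul_le_mul_of_nonneg_left (hb y hy) (by linarith [hy.1])
  have q := mul_nonneg hu.le (sq_nonneg (η - (B - 1)))
  exact ⟨by linarith, by linarith [mul_nonneg q (show 0 ≤ η + 2 * (B - 1) by linarith)]⟩

theorem Main.mass (M : Main F H W P e v₁ v₂ a₁ a₂) (cF : (∫ y in F, y) = 0) {Φ l : ℝ}
    (hΦ : Φ = volume.real F) (hl : 0 < l) (h0 : 0 ≤ η)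
    (top : ∀ x ∈ F, x.1 ≤ 1 + η) (wd : ∀ t, t ≤ 1 + η → η * pr F t ≤ l * (1 + η - t))
    {d : ℝ} (hd : 0 < d) (hd1 : d < 1) : 0 ≤ ∫ t in (1 - (1 - d) * W)..1, pr F t ∧
      (Φ - l * η / 2) * (1 - d ^ 2 + Cd d / 3) - Cd d / W * (Φ + l * η ^ 2 / 6) ≤
        ∫ t in (1 - (1 - d) * W)..1, pr F t := by
  obtain ⟨A, B, hp, hm, hv, hc⟩ := exists_prof M.cF M.kF ⟨_, M.zero.1⟩
  obtain ⟨v, hA⟩ := (hm A).2 ⟨le_rfl, hp.le⟩
  obtain rfl : A = 1 - W := le_antisymm ((hm _).1 M.bF').1 (M.bF _ hA)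
  obtain ⟨v', hB⟩ := (hm B).2 ⟨hp.le, le_rfl⟩
  have h1 : 1 ≤ B := ((hm 1).1 (M.one.imp fun _ h => h.1)).2
  have hW : 1 ≤ W := M.basic.1.trans M.basic.2.1
  have hW0 : 0 < W := by linarith
  have hz : ∫ x in F, x.1 = 0 :=
    (fst_integral (continuous_id.continuousOn.integrableOn_compact M.kF)).symm.trans
      (congrArg Prod.fst cF)
  have hdW : 0 ≤ (1 - d) * W := mul_nonneg (by linarith) hW0.le
  have hdW' : 0 ≤ d * W := mul_nonneg hd.le hW0.le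
  have p1 := hp.mono le_rfl (show 1 - W ≤ 1 by linarith) h1
  obtain ⟨s1, s2⟩ := od2_split hp p1.le h1
  obtain ⟨c1, c2⟩ := da3_cap (hp.mono p1.le h1 le_rfl) hl h0 (top _ hB) wd
  obtain ⟨t0, t1⟩ := da3_tip p1 hd hd1
  rw [show 1 - W + d * (1 - (1 - W)) = 1 - (1 - d) * W by ring, sub_sub_cancel] at t1
  have s3 := (od2_split p1 (r := 1 - (1 - d) * W) (by linarith) (by linarith)).1
  refine ⟨intervalIntegral.integral_nonneg (by linarith) fun t _ => pr_nonneg F t, ?_⟩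
  have k0 : 0 ≤ 1 - d ^ 2 + Cd d / 3 := by nlinarith
  have k1 := mul_le_mul_of_nonneg_right (show Φ - l * η / 2 ≤ ∫ t in (1 - W)..1, pr F t by
    linarith) (mul_nonneg k0 hW0.le)
  have k2 := mul_le_mul_of_nonneg_left (show 1 * (∫ t in (1 - W)..1, pr F t) -
    ∫ t in (1 - W)..1, t * pr F t ≤ Φ + l * η ^ 2 / 6 by linarith) t0
  refine le_of_mul_le_mul_left ?_ hW0
  rw [mul_sub, ← mul_assoc W (Cd d / W), mul_div_cancel₀ _ hW0.ne', eq_sub_of_add_eq' s3.symm]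
  linarith

theorem Main.score (M : Main F H W P e v₁ v₂ a₁ a₂) {l σ : ℝ} (hl : l = pr H 1)
    (hσ : σ = 2 * (l - (v₂ - v₁))) :
    pr H (1 + e) ≤ l + σ * e ∧
    volume.real (H ∩ {x | 1 < x.1 ∧ x.1 ≤ 1 + e}) ≤ l * e + σ * e ^ 2 / 2 ∧
    (σ < 0 → 2 * -σ * volume.real (H ∩ {x | 1 < x.1}) ≤ l ^ 2) := by
  obtain ⟨-, -, b3, -⟩ := M.basic
  have key {w : ℝ} (hw : 0 ≤ w) (h : ∃ v, (1 + w, v) ∈ H) : pr H (1 + w) ≤ l + σ * w := by
    rw [hσ, hl]
    exact M.top_le hw h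
  have he : ∃ v, (1 + e, v) ∈ H := M.tG'.imp fun _ h => h.2
  refine ⟨key b3 he, ?_, fun hs => ?_⟩
  · obtain ⟨A, B, -, hAB, -⟩ := exists_prof M.cH M.kH ⟨_, M.zero.2⟩
    have a1 := ((hAB 1).1 (M.one.imp fun _ h => h.2)).1
    have a2 := ((hAB _).1 he).2
    have := da2_slab (X := H ∩ {x | 1 < x.1 ∧ x.1 ≤ 1 + e}) M.kH (a := l) (b := σ) zero_le_one b3
      (fun x hx => ⟨hx.1, hx.2.1.le, hx.2.2⟩) fun w h1 h2 => by
        rw [one_mul]
        exact key h1 ((hAB _).2 ⟨by linarith, by linarith⟩)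
    rwa [one_mul] at this
  · have hl0 : 0 ≤ l := hl ▸ pr_nonneg H 1
    have hs' : 0 < -σ := neg_pos.2 hs
    have := da2_slab (X := H ∩ {x | 1 < x.1}) M.kH (a := l) (b := σ) (r := l / -σ) zero_le_one
      (div_nonneg hl0 hs'.le)
      (fun x hx => ⟨hx.1, le_of_lt hx.2, by
        have h1 : 0 ≤ x.1 - 1 := sub_nonneg.2 (le_of_lt hx.2)
        have h2 := key h1 ⟨x.2, by rw [add_sub_cancel]; exact hx.1⟩
        have h3 := pr_nonneg H (1 + (x.1 - 1))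
        have : x.1 - 1 ≤ l / -σ := by rw [le_div_iff₀ hs']; linarith
        linarith⟩) fun w h1 h2 => by
        rw [one_mul]
        by_cases hn : ∃ v, (1 + w, v) ∈ H
        · exact key h1 hn
        · rw [da2_zero hn]
          rw [le_div_iff₀ hs'] at h2
          linarith
    rw [one_mul] at this
    refine (mul_le_mul_of_nonneg_left this (by linarith)).trans_eq ?_
    have := hs.ne
    field_simp
    ring

end Pool.Agent.Lib.MP_e508a7_gt.KB
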