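import Mathlib

/-!
# Definitions for the best centre problem in dimension three
-/

set_option autoImplicit false

namespace Pool.Agent.Lib.MP_e508a7_gt.KB

open MeasureTheory Set

/-- the space -/
abbrev V : Type := Fin 3 → ℝ

/-- linear functionals on the space -/
abbrev Fn : Type := V →L[ℝ] ℝ

/-- the plane -/
abbrev R2 : Type := ℝ × ℝ

/-- a polyhedron with `0` in its interior -/
def Kp {m : ℕ} (a : Fin m → Fn) : Set V := {x | ∀ j, a j x ≤ 1}

/-- the intersection of `K` with its reflection in `p` -/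
def Sy (K : Set V) (p : V) : Set V := {x | x ∈ K ∧ (2 : ℝ) • p - x ∈ K}

/-- the volume of that intersection -/
noncomputable def fv (K : Set V) (p : V) : ℝ := volume.real (Sy K p)

/-- its supremum over all centres -/
noncomputable def gv (K : Set V) : ℝ := ⨆ p, fv K p

/-- the cone over the facet `i` -/
def Cf {m : ℕ} (b : Fin m → Fn) (i : Fin m) : Set V := {x | 0 < b i x ∧ ∀ j, b j x ≤ b i x}

/-- the cone over the part of the facet `i` inside the reflected body -/
def Cg {m : ℕ} (b : Fin m → Fn) (i : Fin m) : Set V := {x | 0 < b i x ∧ ∀ j, |b j x| ≤ b i x}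

/-- the largest possible section of a cap at height `t` -/
def Lc (F H : Set R2) (t : ℝ) : Set R2 :=
  {y | t⁻¹ • y ∈ F ∩ H ∧ ∀ z ∈ F, (t + 1)⁻¹ • ((2 : ℝ) • y - (t - 1) • z) ∈ H}

/-- the planar cap inequality -/
def Planar : Prop := ∀ F H : Set R2, Convex ℝ F → IsCompact F → Convex ℝ H → IsCompact H →
  0 < volume.real (F ∩ H) → 4 * volume.real (F ∩ H) < volume.real F →
  (∫ y in F, y) = 0 → (∫ y in F ∩ H, y) = 0 →
  ∫⁻ t in Ioi (1 : ℝ), volume (Lc F H t) ≤ ENNReal.ofReal (2 / 3 * volume.real (F ∩ H))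

/-- the length of the section of `S` at the level `a` of the first coordinate -/
noncomputable def pr (S : Set R2) (a : ℝ) : ℝ := volume.real {v : ℝ | (a, v) ∈ S}

/-- a concave nonnegative function on an interval -/
structure Prof (φ : ℝ → ℝ) (A B : ℝ) : Prop where
  le : A ≤ B
  conc : ConcaveOn ℝ (Icc A B) φ
  nn : ∀ y ∈ Icc A B, 0 ≤ φ y
  int : IntervalIntegrable φ volume A B

/-- the determinant of two vectors of the plane -/
def dt (x y : R2) : ℝ := x.1 * y.2 - x.2 * y.1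

/-- the data of a touching chord -/
structure Cl (F G : Set R2) (u : R2 →L[ℝ] ℝ) (η : ℝ) : Prop where
  e0 : 0 ≤ η
  e1 : η ≤ 1
  top : ∀ x ∈ F, u x ≤ 1 + η
  ch : ∃ p ∈ G, ∃ q ∈ G, p ≠ q ∧ u p = 1 ∧ u q = 1 ∧
    ∀ x ∈ F, ∀ μ : ℝ, x + μ • (q - p) ∈ F → |μ| * η ≤ 1 + η - u x

end Pool.Agent.Lib.MP_e508a7_gt.KB
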