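import Pool.Agent.Lib.MP_e508a7_gt.Model

set_option autoImplicit false

/-!
A simplex of minimal volume around a convex body touches it at the centroids of the facets.
-/

namespace Pool.Agent.Lib.MP_e508a7_gt

open MeasureTheory Set Filter Topology

variable {m n : ℕ}

/-- no affine image inside the model simplex is larger -/
def MaxP (K : Set (Fin n → ℝ)) : Prop :=
  ∀ (L : (Fin n → ℝ) →ₗ[ℝ] (Fin n → ℝ)) (b : Fin n → ℝ), (∀ x ∈ K, L x + b ∈ Sp 1) →
    |LinearMap.det L| ≤ 1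

lemma exists_max {K : Set (Fin n → ℝ)} (hi : (interior K).Nonempty) (hKT : K ⊆ Sp 1) :
    ∃ (L : (Fin n → ℝ) →ₗ[ℝ] (Fin n → ℝ)) (b : Fin n → ℝ), (∀ x ∈ K, L x + b ∈ Sp 1) ∧
      1 ≤ |LinearMap.det L| ∧ MaxP ((fun x => L x + b) '' K) := by
  set F : Set (((Fin n → ℝ) →L[ℝ] (Fin n → ℝ)) × (Fin n → ℝ)) :=
    {p | ∀ x ∈ K, p.1 x + p.2 ∈ Sp 1} with hF
  obtain ⟨R, hR⟩ := (isCompact_Sp (n := n) 1).isBounded.exists_norm_le
  obtain ⟨x₀, hx₀⟩ := hi
  obtain ⟨r, hr, hb⟩ := Metric.mem_nhds_iff.1 (mem_interior_iff_mem_nhds.1 hx₀)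
  have h0 := hb (Metric.mem_ball_self hr)
  have hR0 : 0 ≤ R := (norm_nonneg _).trans (hR _ (hKT h0))
  have hc : IsCompact F := by
    refine Metric.isCompact_of_isClosed_isBounded ?_ ?_
    · simp only [hF, ofPred_forall]
      exact isClosed_iInter fun x => isClosed_iInter fun _ =>
        (isClosed_Sp 1).preimage (by fun_prop)
    · refine ((Metric.isBounded_closedBall (x := 0) (r := 4 * R / r)).prod
        (Metric.isBounded_closedBall (x := 0) (r := R + 4 * R / r * ‖x₀‖))).subset fun p hp => ?_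
      have h1 : ‖p.1‖ ≤ 4 * R / r := by
        refine ContinuousLinearMap.opNorm_le_of_unit_norm (by positivity) fun x hx => ?_
        have h2 := hR _ (hp _ (hb (show x₀ + (r / 2) • x ∈ Metric.ball x₀ r by
          rw [mem_ball_iff_norm, add_sub_cancel_left, norm_smul, hx, Real.norm_of_nonneg
            (by positivity)]
          linarith)))
        have h3 := (norm_sub_le _ _).trans (add_le_add h2 (hR _ (hp _ h0)))
        rw [add_sub_add_right_eq_sub, map_add, add_sub_cancel_left, map_smul, norm_smul,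
          Real.norm_of_nonneg (by positivity)] at h3
        rw [le_div_iff₀ hr]
        linarith
      refine ⟨mem_closedBall_zero_iff.2 h1, mem_closedBall_zero_iff.2 ?_⟩
      have h2 := (norm_sub_le _ (p.1 x₀)).trans (add_le_add (hR _ (hp _ h0))
        ((p.1.le_opNorm x₀).trans (mul_le_mul_of_nonneg_right h1 (norm_nonneg _))))
      rwa [add_sub_cancel_left] at h2
  have h1 : (ContinuousLinearMap.id ℝ _, 0) ∈ F := fun x hx => by simpa using hKT hx
  obtain ⟨p, hp, hm⟩ := hc.exists_isMaxOn (f := fun p => |p.1.det|) ⟨_, h1⟩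
    (ContinuousLinearMap.continuous_det.comp continuous_fst).abs.continuousOn
  have h2 : 1 ≤ |LinearMap.det (p.1 : (Fin n → ℝ) →ₗ[ℝ] (Fin n → ℝ))| := by
    simpa [ContinuousLinearMap.det] using hm h1
  refine ⟨p.1, p.2, hp, h2, fun L b h => ?_⟩
  have h3 : ((L ∘ₗ (p.1 : (Fin n → ℝ) →ₗ[ℝ] (Fin n → ℝ))).toContinuousLinearMap, L p.2 + b) ∈ F :=
    fun x hx => by
      have := h _ (mem_image_of_mem _ hx)
      rwa [map_add, add_assoc] at this
  have h4 : |LinearMap.det (L ∘ₗ (p.1 : (Fin n → ℝ) →ₗ[ℝ] (Fin n → ℝ)))| ≤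
    |LinearMap.det (p.1 : (Fin n → ℝ) →ₗ[ℝ] (Fin n → ℝ))| := hm h3
  rw [LinearMap.det_comp, abs_mul] at h4
  exact (mul_le_iff_le_one_left (one_pos.trans_le h2)).1 h4

lemma MaxP.perm {K : Set (Fin n → ℝ)} (h : MaxP K) (π : Equiv.Perm (Fin (n + 1))) :
    MaxP (Pm π ⁻¹' K) := fun L b hL => by
  have := h (L ∘ₗ Pm π⁻¹) b fun x hx => hL _ (by
    rwa [mem_preimage, P_P, inv_mul_cancel, P_one])
  rwa [LinearMap.det_comp, abs_mul, det_P, mul_one] at this

lemma exists_tau {ψ : Fin n → ℝ} (h : 0 < ∑ k, ψ k) (C : ℝ) :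
    ∃ τ : ℝ, 0 < τ ∧ (∀ k, 0 < 1 + τ * ψ k) ∧ 0 < 1 - τ * C ∧ 1 < ∏ k, (1 + τ * ψ k) := by
  have h1 : ∀ᶠ τ in 𝓝 (0 : ℝ), ∀ k, 0 < 1 + τ * ψ k := eventually_all.2 fun k =>
    continuousAt_const.eventually_lt (by fun_prop) (by simp)
  have h2 : ∀ᶠ τ in 𝓝 (0 : ℝ), 0 < 1 - τ * C :=
    continuousAt_const.eventually_lt (by fun_prop) (by simp)
  have h3 : HasDerivAt (fun τ : ℝ => ∏ k, (1 + τ * ψ k)) (∑ k, ψ k) 0 := by
    simpa using HasDerivAt.fun_finsetProd (u := Finset.univ) (x := (0 : ℝ))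
      fun k _ => ((hasDerivAt_id' (0 : ℝ)).mul_const (ψ k)).const_add 1
  have h4 := h3.tendsto_slope_zero_right.eventually (lt_mem_nhds h)
  obtain ⟨τ, h5, h6, h7⟩ := (Eventually.and (self_mem_nhdsWithin (s := Ioi 0))
    (h4.and ((h1.and h2).filter_mono nhdsWithin_le_nhds))).exists
  refine ⟨τ, h5, h7.1, h7.2, ?_⟩
  simpa [show 0 < τ from h5] using h6

lemma MaxP.facet {K : Set (Fin (m + 1) → ℝ)} (h : MaxP K) (hK : Convex ℝ K) (hc : IsClosed K)
    (hKT : K ⊆ Sp 1) : Pi.single 0 1 ∈ K := by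
  by_contra h0
  obtain ⟨f, u, hf, hu⟩ := geometric_hahn_banach_closed_point hK hc h0
  have hz : ∀ x, Bm (m + 1) x 0 = -∑ k : Fin (m + 1), Bm (m + 1) x k.succ := fun x => by
    have := Bm_sum x
    rw [Fin.sum_univ_succ] at this
    linarith
  set M := LinearEquiv.ofInjectiveEndo (LinearMap.funLeft ℝ ℝ Fin.succ ∘ₗ Bm (m + 1))
    (fun x y hxy => Bm_inj (funext fun j => by
      have h1 : ∀ k : Fin (m + 1), Bm (m + 1) x k.succ = Bm (m + 1) y k.succ := congrFun hxy
      refine Fin.cases ?_ h1 j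
      simp only [hz, h1])) with hM
  have hM1 : ∀ x k, M x k = Bm (m + 1) x k.succ := fun _ _ => rfl
  have hM2 : ∀ y k, Bm (m + 1) (M.symm y) k.succ = y k := fun y k => by
    rw [← hM1, M.apply_symm_apply]
  set g : Fin (m + 1) → ℝ := fun k => f (M.symm (Pi.single k 1)) with hg
  have hfx : ∀ x, f x = ∑ k, Bm (m + 1) x k.succ * g k := fun x => by
    conv_lhs => rw [← M.symm_apply_apply x, pi_eq_sum_univ' (M x)]
    simp only [map_sum, map_smul, smul_eq_mul, hM1, hg]
  set C := (∑ k, g k + u) / (m + 2) with hC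
  have hC' : C * (m + 2) = ∑ k, g k + u := div_mul_cancel₀ _ (by positivity)
  have h1 : ∀ k : Fin (m + 1), Bm (m + 1) (Pi.single 0 1) k.succ = (m + 1 : ℝ)⁻¹ := fun k => by
    rw [Bm_apply, sm_single, Finset.sum_eq_single 0]
    · simp
      field_simp
      ring
    · intro l _ hl
      simp [hl]
    · simp
  rw [hfx] at hu
  simp only [h1] at hu
  rw [← Finset.mul_sum, lt_inv_mul_iff₀ (by positivity)] at hu
  obtain ⟨τ, hτ, h2, h3, h4⟩ := exists_tau (ψ := fun k => g k - C) (by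
    rw [Finset.sum_sub_distrib, Finset.sum_const, Finset.card_univ, Fintype.card_fin, nsmul_eq_mul]
    push_cast
    refine pos_of_mul_pos_left (b := (m + 2 : ℝ)) ?_ (by positivity)
    nlinarith) C
  have h5 := h ((M.symm : _ →ₗ[ℝ] _) ∘ₗ Matrix.toLin' (Matrix.diagonal fun k => 1 + τ * (g k - C)) ∘ₗ
    (M.symm.symm : _ →ₗ[ℝ] _)) (M.symm fun k => τ * (g k - C)) fun x hx => by
      have h6 : ∀ k : Fin (m + 1), Bm (m + 1) (((M.symm : _ →ₗ[ℝ] _) ∘ₗ
          Matrix.toLin' (Matrix.diagonal fun k => 1 + τ * (g k - C)) ∘ₗ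
          (M.symm.symm : _ →ₗ[ℝ] _)) x + M.symm fun k => τ * (g k - C)) k.succ =
            (1 + τ * (g k - C)) * Bm (m + 1) x k.succ + τ * (g k - C) := fun k => by
        simp [hM1, hM2, Matrix.mulVec_diagonal]
      intro j
      refine Fin.cases ?_ (fun k => ?_) j
      · have h7 : -1 ≤ Bm (m + 1) x 0 := hKT hx 0
        have h8 := hf x hx
        have h9 : ∑ k, ((1 + τ * (g k - C)) * Bm (m + 1) x k.succ + τ * (g k - C)) =
            (1 - τ * C) * ∑ k : Fin (m + 1), Bm (m + 1) x k.succ + τ * f x +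
              τ * (∑ k, g k - (m + 1) * C) := by
          rw [hfx]
          simp only [Finset.mul_sum, mul_sub τ, ← Finset.sum_add_distrib]
          rw [show τ * ((m + 1) * C) = ∑ _k : Fin (m + 1), τ * C by simp; ring,
            ← Finset.sum_sub_distrib, ← Finset.sum_add_distrib]
          exact Finset.sum_congr rfl fun k _ => by ring
        rw [hz]
        simp only [h6]
        rw [h9, ← neg_neg (∑ k : Fin (m + 1), Bm (m + 1) x k.succ), ← hz, Pi.one_apply]
        have h10 := mul_nonneg h3.le (neg_le_iff_add_nonneg.1 h7)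
        have h11 := mul_lt_mul_of_pos_left h8 hτ
        have h12 := congrArg (τ * ·) hC'
        linarith
      · have h7 : -1 ≤ Bm (m + 1) x k.succ := hKT hx _
        rw [h6, Pi.one_apply]
        nlinarith [h2 k]
  rw [LinearMap.det_conj, LinearMap.det_toLin', Matrix.det_diagonal] at h5
  exact h4.not_ge ((le_abs_self _).trans h5)

end Pool.Agent.Lib.MP_e508a7_gt
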