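import Pool.Agent.Lib.MP_e508a7_gt.Near
import Pool.Agent.Lib.MP_e508a7_gt.MinS

set_option autoImplicit false

/-!
Transfer between Euclidean space and the model.
-/

namespace Pool.Agent.Lib.MP_e508a7_gt

open MeasureTheory Set Filter Topology
open scoped ENNReal NNReal

variable {m n : ℕ}

lemma aff1 {w : Fin (n + 1) → EuclideanSpace ℝ (Fin n)} (hw : AffineIndependent ℝ w) :
    ∃ (L : EuclideanSpace ℝ (Fin n) ≃ₗ[ℝ] (Fin n → ℝ)) (b : Fin n → ℝ),
      convexHull ℝ (range w) = (fun x => L x + b) ⁻¹' Sp 1 := by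
  let B : AffineBasis (Fin (n + 1)) ℝ (EuclideanSpace ℝ (Fin n)) :=
    ⟨w, hw, hw.affineSpan_eq_top_iff_card_eq_finrank_add_one.2 (by simp)⟩
  set L := Zm n ∘ₗ LinearMap.pi fun j => ((n : ℝ) + 1) • (B.coord j).linear with hL
  set b := Zm n fun j => ((n : ℝ) + 1) * B.coord j 0 - 1 with hb
  have h1 : ∀ x, Bm n (L x + b) = fun j => ((n : ℝ) + 1) * B.coord j x - 1 := fun x => by
    rw [← B_Z (y := fun j => ((n : ℝ) + 1) * B.coord j x - 1) (by
      rw [Finset.sum_sub_distrib, ← Finset.mul_sum, B.sum_coord_apply_eq_one]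
      simp), hL, hb, LinearMap.comp_apply, ← map_add]
    congr 2
    funext j
    have := (B.coord j).map_vadd 0 x
    rw [vadd_eq_add, add_zero, vadd_eq_add] at this
    simp only [Pi.add_apply, LinearMap.pi_apply, LinearMap.smul_apply, smul_eq_mul, this]
    ring
  have h2 : Function.Injective L := fun x y h => B.ext_elem fun j => by
    have h3 := congrFun ((h1 x).symm.trans ((congrArg (fun z => Bm n (z + b)) h).trans (h1 y))) j
    exact mul_left_cancel₀ (by positivity) (sub_left_injective h3)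
  refine ⟨L.linearEquivOfInjective h2 (by simp), b, ?_⟩
  refine B.convexHull_eq_nonneg_coord.trans (Set.ext fun x => forall_congr' fun j => ?_)
  change _ ↔ -1 ≤ Bm n (L x + b) j
  rw [h1, neg_le_sub_iff_le_add,
    le_add_iff_nonneg_left, mul_nonneg_iff_of_pos_left (by positivity)]

lemma aff2 {w : Fin (n + 1) → EuclideanSpace ℝ (Fin n)} (hw : AffineIndependent ℝ w)
    (L : EuclideanSpace ℝ (Fin n) ≃ₗ[ℝ] (Fin n → ℝ)) (b : Fin n → ℝ) :
    ∃ u : Fin (n + 1) → EuclideanSpace ℝ (Fin n), AffineIndependent ℝ u ∧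
      convexHull ℝ (range u) = (fun x => L x + b) ⁻¹' Sp 1 := by
  obtain ⟨L₀, b₀, h⟩ := aff1 hw
  set G := L₀.toAffineEquiv.trans
    ((AffineEquiv.constVAdd ℝ (Fin n → ℝ) (b₀ - b)).trans L.symm.toAffineEquiv) with hG
  have h1 : ∀ x, L (G x) + b = L₀ x + b₀ := fun x => by
    simp [hG]
    ring
  refine ⟨G.toAffineMap ∘ w, hw.map' _ G.injective, ?_⟩
  rw [range_comp, ← AffineMap.image_convexHull, h]
  ext x
  obtain ⟨y, rfl⟩ := G.surjective x
  rw [mem_preimage, h1]
  exact G.injective.mem_set_image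

lemma exists_factor (L : EuclideanSpace ℝ (Fin n) ≃ₗ[ℝ] (Fin n → ℝ)) (b : Fin n → ℝ) :
    ∃ c : ℝ≥0, 0 < c ∧ Measure.map (fun x => L x + b) volume = c • volume := by
  have := L.toContinuousLinearEquiv.isAddHaarMeasure_map volume
  refine ⟨_, Measure.addHaarScalarFactor_pos_of_isAddHaarMeasure
    (Measure.map L.toContinuousLinearEquiv volume) volume, ?_⟩
  rw [← map_add_right_eq_self (_ • volume) b, ← Measure.isAddLeftInvariant_eq_smul,
    Measure.map_map (measurable_add_const b) L.toContinuousLinearEquiv.continuous.measurable]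
  rfl

lemma continuous_aff (L : EuclideanSpace ℝ (Fin n) ≃ₗ[ℝ] (Fin n → ℝ)) (b : Fin n → ℝ) :
    Continuous fun x => L x + b := L.toContinuousLinearEquiv.continuous.add continuous_const

lemma exists_tr (L : EuclideanSpace ℝ (Fin n) ≃ₗ[ℝ] (Fin n → ℝ)) (b : Fin n → ℝ) :
    ∃ c : ℝ, 0 < c ∧
      (∀ s, MeasurableSet s → volume.real ((fun x => L x + b) ⁻¹' s) = c * volume.real s) ∧
      ∀ s, IsCompact s → ∫ x in (fun x => L x + b) ⁻¹' s, x = 0 → ∫ y in s, y = volume.real s • b := by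
  obtain ⟨c, hc, h⟩ := exists_factor L b
  have hm := (continuous_aff L b).measurable
  have h1 : ∀ s, MeasurableSet s → volume.real ((fun x => L x + b) ⁻¹' s) = c * volume.real s :=
    fun s hs => by rw [← map_measureReal_apply hm hs, h, measureReal_nnreal_smul_apply]
  refine ⟨c, hc, h1, fun s hs h0 => ?_⟩
  have h2 : IsCompact ((fun x => L x + b) ⁻¹' s) :=
    (L.toContinuousLinearEquiv.toHomeomorph.trans (Homeomorph.addRight b)).isCompact_preimage.2 hs
  have h3 : IntegrableOn (fun x => x) ((fun x => L x + b) ⁻¹' s) :=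
    continuous_id.continuousOn.integrableOn_compact h2
  have h4 := setIntegral_map (μ := volume) (f := fun y => y) hs.measurableSet
    (continuous_id.aestronglyMeasurable) hm.aemeasurable
  have h5 := L.toContinuousLinearEquiv.toContinuousLinearMap.integral_comp_comm h3
  rw [h0, map_zero] at h5
  have h6 : IntegrableOn (fun x => L x) ((fun x => L x + b) ⁻¹' s) :=
    L.toContinuousLinearEquiv.toContinuousLinearMap.integrable_comp h3
  rw [h, Measure.restrict_smul, integral_smul_nnreal_measure, integral_add h6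
    (integrableOn_const h2.measure_lt_top.ne), show ∫ x in _, L x = 0 from h5, zero_add, setIntegral_const,
    h1 s hs.measurableSet, mul_smul] at h4
  exact smul_right_injective _ (NNReal.coe_pos.2 hc).ne' h4

lemma ratio_eq (L : EuclideanSpace ℝ (Fin n) ≃ₗ[ℝ] (Fin n → ℝ)) (b : Fin n → ℝ)
    {s : Set (Fin n → ℝ)} (hs : IsClosed s) :
    volume.real {x | x ∈ (fun x => L x + b) ⁻¹' s ∧ -x ∈ (fun x => L x + b) ⁻¹' s} /
      volume.real ((fun x => L x + b) ⁻¹' s) =
      volume.real {y | y ∈ s ∧ b + b - y ∈ s} / volume.real s := by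
  obtain ⟨c, hc, h, -⟩ := exists_tr L b
  have h1 : {x | x ∈ (fun x => L x + b) ⁻¹' s ∧ -x ∈ (fun x => L x + b) ⁻¹' s} =
      (fun x => L x + b) ⁻¹' {y | y ∈ s ∧ b + b - y ∈ s} := by
    ext x
    simp only [mem_preimage, mem_ofPred_eq, map_neg]
    rw [show b + b - (L x + b) = -L x + b by ring]
  rw [h1, h _ hs.measurableSet, h {y | y ∈ s ∧ b + b - y ∈ s}
    (hs.inter (hs.preimage (f := fun y => b + b - y) (by fun_prop))).measurableSet,
    mul_div_mul_left _ _ hc.ne']

lemma ratio_simplex {v : Fin (n + 1) → EuclideanSpace ℝ (Fin n)} (hv : AffineIndependent ℝ v)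
    (h0 : ∫ x in convexHull ℝ (range v), x = 0) :
    volume.real {x | x ∈ convexHull ℝ (range v) ∧ -x ∈ convexHull ℝ (range v)} /
      volume.real (convexHull ℝ (range v)) =
      volume.real (Bx (n := n) 1) / volume.real (Sp (n := n) 1) := by
  obtain ⟨L, b, h⟩ := aff1 hv
  obtain ⟨c, -, -, h1⟩ := exists_tr L b
  rw [h] at h0 ⊢
  have h2 : b = 0 := Bm_inj (funext fun j => by
    have h3 := centroid_le (isClosed_Sp 1) Subset.rfl (h1 _ (isCompact_Sp 1) h0) j
    rw [sdiff_self, measureReal_empty, mul_zero] at h3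
    rw [map_zero]
    exact abs_nonpos_iff.1 (nonpos_of_mul_nonpos_right h3 vol_T_pos))
  rw [ratio_eq L b (isClosed_Sp 1), h2]
  congr 2
  ext y
  simp only [Sp, Bx, mem_ofPred_eq, add_zero, zero_sub, map_neg, Pi.neg_apply, neg_le_neg_iff,
    abs_le, forall_and]

/-- normalisation by a simplex of minimal volume -/
lemma normalise {K : Set (EuclideanSpace ℝ (Fin (m + 1)))} (hK : Convex ℝ K) (hc : IsCompact K)
    (hi : (interior K).Nonempty) {w : Fin (m + 2) → EuclideanSpace ℝ (Fin (m + 1))}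
    (hw : AffineIndependent ℝ w) (hKw : K ⊆ convexHull ℝ (range w)) {t : ℝ}
    (ht : t * volume.real (convexHull ℝ (range w)) ≤ volume.real K) :
    ∃ (L : EuclideanSpace ℝ (Fin (m + 1)) ≃ₗ[ℝ] (Fin (m + 1) → ℝ)) (b : Fin (m + 1) → ℝ)
      (K₀ : Set (Fin (m + 1) → ℝ)), K = (fun x => L x + b) ⁻¹' K₀ ∧ Convex ℝ K₀ ∧ IsCompact K₀ ∧
      K₀ ⊆ Sp 1 ∧ (∀ π, Pm π (Pi.single 0 1) ∈ K₀) ∧
      t * volume.real (Sp (n := m + 1) 1) ≤ volume.real K₀ := by
  obtain ⟨L₀, b₀, h⟩ := aff1 hw
  obtain ⟨c, hc0, h1, -⟩ := exists_tr L₀ b₀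
  set K₁ := (fun x => L₀ x + b₀) '' K with hK₁
  have h2 : IsCompact K₁ := hc.image (continuous_aff L₀ b₀)
  have h3 : (fun x => L₀ x + b₀) ⁻¹' K₁ = K :=
    preimage_image_eq _ ((add_left_injective b₀).comp L₀.injective)
  have h4 : K₁ ⊆ Sp 1 := image_subset_iff.2 (h ▸ hKw)
  have h5 : (interior K₁).Nonempty :=
    (hi.image _).mono ((L₀.toContinuousLinearEquiv.toHomeomorph.trans
      (Homeomorph.addRight b₀)).isOpenMap.image_interior_subset K)
  have h6 : t * volume.real (Sp (n := m + 1) 1) ≤ volume.real K₁ := by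
    rw [h, ← h3, h1 _ (isClosed_Sp 1).measurableSet, h1 _ h2.measurableSet, mul_left_comm] at ht
    exact le_of_mul_le_mul_left ht hc0
  obtain ⟨L₁, b₁, h7, h8, h9⟩ := exists_max h5 h4
  have hd : LinearMap.det L₁ ≠ 0 := fun h => by norm_num [h] at h8
  set K₀ := (fun x => L₁ x + b₁) '' K₁ with hK₀
  have h10 : IsCompact K₀ := h2.image (L₁.continuous_of_finiteDimensional.add continuous_const)
  have h11 : K₀ ⊆ Sp 1 := image_subset_iff.2 h7
  have e : K₀ = (fun x => x + b₁) '' (L₁ '' K₁) := (image_image (fun x => x + b₁) _ _).symm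
  have h12 : Convex ℝ K₀ := by
    have e' : K₁ = (fun x => x + b₀) '' (L₀.toLinearMap '' K) :=
      (image_image (fun x => x + b₀) _ _).symm
    rw [e, e']
    simp only [image_add_right]
    exact (((hK.linear_image _).translate_preimage_left _).linear_image _).translate_preimage_left _
  refine ⟨L₀.trans (L₁.equivOfDetNeZero hd), L₁ b₀ + b₁, K₀, ?_, h12, h10, h11, fun π =>
    (h9.perm π).facet (h12.linear_preimage _) (h10.isClosed.preimage (continuous_Pm π))
      fun x hx => (P_mem_T π).1 (h11 hx), h6.trans ?_⟩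
  · rw [← h3, ← preimage_image_eq K₁ ((add_left_injective b₁).comp
      (L₁.equivOfDetNeZero hd).injective)]
    ext x
    change L₁ (L₀ x + b₀) + b₁ ∈ K₀ ↔ L₁ (L₀ x) + (L₁ b₀ + b₁) ∈ K₀
    rw [map_add, add_assoc]
  · rw [e, image_add_right, Measure.real, Measure.real, measure_preimage_add_right,
      Measure.addHaar_image_linearMap, ENNReal.toReal_mul, ENNReal.toReal_ofReal (abs_nonneg _)]
    exact le_mul_of_one_le_left ENNReal.toReal_nonneg h8

end Pool.Agent.Lib.MP_e508a7_gt
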