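import Pool.Agent.Lib.MP_e508a7_gt.KBApprox
import Pool.Agent.Lib.MP_e508a7_gt.Transfer

/-!
# Transfer to Euclidean space and the value of the simplex
-/

set_option autoImplicit false

namespace Pool.Agent.Lib.MP_e508a7_gt.KB

open MeasureTheory Set Filter Topology Metric Bornology

theorem fn1_step {n : ℕ} (T : Finset ℝ) (F : (Fin (n + 1) → ℝ) → ℝ) :
    ∑ s ∈ Fintype.piFinset fun _ : Fin (n + 1) => T, F s =
      ∑ a ∈ T, ∑ s ∈ Fintype.piFinset fun _ : Fin n => T, F (Fin.cons a s) := by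
  rw [← Finset.sum_product' T _ fun a (s : Fin n → ℝ) => F (Fin.cons a s)]
  refine (Finset.sum_equiv (Fin.consEquiv fun _ => ℝ) (fun y => ?_) fun y _ => rfl).symm
  simp [Fin.forall_fin_succ, Fin.consEquiv]

theorem fn1_box : 2 * volume.real (Bx (n := 3) 1) = volume.real (Sp (n := 3) 1) := by
  have h1 : (1 : ℝ) ≠ -1 := by norm_num
  rw [vol_Bx (m := 2) (a := 1) fun _ => zero_le_one,
    Finset.sum_congr rfl fun s _ => congrArg (_ * ·) (vol_Sp _)]
  generalize volume.real (Sp (n := 3) 1) = w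
  simp only [fn1_step, Fintype.piFinset_of_isEmpty, Finset.univ_unique, Finset.sum_singleton,
    Finset.sum_pair h1, Fin.sum_univ_succ, Fin.prod_univ_succ, Fin.cons_zero, Fin.cons_succ,
    Pi.one_apply]
  norm_num
  ring

theorem simplex_half {v : Fin 4 → EuclideanSpace ℝ (Fin 3)} (hv : AffineIndependent ℝ v)
    (hv0 : (∫ x in convexHull ℝ (range v), x) = 0) :
    2 * volume {x : EuclideanSpace ℝ (Fin 3) |
      x ∈ convexHull ℝ (range v) ∧ -x ∈ convexHull ℝ (range v)} =
      volume (convexHull ℝ (range v)) := by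
  have h1 := ratio_simplex (n := 3) hv hv0
  obtain ⟨L, b, h2⟩ := aff1 (n := 3) hv
  obtain ⟨c, hc, h3, -⟩ := exists_tr L b
  have h4 := h3 _ (isClosed_Sp 1).measurableSet
  rw [← h2] at h4
  have h5 := vol_T_pos (n := 3)
  have h6 : 0 < volume.real (convexHull ℝ (range v)) := h4 ▸ mul_pos hc h5
  have h7 : volume (convexHull ℝ (range v)) ≠ ⊤ :=
    (finite_range v).isCompact_convexHull ℝ |>.measure_lt_top.ne
  have h8 : volume {x : EuclideanSpace ℝ (Fin 3) |
      x ∈ convexHull ℝ (range v) ∧ -x ∈ convexHull ℝ (range v)} ≠ ⊤ :=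
    ne_top_of_le_ne_top h7 (measure_mono fun x hx => hx.1)
  rw [div_eq_div_iff h6.ne' h5.ne', ← fn1_box] at h1
  rw [← ENNReal.toReal_eq_toReal_iff' (ENNReal.mul_ne_top ENNReal.ofNat_ne_top h8) h7,
    ENNReal.toReal_mul, ENNReal.toReal_ofNat]
  have h9 : volume.real (Bx (n := 3) 1) ≠ 0 := (vol_Bx_pos (n := 3) one_pos).ne'
  refine mul_left_cancel₀ h9 (Eq.trans ?_ h1)
  rw [← measureReal_def]
  ring

theorem final (h : ∀ (m : ℕ) (a : Fin m → Fn), IsBounded (Kp a) →
      volume.real (Kp a) ≤ 2 * gv (Kp a))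
    {K : Set (EuclideanSpace ℝ (Fin 3))} (hK : Convex ℝ K) (hKc : IsCompact K)
    (hKi : (interior K).Nonempty)
    (h0 : ∀ p : EuclideanSpace ℝ (Fin 3),
      (∀ g : EuclideanSpace ℝ (Fin 3) ≃ᵃ[ℝ] EuclideanSpace ℝ (Fin 3), g '' K = K → g p = p) →
      volume {x : EuclideanSpace ℝ (Fin 3) | x ∈ K ∧ (2 : ℝ) • p - x ∈ K} ≤
        volume {x : EuclideanSpace ℝ (Fin 3) | x ∈ K ∧ -x ∈ K}) :
    volume K ≤ 2 * volume {x : EuclideanSpace ℝ (Fin 3) | x ∈ K ∧ -x ∈ K} := by
  let e : V ≃L[ℝ] EuclideanSpace ℝ (Fin 3) := (EuclideanSpace.equiv (Fin 3) ℝ).symm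
  have he : MeasurePreserving e := PiLp.volume_preserving_toLp (Fin 3)
  have hm := hKc.measurableSet
  have h1 : Convex ℝ (e ⁻¹' K) := hK.linear_preimage e.toLinearEquiv.toLinearMap
  have h2 : IsCompact (e ⁻¹' K) := e.toHomeomorph.isCompact_preimage.2 hKc
  have h3 : (interior (e ⁻¹' K)).Nonempty :=
    (hKi.preimage e.surjective).mono (preimage_interior_subset_interior_preimage e.continuous)
  have h4 := approx h h1 h2 h3
  have h5 : volume {x : EuclideanSpace ℝ (Fin 3) | x ∈ K ∧ -x ∈ K} ≠ ⊤ :=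
    ne_top_of_le_ne_top hKc.measure_lt_top.ne (measure_mono fun x hx => hx.1)
  have h6 : gv (e ⁻¹' K) ≤ volume.real {x : EuclideanSpace ℝ (Fin 3) | x ∈ K ∧ -x ∈ K} := by
    refine le_of_forall_lt_imp_le_of_dense fun θ hθ => ?_
    rcases le_or_gt θ 0 with h7 | h7
    · exact h7.trans measureReal_nonneg
    obtain ⟨p, h8, h9⟩ := fixed h1 h2 h7 hθ
    have h10 := h0 (e p) fun g hg => by
      have h11 := h9 (e.toLinearEquiv.toAffineEquiv.trans
        (g.trans e.toLinearEquiv.symm.toAffineEquiv)) (by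
          ext x
          constructor
          · rintro ⟨y, hy, rfl⟩
            have h12 : g (e y) ∈ g '' K := mem_image_of_mem g hy
            rw [hg] at h12
            exact h12
          · intro hx
            rw [mem_preimage, ← hg] at hx
            obtain ⟨y, hy, h12⟩ := hx
            exact ⟨e.symm y, hy, (congrArg e.symm h12 :)⟩)
      exact congrArg e h11
    have h13 : Sy (e ⁻¹' K) p =
        e ⁻¹' {x : EuclideanSpace ℝ (Fin 3) | x ∈ K ∧ (2 : ℝ) • e p - x ∈ K} := rfl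
    have h14 : MeasurableSet {x : EuclideanSpace ℝ (Fin 3) | x ∈ K ∧ (2 : ℝ) • e p - x ∈ K} :=
      hm.inter (hm.preimage (measurable_const.sub measurable_id))
    rw [fv, h13, Measure.real, he.measure_preimage h14.nullMeasurableSet] at h8
    exact h8.trans (ENNReal.toReal_mono h5 h10)
  rw [Measure.real, he.measure_preimage hm.nullMeasurableSet] at h4
  rw [← ENNReal.toReal_le_toReal hKc.measure_lt_top.ne
    (ENNReal.mul_ne_top ENNReal.ofNat_ne_top h5), ENNReal.toReal_mul, ENNReal.toReal_ofNat]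
  exact h4.trans (mul_le_mul_of_nonneg_left h6 zero_le_two)

end Pool.Agent.Lib.MP_e508a7_gt.KB
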