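import Pool.Agent.Lib.MP_e508a7_gt.KBProfile

/-!
# Inserting a strip into a planar convex set
-/

set_option autoImplicit false

namespace Pool.Agent.Lib.MP_e508a7_gt.KB

open MeasureTheory Set Filter Topology Metric Bornology

/-- points above the lower boundary of `S` stretched in the direction `(1, a)` -/
def Lft (S : Set R2) (a r : ℝ) : Set R2 :=
  {x | ∃ y ∈ S, ∃ ρ, 0 ≤ ρ ∧ ρ ≤ r ∧ x.1 = y.1 + ρ ∧ y.2 + a * ρ ≤ x.2}

/-- points below the upper boundary of `S` stretched in the direction `(1, a)` -/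
def Rgt (S : Set R2) (a r : ℝ) : Set R2 :=
  {x | ∃ y ∈ S, ∃ ρ, 0 ≤ ρ ∧ ρ ≤ r ∧ x.1 = y.1 + ρ ∧ x.2 ≤ y.2 + a * ρ}

/-- the stretched set, cut at the level `c` -/
def Ins (S : Set R2) (a₁ a₂ r c : ℝ) : Set R2 := Lft S a₁ r ∩ Rgt S a₂ r ∩ {x | x.1 ≤ c}

/-- support lines at the two ends of the section at level `u` -/
structure Sup (S : Set R2) (u v₁ v₂ a₁ a₂ : ℝ) : Prop where
  m₁ : (u, v₁) ∈ S
  m₂ : (u, v₂) ∈ S
  s₁ : ∀ y ∈ S, v₁ + a₁ * (y.1 - u) ≤ y.2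
  s₂ : ∀ y ∈ S, y.2 ≤ v₂ + a₂ * (y.1 - u)

variable {S : Set R2} {u v₁ v₂ a a₁ a₂ r c : ℝ}

theorem in_mem (hS : Convex ℝ S) {x y : R2} (hx : x ∈ S) (hy : y ∈ S) {θ : ℝ} (h0 : 0 ≤ θ)
    (h1 : θ ≤ 1) : (x.1 + θ * (y.1 - x.1), x.2 + θ * (y.2 - x.2)) ∈ S := by
  have := hS hx hy (sub_nonneg.2 h1) h0 (sub_add_cancel 1 θ)
  have e : (1 - θ) • x + θ • y = (x.1 + θ * (y.1 - x.1), x.2 + θ * (y.2 - x.2)) :=
    Prod.ext (by simp; ring) (by simp; ring)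
  rwa [e] at this

theorem in_level (hS : Convex ℝ S) {x y : R2} (hx : x ∈ S) (hy : y ∈ S) {t : ℝ} (h0 : x.1 ≤ t)
    (h1 : t ≤ y.1) : ∃ θ, 0 ≤ θ ∧ θ ≤ 1 ∧ t = x.1 + θ * (y.1 - x.1) ∧
      (t, x.2 + θ * (y.2 - x.2)) ∈ S := by
  rcases (h0.trans h1).eq_or_lt with h | h
  · have e : t = x.1 := le_antisymm (h ▸ h1) h0
    exact ⟨0, le_rfl, zero_le_one, by simp [e], by simpa [e] using hx⟩
  · have hp := sub_pos.2 h
    have e : t = x.1 + (t - x.1) / (y.1 - x.1) * (y.1 - x.1) := by field_simp; ring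
    have k0 : 0 ≤ (t - x.1) / (y.1 - x.1) := div_nonneg (sub_nonneg.2 h0) hp.le
    have k1 : (t - x.1) / (y.1 - x.1) ≤ 1 := (div_le_one hp).2 (by linarith)
    refine ⟨_, k0, k1, e, ?_⟩
    have := in_mem hS hx hy k0 k1
    rwa [← e] at this

theorem in_between (hS : Convex ℝ S) {t v v' w : ℝ} (h : (t, v) ∈ S) (h' : (t, v') ∈ S)
    (h0 : v ≤ w) (h1 : w ≤ v') : (t, w) ∈ S := by
  rcases (h0.trans h1).eq_or_lt with e | e
  · have : w = v := le_antisymm (e ▸ h1) h0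
    rwa [this]
  · have hp := sub_pos.2 e
    have := in_mem hS h h' (div_nonneg (sub_nonneg.2 h0) hp.le)
      ((div_le_one hp).2 (by linarith : w - v ≤ v' - v))
    have e2 : v + (w - v) / (v' - v) * (v' - v) = w := by field_simp; ring
    simpa [e2] using this

theorem convex_Lft (hS : Convex ℝ S) : Convex ℝ (Lft S a r) := by
  rintro x ⟨y, hy, ρ, h0, h1, h2, h3⟩ x' ⟨y', hy', ρ', h0', h1', h2', h3'⟩ s t hs ht hst
  refine ⟨_, hS hy hy' hs ht hst, s * ρ + t * ρ', by positivity, by nlinarith, ?_, ?_⟩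
  · simp only [Prod.fst_add, Prod.smul_fst, smul_eq_mul, h2, h2']; ring
  · simp only [Prod.snd_add, Prod.smul_snd, smul_eq_mul]; nlinarith

theorem convex_Rgt (hS : Convex ℝ S) : Convex ℝ (Rgt S a r) := by
  rintro x ⟨y, hy, ρ, h0, h1, h2, h3⟩ x' ⟨y', hy', ρ', h0', h1', h2', h3'⟩ s t hs ht hst
  refine ⟨_, hS hy hy' hs ht hst, s * ρ + t * ρ', by positivity, by nlinarith, ?_, ?_⟩
  · simp only [Prod.fst_add, Prod.smul_fst, smul_eq_mul, h2, h2']; ring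
  · simp only [Prod.snd_add, Prod.smul_snd, smul_eq_mul]; nlinarith

theorem convex_Ins (hS : Convex ℝ S) : Convex ℝ (Ins S a₁ a₂ r c) :=
  ((convex_Lft hS).inter (convex_Rgt hS)).inter (convex_halfSpace_le (LinearMap.fst ℝ ℝ ℝ).isLinear c)

theorem in_closed {K : Set (R2 × ℝ)} (hK : IsCompact K) {P : Set ((R2 × ℝ) × R2)}
    (hP : IsClosed P) : IsClosed {x : R2 | ∃ z ∈ K, (z, x) ∈ P} := by
  have := isCompact_iff_compactSpace.1 hK
  have h := isClosedMap_snd_of_compactSpace (X := K) (Y := R2) _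
    (hP.preimage (f := fun z : K × R2 => (z.1.1, z.2)) (by fun_prop))
  have e : {x : R2 | ∃ z ∈ K, (z, x) ∈ P} =
      Prod.snd '' ((fun z : K × R2 => (z.1.1, z.2)) ⁻¹' P) := by
    ext x
    exact ⟨fun ⟨z, hz, h⟩ => ⟨(⟨z, hz⟩, x), h, rfl⟩, fun ⟨z, hz, h⟩ => ⟨z.1.1, z.1.2, h ▸ hz⟩⟩
  rwa [e]

theorem isClosed_Lft (hS : IsCompact S) : IsClosed (Lft S a r) := by
  have h1 : IsClosed {z : (R2 × ℝ) × R2 | z.2.1 = z.1.1.1 + z.1.2} :=
    isClosed_eq (by fun_prop) (by fun_prop)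
  have h2 : IsClosed {z : (R2 × ℝ) × R2 | z.1.1.2 + a * z.1.2 ≤ z.2.2} :=
    isClosed_le (by fun_prop) (by fun_prop)
  have h := in_closed (hS.prod (isCompact_Icc (a := (0 : ℝ)) (b := r))) (h1.inter h2)
  have e : Lft S a r = {x : R2 | ∃ z ∈ S ×ˢ Icc (0 : ℝ) r, (z, x) ∈
      {z : (R2 × ℝ) × R2 | z.2.1 = z.1.1.1 + z.1.2} ∩ {z | z.1.1.2 + a * z.1.2 ≤ z.2.2}} := by
    ext x
    exact ⟨fun ⟨y, hy, ρ, h0, h1, h2, h3⟩ => ⟨(y, ρ), ⟨hy, h0, h1⟩, h2, h3⟩,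
      fun ⟨z, hz, h⟩ => ⟨z.1, hz.1, z.2, hz.2.1, hz.2.2, h.1, h.2⟩⟩
  rwa [e]

theorem isClosed_Rgt (hS : IsCompact S) : IsClosed (Rgt S a r) := by
  have h1 : IsClosed {z : (R2 × ℝ) × R2 | z.2.1 = z.1.1.1 + z.1.2} :=
    isClosed_eq (by fun_prop) (by fun_prop)
  have h2 : IsClosed {z : (R2 × ℝ) × R2 | z.2.2 ≤ z.1.1.2 + a * z.1.2} :=
    isClosed_le (by fun_prop) (by fun_prop)
  have h := in_closed (hS.prod (isCompact_Icc (a := (0 : ℝ)) (b := r))) (h1.inter h2)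
  have e : Rgt S a r = {x : R2 | ∃ z ∈ S ×ˢ Icc (0 : ℝ) r, (z, x) ∈
      {z : (R2 × ℝ) × R2 | z.2.1 = z.1.1.1 + z.1.2} ∩ {z | z.2.2 ≤ z.1.1.2 + a * z.1.2}} := by
    ext x
    exact ⟨fun ⟨y, hy, ρ, h0, h1, h2, h3⟩ => ⟨(y, ρ), ⟨hy, h0, h1⟩, h2, h3⟩,
      fun ⟨z, hz, h⟩ => ⟨z.1, hz.1, z.2, hz.2.1, hz.2.2, h.1, h.2⟩⟩
  rwa [e]

theorem isCompact_Ins (hS : IsCompact S) : IsCompact (Ins S a₁ a₂ r c) := by
  obtain ⟨R, hR⟩ := hS.isBounded.subset_closedBall 0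
  have hb : ∀ y ∈ S, |y.1| ≤ R ∧ |y.2| ≤ R := fun y hy => by
    have := mem_closedBall_zero_iff.1 (hR hy)
    exact ⟨(norm_fst_le y).trans this, (norm_snd_le y).trans this⟩
  refine (isCompact_Icc (a := ((-R, -R - |a₁| * r) : R2)) (b := (c, R + |a₂| * r))).of_isClosed_subset
    (((isClosed_Lft hS).inter (isClosed_Rgt hS)).inter (isClosed_le continuous_fst continuous_const))
    ?_
  rintro x ⟨⟨⟨y, hy, ρ, h0, h1, h2, h3⟩, y', hy', ρ', h0', h1', h2', h3'⟩, h4⟩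
  have k1 := abs_le.1 (hb y hy).1
  have k2 := abs_le.1 (hb y hy).2
  have k3 := abs_le.1 (hb y' hy').2
  refine ⟨⟨by simp only; linarith, ?_⟩, h4, ?_⟩
  · simp only; nlinarith [neg_abs_le a₁, abs_nonneg a₁]
  · simp only; nlinarith [le_abs_self a₂, abs_nonneg a₂]

theorem add_Ins {S' : Set R2} {n : R2} {c' : ℝ} (h : ∀ y ∈ S, y + n ∈ S') (hc : c + n.1 ≤ c')
    {x : R2} (hx : x ∈ Ins S a₁ a₂ r c) : x + n ∈ Ins S' a₁ a₂ r c' := by
  obtain ⟨⟨⟨y, hy, ρ, h0, h1, h2, h3⟩, y', hy', ρ', h0', h1', h2', h3'⟩, h4⟩ := hx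
  refine ⟨⟨⟨y + n, h y hy, ρ, h0, h1, ?_, ?_⟩, y' + n, h y' hy', ρ', h0', h1', ?_, ?_⟩, ?_⟩
  · simp only [Prod.fst_add]; linarith
  · simp only [Prod.snd_add]; linarith
  · simp only [Prod.fst_add]; linarith
  · simp only [Prod.snd_add]; linarith
  · have : x.1 ≤ c := h4
    simp only [mem_ofPred_eq, Prod.fst_add]; linarith

theorem Sup.le (h : Sup S u v₁ v₂ a₁ a₂) : v₁ ≤ v₂ := by simpa using h.s₁ _ h.m₂

theorem Sup.pr_eq (h : Sup S u v₁ v₂ a₁ a₂) (hS : Convex ℝ S) (hc : IsCompact S) :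
    pr S u = v₂ - v₁ :=
  le_antisymm (pr_le h.le fun v hv => ⟨by simpa using h.s₁ _ hv, by simpa using h.s₂ _ hv⟩)
    (le_pr hS hc h.m₁ h.m₂)

theorem ins_low (hS : Convex ℝ S) (h : Sup S u v₁ v₂ a₁ a₂) {t w : ℝ} (ht : t ≤ u)
    (hx : (t, w) ∈ Ins S a₁ a₂ r c) : (t, w) ∈ S := by
  obtain ⟨⟨⟨y, hy, ρ, h0, h1, h2, h3⟩, y', hy', ρ', h0', h1', h2', h3'⟩, -⟩ := hx
  simp only at h2 h3 h2' h3'
  obtain ⟨θ, k0, k1, k2, k3⟩ := in_level hS hy h.m₁ (t := t) (by linarith) ht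
  obtain ⟨θ', k0', k1', k2', k3'⟩ := in_level hS hy' h.m₂ (t := t) (by linarith) ht
  have e1 := mul_le_mul_of_nonneg_left (h.s₁ y hy) k0
  have e2 := mul_le_mul_of_nonneg_left (h.s₂ y' hy') k0'
  have e3 : ρ = θ * (u - y.1) := by simp only at k2; linarith
  have e4 : ρ' = θ' * (u - y'.1) := by simp only at k2'; linarith
  refine in_between hS k3 k3' ?_ ?_
  · simp only; rw [e3] at h3; linarith
  · simp only; rw [e4] at h3'; linarith

theorem ins_mid (h : Sup S u v₁ v₂ a₁ a₂) {t w : ℝ} (hx : (t, w) ∈ Ins S a₁ a₂ r c) :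
    v₁ + a₁ * (t - u) ≤ w ∧ w ≤ v₂ + a₂ * (t - u) := by
  obtain ⟨⟨⟨y, hy, ρ, h0, h1, h2, h3⟩, y', hy', ρ', h0', h1', h2', h3'⟩, -⟩ := hx
  simp only at h2 h3 h2' h3'
  have e1 := h.s₁ y hy
  have e2 := h.s₂ y' hy'
  constructor
  · rw [h2]; linarith
  · rw [h2']; linarith

theorem ins_high (hS : Convex ℝ S) (h : Sup S u v₁ v₂ a₁ a₂) {t w : ℝ} (ht : u ≤ t)
    (hx : (t + r, w) ∈ Ins S a₁ a₂ r c) :
    (∃ v, (t, v) ∈ S ∧ v + a₁ * r ≤ w) ∧ ∃ v, (t, v) ∈ S ∧ w ≤ v + a₂ * r := by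
  obtain ⟨⟨⟨y, hy, ρ, h0, h1, h2, h3⟩, y', hy', ρ', h0', h1', h2', h3'⟩, -⟩ := hx
  simp only at h2 h3 h2' h3'
  obtain ⟨θ, k0, k1, k2, k3⟩ := in_level hS h.m₁ hy (t := t) ht (by linarith)
  obtain ⟨θ', k0', k1', k2', k3'⟩ := in_level hS h.m₂ hy' (t := t) ht (by linarith)
  have e1 := mul_le_mul_of_nonneg_left (h.s₁ y hy) (sub_nonneg.2 k1)
  have e2 := mul_le_mul_of_nonneg_left (h.s₂ y' hy') (sub_nonneg.2 k1')
  have e3 : r = ρ + (1 - θ) * (y.1 - u) := by simp only at k2; linarith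
  have e4 : r = ρ' + (1 - θ') * (y'.1 - u) := by simp only at k2'; linarith
  refine ⟨⟨_, k3, ?_⟩, _, k3', ?_⟩
  · simp only; rw [e3]; linarith
  · simp only; rw [e4]; linarith

theorem ins_self (hr : 0 ≤ r) {x : R2} (hx : x ∈ S) (h : x.1 ≤ c) : x ∈ Ins S a₁ a₂ r c :=
  ⟨⟨⟨x, hx, 0, le_rfl, hr, by simp, by simp⟩, x, hx, 0, le_rfl, hr, by simp, by simp⟩, h⟩

theorem ins_of {t ρ v v' w : ℝ} (h0 : 0 ≤ ρ) (h1 : ρ ≤ r) (h : (t, v) ∈ S) (h' : (t, v') ∈ S)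
    (h2 : v + a₁ * ρ ≤ w) (h3 : w ≤ v' + a₂ * ρ) (h4 : t + ρ ≤ c) :
    (t + ρ, w) ∈ Ins S a₁ a₂ r c :=
  ⟨⟨⟨_, h, ρ, h0, h1, rfl, h2⟩, _, h', ρ, h0, h1, rfl, h3⟩, h4⟩

theorem pr_high (hS : Convex ℝ S) (hc : IsCompact S) (h : Sup S u v₁ v₂ a₁ a₂) {t M : ℝ}
    (ht : u ≤ t) (hM : 0 ≤ M) (h1 : pr S t + (a₂ - a₁) * r ≤ M) :
    pr (Ins S a₁ a₂ r c) (t + r) ≤ M := by
  by_cases hn : ∃ v, (t, v) ∈ S
  · obtain ⟨lo, hi, -, e, e'⟩ := slice hS hc hn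
    refine (pr_le (lo := lo + a₁ * r) (hi := lo + a₁ * r + M) (by linarith) fun w hw => ?_).trans_eq
      (by ring)
    obtain ⟨⟨v, k1, k2⟩, v', k3, k4⟩ := ins_high hS h ht hw
    exact ⟨by linarith [((e v).1 k1).1], by linarith [((e v').1 k3).2]⟩
  · refine (pr_le (lo := 0) (hi := M) hM fun w hw => ?_).trans_eq (by ring)
    obtain ⟨⟨v, k1, -⟩, -⟩ := ins_high hS h ht hw
    exact absurd ⟨v, k1⟩ hn

theorem high_pr (hS : Convex ℝ S) (hc : IsCompact S) {t ρ : ℝ} (h0 : 0 ≤ ρ) (h1 : ρ ≤ r)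
    (hn : ∃ v, (t, v) ∈ S) (h2 : 0 ≤ pr S t + (a₂ - a₁) * ρ) (h3 : t + ρ ≤ c) :
    (∃ v, (t + ρ, v) ∈ Ins S a₁ a₂ r c) ∧
      pr S t + (a₂ - a₁) * ρ ≤ pr (Ins S a₁ a₂ r c) (t + ρ) := by
  obtain ⟨lo, hi, k, e, e'⟩ := slice hS hc hn
  have m1 := (e lo).2 ⟨le_rfl, k⟩
  have m2 := (e hi).2 ⟨k, le_rfl⟩
  have k1 : (t + ρ, lo + a₁ * ρ) ∈ Ins S a₁ a₂ r c := ins_of h0 h1 m1 m2 le_rfl (by linarith) h3
  have k2 : (t + ρ, hi + a₂ * ρ) ∈ Ins S a₁ a₂ r c := ins_of h0 h1 m1 m2 (by linarith) le_rfl h3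
  exact ⟨⟨_, k1⟩, by linarith [le_pr (convex_Ins hS) (isCompact_Ins hc) k1 k2]⟩

theorem in_ii (hc : IsCompact S) (s t : ℝ) : IntervalIntegrable (pr S) volume s t :=
  (integrable_pr hc).intervalIntegrable

theorem in_lin (z s u r : ℝ) : ∫ t in u..(u + r), (z + s * (t - u)) = r * z + s * r ^ 2 / 2 := by
  have : ∀ t ∈ uIcc u (u + r), HasDerivAt (fun t => z * t + s * (t - u) ^ 2 / 2) (z + s * (t - u)) t :=
    fun t _ => by
      have h := ((hasDerivAt_id t).const_mul z).add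
        (((((hasDerivAt_id t).sub_const u).pow 2).const_mul s).div_const 2)
      refine h.congr_deriv ?_
      simp
      ring
  rw [intervalIntegral.integral_eq_sub_of_hasDerivAt this
    (Continuous.intervalIntegrable (by fun_prop) _ _)]
  ring

theorem in_nn {z s r ρ : ℝ} (hz : 0 ≤ z) (h : 0 ≤ z + s * r) (h0 : 0 ≤ ρ) (h1 : ρ ≤ r) :
    0 ≤ z + s * ρ := by
  rcases le_total 0 s with hs | hs <;> nlinarith

theorem in_shift (hc : IsCompact S) (u b k r : ℝ) :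
    ∫ t in (u + r)..(b + r), (pr S (t - r) + k) = (∫ t in u..b, pr S t) + k * (b - u) := by
  rw [intervalIntegral.integral_comp_sub_right (fun t => pr S t + k), add_sub_cancel_right,
    add_sub_cancel_right, intervalIntegral.integral_add (in_ii hc _ _) intervalIntegrable_const,
    intervalIntegral.integral_const, smul_eq_mul, mul_comm]

theorem in_ii' (hc : IsCompact S) (s t k r : ℝ) :
    IntervalIntegrable (fun t => pr S (t - r) + k) volume s t :=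
  ((integrable_pr hc).comp_sub_right r).intervalIntegrable.add intervalIntegrable_const

theorem ins_upper (hS : Convex ℝ S) (hc : IsCompact S) (h : Sup S u v₁ v₂ a₁ a₂) (hr : 0 ≤ r)
    {A b c M : ℝ} (hA : A ≤ u) (hb : u ≤ b) (hbc : b ≤ c)
    (h1 : ∀ t, u ≤ t → t ≤ b → 0 ≤ pr S t + (a₂ - a₁) * r) (hM : 0 ≤ M)
    (h2 : ∀ t, b ≤ t → t ≤ c → pr S t + (a₂ - a₁) * r ≤ M) :
    ∫ t in A..(c + r), pr (Ins S a₁ a₂ r (c + r)) t ≤ (∫ t in A..b, pr S t) + r * (v₂ - v₁) +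
      (a₂ - a₁) * r ^ 2 / 2 + (a₂ - a₁) * r * (b - u) + M * (c - b) := by
  have hI := isCompact_Ins (a₁ := a₁) (a₂ := a₂) (r := r) (c := c + r) hc
  have z0 := h1 u le_rfl hb
  rw [h.pr_eq hS hc] at z0
  have k1 : ∫ t in A..u, pr (Ins S a₁ a₂ r (c + r)) t ≤ ∫ t in A..u, pr S t :=
    intervalIntegral.integral_mono_on hA (in_ii hI _ _) (in_ii hc _ _) fun t ht =>
      pr_mono hc fun w hw => ins_low hS h ht.2 hw
  have k2 : ∫ t in u..(u + r), pr (Ins S a₁ a₂ r (c + r)) t ≤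
      ∫ t in u..(u + r), (v₂ - v₁ + (a₂ - a₁) * (t - u)) :=
    intervalIntegral.integral_mono_on (by linarith) (in_ii hI _ _)
      (Continuous.intervalIntegrable (by fun_prop) _ _) fun t ht => by
      have k0 : t - u ≤ r := by linarith [ht.2]
      have k1 := in_nn (sub_nonneg.2 h.le) z0 (sub_nonneg.2 ht.1) k0
      exact (pr_le (by linarith) fun w hw => ins_mid h hw).trans_eq (by ring)
  have k3 : ∫ t in (u + r)..(b + r), pr (Ins S a₁ a₂ r (c + r)) t ≤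
      ∫ t in (u + r)..(b + r), (pr S (t - r) + (a₂ - a₁) * r) :=
    intervalIntegral.integral_mono_on (by linarith) (in_ii hI _ _) (in_ii' hc _ _ _ _) fun t ht => by
      have := pr_high (c := c + r) hS hc h (t := t - r) (by linarith [ht.1])
        (h1 _ (by linarith [ht.1]) (by linarith [ht.2])) le_rfl
      rwa [sub_add_cancel] at this
  have k4 : ∫ t in (b + r)..(c + r), pr (Ins S a₁ a₂ r (c + r)) t ≤ ∫ _ in (b + r)..(c + r), M :=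
    intervalIntegral.integral_mono_on (by linarith) (in_ii hI _ _) intervalIntegrable_const
      fun t ht => by
      have := pr_high (c := c + r) hS hc h (t := t - r) (by linarith [ht.1]) hM
        (h2 _ (by linarith [ht.1]) (by linarith [ht.2]))
      rwa [sub_add_cancel] at this
  rw [in_lin] at k2
  rw [in_shift hc] at k3
  rw [intervalIntegral.integral_const, smul_eq_mul] at k4
  rw [← intervalIntegral.integral_add_adjacent_intervals (in_ii hI A u) (in_ii hI u (c + r)),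
    ← intervalIntegral.integral_add_adjacent_intervals (in_ii hI u (u + r)) (in_ii hI _ (c + r)),
    ← intervalIntegral.integral_add_adjacent_intervals (in_ii hI (u + r) (b + r))
      (in_ii hI _ (c + r)),
    ← intervalIntegral.integral_add_adjacent_intervals (in_ii hc A u) (in_ii hc u b)]
  linarith

theorem ins_lower (hS : Convex ℝ S) (hc : IsCompact S) (h : Sup S u v₁ v₂ a₁ a₂) (hr : 0 ≤ r)
    {A b : ℝ} (hA : A ≤ u) (hb : u ≤ b) (hn : ∃ v, (b, v) ∈ S)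
    (h1 : ∀ t, u ≤ t → t ≤ b → 0 ≤ pr S t + (a₂ - a₁) * r) :
    (∫ t in A..b, pr S t) + r * (v₂ - v₁) + (a₂ - a₁) * r ^ 2 / 2 + (a₂ - a₁) * r * (b - u) ≤
      ∫ t in A..(b + r), pr (Ins S a₁ a₂ r (b + r)) t := by
  have hI := isCompact_Ins (a₁ := a₁) (a₂ := a₂) (r := r) (c := b + r) hc
  have z0 := h1 u le_rfl hb
  obtain ⟨vb, hvb⟩ := hn
  have k1 : ∫ t in A..u, pr S t ≤ ∫ t in A..u, pr (Ins S a₁ a₂ r (b + r)) t :=
    intervalIntegral.integral_mono_on hA (in_ii hc _ _) (in_ii hI _ _) fun t ht =>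
      pr_mono hI fun w hw => ins_self hr hw (by linarith [ht.2])
  have k2 : ∫ t in u..(u + r), (v₂ - v₁ + (a₂ - a₁) * (t - u)) ≤
      ∫ t in u..(u + r), pr (Ins S a₁ a₂ r (b + r)) t :=
    intervalIntegral.integral_mono_on (by linarith)
      (Continuous.intervalIntegrable (by fun_prop) _ _) (in_ii hI _ _) fun t ht => by
      have k0 := sub_nonneg.2 ht.1
      have k1 : t - u ≤ r := by linarith [ht.2]
      have := (high_pr (c := b + r) hS hc k0 k1 ⟨_, h.m₁⟩ (in_nn (pr_nonneg _ _) z0 k0 k1)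
        (by linarith)).2
      rwa [add_sub_cancel, h.pr_eq hS hc] at this
  have k3 : ∫ t in (u + r)..(b + r), (pr S (t - r) + (a₂ - a₁) * r) ≤
      ∫ t in (u + r)..(b + r), pr (Ins S a₁ a₂ r (b + r)) t :=
    intervalIntegral.integral_mono_on (by linarith) (in_ii' hc _ _ _ _) (in_ii hI _ _) fun t ht => by
      have k0 : u ≤ t - r := by linarith [ht.1]
      have k1 : t - r ≤ b := by linarith [ht.2]
      obtain ⟨θ, -, -, -, k3⟩ := in_level hS h.m₁ hvb k0 k1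
      have := (high_pr (c := b + r) hS hc hr le_rfl ⟨_, k3⟩ (h1 _ k0 k1) (by linarith)).2
      rwa [sub_add_cancel] at this
  rw [in_lin] at k2
  rw [in_shift hc] at k3
  rw [← intervalIntegral.integral_add_adjacent_intervals (in_ii hI A u) (in_ii hI u (b + r)),
    ← intervalIntegral.integral_add_adjacent_intervals (in_ii hI u (u + r)) (in_ii hI _ (b + r)),
    ← intervalIntegral.integral_add_adjacent_intervals (in_ii hc A u) (in_ii hc u b)]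
  linarith

theorem area_cut (hc : IsCompact S) {A b : ℝ} (hA : ∀ y ∈ S, A ≤ y.1) (h : A ≤ b) :
    volume.real (S ∩ {x | x.1 ≤ b}) = ∫ t in A..b, pr S t := by
  rw [← area_slab hc h]
  congr 1
  ext x
  exact ⟨fun h => ⟨h.1, hA x h.1, h.2⟩, fun h => ⟨h.1, h.2.2⟩⟩

theorem sup_one (hS : Convex ℝ S) {v : ℝ} (h : ∀ w, (u, w) ∈ S → v ≤ w) {x y : R2} (hx : x ∈ S)
    (hy : y ∈ S) (h0 : x.1 < u) (h1 : u < y.1) : ∃ a, ∀ z ∈ S, v + a * (z.1 - u) ≤ z.2 := by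
  have key : ∀ x ∈ S, ∀ y ∈ S, x.1 < u → u < y.1 → (v - x.2) / (u - x.1) ≤ (y.2 - v) / (y.1 - u) := by
    intro x hx y hy h0 h1
    obtain ⟨θ, k0, k1, k2, k3⟩ := in_level hS hx hy h0.le h1.le
    have k4 := h _ k3
    rw [div_le_div_iff₀ (sub_pos.2 h0) (sub_pos.2 h1)]
    have e1 : u - x.1 = θ * (y.1 - x.1) := by linarith
    have e2 : y.1 - u = (1 - θ) * (y.1 - x.1) := by linarith
    rw [e1, e2]
    nlinarith [mul_le_mul_of_nonneg_right k4 (sub_pos.2 (h0.trans h1)).le]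
  set Q := {q | ∃ x ∈ S, x.1 < u ∧ q = (v - x.2) / (u - x.1)} with hQ
  have hb : BddAbove Q := ⟨(y.2 - v) / (y.1 - u), by
    rintro _ ⟨x, hx, h0, rfl⟩; exact key x hx y hy h0 h1⟩
  refine ⟨sSup Q, fun z hz => ?_⟩
  rcases lt_trichotomy z.1 u with e | e | e
  · have := le_csSup hb ⟨z, hz, e, rfl⟩
    rw [div_le_iff₀ (sub_pos.2 e)] at this
    linarith
  · rw [e, sub_self, mul_zero, add_zero]
    exact h _ (e ▸ hz)
  · have : sSup Q ≤ (z.2 - v) / (z.1 - u) := csSup_le ⟨_, x, hx, h0, rfl⟩ (by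
      rintro _ ⟨x, hx, h0, rfl⟩; exact key x hx z hz h0 e)
    rw [le_div_iff₀ (sub_pos.2 e)] at this
    linarith

theorem exists_sup (hS : Convex ℝ S) (hc : IsCompact S) {x y : R2} (hx : x ∈ S) (hy : y ∈ S)
    (h0 : x.1 < u) (h1 : u < y.1) : ∃ v₁ v₂ a₁ a₂, Sup S u v₁ v₂ a₁ a₂ := by
  obtain ⟨θ, -, -, -, k3⟩ := in_level hS hx hy h0.le h1.le
  obtain ⟨lo, hi, k, e, -⟩ := slice hS hc ⟨_, k3⟩
  obtain ⟨a₁, h₁⟩ := sup_one hS (fun w hw => ((e w).1 hw).1) hx hy h0 h1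
  have hS' : Convex ℝ ((fun z : R2 => (z.1, -z.2)) ⁻¹' S) :=
    hS.is_linear_preimage ⟨fun x y => Prod.ext rfl (neg_add _ _), fun c x =>
      Prod.ext rfl (smul_neg c x.2).symm⟩
  obtain ⟨a₂, h₂⟩ := sup_one hS' (u := u) (v := -hi) (fun w hw => neg_le.1 ((e _).1 hw).2)
    (x := (x.1, -x.2)) (y := (y.1, -y.2)) (by simpa using hx) (by simpa using hy) h0 h1
  refine ⟨lo, hi, a₁, -a₂, (e lo).2 ⟨le_rfl, k⟩, (e hi).2 ⟨k, le_rfl⟩, h₁, fun z hz => ?_⟩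
  have := h₂ (z.1, -z.2) (by simpa using hz)
  simp only at this
  linarith

end Pool.Agent.Lib.MP_e508a7_gt.KB
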