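import Pool.Agent.Lib.MP_e508a7_gt.KBIns
import Pool.Agent.Lib.MP_e508a7_gt.KBOneD

/-!
# The main chord in coordinates
-/

set_option autoImplicit false

namespace Pool.Agent.Lib.MP_e508a7_gt.KB

open MeasureTheory Set Filter Topology Metric Bornology

/-- a wall for the second chord -/
structure Wall (F H : Set R2) (ω : R2 →L[ℝ] ℝ) (μ h z C : ℝ) : Prop where
  hG : ∀ x ∈ F ∩ H, ω x ≤ μ
  hF : ∀ x ∈ F, -ω x ≤ h
  m0 : 0 ≤ μ
  h0 : 0 ≤ h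
  z0 : 0 ≤ z
  C0 : 0 ≤ C
  strip : ∀ δ, 0 ≤ δ → volume.real (H ∩ {x | μ < ω x ∧ ω x ≤ μ + δ}) ≤ δ * (z + C * δ)

/-- the main chord lies at the level `1` of the first coordinate -/
structure Main (F H : Set R2) (W P e v₁ v₂ a₁ a₂ : ℝ) : Prop where
  cF : Convex ℝ F
  kF : IsCompact F
  cH : Convex ℝ H
  kH : IsCompact H
  strip : ∀ x ∈ H, 0 ≤ x.1 → x.1 ≤ 1 → x ∈ F
  zero : (0 : R2) ∈ F ∩ H
  one : ∃ v, ((1 : ℝ), v) ∈ F ∩ H
  bF : ∀ x ∈ F, 1 - W ≤ x.1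
  bF' : ∃ v, (1 - W, v) ∈ F
  bG : ∀ x ∈ F ∩ H, 1 - P ≤ x.1
  bG' : ∃ v, (1 - P, v) ∈ F ∩ H
  tG : ∀ x ∈ F ∩ H, x.1 ≤ 1 + e
  tG' : ∃ v, (1 + e, v) ∈ F ∩ H
  sup : Sup H (1 / 2) v₁ v₂ a₁ a₂

/-- the conclusion of the planar inequality -/
def Concl (F H : Set R2) : Prop :=
  ∫⁻ t in Ioi (1 : ℝ), volume (Lc F H t) ≤ ENNReal.ofReal (2 / 3 * volume.real (F ∩ H))

variable {F H : Set R2} {W P e v₁ v₂ a₁ a₂ : ℝ}

theorem Lc_convex (hF : Convex ℝ F) (hH : Convex ℝ H) (t : ℝ) : Convex ℝ (Lc F H t) := by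
  intro x hx y hy a b ha hb hab
  obtain rfl : b = 1 - a := by linarith
  constructor
  · have e : t⁻¹ • (a • x + (1 - a) • y) = a • t⁻¹ • x + (1 - a) • t⁻¹ • y := by module
    rw [e]
    exact (hF.inter hH) hx.1 hy.1 ha hb hab
  · intro z hz
    have e : (t + 1)⁻¹ • ((2 : ℝ) • (a • x + (1 - a) • y) - (t - 1) • z) =
        a • (t + 1)⁻¹ • ((2 : ℝ) • x - (t - 1) • z) +
          (1 - a) • (t + 1)⁻¹ • ((2 : ℝ) • y - (t - 1) • z) := by module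
    rw [e]
    exact hH (hx.2 z hz) (hy.2 z hz) ha hb hab

theorem Lc_compact (hF : IsCompact F) (hH : IsCompact H) {t : ℝ} (ht : 0 < t) :
    IsCompact (Lc F H t) := by
  have h1 : IsClosed ((fun y : R2 => t⁻¹ • y) ⁻¹' (F ∩ H)) :=
    (hF.isClosed.inter hH.isClosed).preimage (by fun_prop)
  have h2 : IsClosed (⋂ z ∈ F, (fun y : R2 => (t + 1)⁻¹ • ((2 : ℝ) • y - (t - 1) • z)) ⁻¹' H) :=
    isClosed_biInter fun z _ => hH.isClosed.preimage (by fun_prop)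
  have e : Lc F H t = (fun y : R2 => t⁻¹ • y) ⁻¹' (F ∩ H) ∩
      ⋂ z ∈ F, (fun y : R2 => (t + 1)⁻¹ • ((2 : ℝ) • y - (t - 1) • z)) ⁻¹' H := by
    ext y
    rw [mem_inter_iff, mem_iInter₂]
    rfl
  refine (hF.image (continuous_const_smul t)).of_isClosed_subset (e ▸ h1.inter h2) fun y hy => ?_
  exact ⟨t⁻¹ • y, hy.1.1, smul_inv_smul₀ ht.ne' y⟩

theorem exists_main (cF : Convex ℝ F) (kF : IsCompact F) (cH : Convex ℝ H) (kH : IsCompact H)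
    (strip : ∀ x ∈ H, 0 ≤ x.1 → x.1 ≤ 1 → x ∈ F) (zero : (0 : R2) ∈ F ∩ H)
    (one : ∃ v, ((1 : ℝ), v) ∈ F ∩ H) : ∃ W P e v₁ v₂ a₁ a₂, Main F H W P e v₁ v₂ a₁ a₂ := by
  have kG := kF.inter_right kH.isClosed
  obtain ⟨x, hx, hx'⟩ := kF.exists_isMinOn ⟨0, zero.1⟩ continuous_fst.continuousOn
  obtain ⟨y, hy, hy'⟩ := kG.exists_isMinOn ⟨0, zero⟩ continuous_fst.continuousOn
  obtain ⟨z, hz, hz'⟩ := kG.exists_isMaxOn ⟨0, zero⟩ continuous_fst.continuousOn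
  obtain ⟨v, hv⟩ := one
  obtain ⟨v₁, v₂, a₁, a₂, hs⟩ := exists_sup (u := 1 / 2) cH kH zero.2 hv.2 (by norm_num)
    (by norm_num)
  refine ⟨1 - x.1, 1 - y.1, z.1 - 1, v₁, v₂, a₁, a₂, cF, kF, cH, kH, strip, zero, ⟨v, hv⟩,
    ?_, ?_, ?_, ?_, ?_, ?_, hs⟩
  · rw [sub_sub_cancel]
    exact hx'
  · rw [sub_sub_cancel]
    exact ⟨x.2, hx⟩
  · rw [sub_sub_cancel]
    exact hy'
  · rw [sub_sub_cancel]
    exact ⟨y.2, hy⟩
  · rw [add_sub_cancel]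
    exact hz'
  · rw [add_sub_cancel]
    exact ⟨z.2, hz⟩

theorem ma1_tan (M : Main F H W P e v₁ v₂ a₁ a₂) {t : ℝ} (h : ∃ v, (t, v) ∈ H) :
    pr H t ≤ v₂ - v₁ + (a₂ - a₁) * (t - 1 / 2) := by
  obtain ⟨v, hv⟩ := h
  exact (pr_le ((M.sup.s₁ _ hv).trans (M.sup.s₂ _ hv)) fun w hw =>
    ⟨M.sup.s₁ _ hw, M.sup.s₂ _ hw⟩).trans_eq (by ring)

theorem ma1_conc (hH : Convex ℝ H) (kH : IsCompact H) {a b θ c : ℝ} (ha : ∃ v, (a, v) ∈ H)
    (hb : ∃ v, (b, v) ∈ H) (h0 : 0 ≤ θ) (h1 : θ ≤ 1) (hc : c = a + θ * (b - a)) :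
    (1 - θ) * pr H a + θ * pr H b ≤ pr H c := by
  obtain ⟨l, u, k, e, e'⟩ := slice hH kH ha
  obtain ⟨l', u', k', f, f'⟩ := slice hH kH hb
  have h := le_pr hH kH (in_mem hH ((e l).2 ⟨le_rfl, k⟩) ((f l').2 ⟨le_rfl, k'⟩) h0 h1)
    (in_mem hH ((e u).2 ⟨k, le_rfl⟩) ((f u').2 ⟨k', le_rfl⟩) h0 h1)
  rw [e', f', hc]
  dsimp only at h
  linarith

theorem Main.basic (M : Main F H W P e v₁ v₂ a₁ a₂) :
    1 ≤ P ∧ P ≤ W ∧ 0 ≤ e ∧ pr H 1 ≤ v₂ - v₁ + (a₂ - a₁) / 2 := by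
  obtain ⟨v, hv⟩ := M.one
  obtain ⟨w, hw⟩ := M.bG'
  have h1 : 1 - P ≤ 0 := M.bG _ M.zero
  have h2 : 1 - W ≤ 1 - P := M.bF _ hw.1
  have h3 : 1 ≤ 1 + e := M.tG _ hv
  have h4 := ma1_tan M ⟨v, hv.2⟩
  exact ⟨by linarith, by linarith, by linarith, by linarith⟩

theorem pr_grow (hH : Convex ℝ H) (kH : IsCompact H) (h0 : (0 : R2) ∈ H) {μ t : ℝ} (hμ : 0 < μ)
    (ht : μ ≤ t) : μ * pr H t ≤ t * pr H μ := by
  have t0 : 0 < t := hμ.trans_le ht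
  by_cases hn : ∃ v, (t, v) ∈ H
  · have k1 : μ / t ≤ 1 := (div_le_one t0).2 ht
    have h := ma1_conc hH kH (a := 0) (c := μ) ⟨0, h0⟩ hn (div_pos hμ t0).le k1
      (by rw [zero_add, sub_zero, div_mul_cancel₀ _ t0.ne'])
    have h2 : μ / t * pr H t ≤ pr H μ := by
      linarith [mul_nonneg (sub_nonneg.2 k1) (pr_nonneg H 0)]
    rw [div_mul_eq_mul_div, div_le_iff₀ t0] at h2
    linarith
  · have h : pr H t ≤ 0 - 0 := pr_le le_rfl fun v hv => absurd ⟨v, hv⟩ hn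
    linarith [mul_nonneg t0.le (pr_nonneg H μ), mul_le_mul_of_nonneg_left h hμ.le]

theorem Main.top_le (M : Main F H W P e v₁ v₂ a₁ a₂) {w : ℝ} (hw : 0 ≤ w)
    (h : ∃ v, (1 + w, v) ∈ H) : pr H (1 + w) ≤ pr H 1 + 2 * (pr H 1 - (v₂ - v₁)) * w := by
  have w0 : 0 < 1 + 2 * w := by linarith
  have h1 := ma1_conc M.cH M.kH (c := 1) ⟨_, M.sup.m₁⟩ h (inv_pos.2 w0).le
    (inv_le_one_of_one_le₀ (by linarith)) (by field_simp; ring)
  rw [M.sup.pr_eq M.cH M.kH] at h1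
  have h2 := mul_le_mul_of_nonneg_left h1 w0.le
  rw [mul_add, ← mul_assoc, ← mul_assoc, mul_sub (1 + 2 * w), mul_inv_cancel₀ w0.ne'] at h2
  linarith

theorem Main.mid_nn (M : Main F H W P e v₁ v₂ a₁ a₂) {r t : ℝ} (hr : 0 ≤ r)
    (hz : 0 ≤ pr H 1 + (a₂ - a₁) * r) (h0 : 1 / 2 ≤ t) (h1 : t ≤ 1) :
    0 ≤ pr H t + (a₂ - a₁) * r := by
  rcases le_total 0 (a₂ - a₁) with hs | hs
  · exact add_nonneg (pr_nonneg _ _) (mul_nonneg hs hr)
  · obtain ⟨v, hv⟩ := M.one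
    have k1 : 2 * t - 1 ≤ 1 := by linarith
    have h2 := ma1_conc M.cH M.kH (θ := 2 * t - 1) (c := t) ⟨_, M.sup.m₁⟩ ⟨v, hv.2⟩ (by linarith)
      k1 (by ring)
    rw [M.sup.pr_eq M.cH M.kH] at h2
    have h3 : pr H 1 ≤ v₂ - v₁ := by linarith [M.basic.2.2.2]
    linarith [mul_le_mul_of_nonneg_left h3 (sub_nonneg.2 k1)]

theorem Main.pr_tan (M : Main F H W P e v₁ v₂ a₁ a₂) {t : ℝ} (h : ∃ v, (t, v) ∈ H) :
    pr H t ≤ v₂ - v₁ + (a₂ - a₁) * (t - 1 / 2) := ma1_tan M h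

theorem Main.pr_strip (M : Main F H W P e v₁ v₂ a₁ a₂) {t : ℝ} (h0 : 0 ≤ t) (h1 : t ≤ 1) :
    pr (F ∩ H) t = pr H t :=
  le_antisymm (pr_mono M.kH fun _ hv => hv.2)
    (pr_mono (M.kF.inter_right M.kH.isClosed) fun _ hv => ⟨M.strip _ hv h0 h1, hv⟩)

theorem Main.prof (M : Main F H W P e v₁ v₂ a₁ a₂) : Prof (pr (F ∩ H)) (1 - P) (1 + e) := by
  obtain ⟨A, B, h1, h2, -⟩ := exists_prof (M.cF.inter M.cH) (M.kF.inter M.kH) ⟨_, M.zero⟩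
  obtain ⟨v, hv⟩ := (h2 A).2 ⟨le_rfl, h1.le⟩
  obtain ⟨w, hw⟩ := (h2 B).2 ⟨h1.le, le_rfl⟩
  have h3 : B = 1 + e := le_antisymm (M.tG _ hw) ((h2 _).1 M.tG').2
  rwa [le_antisymm ((h2 _).1 M.bG').1 (M.bG _ hv), h3] at h1

theorem Main.wall (M : Main F H W P e v₁ v₂ a₁ a₂) :
    Wall F H (ContinuousLinearMap.fst ℝ ℝ ℝ) (1 + e) (W - 1) (pr H (1 + e)) (pr H (1 + e)) := by
  obtain ⟨h1, h2, h3, -⟩ := M.basic
  refine ⟨M.tG, fun x hx => ?_, by linarith, by linarith, pr_nonneg _ _, pr_nonneg _ _,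
    fun δ hδ => ?_⟩
  · have := M.bF x hx
    change -x.1 ≤ W - 1
    linarith
  have h4 : 1 + e ≤ 1 + e + δ := by linarith
  have h5 : volume.real (H ∩ {x | 1 + e < ContinuousLinearMap.fst ℝ ℝ ℝ x ∧
      ContinuousLinearMap.fst ℝ ℝ ℝ x ≤ 1 + e + δ}) ≤
      volume.real (H ∩ {x | 1 + e ≤ x.1 ∧ x.1 ≤ 1 + e + δ}) :=
    measureReal_mono (fun x hx => ⟨hx.1, hx.2.1.le, hx.2.2⟩)
      (ne_top_of_le_ne_top M.kH.measure_ne_top (measure_mono inter_subset_left))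
  rw [area_slab M.kH h4] at h5
  have h6 := intervalIntegral.integral_mono_on h4 (integrable_pr M.kH).intervalIntegrable
    (intervalIntegrable_const (c := pr H (1 + e) + pr H (1 + e) * δ)) fun t ht => by
      have h7 := pr_grow M.cH M.kH M.zero.2 (by linarith : 0 < 1 + e) ht.1
      have h8 := mul_le_mul_of_nonneg_right ht.2 (pr_nonneg H (1 + e))
      have h9 := mul_nonneg h3 (mul_nonneg (pr_nonneg H (1 + e)) hδ)
      refine le_of_mul_le_mul_left ?_ (by linarith : 0 < 1 + e)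
      linarith
  rw [intervalIntegral.integral_const, smul_eq_mul, add_sub_cancel_left] at h6
  exact h5.trans h6

theorem wall_zero (F H : Set R2) : Wall F H 0 0 0 0 0 := by
  refine ⟨fun _ _ => le_rfl, fun _ _ => neg_zero.le, le_rfl, le_rfl, le_rfl, le_rfl, fun δ _ => ?_⟩
  simp

theorem integ {L : ℝ → Set R2} {A α β k : ℝ} (hL : ∀ t, 1 < t → IsCompact (L t)) (hA : 0 < A)
    (hα : 0 < α) (hk : 0 < k)
    (h : ∀ t, 1 < t → (L t).Nonempty → 2 * √(A * volume.real (L t)) ≤ (t + 1) * α - (t - 1) * β)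
    (hc : α ^ 3 ≤ k * A * (β - α)) :
    ∫⁻ t in Ioi (1 : ℝ), volume (L t) ≤ ENNReal.ofReal (2 / 3 * k) := by
  obtain ⟨g, rfl⟩ : ∃ g, β = α + 2 * g := ⟨(β - α) / 2, by ring⟩
  have hg : 0 < g := by
    have := (mul_pos_iff_of_pos_left (mul_pos hk hA)).1 ((pow_pos hα 3).trans_le hc)
    linarith
  have h1 : 1 ≤ 1 + α / g := le_add_of_nonneg_right (div_pos hα hg).le
  have h2 : Continuous fun t : ℝ => (α - (t - 1) * g) ^ 2 / A := by fun_prop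
  have h3 : ∫ t in (1 : ℝ)..1 + α / g, (α - (t - 1) * g) ^ 2 / A = α ^ 3 / (3 * g * A) := by
    rw [intervalIntegral.integral_eq_sub_of_hasDerivAt
      (f := fun t => -(α - (t - 1) * g) ^ 3 / (3 * g * A)) (fun x _ => ?_)
      (h2.intervalIntegrable _ _)]
    · field_simp
      ring
    · have h4 := ((((hasDerivAt_id' x).sub_const 1).mul_const g).const_sub α).fun_pow 3
      refine (h4.fun_neg.div_const (3 * g * A)).congr_deriv ?_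
      norm_num
      field_simp
  calc ∫⁻ t in Ioi (1 : ℝ), volume (L t)
      ≤ ∫⁻ t in Ioi (1 : ℝ), (Ioc 1 (1 + α / g)).indicator
          (fun t => ENNReal.ofReal ((α - (t - 1) * g) ^ 2 / A)) t := by
        refine setLIntegral_mono' measurableSet_Ioi fun t ht => ?_
        rcases (L t).eq_empty_or_nonempty with h4 | h4
        · rw [h4, measure_empty]
          exact zero_le
        have h5 : √(A * volume.real (L t)) ≤ α - (t - 1) * g := by linarith [h t ht h4]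
        have h6 := (Real.sqrt_nonneg _).trans h5
        have h7 : t - 1 ≤ α / g := (le_div_iff₀ hg).2 (by linarith)
        rw [indicator_of_mem (show t ∈ Ioc 1 (1 + α / g) from ⟨ht, by linarith⟩),
          ← ofReal_measureReal (hL t ht).measure_ne_top]
        refine ENNReal.ofReal_le_ofReal ((le_div_iff₀' hA).2 ?_)
        exact (Real.sqrt_le_left h6).1 h5
    _ ≤ ∫⁻ t in Ioc 1 (1 + α / g), ENNReal.ofReal ((α - (t - 1) * g) ^ 2 / A) :=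
        (setLIntegral_le_lintegral _ _).trans (lintegral_indicator measurableSet_Ioc _).le
    _ = ENNReal.ofReal (α ^ 3 / (3 * g * A)) := by
        rw [← ofReal_integral_eq_lintegral_ofReal (h2.intervalIntegrable _ _).1
          (Eventually.of_forall fun t => by positivity), ← intervalIntegral.integral_of_le h1, h3]
    _ ≤ ENNReal.ofReal (2 / 3 * k) := by
        refine ENNReal.ofReal_le_ofReal ((div_le_iff₀ (by positivity)).2 ?_)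
        linarith

end Pool.Agent.Lib.MP_e508a7_gt.KB
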