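import Pool.Agent.Lib.MP_e508a7_gt.KBCont

/-!
# A minimising polytope
-/

set_option autoImplicit false

namespace Pool.Agent.Lib.MP_e508a7_gt.KB

open MeasureTheory Set Filter Topology Metric Bornology

variable {m : ℕ}

theorem mn1_vol (L : V ≃L[ℝ] V) (c : V) (S : Set V) :
    volume.real ((fun x => L x + c) ⁻¹' S) =
      |LinearMap.det (L.symm : V →ₗ[ℝ] V)| * volume.real S := by
  have e : (fun x => L x + c) ⁻¹' S = L ⁻¹' ((fun y => y + c) ⁻¹' S) := rfl
  rw [e, measureReal_def, Measure.addHaar_preimage_continuousLinearEquiv,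
    measure_preimage_add_right, ENNReal.toReal_mul, ENNReal.toReal_ofReal (abs_nonneg _),
    measureReal_def]

theorem mn1_sy (L : V ≃L[ℝ] V) (c : V) (K : Set V) (p : V) :
    Sy ((fun x => L x + c) ⁻¹' K) p = (fun x => L x + c) ⁻¹' Sy K (L p + c) := by
  ext x
  have e : L ((2 : ℝ) • p - x) + c = (2 : ℝ) • (L p + c) - (L x + c) := by
    rw [map_sub, map_smul]
    module
  change L x + c ∈ K ∧ L ((2 : ℝ) • p - x) + c ∈ K ↔ _
  rw [e]
  rfl

theorem gv_aff {K : Set V} (L : V ≃L[ℝ] V) (c : V) :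
    gv ((fun x => L x + c) ⁻¹' K) / volume.real ((fun x => L x + c) ⁻¹' K) =
      gv K / volume.real K := by
  have hk : |LinearMap.det (L.symm : V →ₗ[ℝ] V)| ≠ 0 :=
    abs_ne_zero.2 (LinearEquiv.isUnit_det' L.symm.toLinearEquiv).ne_zero
  have hs : Function.Surjective fun x => L x + c :=
    (add_right_surjective c).comp L.surjective
  have e : gv ((fun x => L x + c) ⁻¹' K) = |LinearMap.det (L.symm : V →ₗ[ℝ] V)| * gv K := by
    rw [gv, gv, ← hs.iSup_comp (fv K), Real.mul_iSup_of_nonneg (abs_nonneg _)]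
    refine iSup_congr fun p => ?_
    rw [fv, fv, mn1_sy, mn1_vol]
  rw [e, mn1_vol, mul_div_mul_left _ _ hk]

theorem mn2_max {K : Set V} (hc : IsCompact K) {x0 : V} (h0 : x0 ∈ interior K) :
    ∃ M : Matrix (Fin 3) (Fin 3) ℝ, M.det ≠ 0 ∧ (∀ i, x0 + M i ∈ K) ∧
      ∀ z : V, x0 + ∑ k, z k • M k ∈ K → ∀ i, |z i| ≤ 1 := by
  obtain ⟨r, hr, hb⟩ := nhds_basis_closedBall.mem_iff.1 (mem_interior_iff_mem_nhds.1 h0)
  have hS : IsCompact (univ.pi fun _ : Fin 3 => K) := isCompact_univ_pi fun _ => hc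
  have hf : Continuous fun x : Fin 3 → V => |(Matrix.of fun i => x i - x0).det| :=
    (Continuous.matrix_det (continuous_pi fun i =>
      (continuous_apply i).sub continuous_const)).abs
  have h1 : (fun i : Fin 3 => x0 + r • (Pi.single i 1 : V)) ∈ univ.pi fun _ : Fin 3 => K :=
    fun i _ => hb (by simp [norm_smul, Pi.norm_single, abs_of_pos hr])
  obtain ⟨x, hx, hm⟩ := hS.exists_isMaxOn ⟨_, h1⟩ hf.continuousOn
  have hp : 0 < |(Matrix.of fun i => x i - x0).det| := by
    refine lt_of_lt_of_le ?_ (hm h1)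
    have e : (Matrix.of fun i : Fin 3 => x0 + r • (Pi.single i 1 : V) - x0) =
        r • (1 : Matrix (Fin 3) (Fin 3) ℝ) := by
      ext i j
      simp [Matrix.one_apply, Pi.single_apply, eq_comm]
    show 0 < |(Matrix.of fun i : Fin 3 => x0 + r • (Pi.single i 1 : V) - x0).det|
    rw [e, Matrix.det_smul, Matrix.det_one, mul_one]
    exact abs_pos.2 (pow_pos hr _).ne'
  refine ⟨Matrix.of fun i => x i - x0, abs_pos.1 hp, fun i => ?_, fun z hz i => ?_⟩
  · have e : x0 + (Matrix.of fun i => x i - x0) i = x i := add_sub_cancel x0 (x i)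
    rw [e]
    exact hx i trivial
  · set M : Matrix (Fin 3) (Fin 3) ℝ := Matrix.of fun i => x i - x0 with hM
    have h2 : Function.update x i (x0 + ∑ k, z k • M k) ∈ univ.pi fun _ : Fin 3 => K :=
      fun j _ => by
        rcases eq_or_ne j i with rfl | hj
        · rwa [Function.update_self]
        · rw [Function.update_of_ne hj]
          exact hx j trivial
    have e : (Matrix.of fun j => Function.update x i (x0 + ∑ k, z k • M k) j - x0) =
        M.updateRow i (∑ k, z k • M k) := by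
      funext j
      rcases eq_or_ne j i with rfl | hj
      · rw [Matrix.updateRow_self]
        show Function.update x j _ j - x0 = _
        rw [Function.update_self, add_sub_cancel_left]
      · rw [Matrix.updateRow_ne hj]
        show Function.update x i _ j - x0 = x j - x0
        rw [Function.update_of_ne hj]
    have h3 : |(Matrix.of fun j => Function.update x i (x0 + ∑ k, z k • M k) j - x0).det| ≤
        |M.det| := hm h2
    rw [e, Matrix.det_updateRow_sum, smul_eq_mul, abs_mul] at h3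
    exact (mul_le_iff_le_one_left hp).1 h3

theorem norm_set {K : Set V} (hK : Convex ℝ K) (hc : IsCompact K) (hi : (interior K).Nonempty) :
    ∃ (L : V ≃L[ℝ] V) (c : V), closedBall 0 (1 / 12) ⊆ (fun x => L x + c) ⁻¹' K ∧
      (fun x => L x + c) ⁻¹' K ⊆ closedBall 0 2 := by
  obtain ⟨x0, h0⟩ := hi
  obtain ⟨M, hd, hM, hz⟩ := mn2_max hc h0
  have hinj : Function.Injective M.vecMulLinear :=
    (injective_iff_map_eq_zero _).2 fun v hv => Matrix.eq_zero_of_vecMul_eq_zero hd hv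
  set L : V ≃L[ℝ] V := (LinearEquiv.ofInjectiveEndo M.vecMulLinear hinj).toContinuousLinearEquiv
  have hL : ∀ y : V, L y + (x0 + L fun _ => 1 / 4) = x0 + ∑ k, (y k + 1 / 4) • M k := fun y => by
    rw [add_left_comm, ← map_add]
    exact congrArg (x0 + ·) (Matrix.vecMul_eq_sum _ M)
  refine ⟨L, x0 + L fun _ => 1 / 4, fun y hy => ?_, fun y hy => ?_⟩
  · rw [mem_closedBall_zero_iff, pi_norm_le_iff_of_nonneg (by norm_num)] at hy
    rw [mem_preimage, hL]
    have e : x0 + ∑ k, (y k + 1 / 4) • M k =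
        ∑ k, (1 / 3 : ℝ) • (x0 + (3 * (y k + 1 / 4)) • (x0 + M k - x0)) := by
      simp only [Fin.sum_univ_three]
      module
    rw [e]
    refine hK.sum_mem (fun _ _ => by norm_num) (by simp) fun k _ =>
      hK.add_smul_sub_mem (interior_subset h0) (hM k) ?_
    have := abs_le.1 (hy k)
    constructor <;> linarith [this.1, this.2]
  · rw [mem_preimage, hL] at hy
    rw [mem_closedBall_zero_iff, pi_norm_le_iff_of_nonneg (by norm_num)]
    intro i
    have := abs_le.1 (hz (fun k => y k + 1 / 4) hy i)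
    exact abs_le.2 ⟨by linarith [this.1], by linarith [this.2]⟩

theorem mn1_pos {l : Fn} (L : V ≃L[ℝ] V) {c : V}
    (h : ∀ x ∈ closedBall (0 : V) (1 / 12), l (L x + c) ≤ 1) : 0 < 1 - l c := by
  by_contra h0
  have h1 : ∀ x ∈ closedBall (0 : V) (1 / 12), l (L x) ≤ 0 := fun x hx => by
    have k := h x hx
    rw [map_add] at k
    linarith
  have h2 : ∀ x ∈ closedBall (0 : V) (1 / 12), l (L x) = 0 := fun x hx => by
    have k := h1 (-x) (by rwa [mem_closedBall_zero_iff, norm_neg, ← mem_closedBall_zero_iff])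
    rw [map_neg, map_neg] at k
    linarith [h1 x hx]
  obtain ⟨y, rfl⟩ := L.surjective c
  have hy : 0 < 12 * (‖y‖ + 1) := by positivity
  have h3 := h2 ((12 * (‖y‖ + 1))⁻¹ • y) (by
    rw [mem_closedBall_zero_iff, norm_smul, Real.norm_of_nonneg (inv_pos.2 hy).le,
      inv_mul_le_iff₀ hy]
    linarith)
  rw [map_smul, map_smul, smul_eq_mul, mul_eq_zero] at h3
  have h4 := h3.resolve_left (inv_pos.2 hy).ne'
  linarith

theorem mn1_norm {l : Fn} (h : ∀ x ∈ closedBall (0 : V) (1 / 12), l x ≤ 1) : ‖l‖ ≤ 12 := by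
  refine l.opNorm_le_of_unit_norm (by norm_num) fun x hx => ?_
  have k : ∀ y : V, ‖y‖ = 1 → l y ≤ 12 := fun y hy => by
    have k1 := h ((1 / 12 : ℝ) • y) (by
      rw [mem_closedBall_zero_iff, norm_smul, hy, mul_one, Real.norm_of_nonneg (by norm_num)])
    rw [map_smul, smul_eq_mul] at k1
    linarith
  have k2 := k (-x) (by rwa [norm_neg])
  rw [map_neg] at k2
  exact abs_le.2 ⟨by linarith, k x hx⟩

theorem norm_poly {a : Fin m → Fn} (hb : IsBounded (Kp a)) :
    ∃ a' : Fin m → Fn, (∀ j, ‖a' j‖ ≤ 12) ∧ Kp a' ⊆ closedBall 0 2 ∧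
      gv (Kp a') / volume.real (Kp a') = gv (Kp a) / volume.real (Kp a) := by
  obtain ⟨L, c, h1, h2⟩ := norm_set (convex_Kp a) (isCompact_Kp hb)
    ⟨0, mem_interior_iff_mem_nhds.2 (Kp_nhds a)⟩
  have hp : ∀ j, 0 < 1 - a j c := fun j => mn1_pos L fun x hx => h1 hx j
  have e : Kp (fun j => (1 - a j c)⁻¹ • (a j).comp (L : V →L[ℝ] V)) =
      (fun x => L x + c) ⁻¹' Kp a := by
    ext x
    refine forall_congr' fun j => ?_
    change (1 - a j c)⁻¹ * a j (L x) ≤ 1 ↔ a j (L x + c) ≤ 1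
    rw [inv_mul_le_iff₀ (hp j), map_add, mul_one, le_sub_iff_add_le]
  refine ⟨_, fun j => mn1_norm fun x hx => e.superset (h1 hx) j, e.subset.trans h2, ?_⟩
  rw [e, gv_aff]

theorem mn3_closed (R : ℝ) (hR : 0 ≤ R) : IsClosed {a : Fin m → Fn | Kp a ⊆ closedBall 0 R} := by
  refine isOpen_compl_iff.1 (isOpen_iff_mem_nhds.2 fun a ha => ?_)
  obtain ⟨x, h1, h2⟩ := not_subset.1 ha
  have h3 : R < ‖x‖ := by simpa using h2
  have h4 : 0 < ‖x‖ := hR.trans_lt h3
  obtain ⟨t, h5, h6⟩ := exists_between ((div_lt_one h4).2 h3)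
  have h7 : 0 < t := (div_nonneg hR h4.le).trans_lt h5
  have h8 : ∀ᶠ a' : Fin m → Fn in 𝓝 a, ∀ j, a' j (t • x) < 1 := eventually_all.2 fun j => by
    refine ContinuousAt.eventually_lt ((continuous_apply j).clm_apply continuous_const).continuousAt
      continuousAt_const ?_
    rw [map_smul, smul_eq_mul]
    exact (mul_le_of_le_one_right h7.le (h1 j)).trans_lt h6
  filter_upwards [h8] with a' h9 h10
  have h11 := mem_closedBall_zero_iff.1 (h10 fun j => (h9 j).le)
  rw [norm_smul, Real.norm_of_nonneg h7.le] at h11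
  exact absurd ((div_lt_iff₀ h4).1 h5) (not_lt.2 h11)

theorem exists_min_fixed {a₁ : Fin m → Fn} (hb : IsBounded (Kp a₁)) :
    ∃ a : Fin m → Fn, IsBounded (Kp a) ∧ ∀ a' : Fin m → Fn, IsBounded (Kp a') →
      gv (Kp a) / volume.real (Kp a) ≤ gv (Kp a') / volume.real (Kp a') := by
  have := FiniteDimensional.proper_real (Fin m → Fn)
  let C := closedBall (0 : Fin m → Fn) 12 ∩ {a | Kp a ⊆ closedBall 0 2}
  have hC : IsCompact C := (isCompact_closedBall _ _).inter_right (mn3_closed 2 zero_le_two)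
  have hm : ∀ a' : Fin m → Fn, IsBounded (Kp a') → ∃ b ∈ C,
      gv (Kp b) / volume.real (Kp b) = gv (Kp a') / volume.real (Kp a') := fun a' ha' => by
    obtain ⟨b, h1, h2, h3⟩ := norm_poly ha'
    exact ⟨b, ⟨mem_closedBall_zero_iff.2 ((pi_norm_le_iff_of_nonneg (by norm_num)).2 h1), h2⟩, h3⟩
  have hbd : ∀ b ∈ C, IsBounded (Kp b) := fun b h => isBounded_closedBall.subset h.2
  have hl : LowerSemicontinuousOn (fun b => gv (Kp b) / volume.real (Kp b)) C := fun b h y hy => by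
    have h1 := vol_pos (hbd b h)
    obtain ⟨p, hp⟩ := exists_lt_of_lt_ciSup ((lt_div_iff₀ h1).1 hy)
    have h2 : ContinuousAt (fun a : Fin m → Fn => fv (Kp a) p) b := by
      simpa only [Function.comp_def] using ContinuousAt.comp (x := b)
        (f := fun a : Fin m → Fn => (a, p)) (cont_fv (hbd b h) p) (by fun_prop)
    filter_upwards [mem_nhdsWithin_of_mem_nhds ((h2.div (cont_vol (hbd b h)) h1.ne').eventually
      (lt_mem_nhds ((lt_div_iff₀ h1).2 hp))), self_mem_nhdsWithin] with a h3 h4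
    exact h3.trans_le (div_le_div_of_nonneg_right (fv_le_gv (hbd a h4) p) (vol_pos (hbd a h4)).le)
  obtain ⟨a, h1, h2⟩ := hl.exists_isMinOn ((hm a₁ hb).imp fun _ h => h.1) hC
  refine ⟨a, hbd a h1, fun a' ha' => ?_⟩
  obtain ⟨b, h3, h4⟩ := hm a' ha'
  exact h4 ▸ h2 h3

theorem mn3_drop {a : Fin (m + 1) → Fn} {i : Fin (m + 1)} (h : a i = 0 ∨ ∃ j, j ≠ i ∧ a j = a i) :
    Kp (fun j => a (i.succAbove j)) = Kp a := by
  refine Subset.antisymm (fun x hx j => ?_) fun x hx j => hx _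
  rcases Fin.eq_self_or_eq_succAbove i j with rfl | ⟨k, rfl⟩
  · rcases h with h | ⟨k, h1, h2⟩
    · simp [h]
    · obtain ⟨l, rfl⟩ := Fin.exists_succAbove_eq h1
      exact h2 ▸ hx l
  · exact hx k

theorem exists_min (h : ∃ (m : ℕ) (a : Fin m → Fn), IsBounded (Kp a) ∧
      2 * gv (Kp a) < volume.real (Kp a)) :
    ∃ (m : ℕ) (a : Fin m → Fn), IsBounded (Kp a) ∧ 2 * gv (Kp a) < volume.real (Kp a) ∧
      Function.Injective a ∧ (∀ j, a j ≠ 0) ∧ ∀ a' : Fin m → Fn, IsBounded (Kp a') →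
        gv (Kp a) / volume.real (Kp a) ≤ gv (Kp a') / volume.real (Kp a') := by
  classical
  obtain ⟨a₁, h1, h2⟩ := Nat.find_spec h
  obtain ⟨a, h3, h4⟩ := exists_min_fixed h1
  have h5 : 2 * gv (Kp a) < volume.real (Kp a) := by
    have h6 := (h4 a₁ h1).trans_lt ((div_lt_iff₀ (vol_pos h1)).2
      (show gv (Kp a₁) < 1 / 2 * volume.real (Kp a₁) by linarith))
    linarith [(div_lt_iff₀ (vol_pos h3)).1 h6]
  have h6 := fun n => Nat.find_min h (m := n)
  have key : ∀ i, ¬(a i = 0 ∨ ∃ j, j ≠ i ∧ a j = a i) := by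
    clear h4 h1 h2 a₁
    generalize Nat.find h = n at a h3 h5 h6
    intro i hi
    obtain ⟨n, rfl⟩ : ∃ k, n = k + 1 := ⟨n - 1, by have := i.pos; omega⟩
    exact h6 n n.lt_succ_self ⟨_, by rwa [mn3_drop hi], by rwa [mn3_drop hi]⟩
  exact ⟨_, a, h3, h5, fun i j e => by_contra fun hn => key j (.inr ⟨i, hn, e⟩),
    fun j e => key j (.inl e), h4⟩

end Pool.Agent.Lib.MP_e508a7_gt.KB
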