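import Pool.Agent.Lib.MP_e508a7_gt.KBCore
import Pool.Agent.Lib.MP_e508a7_gt.KBData

/-!
# The planar cap inequality
-/

set_option autoImplicit false

namespace Pool.Agent.Lib.MP_e508a7_gt.KB

open MeasureTheory Set Filter Topology Metric Bornology

/-- the standing hypotheses -/
structure Base (F H : Set R2) : Prop where
  cF : Convex ℝ F
  kF : IsCompact F
  cH : Convex ℝ H
  kH : IsCompact H
  pos : 0 < volume.real (F ∩ H)
  lt : 4 * volume.real (F ∩ H) < volume.real F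
  zF : (∫ y in F, y) = 0
  zG : (∫ y in F ∩ H, y) = 0

/-- the cost of a wall -/
noncomputable def cost (F H : Set R2) (u ω : R2 →L[ℝ] ℝ) (μ h z : ℝ) : ℝ :=
  z * (μ + h) / 2 + 7 / 2 * (volume.real (H ∩ {x | ω x ≤ μ} ∩ {x | u x ≤ 1}) -
    volume.real (F ∩ H ∩ {x | u x ≤ 1}))

/-- a chord with score `S` -/
structure Ready (F H : Set R2) (u : R2 →L[ℝ] ℝ) (S : ℝ) : Prop where
  nn : 0 ≤ S
  main : ∀ ω μ h z C, Wall F H ω μ h z C → cost F H u ω μ h z ≤ S → Concl F H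
  other : ∀ u' : R2 →L[ℝ] ℝ, (∀ x ∈ H, u' x ≤ 1 → u x ≤ 1 → x ∈ F) →
    ∃ ω μ h z C, Wall F H ω μ h z C ∧ cost F H u' ω μ h z ≤ S

variable {F H : Set R2} {η : ℝ}

theorem cut_le (kF : IsCompact F) (kH : IsCompact H) {X U U' : Set R2} (hX : MeasurableSet X)
    (hU : MeasurableSet U) (hU' : MeasurableSet U') (h1 : F ∩ H ⊆ X)
    (h2 : ∀ x ∈ H, x ∈ U' → x ∉ U → x ∈ F) :
    volume.real (H ∩ X ∩ U') - volume.real (F ∩ H ∩ U') ≤
      volume.real (H ∩ (U ∩ X)) - volume.real (F ∩ H ∩ U) ∧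
    0 ≤ volume.real (H ∩ X ∩ U') - volume.real (F ∩ H ∩ U') ∧
    0 ≤ volume.real (H ∩ (U ∩ X)) - volume.real (F ∩ H ∩ U) := by
  have e : ∀ A B : Set R2, A ⊆ H → A ∩ F = B → volume.real A - volume.real B = volume.real (A \ F) :=
    fun A B hA hB => by
      rw [← hB, ← measureReal_inter_add_sdiff kF.measurableSet
        (measure_ne_top_of_subset hA kH.measure_ne_top), add_sub_cancel_left]
  rw [e (H ∩ X ∩ U') (F ∩ H ∩ U') (fun _ hx => hx.1.1)
      (Subset.antisymm (fun _ hx => ⟨⟨hx.2, hx.1.1.1⟩, hx.1.2⟩)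
        fun _ hx => ⟨⟨⟨hx.1.2, h1 hx.1⟩, hx.2⟩, hx.1.1⟩),
    e (H ∩ (U ∩ X)) (F ∩ H ∩ U) (fun _ hx => hx.1)
      (Subset.antisymm (fun _ hx => ⟨⟨hx.2, hx.1.1⟩, hx.1.2.1⟩)
        fun _ hx => ⟨⟨hx.1.2, hx.2, h1 hx.1⟩, hx.1.1⟩)]
  exact ⟨measureReal_mono (fun x hx => ⟨⟨hx.1.1.1, not_not.1 fun k => hx.2
    (h2 x hx.1.1.1 hx.1.2 k), hx.1.1.2⟩, hx.2⟩)
    (measure_ne_top_of_subset (fun _ hx => hx.1.1) kH.measure_ne_top),
    measureReal_nonneg, measureReal_nonneg⟩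

theorem pl_pos {k l P A : ℝ} (hk : 0 < k) (hl : 0 ≤ l) (hP : 1 ≤ P)
    (h : k ≤ 2 / 3 * P * A - l * P ^ 2 / 6) : 0 < A := by
  by_contra hn
  nlinarith [mul_nonneg hl (sq_nonneg P),
    mul_nonneg (by linarith : 0 ≤ P) (neg_nonneg.2 (not_lt.1 hn))]

theorem one_fst (B : Base F H) (h : Cl F (F ∩ H) (ContinuousLinearMap.fst ℝ ℝ ℝ) η)
    (strip : ∀ x ∈ H, 0 ≤ x.1 → x.1 ≤ 1 → x ∈ F) :
    ∃ S, Ready F H (ContinuousLinearMap.fst ℝ ℝ ℝ) S := by
  obtain ⟨k1, lp, wd⟩ := cl_fst B.cF B.kF B.cH B.kH h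
  have z0 : (0 : R2) ∈ F ∩ H :=
    mem_of_mem_nhds (zero_mem_interior (B.cF.inter B.cH) (B.kF.inter B.kH) B.pos B.zG)
  obtain ⟨W, P, e, v₁, v₂, a₁, a₂, M⟩ := exists_main B.cF B.kF B.cH B.kH strip z0 k1
  obtain ⟨b1, b2, b3, b4⟩ := M.basic
  have mU : MeasurableSet {x : R2 | 1 < x.1} := measurableSet_lt measurable_const measurable_fst
  have mX : MeasurableSet {x : R2 | x.1 ≤ 1 + e} := measurableSet_le measurable_fst measurable_const
  have ml : ∀ (u : R2 →L[ℝ] ℝ) (c : ℝ), MeasurableSet {x : R2 | u x ≤ c} := fun u c =>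
    measurableSet_le u.continuous.measurable measurable_const
  have w := M.wall
  set g := volume.real (F ∩ H ∩ {x | 1 < x.1}) with hg
  set D₁ := volume.real (H ∩ ({x : R2 | 1 < x.1} ∩ {x | x.1 ≤ 1 + e})) with hD₁
  set D₂ := volume.real (H ∩ {x : R2 | 1 < x.1}) with hD₂
  have n1 : 0 ≤ D₁ - g := (cut_le B.kF B.kH mX mU MeasurableSet.empty M.tG
    fun x _ h => absurd h (notMem_empty x)).2.2
  have n2 : 0 ≤ D₂ - g := by
    have := (cut_le B.kF B.kH MeasurableSet.univ mU MeasurableSet.empty (subset_univ _)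
      fun x _ h => absurd h (notMem_empty x)).2.2
    rwa [inter_univ] at this
  refine ⟨min (pr H (1 + e) * (W + e) / 2 + 7 / 2 * (D₁ - g)) (7 / 2 * (D₂ - g)), le_min ?_ ?_,
    fun ω μ hh z C Wl hc => ?_, fun u' hu' => ?_⟩
  · have := mul_nonneg w.z0 (by linarith : 0 ≤ W + e)
    linarith
  · linarith
  · obtain ⟨s1, -, s3⟩ := M.split
    obtain ⟨d1, d2, d3, d4, d5, d6⟩ := M.dataG B.zG rfl rfl rfl rfl hg
    have l6 := M.l_le B.pos B.zG
    have lt := B.lt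
    obtain ⟨f1, f2, f3, f4⟩ := M.dataF B.zF rfl lp (by linarith) h.e0 h.e1 h.top wd
    obtain ⟨g1, g2, g3⟩ := M.score rfl rfl
    have nD := (cut_le B.kF B.kH (ml ω μ) MeasurableSet.univ
      (ml (ContinuousLinearMap.fst ℝ ℝ ℝ) 1) Wl.hG fun x _ _ h => absurd (mem_univ x) h).2.1
    obtain ⟨c1, c2⟩ := le_min_iff.1 hc
    unfold cost at c1 c2
    simp only [ContinuousLinearMap.coe_fst'] at c1 c2 nD
    set A₀ := volume.real (H ∩ {x | ω x ≤ μ} ∩ {x | x.1 ≤ 1}) with hA₀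
    set A₁ := volume.real (F ∩ H ∩ {x | x.1 ≤ 1}) with hA₁
    set k := volume.real (F ∩ H) with hk
    set l := pr H 1 with hl
    have eσ : 2 * l - 2 * (v₂ - v₁ + (a₂ - a₁) / 2) + (a₂ - a₁) = 2 * (l - (v₂ - v₁)) := by ring
    have eD : D₁ = volume.real (H ∩ {x : R2 | 1 < x.1 ∧ x.1 ≤ 1 + e}) := rfl
    obtain ⟨r, d, r0, d0, d1', hz, hs⟩ := scalar (Φ := volume.real F) (k := k) (l := l)
      (T := v₂ - v₁ + (a₂ - a₁) / 2) (s := a₂ - a₁) (W := W) (P := P) (η := η) (e := e) (g := g)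
      (τ := z * (μ + hh) / 2) (D := A₀ - A₁) (m := fun d => ∫ t in (1 - (1 - d) * W)..1, pr F t)
      B.pos lt.le lp.le b4 (by linarith) b2 f2 b3 f1 h.e1 f3 d1 f4 d2 d3 d4 d5 d6
      (div_nonneg (mul_nonneg Wl.z0 (add_nonneg Wl.m0 Wl.h0)) zero_le_two) nD
      (by
        rw [eσ]
        have := mul_le_mul_of_nonneg_right g1 (by linarith : 0 ≤ W + e)
        linarith)
      (fun h0 => by
        rw [eσ] at h0
        have h1 := g3 h0
        have e2 : 2 * (v₂ - v₁ + (a₂ - a₁) / 2) - 2 * l - (a₂ - a₁) = -(2 * (l - (v₂ - v₁))) := by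
          ring
        rw [e2]
        have h2 := mul_le_mul_of_nonneg_left
          (show z * (μ + hh) / 2 + 7 / 2 * (A₀ - A₁) + 7 / 2 * g ≤ 7 / 2 * D₂ by linarith)
          (show 0 ≤ 2 * -(2 * (l - (v₂ - v₁))) by linarith)
        linarith)
      fun d d0 d1 => M.mass B.zF rfl lp h.e0 h.top wd d0 d1
    have e1 : k - g = A₁ := by linarith
    have e2 : A₁ + (A₀ - A₁) = A₀ := by ring
    have e3 : ∀ x y : ℝ, A₁ + x + y + (A₀ - A₁) = A₀ + x + y := fun x y => by ring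
    rw [e1, e2, e3] at hs
    have p1 : 0 < A₁ := by
      rw [e1] at d2
      exact pl_pos B.pos lp.le b1 d2
    have p2 : 0 ≤ r * (v₂ - v₁ + (a₂ - a₁) / 2) + (a₂ - a₁) * r ^ 2 / 2 := by
      have := mul_nonneg r0 (show 0 ≤ (v₂ - v₁ + (a₂ - a₁) / 2) + (a₂ - a₁) * r / 2 by linarith)
      linarith
    refine integ (fun t ht => Lc_compact B.kF B.kH (one_pos.trans ht)) (by linarith) ?_ B.pos
      (fun t ht hn => core M Wl r0 hz d0 d1' ht hn hl rfl rfl hA₀ hA₁ rfl) hs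
    have := mul_nonneg r0 (show 0 ≤ v₂ - v₁ + (a₂ - a₁) / 2 by linarith)
    have := mul_nonneg hz b3
    linarith
  · have hu : ∀ x ∈ H, x ∈ {x | u' x ≤ 1} → x ∉ {x : R2 | 1 < x.1} → x ∈ F :=
      fun x hx h1 h2 => hu' x hx h1 (not_lt.1 h2)
    rcases le_total (pr H (1 + e) * (W + e) / 2 + 7 / 2 * (D₁ - g)) (7 / 2 * (D₂ - g)) with h1 | h1
    · refine ⟨_, _, _, _, _, w, ?_⟩
      rw [min_eq_left h1, cost]
      have := (cut_le B.kF B.kH mX mU (ml u' 1) M.tG hu).1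
      simp only [ContinuousLinearMap.coe_fst']
      have e : 1 + e + (W - 1) = W + e := by ring
      rw [e]
      linarith
    · refine ⟨_, _, _, _, _, wall_zero F H, ?_⟩
      rw [min_eq_right h1, cost]
      have := (cut_le B.kF B.kH MeasurableSet.univ mU (ml u' 1) (subset_univ _) hu).1
      have e : {x : R2 | (0 : R2 →L[ℝ] ℝ) x ≤ 0} = univ := by simp
      rw [inter_univ {x : R2 | 1 < x.1}] at this
      rw [e]
      linarith

theorem pn1_vol {T : R2 ≃L[ℝ] R2} (hT : MeasurePreserving T volume volume) (s : Set R2) :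
    volume (T ⁻¹' s) = volume s := hT.measure_preimage_emb T.toHomeomorph.measurableEmbedding s

theorem pn1_real {T : R2 ≃L[ℝ] R2} (hT : MeasurePreserving T volume volume) (s : Set R2) :
    volume.real (T ⁻¹' s) = volume.real s := congrArg ENNReal.toReal (pn1_vol hT s)

theorem pn1_symm {T : R2 ≃L[ℝ] R2} (hT : MeasurePreserving T volume volume) :
    MeasurePreserving T.symm volume volume := hT.symm T.toHomeomorph.toMeasurableEquiv

theorem pn1_int {T : R2 ≃L[ℝ] R2} (hT : MeasurePreserving T volume volume) {s : Set R2}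
    (h : (∫ y in s, y) = 0) : (∫ y in T ⁻¹' s, y) = 0 := by
  have := hT.setIntegral_preimage_emb T.toHomeomorph.measurableEmbedding (fun y => y) s
  rw [h, T.integral_comp_comm fun y => y] at this
  exact T.map_eq_zero_iff.1 this

theorem pn1_back (T : R2 ≃L[ℝ] R2) (s : Set R2) : T.symm ⁻¹' (T ⁻¹' s) = s := by
  ext x
  simp

theorem pn1_comp (T : R2 ≃L[ℝ] R2) (u : R2 →L[ℝ] ℝ) :
    (u.comp T.toContinuousLinearMap).comp T.symm.toContinuousLinearMap = u :=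
  ContinuousLinearMap.ext fun x => by simp

theorem pn1_cost {T : R2 ≃L[ℝ] R2} (hT : MeasurePreserving T volume volume) (F H : Set R2)
    (u ω : R2 →L[ℝ] ℝ) (μ h z : ℝ) : cost (T ⁻¹' F) (T ⁻¹' H) (u.comp T.toContinuousLinearMap)
      (ω.comp T.toContinuousLinearMap) μ h z = cost F H u ω μ h z := by
  rw [cost, cost, ← pn1_real hT (H ∩ _ ∩ _), ← pn1_real hT (F ∩ H ∩ _)]
  rfl

theorem pn1_concl {T : R2 ≃L[ℝ] R2} (hT : MeasurePreserving T volume volume) (h : Concl F H) :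
    Concl (T ⁻¹' F) (T ⁻¹' H) := by
  have e : ∀ t, Lc (T ⁻¹' F) (T ⁻¹' H) t = T ⁻¹' Lc F H t := fun t => by
    ext y
    simp only [Lc, mem_ofPred_eq, mem_inter_iff, mem_preimage, map_smul, map_sub]
    exact and_congr_right fun _ => ⟨fun k z hz => by simpa using k (T.symm z) (by simpa using hz),
      fun k z hz => k _ hz⟩
  rwa [Concl, ← preimage_inter, pn1_real hT, lintegral_congr fun t => by rw [e, pn1_vol hT]]

theorem Base.map (B : Base F H) (T : R2 ≃L[ℝ] R2) (hT : MeasurePreserving T volume volume) :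
    Base (T ⁻¹' F) (T ⁻¹' H) := by
  refine ⟨B.cF.linear_preimage T.toLinearEquiv.toLinearMap, T.toHomeomorph.isCompact_preimage.2 B.kF,
    B.cH.linear_preimage T.toLinearEquiv.toLinearMap, T.toHomeomorph.isCompact_preimage.2 B.kH,
    ?_, ?_, pn1_int hT B.zF, pn1_int hT B.zG⟩
  · exact B.pos.trans_eq (pn1_real hT (F ∩ H)).symm
  · rw [← preimage_inter, pn1_real hT, pn1_real hT]
    exact B.lt

theorem Wall.map {ω : R2 →L[ℝ] ℝ} {μ h z C : ℝ} (kH : IsCompact H) (Wl : Wall F H ω μ h z C)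
    (T : R2 ≃L[ℝ] R2) (hT : MeasurePreserving T volume volume) :
    Wall (T ⁻¹' F) (T ⁻¹' H) (ω.comp T.toContinuousLinearMap) μ h z C :=
  ⟨fun x hx => Wl.hG (T x) hx, fun x hx => Wl.hF (T x) hx, Wl.m0, Wl.h0, Wl.z0, Wl.C0,
    fun δ hδ => (pn1_real hT (H ∩ {x | μ < ω x ∧ ω x ≤ μ + δ})).trans_le (Wl.strip δ hδ)⟩

theorem Ready.map {u : R2 →L[ℝ] ℝ} {S : ℝ} (kF : IsCompact F) (kH : IsCompact H)
    (R : Ready F H u S) (T : R2 ≃L[ℝ] R2) (hT : MeasurePreserving T volume volume) :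
    Ready (T ⁻¹' F) (T ⁻¹' H) (u.comp T.toContinuousLinearMap) S := by
  refine ⟨R.nn, fun ω μ h z C Wl hc => ?_, fun u' hu => ?_⟩
  · have W := Wall.map (H := T ⁻¹' H) (T.toHomeomorph.isCompact_preimage.2 kH) Wl T.symm
      (pn1_symm hT)
    rw [← pn1_cost (pn1_symm hT), pn1_comp] at hc
    rw [pn1_back, pn1_back] at W hc
    exact pn1_concl hT (R.main _ μ h z C W hc)
  · obtain ⟨ω, μ, h, z, C, W, hc⟩ := R.other (u'.comp T.symm.toContinuousLinearMap)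
      fun x hx h1 h2 => by simpa using hu (T.symm x) (by simpa using hx) h1 (by simpa using h2)
    refine ⟨_, μ, h, z, C, W.map kH T hT, ?_⟩
    rwa [← pn1_cost hT, show (u'.comp T.symm.toContinuousLinearMap).comp T.toContinuousLinearMap = u'
      from pn1_comp T.symm u'] at hc

theorem one (B : Base F H) {u : R2 →L[ℝ] ℝ} (h : Cl F (F ∩ H) u η)
    (strip : ∀ x ∈ H, 0 ≤ u x → u x ≤ 1 → x ∈ F) : ∃ S, Ready F H u S := by
  obtain ⟨p, hp, q, hq, h1, h2, h3, h4⟩ := h.ch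
  obtain ⟨T, h5, -, hT⟩ := exists_coord u fun e => by simp [e] at h2
  have e : ∀ x : R2, u (T.symm x) = x.1 := fun x => by rw [← h5, T.apply_symm_apply]
  have B' := B.map T.symm (pn1_symm hT)
  obtain ⟨S, R⟩ := one_fst (η := η) B' ⟨h.e0, h.e1, fun x hx => (e x).symm.trans_le (h.top _ hx),
    T p, by simpa using hp, T q, by simpa using hq, T.injective.ne h1, (h5 p).trans h2,
    (h5 q).trans h3, fun x hx μ k => by
      have := h4 _ hx μ (by simpa using k)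
      rwa [e] at this⟩ fun x hx a b => strip _ hx (by rwa [e]) (by rwa [e])
  have R' := R.map B'.kF B'.kH T hT
  rw [show T ⁻¹' (T.symm ⁻¹' F) = F from pn1_back T.symm F,
    show T ⁻¹' (T.symm ⁻¹' H) = H from pn1_back T.symm H,
    show (ContinuousLinearMap.fst ℝ ℝ ℝ).comp T.toContinuousLinearMap = u from
      ContinuousLinearMap.ext h5] at R'
  exact ⟨S, R'⟩

theorem planar : Planar := by
  intro F H cF kF cH kH h0 h4 zF zG
  have B : Base F H := ⟨cF, kF, cH, kH, h0, h4, zF, zG⟩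
  change Concl F H
  rcases cluster cF kF cH kH h0 h4 zF zG with h | ⟨u, η, C, h⟩ | ⟨u₁, η₁, u₂, η₂, C₁, C₂, h⟩
  · exact zero_case cF kF cH kH h0 h4 h
  · have h1 : ∀ x ∈ H, u x ≤ 1 → x ∈ F := fun x hx h1 => by
      by_contra hn
      exact absurd (h x hx hn) (not_lt.2 h1)
    obtain ⟨S, R⟩ := one B C fun x hx _ h2 => h1 x hx h2
    refine R.main _ _ _ _ _ (wall_zero F H) (le_trans (le_of_eq ?_) R.nn)
    have e : H ∩ {x : R2 | (0 : R2 →L[ℝ] ℝ) x ≤ 0} ∩ {x | u x ≤ 1} = F ∩ H ∩ {x | u x ≤ 1} := by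
      ext x
      exact ⟨fun hx => ⟨⟨h1 x hx.1.1 hx.2, hx.1.1⟩, hx.2⟩, fun hx => ⟨⟨hx.1.2, by simp⟩, hx.2⟩⟩
    rw [cost, e]
    ring
  · obtain ⟨S₁, R₁⟩ := one B C₁ fun x hx h1 h2 => by
      by_contra hn
      rcases h x hx hn with h3 | h3 <;> linarith [h3.1, h3.2]
    obtain ⟨S₂, R₂⟩ := one B C₂ fun x hx h1 h2 => by
      by_contra hn
      rcases h x hx hn with h3 | h3 <;> linarith [h3.1, h3.2]
    have h1 : ∀ x ∈ H, u₁ x ≤ 1 → u₂ x ≤ 1 → x ∈ F := fun x hx h1 h2 => by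
      by_contra hn
      rcases h x hx hn with h3 | h3 <;> linarith [h3.1]
    rcases le_total S₁ S₂ with h2 | h2
    · obtain ⟨ω, μ, hh, z, C, Wl, hc⟩ := R₁.other u₂ fun x hx a b => h1 x hx b a
      exact R₂.main _ _ _ _ _ Wl (hc.trans h2)
    · obtain ⟨ω, μ, hh, z, C, Wl, hc⟩ := R₂.other u₁ h1
      exact R₁.main _ _ _ _ _ Wl (hc.trans h2)

end Pool.Agent.Lib.MP_e508a7_gt.KB
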