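import Pool.Agent.Lib.MP_e508a7_gt.KBDefs

/-!
# Profiles of planar convex sets
-/

set_option autoImplicit false

namespace Pool.Agent.Lib.MP_e508a7_gt.KB

open MeasureTheory Set Filter Topology Metric Bornology

variable {S : Set R2}

theorem pf1_cpt (hc : IsCompact S) (a : ℝ) : IsCompact {v : ℝ | (a, v) ∈ S} :=
  (Function.LeftInverse.isClosedEmbedding (f := Prod.snd) (g := Prod.mk a) (fun _ => rfl)
    continuous_snd (Continuous.prodMk_right a)).isCompact_preimage hc

theorem pf1_cvx (hS : Convex ℝ S) (a : ℝ) : Convex ℝ {v : ℝ | (a, v) ∈ S} := by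
  intro v hv w hw s t hs ht hst
  have := hS hv hw hs ht hst
  rwa [Prod.smul_mk, Prod.smul_mk, Prod.mk_add_mk, ← add_smul, hst, one_smul] at this

theorem pf1_int (hc : IsCompact S) {w : ℝ → ℝ} (hw : Continuous w) :
    Integrable (fun a => w a * pr S a) ∧ ∫ x in S, w x.1 = ∫ a, w a * pr S a := by
  have h1 : Integrable (S.indicator fun x : R2 => w x.1) (volume.prod volume) :=
    (integrable_indicator_iff hc.measurableSet).mpr
      ((hw.comp continuous_fst).continuousOn.integrableOn_compact hc)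
  have h2 : ∀ a, ∫ v, S.indicator (fun x : R2 => w x.1) (a, v) = w a * pr S a := fun a => by
    have e : (fun v => S.indicator (fun x : R2 => w x.1) (a, v)) =
        {v : ℝ | (a, v) ∈ S}.indicator fun _ => w a := rfl
    rw [e, integral_indicator_const _ (pf1_cpt hc a).measurableSet, smul_eq_mul, mul_comm, pr]
  refine ⟨by simpa only [h2] using h1.integral_prod_left, ?_⟩
  rw [← integral_indicator hc.measurableSet, Measure.volume_eq_prod, integral_prod _ h1]
  simp only [h2]

theorem pr_nonneg (S : Set R2) (a : ℝ) : 0 ≤ pr S a := measureReal_nonneg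

theorem pr_mono {S' : Set R2} (hc : IsCompact S') {a : ℝ} (h : ∀ v, (a, v) ∈ S → (a, v) ∈ S') :
    pr S a ≤ pr S' a :=
  measureReal_mono h (pf1_cpt hc a).measure_ne_top

theorem pr_le {a lo hi : ℝ} (hl : lo ≤ hi) (h : ∀ v, (a, v) ∈ S → lo ≤ v ∧ v ≤ hi) :
    pr S a ≤ hi - lo := by
  rw [← Real.volume_real_Icc_of_le hl]
  exact measureReal_mono h isCompact_Icc.measure_ne_top

theorem le_pr (hS : Convex ℝ S) (hc : IsCompact S) {a v v' : ℝ} (h : (a, v) ∈ S)
    (h' : (a, v') ∈ S) : v' - v ≤ pr S a := by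
  rcases le_total v v' with e | e
  · rw [← Real.volume_real_Icc_of_le e]
    exact measureReal_mono ((pf1_cvx hS a).ordConnected.out h h') (pf1_cpt hc a).measure_ne_top
  · exact (sub_nonpos.mpr e).trans (pr_nonneg S a)

theorem slice (hS : Convex ℝ S) (hc : IsCompact S) {a : ℝ} (h : ∃ v, (a, v) ∈ S) :
    ∃ lo hi, lo ≤ hi ∧ (∀ v, (a, v) ∈ S ↔ lo ≤ v ∧ v ≤ hi) ∧ pr S a = hi - lo := by
  have e := eq_Icc_of_connected_compact ((pf1_cvx hS a).isConnected h) (pf1_cpt hc a)
  have hl := nonempty_Icc.mp (Set.Nonempty.mono e.subset h)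
  exact ⟨_, _, hl, fun v => Set.ext_iff.mp e v,
    (congrArg volume.real e).trans (Real.volume_real_Icc_of_le hl)⟩

theorem integrable_pr (hc : IsCompact S) : Integrable (pr S) := by
  simpa using (pf1_int hc (continuous_const (y := (1 : ℝ)))).1

theorem area_pr (hc : IsCompact S) : volume.real S = ∫ a, pr S a := by
  simpa using (pf1_int hc (continuous_const (y := (1 : ℝ)))).2

theorem int_slab (hc : IsCompact S) {w : ℝ → ℝ} (hw : Continuous w) {s t : ℝ} (h : s ≤ t) :
    ∫ x in S ∩ {x | s ≤ x.1 ∧ x.1 ≤ t}, w x.1 = ∫ a in s..t, w a * pr S a := by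
  have h1 : IsCompact (S ∩ {x : R2 | s ≤ x.1 ∧ x.1 ≤ t}) :=
    hc.inter_right (isClosed_Icc.preimage continuous_fst)
  rw [(pf1_int h1 hw).2, intervalIntegral.integral_of_le h, ← integral_Icc_eq_integral_Ioc,
    ← integral_indicator measurableSet_Icc]
  refine integral_congr_ae (Eventually.of_forall fun a => ?_)
  by_cases ha : s ≤ a ∧ a ≤ t <;> simp [pr, indicator, ha]

theorem area_slab (hc : IsCompact S) {s t : ℝ} (h : s ≤ t) :
    volume.real (S ∩ {x | s ≤ x.1 ∧ x.1 ≤ t}) = ∫ a in s..t, pr S a := by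
  simpa using int_slab hc (continuous_const (y := (1 : ℝ))) h

theorem exists_prof (hS : Convex ℝ S) (hc : IsCompact S) (hn : S.Nonempty) :
    ∃ A B, Prof (pr S) A B ∧ (∀ a, (∃ v, (a, v) ∈ S) ↔ A ≤ a ∧ a ≤ B) ∧
      volume.real S = ∫ a in A..B, pr S a ∧ ∫ x in S, x.1 = ∫ a in A..B, a * pr S a := by
  obtain ⟨A, B, e⟩ : ∃ A B, Prod.fst '' S = Icc A B := ⟨_, _, eq_Icc_of_connected_compact
    ((hS.isConnected hn).image _ continuous_fst.continuousOn) (hc.image continuous_fst)⟩
  have m : ∀ a, (∃ v, (a, v) ∈ S) ↔ A ≤ a ∧ a ≤ B := fun a => by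
    rw [← mem_Icc, ← e]
    simp
  have l : A ≤ B := nonempty_Icc.1 (e ▸ hn.image _)
  have s : S ∩ {x | A ≤ x.1 ∧ x.1 ≤ B} = S := inter_eq_left.2 fun x hx => (m _).1 ⟨x.2, hx⟩
  refine ⟨A, B, ⟨l, ⟨convex_Icc A B, fun x hx y hy a b ha hb hab => ?_⟩,
    fun y _ => pr_nonneg S y, (integrable_pr hc).intervalIntegrable⟩, m, ?_, ?_⟩
  · obtain ⟨p, q, h1, h2, h3⟩ := slice hS hc ((m x).2 hx)
    obtain ⟨p', q', h1', h2', h3'⟩ := slice hS hc ((m y).2 hy)
    have := le_pr hS hc (a := a • x + b • y) (v := a • p + b • p') (v' := a • q + b • q')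
      (hS ((h2 p).2 ⟨le_rfl, h1⟩) ((h2' p').2 ⟨le_rfl, h1'⟩) ha hb hab)
      (hS ((h2 q).2 ⟨h1, le_rfl⟩) ((h2' q').2 ⟨h1', le_rfl⟩) ha hb hab)
    rw [h3, h3']
    simp only [smul_eq_mul] at this ⊢
    linarith
  · rw [← area_slab hc l, s]
  · rw [← int_slab hc (w := fun a => a) continuous_id l, s]

theorem exists_coord (u : R2 →L[ℝ] ℝ) (hu : u ≠ 0) : ∃ T : R2 ≃L[ℝ] R2, (∀ x, (T x).1 = u x) ∧
    (∀ x y, dt (T x) (T y) = dt x y) ∧ MeasurePreserving T volume volume := by
  obtain ⟨a, b, e⟩ : ∃ a b, ∀ x : R2, u x = a * x.1 + b * x.2 := ⟨u (1, 0), u (0, 1), fun x => by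
    rw [mul_comm, mul_comm (u _), ← smul_eq_mul, ← smul_eq_mul, ← map_smul, ← map_smul, ← map_add]
    simp⟩
  have n : a ^ 2 + b ^ 2 ≠ 0 := fun h => hu (ContinuousLinearMap.ext fun x => by
    rw [e, show a = 0 by nlinarith, show b = 0 by nlinarith]
    simp)
  let L := Matrix.toLin (Module.Basis.finTwoProd ℝ) (Module.Basis.finTwoProd ℝ)
    !![a, b; -b / (a ^ 2 + b ^ 2), a / (a ^ 2 + b ^ 2)]
  have d : LinearMap.det L = 1 := by
    rw [LinearMap.det_toLin, Matrix.det_fin_two_of]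
    field_simp
    ring
  have d0 : LinearMap.det L ≠ 0 := d ▸ one_ne_zero
  have l : ∀ x, (L.equivOfDetNeZero d0).toContinuousLinearEquiv x = (a * x.1 + b * x.2,
      -b / (a ^ 2 + b ^ 2) * x.1 + a / (a ^ 2 + b ^ 2) * x.2) := Matrix.toLin_finTwoProd_apply _ _ _ _
  refine ⟨(L.equivOfDetNeZero d0).toContinuousLinearEquiv, fun x => by rw [l, e], fun x y => ?_,
    (ContinuousLinearEquiv.continuous _).measurable, ?_⟩
  · simp only [dt, l]
    field_simp
    ring
  · have := Measure.map_linearMap_addHaar_eq_smul_addHaar volume d0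
    rw [d, inv_one, abs_one, ENNReal.ofReal_one, one_smul] at this
    exact this

theorem zero_mem_interior (hS : Convex ℝ S) (hc : IsCompact S) (h0 : 0 < volume.real S)
    (h : (∫ y in S, y) = 0) : S ∈ 𝓝 (0 : R2) := by
  obtain ⟨p, hp⟩ : (interior S).Nonempty := nonempty_iff_ne_empty.2 fun e => h0.ne' (by
    have := hS.addHaar_frontier volume
    rw [frontier, e, sdiff_empty, hc.isClosed.closure_eq] at this
    rw [measureReal_def, this, ENNReal.toReal_zero])
  obtain ⟨ε, hε, hb⟩ := nhds_basis_closedBall.mem_iff.1 (isOpen_interior.mem_nhds hp)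
  have : Fact (volume S < ⊤) := ⟨hc.measure_lt_top⟩
  have i : Integrable (fun x : R2 => x) (volume.restrict S) :=
    continuous_id.continuousOn.integrableOn_compact hc
  have t : volume.restrict S (closedBall p ε) ≠ 0 := by
    rw [Measure.restrict_apply measurableSet_closedBall, inter_eq_left.2 (hb.trans interior_subset)]
    exact (measure_closedBall_pos volume p hε).ne'
  have := hS.average_mem_interior_of_set t (ae_restrict_mem hc.measurableSet) i
    (hb ((convex_closedBall p ε).set_average_mem isClosed_closedBall t (measure_ne_top _ _)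
      (ae_restrict_mem measurableSet_closedBall) i.integrableOn))
  rwa [average_eq, h, smul_zero, mem_interior_iff_mem_nhds] at this

end Pool.Agent.Lib.MP_e508a7_gt.KB
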