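import Pool.Agent.Lib.MP_e508a7_gt.KBChk

/-!
# Soundness of the checker
-/

set_option autoImplicit false

namespace Pool.Agent.Lib.MP_e508a7_gt.KB

/-- the point lies in the box -/
structure In (x : Bx) (l T s W P e : ℝ) : Prop where
  a0 : (x.l0 : ℝ) ≤ l * 4294967296
  b0 : l * 4294967296 ≤ x.h0
  a1 : (x.l1 : ℝ) ≤ (T - l) * 4294967296
  b1 : (T - l) * 4294967296 ≤ x.h1
  a2 : (x.l2 : ℝ) ≤ (s + 1) * 4294967296
  b2 : (s + 1) * 4294967296 ≤ x.h2
  a3 : (x.l3 : ℝ) ≤ W⁻¹ * 4294967296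
  b3 : W⁻¹ * 4294967296 ≤ x.h3
  a4 : (x.l4 : ℝ) ≤ P * 4294967296
  b4 : P * 4294967296 ≤ x.h4
  a5 : (x.l5 : ℝ) ≤ e * 4294967296
  b5 : e * 4294967296 ≤ x.h5

/-- the form encloses a nonnegative number -/
def NN (a : AF) (E : Ev) : Prop := ∃ y : ℝ, 0 ≤ y ∧ Sat a E y

/-- the shared forms enclose their values -/
structure FS (F : Fm) (E : Ev) (l T s W P e g : ℝ) : Prop where
  sl : Sat F.l E l
  sT : Sat F.T E T
  ss : Sat F.s E s
  sp : Sat F.sp E (s + 1)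
  sb : Sat F.b E W⁻¹
  sW : Sat F.W E W
  sP : Sat F.P E P
  se : Sat F.e E e
  th : Sat F.th E (2 * g - l * e)
  le : Sat F.le E (l * e)
  g2 : Sat F.g2 E (2 * g)
  k2 : Sat F.k2 E (1 / 2 - 2 * g)
  sg : Sat F.sg E (2 * l - 2 * T + s)
  K0 : NN F.K0 E
  K1 : NN F.K1 E
  K2 : NN F.K2 E
  K3 : NN F.K3 E
  K4 : NN F.K4 E

variable {l T s W P η e g τ D : ℝ} {E : Ev}

theorem Sat.eq {a : AF} {x y : ℝ} (h : Sat a E x) (k : x = y) : Sat a E y := k ▸ h

theorem fs_H (H : Hyp l T s W P η e g τ D) {fl fT fs fsp fb fP fe fth fle fg fk fsg fPz fsP : AF}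
    (hl : Sat fl E l) (hT : Sat fT E T) (hs : Sat fs E s) (hsp : Sat fsp E (s + 1))
    (hb : Sat fb E W⁻¹) (hP : Sat fP E P) (he : Sat fe E e) (hth : Sat fth E (2 * g - l * e))
    (hle : Sat fle E (l * e)) (hg : Sat fg E (2 * g)) (hk : Sat fk E (1 / 2 - 2 * g))
    (hsg : Sat fsg E (2 * l - 2 * T + s)) (hPz : Sat fPz E (P * (2 * T - s)))
    (hsP : Sat fsP E (s * P)) (bp : fb.pos = true) :
    FS (mkH fl fT fs fsp fb fP fe fth fle fg fk fsg fPz fsP) E l T s W P e g := by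
  have W0 : 0 < W := H.hP.trans_le H.hPW
  refine ⟨hl, hT, hs, hsp, hb, (hb.inv bp).eq (inv_inv W), hP, he, hth, hle, hg, hk, hsg,
    ⟨_, ?_, ((hP.mul (((hk.zm 4).sub (hl.zm 2)).sub hPz)).add hk).addc 0 12884901888 (-3)
      (by norm_num)⟩,
    ⟨_, ?_, (hP.mul ((hT.zm 2).sub hsP)).sub hk⟩, ⟨_, ?_, ((hk.zm 2).sub hPz).sub hl⟩,
    ⟨_, ?_, (hb.mul hP).neg.addc 4294967296 0 1 (by norm_num)⟩, ⟨_, ?_, hT.sub hsP⟩⟩
  · have := H.K2; push_cast; linarith
  · have := H.K3; push_cast; linarith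
  · have := H.KD; push_cast; linarith
  · have : W⁻¹ * P ≤ 1 := by rw [inv_mul_le_iff₀ W0]; linarith [H.hPW]
    linarith
  · linarith [H.KE]

theorem fs_D (H : Hyp l T s W P η e g τ D) {fl fr fsp fb fP fe fth : AF}
    (hl : Sat fl E l) (hr : Sat fr E (T - l)) (hsp : Sat fsp E (s + 1))
    (hb : Sat fb E W⁻¹) (hP : Sat fP E P) (he : Sat fe E e) (hth : Sat fth E (2 * g - l * e))
    (bp : fb.pos = true) : FS (mkD fl fr fsp fb fP fe fth) E l T s W P e g := by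
  have hT : Sat (fl.add fr) E T := (hl.add hr).eq (by ring)
  have hs : Sat (fsp.addc 0 4294967296) E s :=
    (hsp.addc 0 4294967296 (-1) (by norm_num)).eq (by ring)
  have hle := hl.mul he
  have hg : Sat ((fl.mul fe).add fth) E (2 * g) := (hle.add hth).eq (by ring)
  exact fs_H H hl hT hs hsp hb hP he hth hle hg
    ((hg.neg.addc 2147483648 0 (1 / 2) (by norm_num)).eq (by ring))
    ((hs.sub (hr.zm 2)).eq (by push_cast; ring))
    ((hP.mul ((hT.zm 2).sub hs)).eq (by push_cast; ring)) (hs.mul hP) bp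

theorem ften_sat {fl fW : AF} (hl : Sat fl E l) (hW : Sat fW E W) (n : Nat) :
    Sat (ften fl fW n) E (l * ((W + n / 4294967296) * (3 + 2 * (n / 4294967296) - W)) -
      2 * (n / 4294967296)) := by
  refine ((hl.mul ((hW.addc n 0 (n / 4294967296) (by simp)).mul
    (hW.neg.addc (Nat.add 12884901888 (Nat.mul 2 n)) 0 (3 + 2 * (n / 4294967296)) ?_))).addc 0
      (Nat.mul 2 n) (-(2 * (n / 4294967296))) ?_).eq (by ring)
  · simp only [Nat.add_eq, Nat.mul_eq]; push_cast; ring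
  · simp only [Nat.mul_eq]; push_cast; ring

theorem eta_ok (H : Hyp l T s W P η e g τ D) {x : Bx} (I : In x l T s W P e) {n : Nat}
    (h : etaC x n = true) : (AF.var3 x.l3 x.h3).pos = true ∧ η * 4294967296 ≤ n := by
  unfold etaC etaB at h
  simp only [Bool.and_eq_true, Bool.or_eq_true] at h
  refine ⟨h.1, ?_⟩
  rcases h.2 with h2 | ⟨h2, h3⟩
  · have h4 : ((1431655766 : Nat) : ℝ) ≤ n := by exact_mod_cast Nat.le_of_ble_eq_true h2
    push_cast at h4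
    linarith [H.η1]
  · obtain ⟨e0, k0, j0⟩ := exists_eps I.a0 I.b0
    obtain ⟨e3, k3, j3⟩ := exists_eps I.a3 I.b3
    have z : |(0 : ℝ)| ≤ 1 := by simp
    let E : Ev := ⟨e0, 0, 0, e3, 0, 0, 0, k0, z, z, k3, z, z, z⟩
    have hl : Sat (AF.var0 x.l0 x.h0) E l := Sat.var0 j0
    have hW : Sat (AF.var3 x.l3 x.h3).inv E W :=
      ((Sat.var3 (E := E) j3).inv h.1).eq (inv_inv W)
    have i1 := (ften_sat hl hW 1431655766).neg.pos h2
    have i2 := (ften_sat hl hW n).neg.nn h3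
    have := eta_le (a := n / 4294967296) (c := (1431655766 : Nat) / 4294967296) H.hl H.tent
      (by push_cast; linarith [H.η1]) (by linarith) (by linarith)
    linarith [this]

theorem fs_F (H : Hyp l T s W P η e g τ D) {x : Bx} (I : In x l T s W P e) {n : Nat}
    (bp : (AF.var3 x.l3 x.h3).pos = true) (hn : η * 4294967296 ≤ n) :
    ∃ E, FS (mkF x n) E l T s W P e g := by
  have h5 : e * 4294967296 ≤ (nmin x.h5 n : Nat) := by
    unfold nmin
    cases Nat.ble x.h5 n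
    · simp only [cond_false]; linarith [H.heη]
    · simp only [cond_true]; exact I.b5
  have h6 : ((0 : Nat) : ℝ) ≤ (2 * g - l * e) * 4294967296 := by
    push_cast; linarith [H.g1]
  have h7 : (2 * g - l * e) * 4294967296 ≤
      (Nat.add (Nat.shiftRight (Nat.mul x.h0 (Nat.sub n x.l5)) 32) 1 : Nat) := by
    have i0 : x.l5 ≤ n := by
      have : (x.l5 : ℝ) ≤ n := by linarith [I.a5, H.heη]
      exact_mod_cast this
    have i1 := dv_lt (Nat.mul x.h0 (Nat.sub n x.l5)) 4294967296 (by norm_num)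
    rw [sh_eq]
    have i2 : ((Nat.mul x.h0 (Nat.sub n x.l5) : Nat) : ℝ) = x.h0 * ((n : ℝ) - x.l5) := by
      show ((x.h0 * (n - x.l5) : Nat) : ℝ) = _
      rw [Nat.cast_mul, Nat.cast_sub i0]
    rw [i2] at i1
    have i3 : l * 4294967296 * ((η - e) * 4294967296) ≤ x.h0 * ((n : ℝ) - x.l5) :=
      mul_le_mul I.b0 (by linarith [I.a5]) (by linarith [H.heη]) (Nat.cast_nonneg _)
    simp only [Nat.add_eq, Nat.cast_add, Nat.cast_one, Nat.cast_ofNat] at i1 ⊢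
    linarith [H.g2]
  obtain ⟨e0, k0, j0⟩ := exists_eps I.a0 I.b0
  obtain ⟨e1, k1, j1⟩ := exists_eps I.a1 I.b1
  obtain ⟨e2, k2, j2⟩ := exists_eps I.a2 I.b2
  obtain ⟨e3, k3, j3⟩ := exists_eps I.a3 I.b3
  obtain ⟨e4, k4, j4⟩ := exists_eps I.a4 I.b4
  obtain ⟨e5, k5, j5⟩ := exists_eps I.a5 h5
  obtain ⟨e6, k6, j6⟩ := exists_eps h6 h7
  exact ⟨⟨e0, e1, e2, e3, e4, e5, e6, k0, k1, k2, k3, k4, k5, k6⟩,
    fs_D H (Sat.var0 j0) (Sat.var1 j1) (Sat.var2 j2) (Sat.var3 j3) (Sat.var4 j4) (Sat.var5 j5)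
      (Sat.var6 j6) bp⟩

theorem csub_le {a m : AF} {x : ℝ} (k : Nat) (ha : NN a E) (hm : ∃ y, y ≤ x ∧ Sat m E y) :
    ∃ y, y ≤ x ∧ Sat (csub k a m) E y := by
  unfold csub
  cases Nat.beq k 0
  · obtain ⟨y, hy, hs⟩ := hm
    obtain ⟨z, hz, ht⟩ := ha
    refine ⟨_, ?_, hs.sub (ht.sc k 4096 (by norm_num))⟩
    have : 0 ≤ (k : ℝ) / (4096 : Nat) * z := by positivity
    linarith
  · exact hm

theorem cadd_sat {a m : AF} {x y : ℝ} (k : Nat) (ha : Sat a E y) (hm : Sat m E x) :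
    Sat (cadd k a m) E (x + k / 4096 * y) := by
  unfold cadd
  cases h : Nat.beq k 0
  · exact (hm.add (ha.sc k 4096 (by norm_num))).eq (by push_cast; ring)
  · have : k = 0 := Nat.eq_of_beq_eq_true h
    subst this
    exact hm.eq (by simp)

theorem lsub_le {F : Fm} (S : FS F E l T s W P e g) {m : AF} {x : ℝ} (a0 a1 a2 a3 a4 : Nat)
    (hm : Sat m E x) : ∃ y, y ≤ x ∧ Sat (lsub F a0 a1 a2 a3 a4 m) E y :=
  csub_le a4 S.K4 (csub_le a3 S.K3 (csub_le a2 S.K2 (csub_le a1 S.K1 (csub_le a0 S.K0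
    ⟨x, le_rfl, hm⟩))))

theorem inf_sound (H : Hyp l T s W P η e g τ D) {x : Bx} (I : In x l T s W P e)
    {n a0 a1 a2 a3 a4 : Nat} (h : infX x n a0 a1 a2 a3 a4 = true) : False := by
  unfold infX at h
  simp only [Bool.and_eq_true, Bool.or_eq_true] at h
  obtain ⟨bp, hn⟩ := eta_ok H I h.1
  rcases h.2 with h2 | h2
  · have h4 : ((Nat.add n 1 : Nat) : ℝ) ≤ x.l5 := by exact_mod_cast Nat.le_of_ble_eq_true h2
    simp only [Nat.add_eq, Nat.cast_add, Nat.cast_one] at h4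
    linarith [I.a5, H.heη]
  · obtain ⟨E, S⟩ := fs_F H I bp hn
    obtain ⟨y, hy, hs⟩ := lsub_le S a0 a1 a2 a3 a4 (Sat.cst (x := 0) 0 0 E (by simp))
    linarith [hs.pos h2]

theorem menu (i : Nat) : ∃ d : ℝ, 0 < d ∧ d < 1 ∧ (dpf i : ℝ) / (60 : Nat) = (1 - d) / 2 ∧
    (q1f i : ℝ) / 40 * (1 - d) = 1 - d ^ 2 + Cd d / 3 ∧ (q2f i : ℝ) / 40 * (1 - d) = Cd d := by
  match i with
  | 0 => exact ⟨1 / 5, by norm_num [dpf, q1f, q2f, Cd]⟩
  | 1 => exact ⟨1 / 3, by norm_num [dpf, q1f, q2f, Cd]⟩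
  | 2 => exact ⟨1 / 2, by norm_num [dpf, q1f, q2f, Cd]⟩
  | j + 3 =>
    rw [show dpf (j + 3) = 10 from rfl, show q1f (j + 3) = 150 from rfl,
      show q2f (j + 3) = 250 from rfl]
    exact ⟨2 / 3, by norm_num [Cd]⟩

theorem okR_sound (H : Hyp l T s W P η e g τ D) {F : Fm} (S : FS F E l T s W P e g) {n : Nat}
    (hn : η * 4294967296 ≤ n) {c : Bool} {fS fr : AF} {S4 r : ℝ} (hS : Sat fS E S4)
    (hr : Sat fr E r) (hS4 : 4 * (τ + 7 / 2 * D) ≤ S4) (hc : c = true → 0 ≤ r ∧ 0 ≤ l + s * r)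
    {d a0 a1 a2 a3 a4 b0 b1 b2 b3 b4 : Nat}
    (h : okR F c n d fS fr a0 a1 a2 a3 a4 b0 b1 b2 b3 b4 = true) : Good l T s W P η e g τ D := by
  unfold okR okA okB okC finA finB at h
  simp only [Bool.and_eq_true, Bool.or_eq_true] at h
  obtain ⟨h1, h2, h3, h4⟩ := h
  have hsr := S.ss.mul hr
  have hzt := S.sl.add hsr
  have hrT := hr.mul S.sT
  have hA := (S.k2.add (hrT.zm 2)).add (hsr.mul hr)
  have hze := hzt.mul S.se
  have hal := (S.k2.add hrT).add hze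
  have hPp := S.sP.add hr
  have hrz : 0 ≤ r ∧ 0 ≤ l + s * r := by
    rcases h1 with h1 | h1
    · exact hc h1
    · exact ⟨hr.nn h1.1, hzt.nn h1.2⟩
  have hF := (S.sl.sc n 8589934592 (by norm_num)).neg.addc 4294967296 0 1 (by norm_num)
  have hM := S.sb.mul ((S.sl.sc (Nat.add (Nat.shiftRight (Nat.mul n n) 32) 1) 25769803776
    (by norm_num)).addc 4294967296 0 1 (by norm_num))
  have hQ : Sat (mkQ F n d _ _ _ _) E _ :=
    (((S.sW.mul ((hA.mul (hPp.inv h2)).sub (hzt.zm 2))).sc (dpf d) 60 (by norm_num)).add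
      (((hPp.mul S.sb).mul ((hF.zm (q1f d)).sub (hM.zm (q2f d)))).sc 1 40 (by norm_num))).sub hze
  have hX := hS.sc 1 7 (by norm_num)
  have ha := hal.add hX
  obtain ⟨y0, i0, j0⟩ := lsub_le S a0 a1 a2 a3 a4
    ((hA.mul (((hQ.zm 2).sub hS).sub (hal.zm 2))).sub ((hal.mul (hal.mul hal)).zm 4))
  obtain ⟨y1, i1, j1⟩ := lsub_le S b0 b1 b2 b3 b4
    (((hA.add hX).mul (hQ.sub ha)).sub ((ha.mul (ha.mul ha)).zm 2))
  have m0 := (j0.nn h3).trans i0
  have m1 := (j1.nn h4).trans i1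
  obtain ⟨dd, d0, d1, e1, e2, e3⟩ := menu d
  have W0 : 0 < W := H.hP.trans_le H.hPW
  have n0 : η ≤ (n : ℝ) / 4294967296 := by linarith
  refine good_of H hrz.1 hrz.2 d0 d1 e1 e2 e3 (Nat.cast_nonneg _) (Nat.cast_nonneg _)
    (F := -((n : ℝ) / (8589934592 : Nat) * l) + 1)
    (M := W⁻¹ * (((Nat.add (Nat.shiftRight (Nat.mul n n) 32) 1 : Nat) : ℝ) /
      (25769803776 : Nat) * l + 1)) ?_ ?_ hS4 rfl ?_ ?_
  · have := mul_le_mul_of_nonneg_left n0 H.hl
    push_cast; linarith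
  · refine mul_le_mul_of_nonneg_left ?_ (by positivity)
    have i1 := dv_lt (Nat.mul n n) 4294967296 (by norm_num)
    rw [sh_eq]
    have i2 : η * 4294967296 * (η * 4294967296) ≤ (n : ℝ) * n :=
      mul_le_mul hn hn (by linarith [H.η0]) (Nat.cast_nonneg _)
    obtain ⟨u, hu⟩ : ∃ u : ℝ, u = ((Nat.div (Nat.mul n n) 4294967296 : Nat) : ℝ) := ⟨_, rfl⟩
    simp only [Nat.add_eq, Nat.cast_add, Nat.cast_one, Nat.cast_ofNat] at i1 ⊢
    rw [← hu] at i1 ⊢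
    simp only [Nat.mul_eq, Nat.cast_mul] at i1
    have i3 : η ^ 2 / 6 ≤ (u + 1) / 25769803776 := by linarith
    have := mul_le_mul_of_nonneg_left i3 H.hl
    linarith
  · refine m0.trans (le_of_eq ?_)
    simp only [Nat.cast_ofNat, Nat.cast_one]
    ring
  · refine m1.trans (le_of_eq ?_)
    simp only [Nat.cast_ofNat, Nat.cast_one]
    ring

theorem simple_r {u v l2 r1 : Nat} (hl : 0 ≤ l) (h2 : (l2 : ℝ) ≤ (s + 1) * 4294967296)
    (hu : (u : ℝ) = 4294967296) (hv : (v : ℝ) = 17592186044416)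
    (h : Nat.mul r1 (Nat.sub u l2) ≤ v) : 0 ≤ l * r1 ∧ 0 ≤ l * (1 + s * r1 / 4096) := by
  have c5 : ((Nat.mul r1 (Nat.sub u l2) : Nat) : ℝ) ≤ v := by exact_mod_cast h
  have c6 := ln_eq u l2
  have h' : (0 : ℝ) ≤ ((Nat.sub l2 u : Nat) : ℝ) := Nat.cast_nonneg _
  simp only [Nat.mul_eq, Nat.cast_mul] at c5
  have r0 : (0 : ℝ) ≤ r1 := Nat.cast_nonneg _
  have c7 : -s * 4294967296 ≤ ((Nat.sub u l2 : Nat) : ℝ) := by linarith
  have c8 := mul_le_mul_of_nonneg_left c7 r0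
  exact ⟨mul_nonneg hl r0, mul_nonneg hl (by linarith)⟩

theorem okF_sound (H : Hyp l T s W P η e g τ D) {F : Fm} (S : FS F E l T s W P e g)
    {l2 n cp cn r1 r2 d si a0 a1 a2 a3 a4 b0 b1 b2 b3 b4 : Nat} (hn : η * 4294967296 ≤ n)
    (a2' : (l2 : ℝ) ≤ (s + 1) * 4294967296)
    (h : okF F l2 n cp cn r1 r2 d si a0 a1 a2 a3 a4 b0 b1 b2 b3 b4 = true) :
    Good l T s W P η e g τ D := by
  unfold okF at h
  simp only [Bool.and_eq_true, Bool.or_eq_true] at h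
  obtain ⟨h1, h2⟩ := h
  have hr := cadd_sat r2 S.sp (cadd_sat r1 S.sl (Sat.cst (x := ((cp : ℝ) - cn) / 65536)
    (Nat.mul cp 65536) (Nat.mul cn 65536) E (by simp only [Nat.mul_eq]; push_cast; ring)))
  have hS : ∃ S4, 4 * (τ + 7 / 2 * D) ≤ S4 ∧ Sat (cond (Nat.beq si 0)
      (sA F (F.sg.mul F.e)) (sB F)) E S4 := by
    cases k : Nat.beq si 0
    · have h3 : F.sg.neg.pos = true := h1.resolve_left (by rw [k]; exact Bool.false_ne_true)
      have h4 := S.sg.neg.pos h3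
      refine ⟨_, ?_, (((S.sl.mul S.sl).mul (S.sg.neg.inv h3)).sub S.g2).zm 7⟩
      have h5 := H.S2 (by linarith)
      have h6 : 4 * (τ + 7 / 2 * D) + 14 * g ≤ 7 * (l * l) * (-(2 * l - 2 * T + s))⁻¹ := by
        rw [← div_eq_mul_inv, le_div_iff₀ h4]; linarith
      push_cast; linarith
    · have hse := S.sg.mul S.se
      refine ⟨_, ?_, (((S.sl.add hse).mul (S.sW.add S.se)).zm 2).add
        (((S.le.sub S.th).add (hse.mul S.se)).zm 7)⟩
      have := H.S1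
      push_cast; linarith
  obtain ⟨S4, hS4, hS⟩ := hS
  refine okR_sound H S hn hS hr hS4 (fun hc => ?_) h2
  simp only [Bool.and_eq_true] at hc
  obtain ⟨c1, c2, c3, c4⟩ := hc
  have c1 := Nat.eq_of_beq_eq_true c1
  have c2 := Nat.eq_of_beq_eq_true c2
  have c3 := Nat.eq_of_beq_eq_true c3
  subst c1 c2 c3
  have c5 := simple_r H.hl a2' (by norm_num) (by norm_num) (Nat.le_of_ble_eq_true c4)
  simp only [Nat.cast_zero]
  constructor <;> linarith [c5.1, c5.2]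

theorem ok_sound (H : Hyp l T s W P η e g τ D) {x : Bx} (I : In x l T s W P e)
    {n cp cn r1 r2 d si a0 a1 a2 a3 a4 b0 b1 b2 b3 b4 : Nat}
    (h : okX x n cp cn r1 r2 d si a0 a1 a2 a3 a4 b0 b1 b2 b3 b4 = true) :
    Good l T s W P η e g τ D := by
  unfold okX at h
  simp only [Bool.and_eq_true] at h
  obtain ⟨bp, hn⟩ := eta_ok H I h.1
  obtain ⟨E, S⟩ := fs_F H I bp hn
  exact okF_sound H S hn I.a2 h.2

theorem In.split {x : Bx} (I : In x l T s W P e) (k m : Nat) :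
    In (x.lo k m) l T s W P e ∨ In (x.hi k m) l T s W P e := by
  obtain ⟨a0, b0, a1, b1, a2, b2, a3, b3, a4, b4, a5, b5⟩ := I
  match k with
  | 0 => exact (le_total _ _).imp (fun h => ⟨a0, h, a1, b1, a2, b2, a3, b3, a4, b4, a5, b5⟩)
          (fun h => ⟨h, b0, a1, b1, a2, b2, a3, b3, a4, b4, a5, b5⟩)
  | 1 => exact (le_total _ _).imp (fun h => ⟨a0, b0, a1, h, a2, b2, a3, b3, a4, b4, a5, b5⟩)
          (fun h => ⟨a0, b0, h, b1, a2, b2, a3, b3, a4, b4, a5, b5⟩)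
  | 2 => exact (le_total _ _).imp (fun h => ⟨a0, b0, a1, b1, a2, h, a3, b3, a4, b4, a5, b5⟩)
          (fun h => ⟨a0, b0, a1, b1, h, b2, a3, b3, a4, b4, a5, b5⟩)
  | 3 => exact (le_total _ _).imp (fun h => ⟨a0, b0, a1, b1, a2, b2, a3, h, a4, b4, a5, b5⟩)
          (fun h => ⟨a0, b0, a1, b1, a2, b2, h, b3, a4, b4, a5, b5⟩)
  | 4 => exact (le_total _ _).imp (fun h => ⟨a0, b0, a1, b1, a2, b2, a3, b3, a4, h, a5, b5⟩)
          (fun h => ⟨a0, b0, a1, b1, a2, b2, a3, b3, h, b4, a5, b5⟩)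
  | _ + 5 =>
    exact (le_total _ _).imp (fun h => ⟨a0, b0, a1, b1, a2, b2, a3, b3, a4, b4, a5, h⟩)
          (fun h => ⟨a0, b0, a1, b1, a2, b2, a3, b3, a4, b4, h, b5⟩)

theorem chk_sound (H : Hyp l T s W P η e g τ D) (t : Tr) :
    ∀ x : Bx, chk t x = true → In x l T s W P e → Good l T s W P η e g τ D := by
  induction t with
  | hand =>
    intro x h I
    have h' : (Nat.ble x.h0 20971520 && Nat.ble x.h2 3758096384) = true := h
    simp only [Bool.and_eq_true] at h'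
    have h1 : (x.h0 : ℝ) ≤ (20971520 : Nat) := by exact_mod_cast Nat.le_of_ble_eq_true h'.1
    have h2 : (x.h2 : ℝ) ≤ (3758096384 : Nat) := by exact_mod_cast Nat.le_of_ble_eq_true h'.2
    push_cast at h1 h2
    exact hand H (by linarith [I.b0]) (by linarith [I.b2])
  | inf eta a0 a1 a2 a3 a4 =>
    intro x h I
    exact (inf_sound H I (n := Nat.mul eta 65536) h).elim
  | ok eta cp cn r1 r2 d si a0 a1 a2 a3 a4 b0 b1 b2 b3 b4 =>
    intro x h I
    exact ok_sound H I (n := Nat.mul eta 65536) h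
  | nd k m A B ihA ihB =>
    intro x h I
    have h' : (chk A (x.lo k m) && chk B (x.hi k m)) = true := h
    simp only [Bool.and_eq_true] at h'
    exact (I.split k m).elim (ihA _ h'.1) (ihB _ h'.2)

theorem root_in (H : Hyp l T s W P η e g τ D) :
    In ⟨0, 715827883, 0, 2147483648, 1073741824, 5905580032, 1431655765, 2863311531,
      6442450944, 12884901888, 0, 1431655766⟩ l T s W P e := by
  have W1 : 3 / 2 ≤ W := H.P1.trans H.hPW
  have W0 : 0 < W := by linarith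
  have b1 : W⁻¹ ≤ 2 / 3 := by rw [inv_le_comm₀ W0 (by norm_num)]; linarith
  have b2 : 1 / 3 ≤ W⁻¹ := by rw [le_inv_comm₀ (by norm_num) W0]; linarith [H.hW]
  have := H.hl; have := H.l1; have := H.hT; have := H.z1; have := H.s1; have := H.P1
  have := H.hPW; have := H.hW; have := H.he; have := H.heη; have := H.η1
  constructor <;> push_cast <;> linarith

end Pool.Agent.Lib.MP_e508a7_gt.KB
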