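import Pool.Agent.Lib.MP_e508a7_gt.Core

set_option autoImplicit false

/-!
Comparison of the volume cut off near the boundary with the integral of the excess of a gauge.
-/

namespace Pool.Agent.Lib.MP_e508a7_gt

open MeasureTheory Set Filter Topology
open scoped ENNReal Pointwise

variable {n : ℕ}

/-- points of a cone between two level sets -/
def Wd (C : Set (Fin n → ℝ)) (γ : (Fin n → ℝ) → ℝ) (a : ℝ) : Set (Fin n → ℝ) :=
  {u | u ∈ C ∧ sm u ≤ a ∧ a < γ u}

lemma radial {C : Set (Fin n → ℝ)} {γ : (Fin n → ℝ) → ℝ} (hC : MeasurableSet C) (hγ : Measurable γ)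
    (hc : ∀ c : ℝ, 0 < c → ∀ u, c • u ∈ C ↔ u ∈ C) (hh : ∀ c : ℝ, 0 < c → ∀ u, γ (c • u) = c * γ u)
    {b : ℝ} (hb : 0 ≤ b) : ∫⁻ u, volume ({a | u ∈ Wd C γ a} ∩ Ioc 0 b) =
      ENNReal.ofReal (b ^ (n + 1) / (n + 1)) * volume (Wd C γ 1) := by
  have hG : MeasurableSet {p : (Fin n → ℝ) × ℝ | p.1 ∈ Wd C γ p.2} :=
    (measurable_fst hC).inter ((measurableSet_le (by fun_prop) measurable_snd).inter
      (measurableSet_lt measurable_snd (by fun_prop)))
  have h1 := Measure.prod_apply (μ := volume) (ν := volume.restrict (Ioc 0 b)) hG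
  have h2 := Measure.prod_apply_symm (μ := volume) (ν := volume.restrict (Ioc 0 b)) hG
  simp only [Measure.restrict_apply' measurableSet_Ioc] at h1
  refine h1.symm.trans (h2.trans ?_)
  have h3 : ∀ a ∈ Ioc 0 b, volume ((fun u => (u, a)) ⁻¹' {p : (Fin n → ℝ) × ℝ | p.1 ∈ Wd C γ p.2}) =
      ENNReal.ofReal (a ^ n) * volume (Wd C γ 1) := by
    intro a ha
    have h4 := Measure.addHaar_smul_of_nonneg volume ha.1.le (Wd C γ 1)
    rw [Module.finrank_fin_fun] at h4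
    rw [← h4]
    congr 1
    ext u
    have h5 := inv_pos.2 ha.1
    rw [mem_smul_set_iff_inv_smul_mem₀ ha.1.ne']
    simp only [Wd, mem_preimage, mem_ofPred_eq, hc _ h5, hh _ h5, sm_smul, inv_mul_le_iff₀ ha.1,
      lt_inv_mul_iff₀ ha.1, mul_one]
  rw [setLIntegral_congr_fun measurableSet_Ioc h3, lintegral_mul_const _ (by fun_prop),
    ← ofReal_integral_eq_lintegral_ofReal (continuous_pow n).integrableOn_Ioc
      ((ae_restrict_mem measurableSet_Ioc).mono fun a ha => pow_nonneg ha.1.le n),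
    ← intervalIntegral.integral_of_le hb, integral_pow, zero_pow (Nat.succ_ne_zero n), sub_zero]

lemma radial_lower {C : Set (Fin n → ℝ)} {γ : (Fin n → ℝ) → ℝ} (hC : MeasurableSet C)
    (hγ : Measurable γ) (hc : ∀ c : ℝ, 0 < c → ∀ u, c • u ∈ C ↔ u ∈ C)
    (hh : ∀ c : ℝ, 0 < c → ∀ u, γ (c • u) = c * γ u) :
    ENNReal.ofReal (1 / (n + 1)) * volume (Wd (C ∩ Qo n) γ 1) ≤
      ∫⁻ u in C ∩ Sx n, ENNReal.ofReal (γ u - sm u) := by
  have h := radial (hC.inter measurableSet_Qo) hγ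
    (fun c h u => and_congr (hc c h u) (smul_mem_Qo h)) hh zero_le_one
  rw [one_pow] at h
  rw [← h, ← lintegral_indicator (hC.inter measurableSet_Sx)]
  refine lintegral_mono fun u => ?_
  by_cases hu : u ∈ C ∩ Sx n
  · rw [indicator_of_mem hu, ← Real.volume_Ico]
    exact measure_mono fun a ha => ha.1.2
  · refine (measure_mono_null (t := ∅) (fun a ha => hu ?_) measure_empty).trans_le zero_le
    exact ⟨ha.1.1.1, ha.1.2.1.trans ha.2.2, ha.1.1.2⟩

lemma radial_upper {γ : (Fin (n + 1) → ℝ) → ℝ} (hγ : Measurable γ)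
    (hh : ∀ c : ℝ, 0 < c → ∀ u, γ (c • u) = c * γ u) {b : ℝ} (hb : 0 ≤ b)
    (hγb : ∀ u ∈ Qo (n + 1), γ u ≤ b * sm u) :
    ∫⁻ u in Sx (n + 1), ENNReal.ofReal (γ u - sm u) ≤
      ENNReal.ofReal (b ^ (n + 2) / ((n + 1 : ℕ) + 1)) * volume (Wd (Qo (n + 1)) γ 1) := by
  rw [← radial measurableSet_Qo hγ (fun c h u => smul_mem_Qo h) hh hb,
    ← lintegral_indicator measurableSet_Sx]
  refine lintegral_mono fun u => ?_
  by_cases hu : u ∈ Sx (n + 1)
  · rw [indicator_of_mem hu, ← Real.volume_Ico]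
    exact measure_mono fun a ha => ⟨⟨hu.2, ha⟩, (sm_pos hu.2).trans_le ha.1,
      ha.2.le.trans ((hγb u hu.2).trans (mul_le_of_le_one_right hb hu.1))⟩
  · rw [indicator_of_notMem hu]
    exact zero_le

end Pool.Agent.Lib.MP_e508a7_gt
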