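import Pool.Agent.Lib.MP_e508a7_gt.Model
import Pool.Agent.Lib.MP_e508a7_gt.Radial

set_option autoImplicit false

/-!
A convex subset of the model simplex that contains the centroids of the facets loses little
volume in the directions of the symmetric part.
-/

namespace Pool.Agent.Lib.MP_e508a7_gt

open MeasureTheory Set Filter Topology
open scoped ENNReal Pointwise

variable {m n : ℕ}

lemma theta {K : Set (Fin n → ℝ)} (hK : Convex ℝ K) (hc : IsClosed K) {θ : ℝ}
    (h : 2 * volume.real (Sp 1 \ K) < volume.real (Bx (n := n) fun _ => 1 - θ)) :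
    Sp (fun _ => θ) ⊆ K := by
  intro p hp
  by_contra hpK
  have hm : MeasurableSet (Sp 1 \ K) := (isClosed_Sp 1).measurableSet.diff hc.measurableSet
  have hf : volume (Sp 1 \ K) ≠ ∞ := ne_top_of_le_ne_top (vol_Sp_ne_top 1) (measure_mono sdiff_subset)
  have h1 : (fun y => y + -p) ⁻¹' (Bx (n := n) fun _ => 1 - θ) ⊆
      (Sp 1 \ K) ∪ (fun y => (p + p) - y) ⁻¹' (Sp 1 \ K) := by
    intro y hy
    have h2 : ∀ j, |Bm n y j - Bm n p j| ≤ 1 - θ := fun j => by
      simpa only [map_sub, Pi.sub_apply, ← sub_eq_add_neg] using hy j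
    by_cases hyK : y ∈ K
    · refine Or.inr ⟨fun j => ?_, fun h3 => hpK ?_⟩
      · have h4 := abs_le.1 (h2 j)
        have h5 := hp j
        simp only [map_sub, map_add, Pi.sub_apply, Pi.add_apply, Pi.one_apply]
        linarith
      · have := hK hyK h3 (a := 1 / 2) (b := 1 / 2) (by norm_num) (by norm_num) (by norm_num)
        convert this using 1
        module
    · refine Or.inl ⟨fun j => ?_, hyK⟩
      have h4 := abs_le.1 (h2 j)
      have h5 := hp j
      rw [Pi.one_apply]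
      linarith
  have h2 := (measure_mono (μ := volume) h1).trans (measure_union_le _ _)
  rw [measure_preimage_add_right, (Measure.measurePreserving_sub_left volume _).measure_preimage
    hm.nullMeasurableSet, ← two_mul] at h2
  have h3 := ENNReal.toReal_mono (ENNReal.mul_ne_top ENNReal.ofNat_ne_top hf) h2
  rw [ENNReal.toReal_mul, ENNReal.toReal_ofNat] at h3
  exact h.not_ge h3

lemma eq_of_sm {k : Fin n} {v w : Fin n → ℝ} (h : ∀ j, j ≠ k → v j = w j) (hs : sm v = sm w) :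
    v = w := by
  funext j
  by_cases hj : j = k
  · rw [sm, sm, ← Finset.add_sum_erase _ _ (Finset.mem_univ k),
      ← Finset.add_sum_erase _ _ (Finset.mem_univ k),
      Finset.sum_congr rfl fun i hi => h i (Finset.ne_of_mem_erase hi)] at hs
    rw [hj]
    exact add_right_cancel hs
  · exact h j hj

lemma Mv.eq {k : Fin n} {t : ℝ} {u v w : Fin n → ℝ} (h : Mv k t u v) (h1 : ∀ j, j < k → w j = u j)
    (h2 : ∀ j, k < j → w j = 0) (h3 : sm w = sm u) : v = (1 - t) • u + t • w := by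
  refine eq_of_sm (k := k) (fun j hj => ?_) ?_
  · rcases lt_or_gt_of_ne hj with hj | hj
    · rw [h.1 j hj, Pi.add_apply, Pi.smul_apply, Pi.smul_apply, h1 j hj, smul_eq_mul, smul_eq_mul]
      ring
    · rw [h.2.1 j hj, Pi.add_apply, Pi.smul_apply, Pi.smul_apply, h2 j hj, smul_zero, add_zero,
        smul_eq_mul]
  · have : sm ((1 - t) • u + t • w) = sm ((1 - t) • u) + sm (t • w) := Finset.sum_add_distrib
    rw [this, sm_smul, sm_smul, h3, h.2.2]
    ring

lemma exists_avg (k : Fin n) (u : Fin n → ℝ) : ∃ G : Finset (Equiv.Perm (Fin (n + 1))),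
    G.Nonempty ∧ ∀ w, w = (G.card : ℝ)⁻¹ • ∑ σ ∈ G, Pm σ u →
      (∀ j, j < k → w j = u j) ∧ (∀ j, k < j → w j = 0) ∧ sm w = sm u := by
  set G : Finset (Equiv.Perm (Fin (n + 1))) :=
    Finset.univ.filter fun σ => ∀ j, j ≤ k.castSucc → σ j = j with hG
  have h0 : G.Nonempty := ⟨1, by simp [hG]⟩
  refine ⟨G, h0, fun w hw => ?_⟩
  have h1 : ∀ j, Bm n w j = (G.card : ℝ)⁻¹ * ∑ σ ∈ G, Bm n u (σ j) := fun j => by
    simp only [hw, map_smul, map_sum, B_P, Pi.smul_apply, Finset.sum_apply, Function.comp_apply,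
      smul_eq_mul]
  have h2 : ∀ j, j ≤ k.castSucc → Bm n w j = Bm n u j := fun j hj => by
    have h2 : ∀ σ ∈ G, Bm n u (σ j) = Bm n u j := fun σ hσ =>
      congrArg _ ((Finset.mem_filter.1 hσ).2 j hj)
    rw [h1, Finset.sum_congr rfl h2, Finset.sum_const, nsmul_eq_mul, inv_mul_cancel_left₀ (Nat.cast_pos.2 h0.card_pos).ne']
  have h3 : ∀ i j, k.castSucc < i → k.castSucc < j → Bm n w i = Bm n w j := fun i j hi hj => by
    rw [h1, h1]
    congr 1
    have h4 : ∀ σ ∈ G, σ * Equiv.swap i j ∈ G := fun σ hσ =>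
      Finset.mem_filter.2 ⟨Finset.mem_univ _, fun l hl => by
        rw [Equiv.Perm.mul_apply, Equiv.swap_apply_of_ne_of_ne (hl.trans_lt hi).ne
          (hl.trans_lt hj).ne, (Finset.mem_filter.1 hσ).2 l hl]⟩
    refine Finset.sum_nbij' (· * Equiv.swap i j) (· * Equiv.swap i j) h4 h4 (by simp) (by simp) ?_
    simp
  refine ⟨fun j hj => ?_, fun j hj => ?_, ?_⟩
  · rw [← Z_B w, ← Z_B u, Zm_apply, Zm_apply, h2 _ (Fin.succ_le_castSucc_iff.2 hj),
      h2 _ (Fin.castSucc_le_castSucc_iff.2 hj.le)]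
  · rw [← Z_B w, Zm_apply, h3 j.succ j.castSucc (Fin.castSucc_lt_succ_iff.2 hj.le)
      (Fin.castSucc_lt_castSucc_iff.2 hj), sub_self, mul_zero]
  · have := h2 0 (Fin.zero_le _)
    rwa [Bm_zero, Bm_zero, neg_inj] at this

/-- the gauge summed over the chambers -/
noncomputable def Ph (K : Set (Fin n → ℝ)) (u : Fin n → ℝ) : ℝ :=
  ∑ π : Equiv.Perm (Fin (n + 1)), gauge K (Pm π u)

lemma Ph_smul (K : Set (Fin n → ℝ)) {c : ℝ} (hc : 0 ≤ c) (u : Fin n → ℝ) :
    Ph K (c • u) = c * Ph K u := by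
  simp only [Ph, map_smul, gauge_smul_of_nonneg hc, smul_eq_mul, Finset.mul_sum]

lemma Ph_add {K : Set (Fin n → ℝ)} (hK : Convex ℝ K) (h0 : K ∈ 𝓝 0) (u v : Fin n → ℝ) :
    Ph K (u + v) ≤ Ph K u + Ph K v := by
  rw [Ph, Ph, Ph, ← Finset.sum_add_distrib]
  exact Finset.sum_le_sum fun π _ => (map_add (Pm π) u v).symm ▸
    gauge_add_le hK (absorbent_nhds_zero h0) _ _

lemma Ph_avg {K : Set (Fin n → ℝ)} (hK : Convex ℝ K) (h0 : K ∈ 𝓝 0)
    {G : Finset (Equiv.Perm (Fin (n + 1)))} (hG : G.Nonempty) (u : Fin n → ℝ) :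
    Ph K ((G.card : ℝ)⁻¹ • ∑ σ ∈ G, Pm σ u) ≤ Ph K u := by
  rw [Ph_smul _ (by positivity), inv_mul_le_iff₀ (Nat.cast_pos.2 hG.card_pos), ← nsmul_eq_mul,
    ← Finset.sum_const]
  simp only [Ph, map_sum, P_P]
  refine (Finset.sum_le_sum fun π _ => gauge_sum_le hK (absorbent_nhds_zero h0) _ _).trans ?_
  rw [Finset.sum_comm]
  exact Finset.sum_le_sum fun σ _ =>
    (Equiv.sum_comp (Equiv.mulLeft σ) fun π => gauge K (Pm π u)).le

lemma inv_app (π : Equiv.Perm (Fin (n + 1))) (j : Fin (n + 1)) : π (π⁻¹ j) = j :=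
  π.apply_symm_apply j

lemma gauge_lower {K : Set (Fin n → ℝ)} (h0 : K ∈ 𝓝 0) (hT : K ⊆ Sp 1)
    (π : Equiv.Perm (Fin (n + 1))) (u : Fin n → ℝ) : sm u ≤ gauge K (Pm π u) := by
  refine le_of_forall_gt_imp_ge_of_dense fun c hc => ?_
  obtain ⟨b, hb, hbc, y, hy, e⟩ := exists_lt_of_gauge_lt (absorbent_nhds_zero h0) hc
  have h1 := congrArg (fun x => Bm n x (π⁻¹ 0)) e
  simp only [map_smul, B_P, Function.comp_apply, inv_app, Bm_zero, Pi.smul_apply,
    smul_eq_mul] at h1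
  have h2 := mul_le_mul_of_nonneg_left (hT hy (π⁻¹ 0)) hb.le
  rw [Pi.one_apply] at h2
  linarith

lemma P_mem_Sp (π : Equiv.Perm (Fin (n + 1))) {u : Fin n → ℝ} (hu : u ∈ Qo n) {θ : ℝ}
    (h : sm u ≤ θ) : Pm π u ∈ Sp fun _ => θ := fun j => by
  have := (mem_Qo_iff.1 hu).monotone (Fin.zero_le (π j))
  rw [Bm_zero] at this
  rw [B_P, Function.comp_apply]
  linarith

lemma gauge_upper {K : Set (Fin (n + 1) → ℝ)} {θ : ℝ} (hθ : 0 < θ) (hK : Sp (fun _ => θ) ⊆ K)
    (π : Equiv.Perm (Fin (n + 2))) {u : Fin (n + 1) → ℝ} (hu : u ∈ Qo (n + 1)) :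
    gauge K (Pm π u) ≤ θ⁻¹ * sm u := by
  have h1 := mul_pos (inv_pos.2 hθ) (sm_pos hu)
  refine gauge_le_of_mem h1.le ((mem_smul_set_iff_inv_smul_mem₀ h1.ne' _ _).2 (hK ?_))
  rw [← map_smul]
  refine P_mem_Sp π ((smul_mem_Qo (inv_pos.2 h1)).2 hu) ?_
  rw [sm_smul, mul_inv, inv_inv, mul_assoc, inv_mul_cancel₀ (sm_pos hu).ne', mul_one]

/-- the local estimate -/
theorem local_est (m : ℕ) : ∃ τ q : ℝ, 1 < τ ∧ 0 ≤ q ∧
    2 * q * volume.real (Sp (n := m + 2) 1) < volume.real (Bx (n := m + 2) 1) ∧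
    ∀ (K : Set (Fin (m + 2) → ℝ)) (θ : ℝ), Convex ℝ K → IsClosed K → K ⊆ Sp 1 →
      (∀ π, Pm π (Pi.single 0 1) ∈ K) → 0 < θ → Sp (fun _ => θ) ⊆ K →
      volume.real ((Sp 1 \ K) ∩ {x | ∀ j, Bm (m + 2) x j ≤ τ * θ}) ≤
        q * θ⁻¹ ^ (m + 3) * volume.real (Sp 1 \ K) := by
  obtain ⟨τ, q, hτ, hq, hlt, hD⟩ := core m
  have hτ' : 1 < (m + 3) * τ - 1 := by
    rw [div_lt_iff₀' (by positivity)] at hτ
    linarith
  have hT := (isClosed_Sp (n := m + 2) 1).measurableSet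
  refine ⟨(m + 3) * τ - 1, q, hτ', hq, ?_, fun K θ hK hc hKT hf hθ hθK => ?_⟩
  · set P : Set (Fin (m + 2) → ℝ) := Sp 1 ∩ ⋃ i, ⋂ j, {x | Bm (m + 2) x j < -Bm (m + 2) x i}
      with hP
    have hPm : MeasurableSet P := hT.inter (.iUnion fun i => .iInter fun j =>
      (isOpen_lt (by fun_prop) (by fun_prop)).measurableSet)
    have hPB : P ⊆ Bx 1 := fun x hx j => by
      obtain ⟨i, hi⟩ := mem_iUnion.1 hx.2
      have h1 : Bm (m + 2) x j < -Bm (m + 2) x i := mem_iInter.1 hi j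
      have h2 : -1 ≤ Bm (m + 2) x i := hx.1 i
      exact abs_le.2 ⟨hx.1 j, show _ ≤ (1 : ℝ) by linarith⟩
    have hB := ne_top_of_le_ne_top (vol_Sp_ne_top 1) (measure_mono (Bx_subset (n := m + 2) 1))
    have h1 : volume.real P + volume.real (-P) ≤ volume.real (Bx (n := m + 2) 1) := by
      rw [← measureReal_union ?_ hPm.neg (ne_top_of_le_ne_top hB (measure_mono hPB))
        (by rw [Measure.measure_neg]; exact ne_top_of_le_ne_top hB (measure_mono hPB))]
      · refine measureReal_mono (union_subset hPB fun x hx j => ?_) hB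
        simpa only [map_neg, Pi.neg_apply, abs_neg] using hPB hx j
      · rw [Set.disjoint_left]
        intro x h1 h2
        obtain ⟨i, hi⟩ := mem_iUnion.1 h1.2
        obtain ⟨i', hi'⟩ := mem_iUnion.1 (mem_neg.1 h2).2
        have h3 : Bm (m + 2) x i' < -Bm (m + 2) x i := mem_iInter.1 hi i'
        have h4 : Bm (m + 2) (-x) i < -Bm (m + 2) (-x) i' := mem_iInter.1 hi' i
        simp only [map_neg, Pi.neg_apply] at h4
        linarith
    have h2 : volume.real (-P) = volume.real P := congrArg ENNReal.toReal (Measure.measure_neg _ _)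
    have h3 : volume.real (Sp (n := m + 2) 1) =
        ∑ _π : Equiv.Perm (Fin (m + 3)), volume.real (Sx (m + 2)) := by
      rw [Measure.real, vol_eq_sum hT, Measure.real,
        ← ENNReal.toReal_sum fun _ _ => volume_Sx_ne_top]
      refine congrArg _ (Finset.sum_congr rfl fun π _ => congrArg _ (Set.ext fun u => ?_))
      exact and_congr_left fun hu => (P_mem_T π).trans (mem_T_iff hu)
    have h4 : ∑ _π : Equiv.Perm (Fin (m + 3)),
        volume.real ({u | tp u < 2 / (m + 3) * sm u} ∩ Sx (m + 2)) ≤ volume.real P := by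
      rw [Measure.real, ← ENNReal.toReal_sum fun _ _ =>
        ne_top_of_le_ne_top volume_Sx_ne_top (measure_mono inter_subset_right)]
      refine ENNReal.toReal_mono (ne_top_of_le_ne_top hB (measure_mono hPB)) ?_
      rw [vol_eq_sum hPm]
      refine Finset.sum_le_sum fun π _ => measure_mono fun u hu =>
        ⟨⟨(P_mem_T π).2 ((mem_T_iff hu.2.2).2 hu.2.1), mem_iUnion.2 ⟨π⁻¹ 0, mem_iInter.2 fun j => ?_⟩⟩,
          hu.2.2⟩
      have h5 := (mem_Qo_iff.1 hu.2.2).monotone (Fin.le_last (π j))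
      have h6 : tp u < 2 / (m + 3) * sm u := hu.1
      rw [div_mul_eq_mul_div, lt_div_iff₀ (by positivity)] at h6
      rw [Bm_last] at h5
      simp only [mem_ofPred_eq, B_P, Function.comp_apply, inv_app, Bm_zero]
      push_cast at h5
      linarith
    have h5 := Finset.sum_lt_sum_of_nonempty
      (Finset.univ_nonempty (α := Equiv.Perm (Fin (m + 3)))) fun _ _ => hlt
    rw [← Finset.mul_sum, ← h3] at h5
    linarith
  have h0 : K ∈ 𝓝 0 := mem_of_superset (Bx_nhds hθ) ((Bx_subset _).trans hθK)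
  have hγ : ∀ π : Equiv.Perm (Fin (m + 3)), Measurable fun u => gauge K (Pm π u) := fun π =>
    ((continuous_gauge hK h0).comp (continuous_Pm π)).measurable
  have hh : ∀ π : Equiv.Perm (Fin (m + 3)), ∀ c : ℝ, 0 < c → ∀ u,
      gauge K (Pm π (c • u)) = c * gauge K (Pm π u) := fun π c hc u => by
    rw [map_smul, gauge_smul_of_nonneg hc.le, smul_eq_mul]
  set N : ℝ := (Fintype.card (Equiv.Perm (Fin (m + 3))) : ℝ) with hN
  have e0 : ∀ u, Ph K u - N * sm u = ∑ π, (gauge K (Pm π u) - sm u) := fun u => by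
    rw [Finset.sum_sub_distrib, Finset.sum_const, Finset.card_univ, nsmul_eq_mul, Ph]
  have e1 : ∀ A : Set (Fin (m + 2) → ℝ), ∫⁻ u in A, ENNReal.ofReal (Ph K u - N * sm u) =
      ∑ π, ∫⁻ u in A, ENNReal.ofReal (gauge K (Pm π u) - sm u) := fun A => by
    rw [← lintegral_finsetSum _ fun π _ => ((hγ π).fun_sub measurable_sm).ennreal_ofReal]
    refine lintegral_congr fun u => ?_
    rw [e0, ENNReal.ofReal_sum_of_nonneg fun π _ => sub_nonneg.2 (gauge_lower h0 hKT π u)]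
  have hm : MeasurableSet (Sp 1 \ K) := hT.diff hc.measurableSet
  have hfin : volume (Sp 1 \ K) ≠ ∞ :=
    ne_top_of_le_ne_top (vol_Sp_ne_top 1) (measure_mono sdiff_subset)
  have hg : ∀ x, x ∉ K ↔ 1 < gauge K x := fun x => by
    rw [← not_le, gauge_le_one_iff_mem_closure hK h0, hc.closure_eq]
  have h1 : ∫⁻ u in Sx (m + 2), ENNReal.ofReal (Ph K u - N * sm u) ≤
      ENNReal.ofReal (θ⁻¹ ^ (m + 3) / ((m + 2 : ℕ) + 1)) * volume (Sp 1 \ K) := by
    rw [e1, vol_eq_sum hm, Finset.mul_sum]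
    refine Finset.sum_le_sum fun π _ => (radial_upper (hγ π) (hh π) (inv_pos.2 hθ).le
      fun u hu => gauge_upper hθ hθK π hu).trans (mul_le_mul_right (measure_mono fun u hu => ?_) _)
    exact ⟨⟨(P_mem_T π).2 ((mem_T_iff hu.1).2 hu.2.1), (hg _).2 hu.2.2⟩, hu.1⟩
  have h2 := hD (fun u => Ph K u - N * sm u)
    ((Finset.measurable_sum _ fun π _ => hγ π).sub (measurable_sm.const_mul _))
    (fun u _ => (e0 u).symm ▸ Finset.sum_nonneg fun π _ => sub_nonneg.2 (gauge_lower h0 hKT π u))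
    (fun c hc u _ => by rw [Ph_smul _ hc.le, sm_smul]; ring)
    (fun k t u v _ ht ht1 hm => by
      obtain ⟨G, hG, h2⟩ := exists_avg k u
      obtain ⟨h3, h4, h5⟩ := h2 _ rfl
      have h6 := Ph_add hK h0 ((1 - t) • u) (t • (G.card : ℝ)⁻¹ • ∑ σ ∈ G, Pm σ u)
      rw [← hm.eq h3 h4 h5, Ph_smul _ (sub_pos.2 ht1).le, Ph_smul _ ht] at h6
      have h7 := mul_le_mul_of_nonneg_left (Ph_avg hK h0 hG u) ht
      rw [hm.2.2]
      linarith)
    (fun t u v hu ht ht1 hm => by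
      have h6 := Ph_add hK h0 ((1 - t) • u) (t • sm u • Pi.single 0 1)
      rw [← hm.eq (fun j hj => absurd hj (Fin.not_lt_zero j)) (fun j hj => by simp [hj.ne'])
        (by rw [sm_smul, sm_single, mul_one]), Ph_smul _ (sub_pos.2 ht1).le, Ph_smul _ ht,
        Ph_smul _ (sm_pos hu).le] at h6
      have h7 : Ph K (Pi.single 0 1) ≤ N := by
        rw [hN, ← Finset.card_univ, ← nsmul_one, ← Finset.sum_const]
        exact Finset.sum_le_sum fun π _ => gauge_le_one_of_mem (hf π)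
      have h8 := mul_le_mul_of_nonneg_left h7 (mul_nonneg ht (sm_pos hu).le)
      rw [hm.2.2]
      linarith)
    (ne_top_of_le_ne_top (ENNReal.mul_ne_top ENNReal.ofReal_ne_top hfin) h1)
  have h3 : ENNReal.ofReal (1 / ((m + 2 : ℕ) + 1)) *
      volume ((Sp 1 \ K) ∩ {x | ∀ j, Bm (m + 2) x j ≤ ((m + 3) * τ - 1) * θ}) ≤
      ∫⁻ u in (Gs (m + 2) τ)ᶜ ∩ Sx (m + 2), ENNReal.ofReal (Ph K u - N * sm u) := by
    rw [e1, vol_eq_sum (hm.inter ?_), Finset.mul_sum]
    · refine Finset.sum_le_sum fun π _ => le_trans (mul_le_mul_right (measure_mono fun u hu => ?_) _)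
        (radial_lower (isOpen_Gs τ).measurableSet.compl (hγ π) (fun c hc u => ?_) (hh π))
      · refine ⟨⟨fun h4 => ?_, hu.2⟩, (mem_T_iff hu.2).1 ((P_mem_T π).1 hu.1.1.1), (hg _).1 hu.1.1.2⟩
        have h5 : τ * sm u < tp u := h4
        have h6 := hu.1.2 (π⁻¹ (Fin.last _))
        have h7 : θ < sm u := not_le.1 fun h => hu.1.1.2 (hθK (P_mem_Sp π hu.2 h))
        rw [B_P, Function.comp_apply, inv_app, Bm_last] at h6
        push_cast at h6
        nlinarith [mul_lt_mul_of_pos_left h5 (by positivity : (0 : ℝ) < m + 3)]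
      · simp only [Gs, mem_compl_iff, mem_ofPred_eq, sm_smul, tp_smul, mul_left_comm τ,
          mul_lt_mul_iff_right₀ hc]
    · rw [ofPred_forall]
      exact .iInter fun j => (isClosed_le (by fun_prop) continuous_const).measurableSet
  have h4 := ENNReal.toReal_mono (ENNReal.mul_ne_top ENNReal.ofReal_ne_top
    (ENNReal.mul_ne_top ENNReal.ofReal_ne_top hfin)) (h3.trans (h2.trans (mul_le_mul_right h1 _)))
  rw [ENNReal.toReal_mul, ENNReal.toReal_mul, ENNReal.toReal_mul,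
    ENNReal.toReal_ofReal (by positivity), ENNReal.toReal_ofReal hq,
    ENNReal.toReal_ofReal (by positivity)] at h4
  refine le_of_mul_le_mul_left (h4.trans_eq ?_) (by positivity)
  rw [Measure.real]
  ring

end Pool.Agent.Lib.MP_e508a7_gt
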