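import Pool.Agent.Lib.MP_e508a7_gt.EnMain

/-!
# Convolutions and the pointwise comparison of a triple convolution with a squared overlap
-/

set_option autoImplicit false

namespace Pool.Agent.Lib.MP_e508a7_gt.Lp

open MeasureTheory Set Filter Topology Pointwise En

variable {n : ℕ}

/-- Convolution of two functions with values in the extended nonnegative reals. -/
noncomputable def cv (f g : E n → ENNReal) (x : E n) : ENNReal := ∫⁻ y, f y * g (x - y)

theorem cv_meas {f g : E n → ENNReal} (hf : Measurable f) (hg : Measurable g) :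
    Measurable (cv f g) :=
  Measurable.lintegral_prod_right' (f := fun p : E n × E n => f p.2 * g (p.1 - p.2)) (by fun_prop)

theorem cv_comm (f g : E n → ENNReal) : cv f g = cv g f := by
  funext x
  rw [cv, cv, ← lintegral_sub_left_eq_self _ x]
  refine lintegral_congr fun y => ?_
  rw [sub_sub_cancel, mul_comm]

theorem cv_assoc {f g h : E n → ENNReal} (hf : Measurable f) (hg : Measurable g)
    (hh : Measurable h) : cv (cv f g) h = cv f (cv g h) := by
  funext x
  simp only [cv]
  rw [lintegral_congr fun y => (lintegral_mul_const _ (by fun_prop)).symm,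
    lintegral_lintegral_swap (by fun_prop)]
  refine lintegral_congr fun a => ?_
  rw [← lintegral_const_mul _ (by fun_prop), ← lintegral_add_right_eq_self _ a]
  refine lintegral_congr fun b => ?_
  rw [add_sub_cancel_right, mul_assoc, show x - (b + a) = x - a - b by abel]

theorem cv_int {f g : E n → ENNReal} (hf : Measurable f) (hg : Measurable g) :
    ∫⁻ x, cv f g x = (∫⁻ x, f x) * ∫⁻ x, g x := by
  simp only [cv]
  rw [lintegral_lintegral_swap (by fun_prop), ← lintegral_mul_const _ hf]
  refine lintegral_congr fun y => ?_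
  rw [lintegral_const_mul _ (by fun_prop), lintegral_sub_right_eq_self g y]

theorem cv_le {f f' g : E n → ENNReal} (hf : Measurable f') (hg : Measurable g) {c : ENNReal}
    {d : ENNReal} (hd : d ≠ ⊤) (h : ∀ y, d * f y ≤ c * f' y) (x : E n) :
    d * cv f g x ≤ c * cv f' g x := by
  rw [cv, cv, ← lintegral_const_mul' _ _ hd, ← lintegral_const_mul _ (by fun_prop)]
  refine lintegral_mono fun y => ?_
  rw [← mul_assoc, ← mul_assoc]
  exact mul_le_mul' (h y) le_rfl

theorem int_half {f : E n → ENNReal} (hf : Measurable f) :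
    ∫⁻ u, f ((1 / 2 : ℝ) • u) = 2 ^ n * ∫⁻ u, f u := by
  have h1 := lintegral_map (μ := (volume : Measure (E n))) (g := fun u : E n => (1 / 2 : ℝ) • u)
    hf (measurable_const_smul _)
  rw [Measure.map_addHaar_smul _ (by norm_num), lintegral_smul_measure,
    finrank_euclideanSpace_fin, abs_of_pos (by positivity), ← inv_pow, smul_eq_mul] at h1
  rw [← h1]
  congr 1
  rw [ENNReal.ofReal_pow (by norm_num)]
  norm_num

theorem ind_le (K : Set (E n)) (y : E n) : ind K y ≤ 1 := by
  by_cases h : y ∈ K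
  · rw [ind_mem h]
  · rw [ind_not h]
    exact zero_le

theorem ind_cases (K : Set (E n)) (y : E n) : ind K y = 0 ∨ (y ∈ K ∧ ind K y = 1) := by
  by_cases h : y ∈ K
  · exact Or.inr ⟨h, ind_mem h⟩
  · exact Or.inl (ind_not h)

/-- The pointwise comparison. -/
theorem key {A B C P Q : Set (E n)} (hA : MeasurableSet A) (hB : MeasurableSet B)
    (hC : MeasurableSet C) (hP : MeasurableSet P) (hQ : MeasurableSet Q)
    (h1 : ∀ a ∈ A, ∀ b ∈ B, a + (1 / 2 : ℝ) • b ∈ P)
    (h2 : ∀ a ∈ C, ∀ b ∈ B, a + (1 / 2 : ℝ) • b ∈ Q) (x : E n) :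
    2 ^ n * cv (cv (ind B) (ind A)) (ind C) x ≤ cv (ind P) (ind Q) x ^ 2 := by
  have mA := ind_meas hA
  have mB := ind_meas hB
  have mC := ind_meas hC
  have mP := ind_meas hP
  have mQ := ind_meas hQ
  have e1 : 2 ^ n * cv (cv (ind B) (ind A)) (ind C) x = ∫⁻ z, ∫⁻ b,
      ind B b * ind A ((1 / 2 : ℝ) • (z - b)) * ind C (x - (1 / 2 : ℝ) • (z + b)) := by
    rw [lintegral_lintegral_swap (by fun_prop), cv_assoc mB mA mC, cv,
      ← lintegral_const_mul _ (by have := cv_meas mA mC; fun_prop)]
    refine lintegral_congr fun b => ?_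
    rw [mul_left_comm, cv, ← int_half (by fun_prop), ← lintegral_sub_right_eq_self _ b,
      ← lintegral_const_mul _ (by fun_prop)]
    refine lintegral_congr fun z => ?_
    rw [mul_assoc, show x - b - (1 / 2 : ℝ) • (z - b) = x - (1 / 2 : ℝ) • (z + b) by module]
  have e2 : cv (ind P) (ind Q) x ^ 2 = ∫⁻ z, ∫⁻ y,
      ind P y * ind Q (x - y) * (ind P (z - y) * ind Q (x - (z - y))) := by
    rw [lintegral_lintegral_swap (by fun_prop), pow_two]
    nth_rewrite 1 [cv]
    rw [← lintegral_mul_const _ (by fun_prop)]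
    refine lintegral_congr fun y => ?_
    rw [lintegral_const_mul _ (by fun_prop), cv,
      lintegral_sub_right_eq_self (fun u => ind P u * ind Q (x - u)) y]
  rw [e1, e2]
  refine lintegral_mono fun z => ?_
  have h3 := pl
    (f := fun b => ind B b * ind A ((1 / 2 : ℝ) • (z - b)) * ind C (x - (1 / 2 : ℝ) • (z + b)))
    (g := fun b => ind B (z - b) * ind A ((1 / 2 : ℝ) • (z - (z - b))) *
      ind C (x - (1 / 2 : ℝ) • (z + (z - b))))
    (h := fun y => ind P y * ind Q (x - y) * (ind P (z - y) * ind Q (x - (z - y))))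
    (by fun_prop) (by fun_prop) (by fun_prop) fun a b => by
      rcases ind_cases B a with k1 | ⟨k1, l1⟩
      · simp only [k1, zero_mul, zero_le]
      rcases ind_cases A ((1 / 2 : ℝ) • (z - a)) with k2 | ⟨k2, l2⟩
      · simp only [k2, zero_mul, mul_zero, zero_le]
      rcases ind_cases C (x - (1 / 2 : ℝ) • (z + a)) with k3 | ⟨k3, l3⟩
      · simp only [k3, zero_mul, mul_zero, zero_le]
      rcases ind_cases B (z - b) with k4 | ⟨k4, l4⟩
      · simp only [k4, zero_mul, mul_zero, zero_le]
      rcases ind_cases A ((1 / 2 : ℝ) • (z - (z - b))) with k5 | ⟨k5, l5⟩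
      · simp only [k5, zero_mul, mul_zero, zero_le]
      rcases ind_cases C (x - (1 / 2 : ℝ) • (z + (z - b))) with k6 | ⟨k6, l6⟩
      · simp only [k6, mul_zero, zero_le]
      have j1 := h1 _ k5 _ k1
      have j2 := h2 _ k3 _ k4
      have j3 := h1 _ k2 _ k4
      have j4 := h2 _ k6 _ k1
      rw [show (1 / 2 : ℝ) • (z - (z - b)) + (1 / 2 : ℝ) • a = (1 / 2 : ℝ) • (a + b) by module]
        at j1
      rw [show x - (1 / 2 : ℝ) • (z + a) + (1 / 2 : ℝ) • (z - b) =
        x - (1 / 2 : ℝ) • (a + b) by module] at j2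
      rw [show (1 / 2 : ℝ) • (z - a) + (1 / 2 : ℝ) • (z - b) =
        z - (1 / 2 : ℝ) • (a + b) by module] at j3
      rw [show x - (1 / 2 : ℝ) • (z + (z - b)) + (1 / 2 : ℝ) • a =
        x - (z - (1 / 2 : ℝ) • (a + b)) by module] at j4
      simp only [l1, l2, l3, l4, l5, l6, ind_mem j1, ind_mem j2, ind_mem j3, ind_mem j4, mul_one,
        one_pow, le_refl]
  rw [lintegral_sub_left_eq_self (fun b => ind B b * ind A ((1 / 2 : ℝ) • (z - b)) *
    ind C (x - (1 / 2 : ℝ) • (z + b))) z, ← pow_two] at h3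
  exact (ENNReal.pow_le_pow_left_iff two_ne_zero).1 h3

end Pool.Agent.Lib.MP_e508a7_gt.Lp
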