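import Pool.Agent.Lib.MP_e508a7_gt.EnMain

/-!
# From a best-centre bound with polynomial loss to the clean bound at the centroid
-/

set_option autoImplicit false

namespace Pool.Agent.Lib.MP_e508a7_gt.En

open MeasureTheory Set Filter Topology

theorem le_one_of_poly {r C : ℝ} {d : ℕ} (h : ∀ j : ℕ, r ^ j ≤ C * ((j : ℝ) + 1) ^ d) : r ≤ 1 := by
  by_contra hr
  rw [not_le] at hr
  have h1 := ((tendsto_pow_const_div_const_pow_of_one_lt d hr).comp
    (tendsto_add_atTop_nat 1)).const_mul (C * r)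
  rw [mul_zero] at h1
  obtain ⟨j, hj⟩ := (h1.eventually (gt_mem_nhds one_pos)).exists
  have h2 : 0 < r ^ (j + 1) := by positivity
  simp only [Function.comp_apply] at hj
  rw [← mul_div_assoc, div_lt_one h2, pow_succ] at hj
  push_cast at hj
  nlinarith [mul_le_mul_of_nonneg_right (h j) (by linarith : (0 : ℝ) ≤ r)]

theorem transfer {B : ENNReal} {C : ENNReal} {m j n : ℕ}
    (H : ∀ L : Set (E (j * n)), Convex ℝ L → IsCompact L → ∀ M : ENNReal,
      (∀ x, volume (ov L x) ≤ M) → B * volume L ^ m ≤ C * M ^ m)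
    {L : Set (Fin j → E n)} (hL : Convex ℝ L) (hc : IsCompact L) {M : ENNReal}
    (hM : ∀ x, volume {y | y ∈ L ∧ x - y ∈ L} ≤ M) : B * volume L ^ m ≤ C * M ^ m := by
  have e : (Fin j → E n) ≃L[ℝ] E (j * n) := ContinuousLinearEquiv.ofFinrankEq (by
    simp [Module.finrank_pi_fintype])
  have : (Measure.map e (volume : Measure (Fin j → E n))).IsAddHaarMeasure :=
    e.isAddHaarMeasure_map _
  obtain ⟨a, ha0, ha⟩ : ∃ a : NNReal, a ≠ 0 ∧
      Measure.map e (volume : Measure (Fin j → E n)) = a • (volume : Measure (E (j * n))) :=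
    ⟨_, (Measure.addHaarScalarFactor_pos_of_isAddHaarMeasure _ _).ne',
      Measure.isAddLeftInvariant_eq_smul _ _⟩
  have hS : ∀ S : Set (Fin j → E n), volume S = (a : ENNReal) * volume (e.symm ⁻¹' S) := by
    intro S
    have h1 := e.toHomeomorph.toMeasurableEquiv.map_apply (μ := volume) (e.symm ⁻¹' S)
    have h2 : (e.toHomeomorph.toMeasurableEquiv : (Fin j → E n) → E (j * n)) = e := rfl
    have h6 : e ⁻¹' (e.symm ⁻¹' S) = S := by
      ext y
      simp
    rw [h2, ha, h6] at h1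
    exact h1.symm
  have ha1 : (a : ENNReal) ≠ 0 := ENNReal.coe_ne_zero.2 ha0
  have h3 := H (e.symm ⁻¹' L) (hL.linear_preimage e.symm.toLinearEquiv.toLinearMap)
    (e.symm.toHomeomorph.isCompact_preimage.2 hc) ((a : ENNReal)⁻¹ * M) fun x => by
      have h4 := hM (e.symm x)
      rw [hS] at h4
      have h5 : ov (e.symm ⁻¹' L) x = e.symm ⁻¹' {y | y ∈ L ∧ e.symm x - y ∈ L} := by
        ext y
        simp [ov]
      rw [h5]
      calc _ = (a : ENNReal)⁻¹ * (a * _) :=
            (ENNReal.inv_mul_cancel_left ha1 ENNReal.coe_ne_top).symm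
        _ ≤ _ := mul_le_mul' le_rfl h4
  rw [hS L]
  calc B * ((a : ENNReal) * volume (e.symm ⁻¹' L)) ^ m
      = (a : ENNReal) ^ m * (B * volume (e.symm ⁻¹' L) ^ m) := by ring
    _ ≤ (a : ENNReal) ^ m * (C * ((a : ENNReal)⁻¹ * M) ^ m) := mul_le_mul' le_rfl h3
    _ = C * ((a : ENNReal) * ((a : ENNReal)⁻¹ * M)) ^ m := by ring
    _ = _ := by rw [ENNReal.mul_inv_cancel_left ha1 ENNReal.coe_ne_top]

/-- The part of the power of `K` below height one. -/
def low {n : ℕ} (K : Set (E n)) (ξ : E n →L[ℝ] ℝ) (j : ℕ) : Set (Fin j → E n) :=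
  (univ.pi fun _ => K) ∩ {y | ∑ i, ξ (y i) ≤ 1}

theorem low_mass {n : ℕ} {K : Set (E n)} (hc : IsCompact K) (h0 : (∫ x in K, x) = 0)
    (ξ : E n →L[ℝ] ℝ) {R : ℝ} (hR : ∀ y ∈ K, -R ≤ ξ y) (j : ℕ) :
    (volume K).toReal ^ j ≤ (1 + j * R) * (volume (low K ξ j)).toReal := by
  have hm := hc.measurableSet
  have hP : IsCompact (univ.pi fun _ : Fin j => K) := isCompact_univ_pi fun _ => hc
  have hI : ∀ i : Fin j, ∫ y in univ.pi fun _ : Fin j => K, ξ (y i) = 0 := by
    intro i
    have h1 := integral_fintype_prod_volume_eq_prod (𝕜 := ℝ) (E := fun _ : Fin j => E n)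
      fun l => K.indicator fun z => if l = i then ξ z else 1
    have h3 : IntegrableOn (fun y : E n => y) K :=
      ContinuousOn.integrableOn_compact hc (by fun_prop)
    rw [Finset.prod_eq_zero (Finset.mem_univ i) (by
      simp only [if_true]
      rw [integral_indicator hm, ξ.integral_comp_comm h3, h0, map_zero])] at h1
    rw [← h1, ← integral_indicator hP.measurableSet]
    refine integral_congr_ae (ae_of_all _ fun y => ?_)
    by_cases hy : y ∈ univ.pi fun _ : Fin j => K
    · simp only [indicator_of_mem hy, indicator_of_mem (hy _ (mem_univ _))]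
      simp
    · rw [indicator_of_notMem hy]
      simp only [Set.mem_pi, mem_univ, forall_true_left, not_forall] at hy
      obtain ⟨l, hl⟩ := hy
      exact (Finset.prod_eq_zero (Finset.mem_univ l) (indicator_of_notMem hl _)).symm
  have h4 : IntegrableOn (fun _ : Fin j → E n => (1 : ℝ)) (univ.pi fun _ : Fin j => K) :=
    ContinuousOn.integrableOn_compact hP (by fun_prop)
  have h5 : ∀ i : Fin j, IntegrableOn (fun y : Fin j → E n => ξ (y i))
      (univ.pi fun _ : Fin j => K) := fun i =>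
    ContinuousOn.integrableOn_compact hP (by fun_prop)
  have h6 : ∫ y in univ.pi fun _ : Fin j => K, (1 - ∑ i, ξ (y i)) = (volume K).toReal ^ j := by
    rw [integral_sub h4 (integrable_finsetSum _ fun i _ => h5 i),
      integral_finsetSum _ fun i _ => h5 i]
    simp [hI, Measure.real, volume_pi_pi]
  have hT : MeasurableSet {y : Fin j → E n | ∑ i, ξ (y i) ≤ 1} :=
    (isClosed_le (by fun_prop) continuous_const).measurableSet
  have h7 : ∫ y in univ.pi fun _ : Fin j => K,
      {y : Fin j → E n | ∑ i, ξ (y i) ≤ 1}.indicator (fun _ => 1 + j * R) y =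
      (1 + j * R) * (volume (low K ξ j)).toReal := by
    rw [setIntegral_indicator hT]
    simp [low, Measure.real, mul_comm]
  rw [← h6, ← h7]
  refine setIntegral_mono_on (h4.sub (integrable_finsetSum _ fun i _ => h5 i))
    ((ContinuousOn.integrableOn_compact hP (by fun_prop)).indicator hT) hP.measurableSet
    fun y hy => ?_
  by_cases h8 : ∑ i, ξ (y i) ≤ 1
  · rw [indicator_of_mem (show y ∈ {y : Fin j → E n | ∑ i, ξ (y i) ≤ 1} from h8)]
    have h9 : ∑ _i : Fin j, -R ≤ ∑ i, ξ (y i) :=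
      Finset.sum_le_sum fun i _ => hR _ (hy i (mem_univ _))
    simp at h9
    linarith
  · rw [indicator_of_notMem (show y ∉ {y : Fin j → E n | ∑ i, ξ (y i) ≤ 1} from h8)]
    linarith

theorem low_ov {n : ℕ} {K : Set (E n)} {ξ : E n →L[ℝ] ℝ} {t : ℝ}
    (hξ : ∀ x, volume (ov K x) ≤ ENNReal.ofReal (Real.exp (t + ξ x))) (j : ℕ)
    (x : Fin j → E n) : volume {y | y ∈ low K ξ j ∧ x - y ∈ low K ξ j} ≤
      ENNReal.ofReal (Real.exp (j * t + 2)) := by
  rcases eq_empty_or_nonempty {y | y ∈ low K ξ j ∧ x - y ∈ low K ξ j} with h | ⟨y, hy⟩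
  · rw [h, measure_empty]
    exact zero_le
  have h1 : ∑ i, ξ (x i) ≤ 2 := by
    have h2 : ∑ i, ξ (y i) ≤ 1 := hy.1.2
    have h3 : ∑ i, ξ ((x - y) i) ≤ 1 := hy.2.2
    simp only [Pi.sub_apply, map_sub, Finset.sum_sub_distrib] at h3
    linarith
  calc _ ≤ volume (univ.pi fun i => ov K (x i)) :=
        measure_mono fun z hz i _ => ⟨hz.1.1 i (mem_univ _), hz.2.1 i (mem_univ _)⟩
    _ = ∏ i, volume (ov K (x i)) := volume_pi_pi _
    _ ≤ ∏ i, ENNReal.ofReal (Real.exp (t + ξ (x i))) := Finset.prod_le_prod' fun i _ => hξ _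
    _ = ENNReal.ofReal (Real.exp (∑ i, (t + ξ (x i)))) := by
        rw [Real.exp_sum, ENNReal.ofReal_prod_of_nonneg fun i _ => (Real.exp_pos _).le]
    _ ≤ _ := by
        refine ENNReal.ofReal_le_ofReal (Real.exp_le_exp.2 ?_)
        rw [Finset.sum_add_distrib]
        simp
        linarith

theorem centred_of_best {q A : ℝ} {k m : ℕ} (hq : 0 < q) (hA : 0 < A)
    (H : ∀ (N : ℕ) (L : Set (E N)), Convex ℝ L → IsCompact L → ∀ M : ENNReal,
      (∀ x, volume (ov L x) ≤ M) → ENNReal.ofReal (q ^ N) * volume L ^ m ≤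
        ENNReal.ofReal (A * ((N : ℝ) + 1) ^ k) * M ^ m)
    {n : ℕ} {K : Set (E n)} (hK : Convex ℝ K) (hc : IsCompact K) (h0 : (∫ x in K, x) = 0) :
    ENNReal.ofReal (q ^ n) * volume K ^ m ≤ volume (ov K 0) ^ m := by
  have hf : volume K ≠ ⊤ := hc.measure_lt_top.ne
  have hf2 : volume (ov K 0) < ⊤ :=
    lt_of_le_of_lt (measure_mono fun y hy => hy.1) hc.measure_lt_top
  have : (𝓝[>] (volume (ov K 0))).NeBot := nhdsGT_neBot_of_exists_gt ⟨⊤, hf2⟩
  refine ge_of_tendsto (((ENNReal.continuous_pow m).tendsto _).mono_left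
    (nhdsWithin_le_nhds (s := Ioi (volume (ov K 0))))) ?_
  filter_upwards [Ioo_mem_nhdsGT hf2] with M hM
  have hM0 : M ≠ 0 := (lt_of_le_of_lt zero_le hM.1).ne'
  have eM : ENNReal.ofReal (Real.exp (Real.log M.toReal)) = M := by
    rw [Real.exp_log (ENNReal.toReal_pos hM0 hM.2.ne), ENNReal.ofReal_toReal hM.2.ne]
  obtain ⟨ξ, hξ⟩ := exists_tilt hK hc (t := Real.log M.toReal) (by rw [eM]; exact hM.1)
  rw [← eM]
  generalize Real.log M.toReal = t at hξ
  obtain ⟨R, hR⟩ := hc.exists_bound_of_continuousOn (f := fun y => ξ y) (by fun_prop)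
  have hR0 : 0 ≤ |R| := abs_nonneg R
  have hR1 : ∀ y ∈ K, -|R| ≤ ξ y := fun y hy => by
    have := hR y hy
    rw [Real.norm_eq_abs] at this
    linarith [le_abs_self R, neg_abs_le (ξ y)]
  have hv : 0 ≤ (volume K).toReal := ENNReal.toReal_nonneg
  have he : 0 < Real.exp t ^ m := by positivity
  have key := le_one_of_poly (r := q ^ n * (volume K).toReal ^ m / Real.exp t ^ m)
    (C := A * ((n : ℝ) + 1) ^ k * Real.exp 2 ^ m * (1 + |R|) ^ m) (d := k + m) fun j => by
    have hLc : IsCompact (low K ξ j) := (isCompact_univ_pi fun _ => hc).inter_right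
      (isClosed_le (by fun_prop) continuous_const)
    have hLv : Convex ℝ (low K ξ j) := (convex_pi fun _ _ => hK).inter (by
      intro a ha b hb s u hs hu hsu
      have h1 : ∑ i, ξ (a i) ≤ 1 := ha
      have h2 : ∑ i, ξ (b i) ≤ 1 := hb
      show ∑ i, ξ ((s • a + u • b) i) ≤ 1
      simp only [Pi.add_apply, Pi.smul_apply, map_add, map_smul, smul_eq_mul,
        Finset.sum_add_distrib, ← Finset.mul_sum]
      nlinarith)
    have h1 := transfer (H (j * n)) hLv hLc (low_ov hξ j)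
    have h2 := ENNReal.toReal_mono (ENNReal.mul_ne_top ENNReal.ofReal_ne_top
      (ENNReal.pow_ne_top ENNReal.ofReal_ne_top)) h1
    rw [ENNReal.toReal_mul, ENNReal.toReal_mul, ENNReal.toReal_pow, ENNReal.toReal_pow,
      ENNReal.toReal_ofReal (by positivity), ENNReal.toReal_ofReal (by positivity),
      ENNReal.toReal_ofReal (by positivity)] at h2
    have h3 := pow_le_pow_left₀ (by positivity) (low_mass hc h0 ξ hR1 j) m
    have hj : (0 : ℝ) ≤ j := Nat.cast_nonneg j
    have hn : (0 : ℝ) ≤ n := Nat.cast_nonneg n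
    have h4 : (((j * n : ℕ) : ℝ) + 1) ^ k ≤ (((n : ℝ) + 1) * ((j : ℝ) + 1)) ^ k :=
      pow_le_pow_left₀ (by positivity) (by push_cast; nlinarith) k
    have h5 : (1 + j * |R|) ^ m ≤ ((1 + |R|) * ((j : ℝ) + 1)) ^ m :=
      pow_le_pow_left₀ (by positivity) (by nlinarith) m
    rw [div_pow, div_le_iff₀ (by positivity)]
    calc (q ^ n * (volume K).toReal ^ m) ^ j
        = q ^ (j * n) * ((volume K).toReal ^ j) ^ m := by ring
      _ ≤ q ^ (j * n) * ((1 + j * |R|) * (volume (low K ξ j)).toReal) ^ m := by gcongr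
      _ = (1 + j * |R|) ^ m * (q ^ (j * n) * (volume (low K ξ j)).toReal ^ m) := by
          rw [mul_pow]
          ring
      _ ≤ ((1 + |R|) * ((j : ℝ) + 1)) ^ m * (A * (((n : ℝ) + 1) * ((j : ℝ) + 1)) ^ k *
          Real.exp (j * t + 2) ^ m) := by
          refine mul_le_mul h5 (h2.trans ?_) (by positivity) (by positivity)
          gcongr
      _ = _ := by
          rw [Real.exp_add, Real.exp_nat_mul, mul_pow, mul_pow, mul_pow]
          ring
  rw [div_le_one he] at key
  rw [← ENNReal.ofReal_toReal hf, ← ENNReal.ofReal_pow hv, ← ENNReal.ofReal_mul (by positivity),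
    ← ENNReal.ofReal_pow (Real.exp_pos _).le]
  exact ENNReal.ofReal_le_ofReal key

end Pool.Agent.Lib.MP_e508a7_gt.En
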