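import Pool.Agent.Lib.MP_e508a7_gt.LpConv

/-!
# From convex bodies to functions with convex level sets
-/

set_option autoImplicit false

namespace Pool.Agent.Lib.MP_e508a7_gt.Lp

open MeasureTheory Set Filter Topology Pointwise En

variable {n : ℕ}

theorem layer {φ : E n → ENNReal} (hφ : Measurable φ) {T : Set (E n)} (hT : MeasurableSet T)
    (h0 : ∀ x, x ∉ T → φ x = 0) {a A γ : ENNReal}
    (hA : ∀ k : ℕ, γ * ((a * 2 ^ k) ^ 2 * volume {x | a * 2 ^ k ≤ φ x}) ≤ A) (N : ℕ) :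
    γ * ∫⁻ x, min (φ x) (a * 2 ^ N) ^ 2 ≤ γ * (a ^ 2 * volume T) + 4 * N * A := by
  induction N with
  | zero =>
    rw [Nat.cast_zero, mul_zero, zero_mul, add_zero, ← int_ind hT,
      ← lintegral_const_mul _ (ind_meas hT)]
    refine mul_le_mul' le_rfl (lintegral_mono fun x => ?_)
    by_cases hx : x ∈ T
    · rw [ind_mem hx, mul_one, pow_zero, mul_one]
      exact pow_le_pow_left' (min_le_right _ _) 2
    · simp [h0 x hx]
  | succ N ih =>
    have hm : MeasurableSet {x | a * 2 ^ N ≤ φ x} := measurableSet_le measurable_const hφ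
    have h1 : ∫⁻ x, min (φ x) (a * 2 ^ (N + 1)) ^ 2 ≤ (∫⁻ x, min (φ x) (a * 2 ^ N) ^ 2) +
        4 * ((a * 2 ^ N) ^ 2 * volume {x | a * 2 ^ N ≤ φ x}) := by
      rw [← int_ind hm, ← mul_assoc, ← lintegral_const_mul _ (ind_meas hm),
        ← lintegral_add_left (by fun_prop)]
      refine lintegral_mono fun x => ?_
      by_cases hx : a * 2 ^ N ≤ φ x
      · rw [ind_mem (K := {x | a * 2 ^ N ≤ φ x}) hx, mul_one]
        refine le_trans ?_ le_add_self
        refine (pow_le_pow_left' (min_le_right _ _) 2).trans (le_of_eq ?_)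
        ring
      · refine le_trans ?_ le_self_add
        rw [min_eq_left (not_le.1 hx).le]
        exact pow_le_pow_left' (min_le_left _ _) 2
    refine (mul_le_mul' le_rfl h1).trans ?_
    rw [mul_add, mul_left_comm γ 4]
    refine (add_le_add ih (mul_le_mul' le_rfl (hA N))).trans (le_of_eq ?_)
    push_cast
    ring

/-- The largest overlap of `K` with a reflected copy. -/
noncomputable def sp (K : Set (E n)) : ENNReal := ⨆ x, volume (ov K x)

/-- Every compact convex set has a reflected copy that overlaps it in the share `γ`. -/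
def Good (n : ℕ) (γ : ENNReal) : Prop :=
  ∀ K : Set (E n), Convex ℝ K → IsCompact K → γ * volume K ≤ sp K

theorem func {γ : ENNReal} (hγ : Good n γ) {φ : E n → ENNReal} (hφ : Measurable φ)
    {T : Set (E n)} (hT : MeasurableSet T) (h0 : ∀ x, x ∉ T → φ x = 0)
    (hL : ∀ l : ENNReal, l ≠ 0 → Convex ℝ {x | l ≤ φ x} ∧ IsCompact {x | l ≤ φ x})
    {a M : ENNReal} (ha : a ≠ 0) (N : ℕ) (hN : ∀ x, φ x ≤ a * 2 ^ N)
    (hM : ∀ x, cv φ φ x ≤ M) :
    γ * ∫⁻ x, φ x ^ 2 ≤ γ * (a ^ 2 * volume T) + 4 * N * M := by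
  have h1 := layer hφ hT h0 (a := a) (A := M) (γ := γ) (fun k => ?_) N
  · simpa only [min_eq_left (hN _)] using h1
  obtain ⟨c1, c2⟩ := hL (a * 2 ^ k) (mul_ne_zero ha (by positivity))
  rw [mul_left_comm]
  refine (mul_le_mul' le_rfl (hγ _ c1 c2)).trans ?_
  rw [sp, ENNReal.mul_iSup]
  refine iSup_le fun x => le_trans ?_ (hM x)
  have m1 := ind_meas c2.measurableSet
  rw [← int_ov c2.measurableSet, ← lintegral_const_mul _ (by fun_prop)]
  refine lintegral_mono fun y => ?_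
  rcases ind_cases {x | a * 2 ^ k ≤ φ x} y with k1 | ⟨k1, l1⟩
  · simp only [k1, zero_mul, mul_zero, zero_le]
  rcases ind_cases {x | a * 2 ^ k ≤ φ x} (x - y) with k2 | ⟨k2, l2⟩
  · simp only [k2, mul_zero, zero_le]
  rw [l1, l2, mul_one, mul_one, pow_two]
  exact mul_le_mul' k1 k2

/-- The overlap of `P` with `x - Q`. -/
def ow (P Q : Set (E n)) (x : E n) : Set (E n) := {y | y ∈ P ∧ x - y ∈ Q}

theorem ow_meas {P Q : Set (E n)} (hP : MeasurableSet P) (hQ : MeasurableSet Q) (x : E n) :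
    MeasurableSet (ow P Q x) :=
  hP.inter (hQ.preimage (measurable_const.sub measurable_id))

theorem cv_ow {P Q : Set (E n)} (hP : MeasurableSet P) (hQ : MeasurableSet Q) (x : E n) :
    cv (ind P) (ind Q) x = volume (ow P Q x) := by
  rw [← int_ind (ow_meas hP hQ x)]
  refine lintegral_congr fun y => ?_
  by_cases h1 : y ∈ P
  · by_cases h2 : x - y ∈ Q
    · rw [ind_mem h1, ind_mem h2, ind_mem (show y ∈ ow P Q x from ⟨h1, h2⟩), mul_one]
    · rw [ind_not h2, mul_zero, ind_not fun h : y ∈ ow P Q x => h2 h.2]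
  · rw [ind_not h1, zero_mul, ind_not fun h : y ∈ ow P Q x => h1 h.1]

theorem ow_mid {P Q : Set (E n)} (hP : Convex ℝ P) (hQ : Convex ℝ Q) (mP : MeasurableSet P)
    (mQ : MeasurableSet Q) (p q : E n) :
    volume (ow P Q p) * volume (ow P Q q) ≤ volume (ow P Q ((1 / 2 : ℝ) • (p + q))) ^ 2 := by
  rw [← int_ind (ow_meas mP mQ _), ← int_ind (ow_meas mP mQ _), ← int_ind (ow_meas mP mQ _)]
  refine pl (ind_meas (ow_meas mP mQ _)) (ind_meas (ow_meas mP mQ _))
    (ind_meas (ow_meas mP mQ _)) fun a b => ?_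
  rcases ind_cases (ow P Q p) a with k1 | ⟨ha, l1⟩
  · simp only [k1, zero_mul, zero_le]
  rcases ind_cases (ow P Q q) b with k2 | ⟨hb, l2⟩
  · simp only [k2, mul_zero, zero_le]
  have h2 : (1 / 2 : ℝ) • (a + b) ∈ ow P Q ((1 / 2 : ℝ) • (p + q)) := by
    have h3 := hP ha.1 hb.1 (a := 1 / 2) (b := 1 / 2) (by norm_num) (by norm_num) (by norm_num)
    have h4 := hQ ha.2 hb.2 (a := 1 / 2) (b := 1 / 2) (by norm_num) (by norm_num) (by norm_num)
    have h5 : (1 / 2 : ℝ) • (p + q) - (1 / 2 : ℝ) • (a + b) =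
        (1 / 2 : ℝ) • (p - a) + (1 / 2 : ℝ) • (q - b) := by module
    exact ⟨by rwa [smul_add], by rwa [h5]⟩
  rw [l1, l2, ind_mem h2, mul_one, one_pow]

theorem ow_usc {P Q : Set (E n)} (hP : IsCompact P) (hQ : IsCompact Q) :
    UpperSemicontinuous fun x => volume (ow P Q x) := by
  intro x r hr
  obtain ⟨U, hU, hUo, hUr⟩ := Set.exists_isOpen_lt_of_lt _ r hr
  have h1 : IsClosed ((P \ U) + Q) := ((hP.diff hUo).add hQ).isClosed
  have h2 : x ∈ ((P \ U) + Q)ᶜ := by
    rintro ⟨a, ha, b, hb, e⟩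
    exact ha.2 (hU ⟨ha.1, by rw [← e]; simpa using hb⟩)
  filter_upwards [h1.isOpen_compl.mem_nhds h2] with z hz
  refine lt_of_le_of_lt (measure_mono fun y hy => ?_) hUr
  by_contra hy2
  exact hz ⟨y, ⟨hy.1, hy2⟩, z - y, hy.2, by simp⟩

theorem ow_zero {P Q : Set (E n)} {x : E n} (hx : x ∉ P + Q) : volume (ow P Q x) = 0 := by
  rw [show ow P Q x = ∅ from eq_empty_of_forall_notMem fun y hy =>
    hx ⟨y, hy.1, x - y, hy.2, by simp⟩, measure_empty]

theorem ow_level {P Q : Set (E n)} (hP : Convex ℝ P) (hQ : Convex ℝ Q) (cP : IsCompact P)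
    (cQ : IsCompact Q) {l : ENNReal} (hl : l ≠ 0) :
    Convex ℝ {x | l ≤ volume (ow P Q x)} ∧ IsCompact {x | l ≤ volume (ow P Q x)} := by
  have h1 : IsClosed {x | l ≤ volume (ow P Q x)} := (ow_usc cP cQ).isClosed_preimage l
  refine ⟨convex_of_mid h1 fun p hp q hq => ?_, (cP.add cQ).of_isClosed_subset h1 fun x hx => ?_⟩
  · have h2 := (mul_le_mul' hp hq).trans (ow_mid hP hQ cP.measurableSet cQ.measurableSet p q)
    rw [← pow_two] at h2
    exact (ENNReal.pow_le_pow_left_iff two_ne_zero).1 h2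
  · by_contra h2
    exact hl (le_antisymm (le_trans hx (ow_zero h2).le) zero_le)

end Pool.Agent.Lib.MP_e508a7_gt.Lp
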