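import Pool.Agent.Lib.MP_e508a7_gt.LpLayer

/-!
# The self-improving inequality for the best centre
-/

set_option autoImplicit false

namespace Pool.Agent.Lib.MP_e508a7_gt.Lp

open MeasureTheory Set Filter Topology Pointwise En

variable {n : ℕ}

/-- The indicator function of the dilate of `K` by the natural number `s`. -/
noncomputable def dil (K : Set (E n)) (s : ℕ) : E n → ENNReal := ind ((s : ℝ) • K)

theorem vol_dil (K : Set (E n)) (s : ℕ) : volume ((s : ℝ) • K) = (s : ENNReal) ^ n * volume K := by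
  rw [Measure.addHaar_smul_of_nonneg _ (Nat.cast_nonneg s), finrank_euclideanSpace_fin,
    ENNReal.ofReal_pow (Nat.cast_nonneg s), ENNReal.ofReal_natCast]

theorem dil_meas {K : Set (E n)} (hc : IsCompact K) (s : ℕ) : Measurable (dil K s) :=
  ind_meas (hc.smul (s : ℝ)).measurableSet

theorem dil_int {K : Set (E n)} (hc : IsCompact K) (s : ℕ) :
    ∫⁻ x, dil K s x = (s : ENNReal) ^ n * volume K := by
  rw [dil, int_ind (hc.smul (s : ℝ)).measurableSet, vol_dil]

theorem dil_self {K : Set (E n)} (hc : IsCompact K) {s : ℕ} (hs : s ≠ 0) (x : E n) :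
    cv (dil K s) (dil K s) x ≤ (s : ENNReal) ^ n * sp K := by
  have h0 : (s : ℝ) ≠ 0 := Nat.cast_ne_zero.2 hs
  rw [dil, cv_ow (hc.smul (s : ℝ)).measurableSet (hc.smul (s : ℝ)).measurableSet]
  refine le_trans (measure_mono (t := (s : ℝ) • ov K ((s : ℝ)⁻¹ • x)) fun y hy => ?_) ?_
  · rw [mem_smul_set_iff_inv_smul_mem₀ h0]
    exact ⟨(mem_smul_set_iff_inv_smul_mem₀ h0 _ _).1 hy.1, by
      rw [← smul_sub]
      exact (mem_smul_set_iff_inv_smul_mem₀ h0 _ _).1 hy.2⟩
  · rw [vol_dil]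
    exact mul_le_mul' le_rfl (le_iSup (fun x => volume (ov K x)) _)

theorem half_mem {K : Set (E n)} (hK : Convex ℝ K) {p q s : ℕ} (h : 2 * s = 2 * p + q) :
    ∀ a ∈ (p : ℝ) • K, ∀ b ∈ (q : ℝ) • K, a + (1 / 2 : ℝ) • b ∈ (s : ℝ) • K := by
  rintro a ha b ⟨c, hc, rfl⟩
  have h1 : (s : ℝ) = p + (1 / 2) * q := by
    have : (2 : ℝ) * s = 2 * p + q := by exact_mod_cast h
    linarith
  rw [h1, hK.add_smul (Nat.cast_nonneg p) (by positivity)]
  exact add_mem_add ha ⟨c, hc, by simp only [smul_smul]⟩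

theorem key_dil {K : Set (E n)} (hK : Convex ℝ K) (hc : IsCompact K) {p q r s t : ℕ}
    (h1 : 2 * s = 2 * p + q) (h2 : 2 * t = 2 * r + q) (x : E n) :
    2 ^ n * cv (cv (dil K q) (dil K p)) (dil K r) x ≤ cv (dil K s) (dil K t) x ^ 2 :=
  key (hc.smul _).measurableSet (hc.smul _).measurableSet (hc.smul _).measurableSet
    (hc.smul _).measurableSet (hc.smul _).measurableSet (half_mem hK h1) (half_mem hK h2) x

theorem low {K : Set (E n)} (hK : Convex ℝ K) (hc : IsCompact K) :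
    1980 ^ n * volume K ^ 3 ≤ ∫⁻ x, cv (dil K 14) (dil K 16) x ^ 2 := by
  have m := dil_meas hc
  refine le_trans (le_of_eq ?_)
    (lintegral_mono fun x => key_dil hK hc (p := 9) (q := 10) (r := 11) rfl rfl x)
  rw [lintegral_const_mul _ (cv_meas (cv_meas (m _) (m _)) (m _)),
    cv_int (cv_meas (m _) (m _)) (m _), cv_int (m _) (m _), dil_int hc, dil_int hc, dil_int hc,
    show (1980 : ENNReal) = 2 * 10 * 9 * 11 by norm_num]
  simp only [mul_pow]
  push_cast
  ring

theorem up {K : Set (E n)} (hK : Convex ℝ K) (hc : IsCompact K) (x : E n) :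
    cv (cv (dil K 14) (dil K 16)) (cv (dil K 14) (dil K 16)) x ≤ 4950 ^ n * sp K ^ 3 := by
  have m := dil_meas hc
  have t2 : (2 : ENNReal) ^ n ≠ ⊤ := by finiteness
  have z2 : (2 : ENNReal) ^ n ≠ 0 := by positivity
  have h1 : ∀ y, 2 ^ n * cv (cv (dil K 16) (dil K 14)) (dil K 14) y ≤
      (22 ^ n * sp K) * cv (dil K 22) (dil K 22) y := fun y => by
    refine (key_dil hK hc (p := 14) (q := 16) (r := 14) (s := 22) (t := 22) rfl rfl y).trans ?_
    rw [pow_two]
    exact mul_le_mul' (by simpa using dil_self hc (s := 22) (by norm_num) y) le_rfl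
  have h2 := cv_le (cv_meas (m _) (m _)) (m 16) t2 h1 x
  have h3 := (key_dil hK hc (p := 22) (q := 16) (r := 22) (s := 30) (t := 30) rfl rfl x).trans
    (pow_le_pow_left' (dil_self hc (s := 30) (by norm_num) x) 2)
  rw [cv_assoc (m _) (m _) (m _), cv_comm (dil K 16)] at h3
  rw [cv_assoc (cv_meas (m _) (m _)) (m _) (m _), cv_comm (dil K 16)] at h2
  rw [← ENNReal.mul_le_mul_iff_right z2 t2, ← ENNReal.mul_le_mul_iff_right z2 t2]
  refine (mul_le_mul' le_rfl h2).trans ?_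
  rw [mul_left_comm]
  refine (mul_le_mul' le_rfl h3).trans (le_of_eq ?_)
  have e : (22 : ENNReal) ^ n * 30 ^ n * 30 ^ n = 2 ^ n * 2 ^ n * 4950 ^ n := by
    simp only [← mul_pow]
    norm_num
  push_cast
  calc _ = ((22 : ENNReal) ^ n * 30 ^ n * 30 ^ n) * sp K ^ 3 := by ring
    _ = _ := by rw [e]; ring

theorem step {γ : ENNReal} (hγ : Good n γ) (hT : γ ≠ ⊤) {K : Set (E n)} (hK : Convex ℝ K)
    (hc : IsCompact K) :
    γ * 2 ^ n * volume K ^ 3 ≤ 8 * (n + 1) * 5 ^ n * sp K ^ 3 := by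
  have m := dil_meas hc
  rcases eq_or_ne (volume K) 0 with hz | hz
  · simp [hz]
  have hf : volume K ≠ ⊤ := hc.measure_lt_top.ne
  have c14 := hc.smul ((14 : ℕ) : ℝ)
  have c16 := hc.smul ((16 : ℕ) : ℝ)
  have e1 : ∀ x, cv (dil K 14) (dil K 16) x =
      volume (ow (((14 : ℕ) : ℝ) • K) (((16 : ℕ) : ℝ) • K) x) :=
    cv_ow c14.measurableSet c16.measurableSet
  have e2 : ((14 : ℕ) : ℝ) • K + ((16 : ℕ) : ℝ) • K = ((30 : ℕ) : ℝ) • K := by
    rw [← hK.add_smul (Nat.cast_nonneg _) (Nat.cast_nonneg _)]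
    norm_num
  have h1 := func hγ (φ := cv (dil K 14) (dil K 16)) (cv_meas (m _) (m _))
    (T := ((30 : ℕ) : ℝ) • K) (hc.smul _).measurableSet
    (fun x hx => by rw [e1, ow_zero (by rwa [e2])])
    (fun l hl => by
      simp only [e1]
      exact ow_level (hK.smul _) (hK.smul _) c14 c16 hl)
    (a := 2⁻¹ * 7 ^ n * volume K) (mul_ne_zero (mul_ne_zero (by simp) (by positivity)) hz) (n + 1)
    (fun x => by
      rw [e1]
      refine (measure_mono (t := ((14 : ℕ) : ℝ) • K) fun y hy => hy.1).trans (le_of_eq ?_)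
      rw [vol_dil, show ((14 : ℕ) : ENNReal) = 7 * 2 by norm_num, mul_pow, pow_succ]
      calc _ = (2⁻¹ * 2) * (7 ^ n * 2 ^ n * volume K) := by
            rw [ENNReal.inv_mul_cancel (by norm_num) (by norm_num), one_mul]
        _ = _ := by ring)
    (up hK hc)
  rw [vol_dil] at h1
  have h2 := (mul_le_mul' (le_refl γ) (low hK hc)).trans h1
  have h3 : (2⁻¹ * 7 ^ n * volume K) ^ 2 * (((30 : ℕ) : ENNReal) ^ n * volume K) ≤
      2⁻¹ * (1980 ^ n * volume K ^ 3) := by
    calc _ = 2⁻¹ * ((2⁻¹ * (7 ^ n * 7 ^ n * 30 ^ n)) * volume K ^ 3) := by push_cast; ring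
      _ ≤ _ := by
        refine mul_le_mul' le_rfl (mul_le_mul' ?_ le_rfl)
        refine (mul_le_of_le_one_left' (by simp)).trans ?_
        simp only [← mul_pow]
        exact pow_le_pow_left' (by norm_num) n
  have h4 := h2.trans (add_le_add (mul_le_mul' le_rfl h3) le_rfl)
  have h5 : γ * (1980 ^ n * volume K ^ 3) = γ * (2⁻¹ * (1980 ^ n * volume K ^ 3)) +
      γ * (2⁻¹ * (1980 ^ n * volume K ^ 3)) := by
    rw [← mul_add, ← add_mul, ENNReal.inv_two_add_inv_two, one_mul]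
  rw [h5, ENNReal.add_le_add_iff_left (by finiteness)] at h4
  have h6 := mul_le_mul' (le_refl (2 : ENNReal)) h4
  rw [mul_left_comm, ← mul_assoc 2, ENNReal.mul_inv_cancel (by norm_num) (by norm_num),
    one_mul] at h6
  rw [← ENNReal.mul_le_mul_iff_right (a := 990 ^ n) (by positivity) (by finiteness)]
  rw [show (1980 : ENNReal) = 990 * 2 by norm_num, show (4950 : ENNReal) = 990 * 5 by norm_num,
    mul_pow, mul_pow] at h6
  refine le_trans (le_of_eq (by ring)) (h6.trans (le_of_eq ?_))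
  push_cast
  ring

theorem good_base : Good n (2 ^ n)⁻¹ := by
  intro K hK hc
  have m := ind_meas hc.measurableSet
  rcases eq_or_ne (volume K) 0 with hz | hz
  · simp [hz]
  have hf : volume K ≠ ⊤ := hc.measure_lt_top.ne
  have e2 : K + K = ((2 : ℕ) : ℝ) • K := by
    rw [show ((2 : ℕ) : ℝ) = 1 + 1 by norm_num, hK.add_smul zero_le_one zero_le_one, one_smul]
  have h1 : volume K * volume K ≤ sp K * (2 ^ n * volume K) := by
    have h2 := dil_int hc 2
    rw [Nat.cast_ofNat] at h2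
    rw [← h2, ← lintegral_const_mul _ (dil_meas hc 2), ← int_ind hc.measurableSet, ← cv_int m m]
    refine lintegral_mono fun x => ?_
    rw [cv_ow hc.measurableSet hc.measurableSet]
    by_cases hx : x ∈ K + K
    · rw [dil, ind_mem (e2 ▸ hx), mul_one]
      exact le_iSup (fun x => volume (ov K x)) x
    · rw [ow_zero hx]
      exact zero_le
  rw [← mul_assoc, ENNReal.mul_le_mul_iff_left hz hf] at h1
  refine (mul_le_mul' le_rfl h1).trans (le_of_eq ?_)
  rw [mul_left_comm, ENNReal.inv_mul_cancel (by positivity) (by finiteness), mul_one]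

theorem good_of {γ : ENNReal} (h : 8 * (n + 1) * 5 ^ n * γ ^ 2 ≤ 2 ^ n) : Good n γ := by
  have hs : Good n (sSup {δ | Good n δ}) := fun K hK hc => by
    rw [ENNReal.sSup_mul]
    exact iSup₂_le fun δ hδ => hδ K hK hc
  set g := sSup {δ | Good n δ} with hg
  rcases le_or_gt γ g with h1 | h1
  · exact fun K hK hc => (mul_le_mul' h1 le_rfl).trans (hs K hK hc)
  exfalso
  have hT : g ≠ ⊤ := h1.ne_top
  have h0 : g ≠ 0 := (lt_of_lt_of_le (by simp) (le_sSup (good_base (n := n)))).ne'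
  set c : ENNReal := 8 * (n + 1) * 5 ^ n with hc
  have c0 : c ≠ 0 := by positivity
  have cT : c ≠ ⊤ := by finiteness
  set d : ENNReal := (c⁻¹ * (g * 2 ^ n)) ^ ((3 : ℕ) : ℝ)⁻¹ with hd
  have d3 : d ^ 3 = c⁻¹ * (g * 2 ^ n) := ENNReal.rpow_inv_natCast_pow (by norm_num) _
  have h2 : d ≤ g := le_sSup fun K hK hk => by
    rw [← ENNReal.pow_le_pow_left_iff three_ne_zero, mul_pow, d3, mul_assoc]
    refine (mul_le_mul' le_rfl (step hs hT hK hk)).trans (le_of_eq ?_)
    rw [← mul_assoc, ENNReal.inv_mul_cancel c0 cT, one_mul]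
  have h3 := mul_le_mul' (le_refl c) (pow_le_pow_left' h2 3)
  rw [d3, ← mul_assoc, ENNReal.mul_inv_cancel c0 cT, one_mul,
    show c * g ^ 3 = g * (c * g ^ 2) by ring, ENNReal.mul_le_mul_iff_right h0 hT] at h3
  have h4 := h.trans h3
  rw [ENNReal.mul_le_mul_iff_right c0 cT, ENNReal.pow_le_pow_left_iff two_ne_zero] at h4
  exact absurd h4 (not_le.2 h1)

end Pool.Agent.Lib.MP_e508a7_gt.Lp
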