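import Pool.Agent.Lib.MP_e508a7_gt.LpLoop
import Pool.Agent.Lib.MP_e508a7_gt.LpFin

/-!
# The bound at the centroid with base the square root of two fifths
-/

set_option autoImplicit false

namespace Pool.Agent.Lib.MP_e508a7_gt.Lp

open MeasureTheory Set Filter Topology Pointwise En

theorem best (N : ℕ) (L : Set (E N)) (hL : Convex ℝ L) (hc : IsCompact L) (M : ENNReal)
    (hM : ∀ x, volume (ov L x) ≤ M) : ENNReal.ofReal ((2 / 5 : ℝ) ^ N) * volume L ^ 2 ≤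
      ENNReal.ofReal (8 * ((N : ℝ) + 1) ^ 1) * M ^ 2 := by
  have c0 : (8 * (N + 1) * 5 ^ N : ENNReal) ≠ 0 := by positivity
  have cT : (8 * (N + 1) * 5 ^ N : ENNReal) ≠ ⊤ := by finiteness
  obtain ⟨g, hg⟩ : ∃ g : ENNReal, 8 * (N + 1) * 5 ^ N * g ^ 2 = 2 ^ N :=
    ⟨((8 * (N + 1) * 5 ^ N : ENNReal)⁻¹ * 2 ^ N) ^ (((2 : ℕ) : ℝ)⁻¹ : ℝ), by
      rw [ENNReal.rpow_inv_natCast_pow (by norm_num), ← mul_assoc, ENNReal.mul_inv_cancel c0 cT,
        one_mul]⟩
  have h1 := pow_le_pow_left' ((good_of hg.le L hL hc).trans (iSup_le hM)) 2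
  have e1 : (5 : ENNReal) ^ N * ENNReal.ofReal ((2 / 5 : ℝ) ^ N) = 2 ^ N := by
    rw [ENNReal.ofReal_pow (by norm_num), ← mul_pow, ← ENNReal.ofReal_ofNat 5,
      ← ENNReal.ofReal_mul (by norm_num)]
    norm_num
  have e2 : ENNReal.ofReal (8 * ((N : ℝ) + 1) ^ 1) = 8 * (N + 1) := by
    rw [pow_one, ENNReal.ofReal_mul (by norm_num), ENNReal.ofReal_add (by positivity) zero_le_one]
    simp
  rw [← ENNReal.mul_le_mul_iff_right (a := 5 ^ N) (by positivity) (by finiteness), ← mul_assoc,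
    e1, e2, ← hg]
  calc _ = 8 * (N + 1) * 5 ^ N * (g * volume L) ^ 2 := by ring
    _ ≤ 8 * (N + 1) * 5 ^ N * M ^ 2 := mul_le_mul' le_rfl h1
    _ = _ := by ring

theorem main {n : ℕ} {K : Set (E n)} (hK : Convex ℝ K) (hc : IsCompact K)
    (h0 : (∫ x in K, x) = 0) :
    ENNReal.ofReal (Real.sqrt (2 / 5) ^ n) * volume K ≤ volume (ov K 0) := by
  have h := centred_of_best (q := 2 / 5) (A := 8) (k := 1) (m := 2) (by norm_num) (by norm_num)
    best hK hc h0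
  rw [← ENNReal.pow_le_pow_left_iff two_ne_zero, mul_pow, ← ENNReal.ofReal_pow (by positivity),
    ← pow_mul, mul_comm n 2, pow_mul, Real.sq_sqrt (by norm_num)]
  exact h

end Pool.Agent.Lib.MP_e508a7_gt.Lp
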