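import Pool.Agent.Lib.MP_e508a7_gt.LqKey

/-!
# Overlaps with a reflected dilate
-/

set_option autoImplicit false

namespace Pool.Agent.Lib.MP_e508a7_gt.Lq

open MeasureTheory Set Filter Topology Pointwise En Lp

variable {n : ℕ}

/-- The largest overlap of `K` with a reflected copy of `t K`. -/
noncomputable def sq (t : ℝ) (K : Set (E n)) : ENNReal := ⨆ x, volume (ow K (t • K) x)

/-- Every compact convex set overlaps a reflected dilate in the share `g`. -/
def Gd (n : ℕ) (t : ℝ) (g : ENNReal) : Prop :=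
  ∀ K : Set (E n), Convex ℝ K → IsCompact K → g * volume K ≤ sq t K

/-- The power of a real number. -/
noncomputable def pw (n : ℕ) (x : ℝ) : ENNReal := ENNReal.ofReal x ^ n

theorem pw_mul {x : ℝ} (hx : 0 ≤ x) (y : ℝ) : pw n (x * y) = pw n x * pw n y := by
  rw [pw, pw, pw, ENNReal.ofReal_mul hx, mul_pow]

theorem pw_le {x y : ℝ} (h : x ≤ y) : pw n x ≤ pw n y :=
  pow_le_pow_left' (ENNReal.ofReal_le_ofReal h) n

theorem pw_top (x : ℝ) : pw n x ≠ ⊤ := ENNReal.pow_ne_top ENNReal.ofReal_ne_top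

theorem pw_zero {x : ℝ} (h : 0 < x) : pw n x ≠ 0 := pow_ne_zero _ (ENNReal.ofReal_pos.2 h).ne'

theorem vol_smul {s : ℝ} (hs : 0 ≤ s) (X : Set (E n)) : volume (s • X) = pw n s * volume X := by
  rw [Measure.addHaar_smul_of_nonneg _ hs, finrank_euclideanSpace_fin, ENNReal.ofReal_pow hs, pw]

theorem comb {K : Set (E n)} (hK : Convex ℝ K) {p q u v s : ℝ} (hp : 0 ≤ u * p) (hq : 0 ≤ v * q)
    (h : s = u * p + v * q) : ∀ a ∈ p • K, ∀ b ∈ q • K, u • a + v • b ∈ s • K := by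
  rintro _ ⟨a, ha, rfl⟩ _ ⟨b, hb, rfl⟩
  rw [h, hK.add_smul hp hq]
  exact add_mem_add ⟨a, ha, by simp only [smul_smul]⟩ ⟨b, hb, by simp only [smul_smul]⟩

theorem comb1 {K : Set (E n)} (hK : Convex ℝ K) {p q v s : ℝ} (hp : 0 ≤ p) (hq : 0 ≤ v * q)
    (h : s = p + v * q) : ∀ a ∈ p • K, ∀ b ∈ q • K, a + v • b ∈ s • K := fun a ha b hb => by
  simpa using comb hK (u := 1) (by rwa [one_mul]) hq (by rwa [one_mul]) a ha b hb

theorem ow_smul (P Q : Set (E n)) {c : ℝ} (hc : 0 < c) (x : E n) :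
    volume (ow (c • P) (c • Q) (c • x)) = pw n c * volume (ow P Q x) := by
  rw [← vol_smul hc.le]
  congr 1
  ext y
  simp only [ow, mem_ofPred_eq, mem_smul_set_iff_inv_smul_mem₀ hc.ne', smul_sub,
    inv_smul_smul₀ hc.ne']

theorem peel {K : Set (E n)} (hK : Convex ℝ K) (hc : IsCompact K) {a b c d l : ℝ} (ha : 0 ≤ a)
    (hb : 0 ≤ b) (l0 : 0 ≤ l) (l1 : l ≤ 1) (h1 : c = l * a + (1 - l) * b)
    (h2 : d = l * b + (1 - l) * a) (x : E n) :
    volume (ow (a • K) (b • K) x) ≤ volume (ow (c • K) (d • K) x) := by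
  have l2 : 0 ≤ 1 - l := by linarith
  refine bm_ref (fun u hu v hv s t hs ht hst => ⟨hK.smul a hu.1 hv.1 hs ht hst, ?_⟩)
    ((hc.smul a).inter_right ((hc.smul b).isClosed.preimage (f := fun y => x - y) (by fun_prop)))
    x l0 l1 fun u hu v hv =>
      ⟨comb hK (by positivity) (by positivity) h1 _ hu.1 _ hv.2, ?_⟩
  · have j := hK.smul b hu.2 hv.2 hs ht hst
    obtain rfl : s = 1 - t := by linarith
    convert j using 1
    module
  · convert comb hK (by positivity) (by positivity) h2 _ hu.2 _ hv.1 using 1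
    module

theorem peel2 {K : Set (E n)} (hK : Convex ℝ K) (hc : IsCompact K) {a b c t : ℝ} (ha : 0 < a)
    (ht : 1 < t) (hab : t * a ≤ b) (h : c * (1 + t) = a + b) (x : E n) :
    cv (ind (a • K)) (ind (b • K)) x ≤ pw n c * sq t K := by
  have h1 : a < b := by nlinarith
  have h2 : 0 < c := by nlinarith
  have h3 : 0 < b - a := by linarith
  rw [cv_ow (hc.smul a).measurableSet (hc.smul b).measurableSet]
  refine (peel hK hc (c := c) (d := c * t) (l := (b - c) / (b - a)) ha.le (by linarith)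
    (div_nonneg (by nlinarith) h3.le) ((div_le_one h3).2 (by nlinarith))
    (by field_simp; ring) (by field_simp; linear_combination (b - a) * h) x).trans ?_
  have h4 := ow_smul K (t • K) h2 (c⁻¹ • x)
  rw [smul_inv_smul₀ h2.ne', smul_smul] at h4
  rw [h4]
  exact mul_le_mul' le_rfl (le_iSup (fun x => volume (ow K (t • K) x)) _)

theorem pick {a p : ENNReal} (h : a ≤ p) (J : ℕ) (hJ : p ≤ a * 2 ^ J) :
    ∃ i ∈ Finset.range (J + 1), a * 2 ^ i ≤ p ∧ p ≤ 2 * (a * 2 ^ i) := by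
  induction J with
  | zero => exact ⟨0, by simp, by simpa using h, hJ.trans (le_mul_of_one_le_left' one_le_two)⟩
  | succ J ih =>
    by_cases h1 : p ≤ a * 2 ^ J
    · obtain ⟨i, hi, h2⟩ := ih h1
      exact ⟨i, Finset.mem_range.2 (by have := Finset.mem_range.1 hi; omega), h2⟩
    · exact ⟨J, Finset.mem_range.2 (by omega), (not_le.1 h1).le, hJ.trans (le_of_eq (by ring))⟩

theorem func2 {t : ℝ} {g : ENNReal} (hg : Gd n t g) {f f' h : E n → ENNReal} (hf : Measurable f)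
    (hf' : Measurable f')
    (hL : ∀ l : ENNReal, l ≠ 0 → Convex ℝ {x | l ≤ f x} ∧ IsCompact {x | l ≤ f x})
    (hL' : ∀ l : ENNReal, l ≠ 0 → Convex ℝ {x | l ≤ f' x} ∧ IsCompact {x | l ≤ f' x})
    {a c M : ENNReal} (ha : a ≠ 0) (J : ℕ) (hJ : ∀ x, f x ≤ a * 2 ^ J)
    (hJ' : ∀ x, f' x ≤ a * 2 ^ J) (hh : ∀ y, c * f' y ≤ h (t • y)) (hM : ∀ x, cv f h x ≤ M) :
    g * c * ∫⁻ x, f x * f' x ≤ g * c * (a * (∫⁻ x, f' x) + a * ∫⁻ x, f x) +
      4 * (J + 1) ^ 2 * M := by
  have hm : ∀ i j : ℕ, MeasurableSet ({x | a * 2 ^ i ≤ f x} ∩ {x | a * 2 ^ j ≤ f' x}) :=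
    fun i j => (measurableSet_le measurable_const hf).inter (measurableSet_le measurable_const hf')
  have h1 : ∀ i j : ℕ, g * c * (4 * (a * 2 ^ i * (a * 2 ^ j)) *
      volume ({x | a * 2 ^ i ≤ f x} ∩ {x | a * 2 ^ j ≤ f' x})) ≤ 4 * M := by
    intro i j
    obtain ⟨c1, c2⟩ := hL (a * 2 ^ i) (mul_ne_zero ha (by positivity))
    obtain ⟨c3, c4⟩ := hL' (a * 2 ^ j) (mul_ne_zero ha (by positivity))
    have c5 := c2.inter_right c4.isClosed
    calc _ = 4 * (a * 2 ^ i * (c * (a * 2 ^ j)) *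
          (g * volume ({x | a * 2 ^ i ≤ f x} ∩ {x | a * 2 ^ j ≤ f' x}))) := by ring
      _ ≤ 4 * (a * 2 ^ i * (c * (a * 2 ^ j)) * sq t _) :=
          mul_le_mul' le_rfl (mul_le_mul' le_rfl (hg _ (c1.inter c3) c5))
      _ ≤ _ := by
          refine mul_le_mul' le_rfl ?_
          rw [sq, ENNReal.mul_iSup]
          refine iSup_le fun x => le_trans ?_ (hM x)
          rw [← lintegral_indicator_const (ow_meas (hm i j) (c5.smul t).measurableSet x)]
          refine lintegral_mono fun y => ?_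
          by_cases hy : y ∈ ow ({x | a * 2 ^ i ≤ f x} ∩ {x | a * 2 ^ j ≤ f' x})
            (t • ({x | a * 2 ^ i ≤ f x} ∩ {x | a * 2 ^ j ≤ f' x})) x
          · rw [indicator_of_mem hy]
            obtain ⟨k1, z, k2, k3⟩ := hy
            rw [← k3]
            exact mul_le_mul' k1.1 ((mul_le_mul' le_rfl k2.2).trans (hh z))
          · rw [indicator_of_notMem hy]
            exact zero_le
  have h2 : ∫⁻ x, f x * f' x ≤ a * (∫⁻ x, f' x) + a * (∫⁻ x, f x) +
      ∑ p ∈ Finset.range (J + 1) ×ˢ Finset.range (J + 1), 4 * (a * 2 ^ p.1 * (a * 2 ^ p.2)) *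
        volume ({x | a * 2 ^ p.1 ≤ f x} ∩ {x | a * 2 ^ p.2 ≤ f' x}) := by
    simp only [← lintegral_indicator_const (hm _ _)]
    rw [← lintegral_finsetSum _ fun p _ => measurable_const.indicator (hm p.1 p.2),
      ← lintegral_const_mul _ hf', ← lintegral_const_mul _ hf,
      ← lintegral_add_left (by fun_prop), ← lintegral_add_left (by fun_prop)]
    refine lintegral_mono fun x => ?_
    rcases le_total (f x) a with k1 | k1
    · exact ((mul_le_mul' k1 le_rfl).trans le_self_add).trans le_self_add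
    rcases le_total (f' x) a with k2 | k2
    · exact (((mul_le_mul' le_rfl k2).trans (mul_comm _ _).le).trans le_add_self).trans
        le_self_add
    obtain ⟨i, hi, i1, i2⟩ := pick k1 J (hJ x)
    obtain ⟨j, hj, j1, j2⟩ := pick k2 J (hJ' x)
    refine le_trans ?_ le_add_self
    refine le_trans ?_ (Finset.single_le_sum (a := (i, j)) (fun _ _ => zero_le)
      (Finset.mem_product.2 ⟨hi, hj⟩))
    rw [indicator_of_mem (show x ∈ {x | a * 2 ^ i ≤ f x} ∩ {x | a * 2 ^ j ≤ f' x} from ⟨i1, j1⟩)]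
    exact (mul_le_mul' i2 j2).trans (le_of_eq (by ring))
  refine (mul_le_mul' le_rfl h2).trans ?_
  rw [mul_add (g * c), Finset.mul_sum]
  refine add_le_add le_rfl ((Finset.sum_le_sum fun p _ => h1 p.1 p.2).trans (le_of_eq ?_))
  rw [Finset.sum_const, Finset.card_product, Finset.card_range, nsmul_eq_mul]
  push_cast
  ring

end Pool.Agent.Lib.MP_e508a7_gt.Lq
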