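import Pool.Agent.Lib.MP_e508a7_gt.LqFun
import Pool.Agent.Lib.MP_e508a7_gt.LpLoop
import Pool.Agent.Lib.MP_e508a7_gt.LpFin

/-!
# The self-improving inequality for a reflected dilate and the bound at the centroid
-/

set_option autoImplicit false

namespace Pool.Agent.Lib.MP_e508a7_gt.Lq

open MeasureTheory Set Filter Topology Pointwise En Lp

variable {n : ℕ}

theorem merge {K : Set (E n)} (hK : Convex ℝ K) (hc : IsCompact K) {a b c p q z w l : ℝ}
    (ha : 0 ≤ a) (hb : 0 ≤ b) (hd : 0 ≤ c) (l0 : 0 ≤ l) (l1 : l ≤ 1) (h1 : p = a + (1 - l) * b)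
    (h2 : q = c + l * b) (h3 : z = (1 - l) * a + l ^ 2 * b) (h4 : w = l * c + (1 - l) ^ 2 * b)
    {M : ENNReal} (hM : ∀ y, cv (ind (w • K)) (ind (z • K)) y ≤ M) (x : E n) :
    cv (cv (ind (b • K)) (ind (a • K))) (ind (c • K)) x ≤
      M * cv (ind (q • K)) (ind (p • K)) x := by
  have l2 : 0 ≤ 1 - l := by linarith
  rw [cv_comm (ind (q • K))]
  rw [cv_comm] at hM
  exact key2 (hK.smul _) (hK.smul _) (hK.smul _) (hc.smul _) (hc.smul _) (hc.smul _)
    (hc.smul _).measurableSet (hc.smul _).measurableSet (hc.smul _).measurableSet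
    (hc.smul _).measurableSet l0 l1 (comb1 hK ha (by positivity) h1)
    (comb1 hK hd (by positivity) h2) (comb hK (by positivity) (by positivity) h3)
    (comb hK (by positivity) (by positivity) h4) hM x

theorem low2 {K : Set (E n)} (hK : Convex ℝ K) (hc : IsCompact K) :
    pw n 21176820 * volume K ^ 3 ≤ ∫⁻ y, cv (ind ((340 : ℝ) • K)) (ind ((326 : ℝ) • K)) y *
      cv (ind ((277 : ℝ) • K)) (ind ((389 : ℝ) • K)) y := by
  refine le_trans (le_of_eq ?_) (key3 (A := (196 : ℝ) • K) (B := (441 : ℝ) • K)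
    (C := (245 : ℝ) • K) (hK.smul _) (hK.smul _) (hK.smul _) (hc.smul _) (hc.smul _) (hc.smul _)
    (hc.smul _).measurableSet (hc.smul _).measurableSet (hc.smul _).measurableSet
    (hc.smul _).measurableSet (l := 3 / 7) (by norm_num) (by norm_num)
    (comb1 hK (by norm_num) (by norm_num) (by norm_num))
    (comb1 hK (by norm_num) (by norm_num) (by norm_num))
    (comb1 hK (by norm_num) (by norm_num) (by norm_num))
    (comb1 hK (by norm_num) (by norm_num) (by norm_num)))
  rw [vol_smul (by norm_num), vol_smul (by norm_num), vol_smul (by norm_num),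
    show (21176820 : ℝ) = 196 * (245 * 441) by norm_num, pw_mul (by norm_num),
    pw_mul (by norm_num)]
  ring

theorem up2 {K : Set (E n)} (hK : Convex ℝ K) (hc : IsCompact K) (x : E n) :
    cv (cv (ind ((340 : ℝ) • K)) (ind ((326 : ℝ) • K)))
      (cv (ind ((3601 / 12 : ℝ) • K)) (ind ((5057 / 12 : ℝ) • K))) x ≤
      pw n 51280889 * sq (13 / 12) K ^ 3 := by
  have m : ∀ s : ℝ, Measurable (ind (s • K)) := fun s => ind_meas (hc.smul s).measurableSet
  have h1 := merge hK hc (a := 340) (b := 326) (c := 3601 / 12) (p := 12412 / 25)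
    (q := 140881 / 300) (z := 157094 / 625) (w := 1733653 / 7500) (l := 13 / 25) (by norm_num)
    (by norm_num) (by norm_num) (by norm_num) (by norm_num) (by norm_num) (by norm_num)
    (by norm_num) (by norm_num) (peel2 hK hc (c := 3618781 / 15625) (t := 13 / 12) (by norm_num)
      (by norm_num) (by norm_num) (by norm_num))
  have h2 := merge hK hc (a := 12412 / 25) (b := 140881 / 300) (c := 5057 / 12)
    (p := 451181 / 625) (q := 832013 / 1250) (z := 68492089 / 187500) (w := 61374989 / 187500)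
    (l := 13 / 25) (by norm_num) (by norm_num) (by norm_num) (by norm_num) (by norm_num)
    (by norm_num) (by norm_num) (by norm_num) (by norm_num)
    (peel2 hK hc (c := 129867078 / 390625) (t := 13 / 12) (by norm_num) (by norm_num)
      (by norm_num) (by norm_num)) x
  have h3 := peel2 hK hc (a := 832013 / 1250) (b := 451181 / 625) (c := 666) (t := 13 / 12)
    (by norm_num) (by norm_num) (by norm_num) (by norm_num) x
  have h4 := cv_le (cv_meas (m _) (m _)) (m (5057 / 12)) ENNReal.one_ne_top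
    (fun y => (one_mul _).le.trans (h1 y)) x
  rw [one_mul, cv_assoc (cv_meas (m _) (m _)) (m _) (m _), cv_comm (ind ((326 : ℝ) • K))] at h4
  refine h4.trans ((mul_le_mul' le_rfl (h2.trans (mul_le_mul' le_rfl h3))).trans ?_)
  refine le_trans (le_of_eq ?_) (mul_le_mul' (pw_le
    (x := 3618781 / 15625 * (129867078 / 390625 * 666)) (by norm_num)) le_rfl)
  rw [pw_mul (by norm_num), pw_mul (by norm_num)]
  ring

theorem step2 {g : ENNReal} (hg : Gd n (13 / 12) g) (hT : g ≠ ⊤) {K : Set (E n)}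
    (hK : Convex ℝ K) (hc : IsCompact K) :
    g * pw n (13 / 12 * 21176820) * volume K ^ 3 ≤
      8 * (n + 3) ^ 2 * pw n 51280889 * sq (13 / 12) K ^ 3 := by
  have m : ∀ s : ℝ, Measurable (ind (s • K)) := fun s => ind_meas (hc.smul s).measurableSet
  have ms : ∀ s : ℝ, MeasurableSet (s • K) := fun s => (hc.smul s).measurableSet
  rcases eq_or_ne (volume K) 0 with hz | hz
  · simp [hz]
  have hf : volume K ≠ ⊤ := hc.measure_lt_top.ne
  have hL : ∀ s t : ℝ, ∀ l : ENNReal, l ≠ 0 →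
      Convex ℝ {x | l ≤ cv (ind (s • K)) (ind (t • K)) x} ∧
        IsCompact {x | l ≤ cv (ind (s • K)) (ind (t • K)) x} := fun s t l hl => by
    simp only [cv_ow (ms _) (ms _)]
    exact ow_level (hK.smul _) (hK.smul _) (hc.smul _) (hc.smul _) hl
  have hJ : ∀ s t : ℝ, 0 ≤ s → s ≤ 170 * 2 → ∀ x, cv (ind (s • K)) (ind (t • K)) x ≤
      4⁻¹ * pw n 170 * volume K * 2 ^ (n + 2) := fun s t h0 h1 x => by
    rw [cv_ow (ms _) (ms _)]
    refine (measure_mono (t := s • K) fun y hy => hy.1).trans ?_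
    rw [vol_smul h0]
    refine (mul_le_mul' (pw_le h1) le_rfl).trans (le_of_eq ?_)
    rw [pw_mul (by norm_num), show pw n 2 = 2 ^ n by simp [pw], pow_add]
    calc _ = (4⁻¹ * 4) * (pw n 170 * 2 ^ n * volume K) := by
          rw [ENNReal.inv_mul_cancel (by norm_num) (by norm_num), one_mul]
      _ = _ := by ring
  have hI : ∀ s t : ℝ, 0 ≤ s → 0 ≤ t → 170 * (s * t) ≤ 21176820 →
      4⁻¹ * pw n 170 * volume K * ∫⁻ x, cv (ind (s • K)) (ind (t • K)) x ≤
        4⁻¹ * (pw n 21176820 * volume K ^ 3) := fun s t h0 h1 h2 => by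
    rw [cv_int (m _) (m _), int_ind (ms _), int_ind (ms _), vol_smul h0, vol_smul h1]
    refine le_trans (le_of_eq ?_) (mul_le_mul' le_rfl (mul_le_mul' (pw_le h2) le_rfl))
    rw [pw_mul (by norm_num), pw_mul h0]
    ring
  have h1 := func2 hg (cv_meas (m 340) (m 326)) (cv_meas (m 277) (m 389)) (hL _ _) (hL _ _)
    (a := 4⁻¹ * pw n 170 * volume K) (c := pw n (13 / 12))
    (mul_ne_zero (mul_ne_zero (by simp) (pw_zero (by norm_num))) hz) (n + 2)
    (hJ _ _ (by norm_num) (by norm_num)) (hJ _ _ (by norm_num) (by norm_num))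
    (fun y => by
      rw [cv_ow (ms _) (ms _), cv_ow (ms _) (ms _), ← ow_smul _ _ (by norm_num), smul_smul,
        smul_smul]
      norm_num) (up2 hK hc)
  have h2 := ((mul_le_mul' le_rfl (low2 hK hc)).trans h1).trans (add_le_add (mul_le_mul' le_rfl
    (add_le_add (hI _ _ (by norm_num) (by norm_num) (by norm_num))
      (hI _ _ (by norm_num) (by norm_num) (by norm_num)))) le_rfl)
  have e4 : (4⁻¹ + 4⁻¹ : ENNReal) = 2⁻¹ := by
    rw [← two_mul, show (4 : ENNReal) = 2 * 2 by norm_num, ENNReal.mul_inv (by simp) (by simp),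
      ← mul_assoc, ENNReal.mul_inv_cancel (by norm_num) (by norm_num), one_mul]
  rw [← add_mul, e4] at h2
  have t1 := pw_top (n := n) (13 / 12)
  have t2 := pw_top (n := n) 21176820
  generalize hX : g * pw n (13 / 12) * (2⁻¹ * (pw n 21176820 * volume K ^ 3)) = X at h2
  have hXT : X ≠ ⊤ := by
    rw [← hX]
    finiteness
  have h5 : g * pw n (13 / 12) * (pw n 21176820 * volume K ^ 3) = X + X := by
    rw [← hX, ← mul_add, ← add_mul, ENNReal.inv_two_add_inv_two, one_mul]
  rw [h5, ENNReal.add_le_add_iff_left hXT] at h2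
  rw [pw_mul (by norm_num), ← mul_assoc, mul_assoc (g * _), h5]
  refine (add_le_add h2 h2).trans (le_of_eq ?_)
  push_cast
  ring

theorem gd_base {t : ℝ} (ht : 1 ≤ t) : Gd n t (2 ^ n)⁻¹ := by
  intro K hK hc
  refine (good_base K hK hc).trans (iSup_le fun x => ?_)
  rcases K.eq_empty_or_nonempty with rfl | ⟨k, hk⟩
  · simp [ov]
  refine le_trans (measure_mono fun y hy => ?_)
    (le_iSup (fun x => volume (ow K (t • K) x)) (x + (t - 1) • k))
  refine ⟨hy.1, ?_⟩
  have h := comb1 hK (p := 1) (q := 1) (v := t - 1) (s := t) zero_le_one (by linarith) (by ring)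
    (x - y) (by simpa using hy.2) k (by simpa using hk)
  convert h using 1
  abel

theorem gd_fix {t : ℝ} (ht : 1 ≤ t) {c d : ENNReal} (d0 : d ≠ 0) (dT : d ≠ ⊤)
    (h : ∀ g, Gd n t g → g ≠ ⊤ → ∀ K : Set (E n), Convex ℝ K → IsCompact K →
      g * c * volume K ^ 3 ≤ d * sq t K ^ 3)
    {L : Set (E n)} (hL : Convex ℝ L) (hc : IsCompact L) :
    c * volume L ^ 2 ≤ d * sq t L ^ 2 := by
  have hG : Gd n t (sSup {g | Gd n t g}) := fun K hK hKc => by
    rw [ENNReal.sSup_mul]
    exact iSup₂_le fun g hg => hg K hK hKc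
  have h0 : (2 ^ n)⁻¹ ≤ sSup {g | Gd n t g} := le_sSup (gd_base ht)
  have hs : ∀ g, Gd n t g → g ≤ sSup {g | Gd n t g} := fun g hg => le_sSup hg
  generalize sSup {g | Gd n t g} = G at hG h0 hs
  have hG0 : G ≠ 0 := (lt_of_lt_of_le (by simp) h0).ne'
  have h1 : c ≤ d * G ^ 2 := by
    rcases eq_or_ne G ⊤ with e | hT
    · rw [e, ENNReal.top_pow two_ne_zero, ENNReal.mul_top d0]
      exact le_top
    have e1 := ENNReal.rpow_inv_natCast_pow three_ne_zero (d⁻¹ * (G * c))
    have h2 := hs ((d⁻¹ * (G * c)) ^ (((3 : ℕ) : ℝ))⁻¹) fun K hK hKc => by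
      rw [← ENNReal.pow_le_pow_left_iff three_ne_zero, mul_pow, e1, mul_assoc]
      exact (mul_le_mul' le_rfl (h G hG hT K hK hKc)).trans (ENNReal.inv_mul_cancel_left d0 dT).le
    have h3 := mul_le_mul' (le_refl d) (pow_le_pow_left' h2 3)
    rwa [e1, ENNReal.mul_inv_cancel_left d0 dT, show d * G ^ 3 = G * (d * G ^ 2) by ring,
      ENNReal.mul_le_mul_iff_right hG0 hT] at h3
  calc _ ≤ d * G ^ 2 * volume L ^ 2 := mul_le_mul' h1 le_rfl
    _ = d * (G * volume L) ^ 2 := by ring
    _ ≤ _ := mul_le_mul' le_rfl (pow_le_pow_left' (hG L hL hc) 2)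

theorem best2 (N : ℕ) (L : Set (E N)) (hL : Convex ℝ L) (hc : IsCompact L) (M : ENNReal)
    (hM : ∀ x, volume (ov L x) ≤ M) :
    ENNReal.ofReal (((321 / 500 : ℝ) ^ 2) ^ N) * volume L ^ 2 ≤
      ENNReal.ofReal (72 * ((N : ℝ) + 1) ^ 2) * M ^ 2 := by
  have t1 := pw_top (n := N) 51280889
  have t2 := pw_zero (n := N) (x := 51280889) (by norm_num)
  have h1 := gd_fix (n := N) (t := 13 / 12) (by norm_num)
    (mul_ne_zero (mul_ne_zero (by norm_num) (by positivity)) t2) (by finiteness)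
    (fun g hg hT K hK hKc => step2 hg hT hK hKc) hL hc
  have h2 : sq (13 / 12) L ≤ pw N (25 / 24) * M := iSup_le fun x => by
    have h3 := peel hL hc (a := 1) (b := 13 / 12) (c := 25 / 24) (d := 25 / 24) (l := 1 / 2)
      (by norm_num) (by norm_num) (by norm_num) (by norm_num) (by norm_num) (by norm_num) x
    have h4 := ow_smul L L (c := 25 / 24) (by norm_num) ((25 / 24 : ℝ)⁻¹ • x)
    rw [smul_inv_smul₀ (by norm_num)] at h4
    rw [one_smul, h4] at h3
    exact h3.trans (mul_le_mul' le_rfl (hM _))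
  have h3 := h1.trans (mul_le_mul' le_rfl (pow_le_pow_left' h2 2))
  have e2 : 8 * ((N : ENNReal) + 3) ^ 2 ≤ ENNReal.ofReal (72 * ((N : ℝ) + 1) ^ 2) := by
    rw [ENNReal.ofReal_mul (by norm_num), ENNReal.ofReal_pow (by positivity),
      ENNReal.ofReal_add (by positivity) zero_le_one, ENNReal.ofReal_natCast, ENNReal.ofReal_one,
      ENNReal.ofReal_ofNat]
    calc _ ≤ 8 * (3 * ((N : ENNReal) + 1)) ^ 2 := by
          refine mul_le_mul' le_rfl (pow_le_pow_left' ?_ 2)
          rw [mul_add, mul_one]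
          exact add_le_add (le_mul_of_one_le_left' (by norm_num)) le_rfl
      _ = _ := by ring
  rw [← ENNReal.mul_le_mul_iff_right (a := pw N (51280889 * (25 / 24 * (25 / 24))))
    (pw_zero (by norm_num)) (pw_top _), ENNReal.ofReal_pow (by norm_num), ← mul_assoc,
    ← pw, ← pw_mul (by norm_num)]
  refine ((mul_le_mul' (pw_le (by norm_num)) le_rfl).trans h3).trans ?_
  rw [pw_mul (by norm_num), pw_mul (by norm_num)]
  calc _ = 8 * ((N : ENNReal) + 3) ^ 2 * (pw N 51280889 * (pw N (25 / 24) * M) ^ 2) := by ring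
    _ ≤ _ := mul_le_mul' e2 le_rfl
    _ = _ := by ring

theorem main {K : Set (E n)} (hK : Convex ℝ K) (hc : IsCompact K) (h0 : (∫ x in K, x) = 0) :
    ENNReal.ofReal ((321 / 500 : ℝ) ^ n) * volume K ≤ volume (ov K 0) := by
  have h := centred_of_best (q := (321 / 500) ^ 2) (A := 72) (k := 2) (m := 2) (by norm_num)
    (by norm_num) best2 hK hc h0
  rw [← ENNReal.pow_le_pow_left_iff two_ne_zero, mul_pow, ← ENNReal.ofReal_pow (by positivity),
    ← pow_mul, mul_comm n 2, pow_mul]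
  exact h

end Pool.Agent.Lib.MP_e508a7_gt.Lq
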