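import Pool.Agent.Lib.MP_e508a7_gt.Core

set_option autoImplicit false

/-!
The model simplex in spacing coordinates, and the action of the permutations of its vertices.
-/

namespace Pool.Agent.Lib.MP_e508a7_gt

open MeasureTheory Set Filter Topology
open scoped ENNReal Pointwise

variable {n : ℕ}

/-- centred barycentric coordinates in terms of the spacings -/
noncomputable def Bm (n : ℕ) : (Fin n → ℝ) →ₗ[ℝ] (Fin (n + 1) → ℝ) where
  toFun u j := -sm u +
    ∑ k : Fin n, if k.castSucc < j then ((n : ℝ) + 1) * (((n : ℝ) - k)⁻¹ * u k) else 0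
  map_add' u v := by
    funext j
    simp only [sm, Pi.add_apply, Finset.sum_add_distrib, mul_add, ite_add_zero]
    ring
  map_smul' c u := by
    funext j
    simp only [sm_smul, Pi.smul_apply, smul_eq_mul, RingHom.id_apply, mul_add, Finset.mul_sum,
      mul_ite, mul_zero, mul_neg, mul_left_comm c]

/-- the spacings -/
noncomputable def Zm (n : ℕ) : (Fin (n + 1) → ℝ) →ₗ[ℝ] (Fin n → ℝ) where
  toFun y k := ((n : ℝ) - k) / (n + 1) * (y k.succ - y k.castSucc)
  map_add' u v := by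
    funext j
    simp only [Pi.add_apply]
    ring
  map_smul' c u := by
    funext j
    simp only [Pi.smul_apply, smul_eq_mul, RingHom.id_apply]
    ring

lemma Bm_apply (u : Fin n → ℝ) (j : Fin (n + 1)) : Bm n u j = -sm u +
    ∑ k : Fin n, if k.castSucc < j then ((n : ℝ) + 1) * (((n : ℝ) - k)⁻¹ * u k) else 0 := rfl

lemma Zm_apply (y : Fin (n + 1) → ℝ) (k : Fin n) :
    Zm n y k = ((n : ℝ) - k) / (n + 1) * (y k.succ - y k.castSucc) := rfl

@[fun_prop] lemma continuous_Bm : Continuous (Bm n) := (Bm n).continuous_of_finiteDimensional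

@[fun_prop] lemma continuous_Zm : Continuous (Zm n) := (Zm n).continuous_of_finiteDimensional

lemma Bm_zero (u : Fin n → ℝ) : Bm n u 0 = -sm u := by simp [Bm_apply]

lemma Bm_last (u : Fin n → ℝ) : Bm n u (Fin.last n) = -sm u + (n + 1) * tp u := by
  simp [Bm_apply, tp, Finset.mul_sum, Fin.castSucc_lt_last]

lemma Bm_succ (u : Fin n → ℝ) (k : Fin n) :
    Bm n u k.succ - Bm n u k.castSucc = (n + 1) * (((n : ℝ) - k)⁻¹ * u k) := by
  rw [Bm_apply, Bm_apply, add_sub_add_left_eq_sub, ← Finset.sum_sub_distrib,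
    Finset.sum_eq_single k]
  · simp
  · intro l _ hl
    rcases lt_or_gt_of_ne hl with h | h
    · rw [if_pos (Fin.castSucc_lt_succ_iff.2 h.le), if_pos (Fin.castSucc_lt_castSucc_iff.2 h),
        sub_self]
    · rw [if_neg (mt Fin.castSucc_lt_succ_iff.1 h.not_ge),
        if_neg (mt Fin.castSucc_lt_castSucc_iff.1 h.not_gt), sub_self]
  · simp

lemma Bm_sum (u : Fin n → ℝ) : ∑ j, Bm n u j = 0 := by
  simp only [Bm_apply, Finset.sum_add_distrib, Finset.sum_const, Finset.card_univ,
    Fintype.card_fin, nsmul_eq_mul]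
  rw [Finset.sum_comm, sm, ← Finset.sum_neg_distrib, Finset.mul_sum, ← Finset.sum_add_distrib]
  refine Finset.sum_eq_zero fun k _ => ?_
  rw [← Finset.sum_filter, Finset.filter_lt_eq_Ioi, Finset.sum_const, Fin.card_Ioi, nsmul_eq_mul,
    Nat.add_sub_cancel, Fin.val_castSucc, Nat.cast_sub k.2.le]
  have := one_le_sub k
  field_simp
  push_cast
  ring

lemma Z_B (u : Fin n → ℝ) : Zm n (Bm n u) = u := by
  funext k
  rw [Zm_apply, Bm_succ]
  have := one_le_sub k
  field_simp

lemma B_Z {y : Fin (n + 1) → ℝ} (h : ∑ j, y j = 0) : Bm n (Zm n y) = y := by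
  have h1 : ∀ j, Bm n (Zm n y) j - y j = Bm n (Zm n y) 0 - y 0 := by
    intro j
    induction j using Fin.induction with
    | zero => rfl
    | succ k ih =>
      have h2 := Bm_succ (Zm n y) k
      have h3 := one_le_sub k
      have h4 : ((n : ℝ) + 1) * (((n : ℝ) - k)⁻¹ * Zm n y k) = y k.succ - y k.castSucc := by
        rw [Zm_apply]
        field_simp
      linarith
  have h2 : ∑ j, (Bm n (Zm n y) j - y j) = 0 := by
    rw [Finset.sum_sub_distrib, Bm_sum, h, sub_zero]
  simp only [h1, Finset.sum_const, Finset.card_univ, Fintype.card_fin, nsmul_eq_mul] at h2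
  have h3 := (mul_eq_zero.1 h2).resolve_left (by positivity)
  funext j
  exact sub_eq_zero.1 ((h1 j).trans h3)

lemma Bm_inj : Function.Injective (Bm n) := Function.LeftInverse.injective Z_B

lemma mem_Qo_iff {u : Fin n → ℝ} : u ∈ Qo n ↔ StrictMono (Bm n u) := by
  rw [Fin.strictMono_iff_lt_succ]
  refine forall_congr' fun k => ?_
  have := one_le_sub k
  rw [← sub_pos (b := Bm n u k.castSucc), Bm_succ, mul_pos_iff_of_pos_left (by positivity),
    mul_pos_iff_of_pos_left (by positivity)]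

/-- the action of a permutation of the vertices -/
noncomputable def Pm (π : Equiv.Perm (Fin (n + 1))) : (Fin n → ℝ) →ₗ[ℝ] (Fin n → ℝ) :=
  Zm n ∘ₗ LinearMap.funLeft ℝ ℝ π ∘ₗ Bm n

@[fun_prop] lemma continuous_Pm (π : Equiv.Perm (Fin (n + 1))) : Continuous (Pm π) :=
  (Pm π).continuous_of_finiteDimensional

lemma B_P (π : Equiv.Perm (Fin (n + 1))) (u : Fin n → ℝ) : Bm n (Pm π u) = Bm n u ∘ π :=
  B_Z ((Equiv.sum_comp π _).trans (Bm_sum u))

lemma P_P (π σ : Equiv.Perm (Fin (n + 1))) (u : Fin n → ℝ) : Pm π (Pm σ u) = Pm (σ * π) u :=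
  Bm_inj (by rw [B_P, B_P, B_P]; rfl)

lemma P_one (u : Fin n → ℝ) : Pm 1 u = u := Bm_inj (by rw [B_P]; rfl)

/-- a simplex with the facet directions of the model simplex -/
def Sp (a : Fin (n + 1) → ℝ) : Set (Fin n → ℝ) := {x | ∀ j, -a j ≤ Bm n x j}

/-- the intersection of such a simplex with its reflection -/
def Bx (a : Fin (n + 1) → ℝ) : Set (Fin n → ℝ) := {x | ∀ j, |Bm n x j| ≤ a j}

lemma isClosed_Sp (a : Fin (n + 1) → ℝ) : IsClosed (Sp a) := by
  rw [Sp, ofPred_forall]
  exact isClosed_iInter fun j => isClosed_le continuous_const (by fun_prop)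

lemma isClosed_Bx (a : Fin (n + 1) → ℝ) : IsClosed (Bx a) := by
  rw [Bx, ofPred_forall]
  exact isClosed_iInter fun j => isClosed_le (by fun_prop) continuous_const

lemma Bx_subset (a : Fin (n + 1) → ℝ) : Bx a ⊆ Sp a := fun _ h j => (abs_le.1 (h j)).1

lemma Sp_le {a : Fin (n + 1) → ℝ} {x : Fin n → ℝ} (h : x ∈ Sp a) (j : Fin (n + 1)) :
    Bm n x j ≤ ∑ i, a i - a j := by
  have := Finset.single_le_sum (f := fun i => Bm n x i + a i) (fun i _ => by linarith [h i])
    (Finset.mem_univ j)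
  rw [Finset.sum_add_distrib, Bm_sum] at this
  linarith

lemma isCompact_Sp (a : Fin (n + 1) → ℝ) : IsCompact (Sp a) :=
  ((isCompact_Icc (a := -a) (b := fun j => ∑ i, a i - a j)).image continuous_Zm).of_isClosed_subset
    (isClosed_Sp a) fun x hx => ⟨Bm n x, ⟨hx, Sp_le hx⟩, Z_B x⟩

lemma vol_Sp_ne_top (a : Fin (n + 1) → ℝ) : volume (Sp a) ≠ ∞ := (isCompact_Sp a).measure_lt_top.ne

lemma Bx_nhds {r : ℝ} (hr : 0 < r) : Bx (n := n) (fun _ => r) ∈ 𝓝 0 := by
  have h : ∀ᶠ x in 𝓝 (0 : Fin n → ℝ), ∀ j, |Bm n x j| < r :=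
    eventually_all.2 fun j => (by fun_prop : Continuous fun x => |Bm n x j|).continuousAt.eventually_lt
      continuousAt_const (by simpa using hr)
  exact h.mono fun x hx j => (hx j).le

lemma vol_Bx_pos {r : ℝ} (hr : 0 < r) : 0 < volume.real (Bx (n := n) fun _ => r) :=
  ENNReal.toReal_pos (Measure.measure_pos_of_mem_nhds _ (Bx_nhds hr)).ne'
    (ne_top_of_le_ne_top (vol_Sp_ne_top _) (measure_mono (Bx_subset _)))

lemma vol_T_pos : 0 < volume.real (Sp (n := n) 1) :=
  (vol_Bx_pos one_pos).trans_le (measureReal_mono (Bx_subset _) (vol_Sp_ne_top _))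

lemma P_mem_T (π : Equiv.Perm (Fin (n + 1))) {u : Fin n → ℝ} : Pm π u ∈ Sp 1 ↔ u ∈ Sp 1 := by
  simp only [Sp, mem_ofPred_eq, B_P]
  exact π.forall_congr fun _ => Iff.rfl

lemma det_P (π : Equiv.Perm (Fin (n + 1))) : |LinearMap.det (Pm π)| = 1 := by
  have h1 : Pm π '' Sp 1 = Sp 1 := by
    ext x
    constructor
    · rintro ⟨y, hy, rfl⟩
      exact (P_mem_T π).2 hy
    · intro hx
      exact ⟨Pm π⁻¹ x, (P_mem_T _).2 hx, by rw [P_P, inv_mul_cancel, P_one]⟩
  have h2 := congrArg ENNReal.toReal (Measure.addHaar_image_linearMap volume (Pm π) (Sp 1))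
  rw [h1, ENNReal.toReal_mul, ENNReal.toReal_ofReal (abs_nonneg _)] at h2
  exact ((mul_eq_right₀ (vol_T_pos (n := n)).ne').1 h2.symm)

lemma mp_P (π : Equiv.Perm (Fin (n + 1))) : MeasurePreserving (Pm π) := by
  refine ⟨(continuous_Pm π).measurable, ?_⟩
  have h := det_P π
  rw [Measure.map_linearMap_addHaar_eq_smul_addHaar _ (fun h0 => by simp [h0] at h), abs_inv, h]
  simp

lemma ae_inj : ∀ᵐ x : Fin n → ℝ, Function.Injective (Bm n x) := by
  have h : ∀ i j, i ≠ j → ∀ᵐ x : Fin n → ℝ, Bm n x i ≠ Bm n x j := by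
    intro i j hij
    have h1 := null_hyp volume (LinearMap.proj i ∘ₗ Bm n - LinearMap.proj j ∘ₗ Bm n)
      (v := Zm n (Pi.single i 1 - Pi.single j 1)) (by
        change Bm n _ i - Bm n _ j ≠ 0
        rw [B_Z (by simp)]
        simp [hij, hij.symm]) 0
    refine measure_mono_null (fun x hx => ?_) h1
    exact sub_eq_zero.2 (not_not.1 hx)
  have h2 : ∀ᵐ x : Fin n → ℝ, ∀ i j, i ≠ j → Bm n x i ≠ Bm n x j :=
    eventually_all.2 fun i => eventually_all.2 fun j => eventually_all.2 (h i j)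
  exact h2.mono fun x hx i j => not_imp_not.1 (hx i j)

/-- decomposition of the volume into chambers -/
lemma vol_eq_sum {S : Set (Fin n → ℝ)} (hS : MeasurableSet S) :
    volume S = ∑ π : Equiv.Perm (Fin (n + 1)), volume (Pm π ⁻¹' S ∩ Qo n) := by
  have hm : ∀ π : Equiv.Perm (Fin (n + 1)), MeasurableSet (Pm π ⁻¹' S ∩ Qo n) := fun π =>
    ((continuous_Pm π).measurable hS).inter measurableSet_Qo
  have e : ∀ π : Equiv.Perm (Fin (n + 1)),
      Pm π ⁻¹' (Pm π⁻¹ ⁻¹' S ∩ Qo n) = S ∩ {x | StrictMono (Bm n x ∘ π)} := fun π => by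
    ext x
    simp only [mem_preimage, mem_inter_iff, P_P, mul_inv_cancel, P_one, mem_Qo_iff, B_P,
      mem_ofPred_eq]
  have h1 : S =ᵐ[volume] ⋃ π : Equiv.Perm (Fin (n + 1)), Pm π ⁻¹' (Pm π⁻¹ ⁻¹' S ∩ Qo n) := by
    filter_upwards [ae_inj] with x hx
    refine propext ⟨fun h => mem_iUnion.2 ⟨Tuple.sort (Bm n x), ?_⟩, fun h => ?_⟩
    · rw [e]
      exact ⟨h, (Tuple.monotone_sort _).strictMono_of_injective (hx.comp (Equiv.injective _))⟩
    · obtain ⟨π, h⟩ := mem_iUnion.1 h
      rw [e] at h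
      exact h.1
  rw [measure_congr h1, measure_iUnion ?_ fun π => (continuous_Pm π).measurable (hm _),
    tsum_fintype, ← Equiv.sum_comp (Equiv.inv _)]
  · refine Finset.sum_congr rfl fun π _ => ?_
    rw [(mp_P _).measure_preimage (hm _).nullMeasurableSet, Equiv.inv_apply, inv_inv]
  · intro π σ hne
    rw [Function.onFun, e, e, Set.disjoint_left]
    intro x h1 h2
    have h3 : Function.Injective (Bm n x) := (Function.Injective.of_comp_iff' _ π.bijective).1
      h1.2.injective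
    exact hne (Equiv.coe_fn_injective
      (h3.comp_left (Tuple.unique_monotone h1.2.monotone h2.2.monotone)))

lemma mem_T_iff {u : Fin n → ℝ} (hu : u ∈ Qo n) : u ∈ Sp 1 ↔ sm u ≤ 1 := by
  constructor
  · intro h
    have := h 0
    rw [Bm_zero, Pi.one_apply] at this
    linarith
  · intro h j
    have := (mem_Qo_iff.1 hu).monotone (Fin.zero_le j)
    rw [Bm_zero] at this
    rw [Pi.one_apply]
    linarith

/-- the centroid of the model simplex is the origin -/
lemma integral_B (j : Fin (n + 1)) : ∫ x in Sp 1, Bm n x j = 0 := by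
  have hi : ∀ i, IntegrableOn (fun x => Bm n x i) (Sp 1) := fun i =>
    (by fun_prop : Continuous fun x => Bm n x i).continuousOn.integrableOn_compact (isCompact_Sp 1)
  have h1 : ∀ i, ∫ x in Sp 1, Bm n x i = ∫ x in Sp 1, Bm n x j := fun i => by
    have h2 := (mp_P (Equiv.swap i j)).restrict_preimage (isClosed_Sp 1).measurableSet
    have h3 : Pm (Equiv.swap i j) ⁻¹' Sp 1 = Sp 1 := Set.ext fun x => P_mem_T _
    rw [h3] at h2
    rw [← h2.map_eq, integral_map h2.measurable.aemeasurable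
      (by fun_prop : Continuous fun x => Bm n x i).aestronglyMeasurable, h2.map_eq]
    simp only [B_P, Function.comp_apply, Equiv.swap_apply_left]
  have h2 := integral_finsetSum Finset.univ fun i _ => hi i
  simp only [Bm_sum, integral_zero, h1, Finset.sum_const, Finset.card_univ, Fintype.card_fin,
    nsmul_eq_mul] at h2
  exact (mul_eq_zero.1 h2.symm).resolve_left (by positivity)

end Pool.Agent.Lib.MP_e508a7_gt
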