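import Pool.Agent.Lib.MP_e508a7_gt.Local
import Pool.Agent.Lib.MP_e508a7_gt.Box

set_option autoImplicit false

/-!
The stability estimate in the model simplex.
-/

namespace Pool.Agent.Lib.MP_e508a7_gt

open MeasureTheory Set Filter Topology
open scoped ENNReal Pointwise

variable {m n : ℕ}

lemma centroid_le {K : Set (Fin n → ℝ)} (hc : IsClosed K) (hKT : K ⊆ Sp 1) {z : Fin n → ℝ}
    (hz : ∫ x in K, x = volume.real K • z) (j : Fin (n + 1)) :
    volume.real K * |Bm n z j| ≤ (n + 1) * volume.real (Sp 1 \ K) := by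
  have hi : IntegrableOn (fun x => Bm n x j) (Sp 1) :=
    (by fun_prop : Continuous fun x => Bm n x j).continuousOn.integrableOn_compact (isCompact_Sp 1)
  have h1 := ((LinearMap.proj j ∘ₗ Bm n).toContinuousLinearMap).integral_comp_comm
    (φ := fun x => x) (μ := volume.restrict K)
    ((continuous_id.continuousOn.integrableOn_compact (isCompact_Sp 1)).mono_set hKT)
  rw [hz, map_smul] at h1
  have h2 : ∫ x in K, Bm n x j = volume.real K * Bm n z j := h1
  have h3 := setIntegral_sdiff hc.measurableSet hi hKT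
  rw [integral_B, h2, zero_sub] at h3
  have h4 := norm_setIntegral_le_of_norm_le_const (μ := volume) (s := Sp 1 \ K) (C := n + 1)
    (f := fun x => Bm n x j) ((measure_mono sdiff_subset).trans_lt (vol_Sp_ne_top 1).lt_top)
    fun x hx => by
      have h5 : -1 ≤ Bm n x j := hx.1 j
      have h6 := Sp_le hx.1 j
      simp only [Pi.one_apply, Finset.sum_const, Finset.card_univ, Fintype.card_fin, nsmul_eq_mul,
        Nat.cast_add, Nat.cast_one] at h6
      exact abs_le.2 ⟨by linarith [n.cast_nonneg (α := ℝ)], by linarith⟩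
  rwa [h3, norm_neg, norm_mul, Real.norm_of_nonneg measureReal_nonneg] at h4

lemma sym_lower {K : Set (Fin n → ℝ)} (hc : IsClosed K) (hKT : K ⊆ Sp 1) (z : Fin n → ℝ) {t : ℝ}
    (ht : 1 + 2 * ‖Bm n z‖ ≤ t) : volume.real (Bx (1 + Bm n z)) ≤
      volume.real {x | x ∈ K ∧ z + z - x ∈ K} +
        2 * volume.real ((Sp 1 \ K) ∩ {x | ∀ j, Bm n x j ≤ t}) := by
  set A := (Sp 1 \ K) ∩ {x | ∀ j, Bm n x j ≤ t} with hA
  have hm : MeasurableSet A := ((isClosed_Sp 1).measurableSet.diff hc.measurableSet).inter (by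
    rw [ofPred_forall]
    exact .iInter fun j => (isClosed_le (by fun_prop) continuous_const).measurableSet)
  have hf : volume A ≠ ∞ :=
    ne_top_of_le_ne_top (vol_Sp_ne_top 1) (measure_mono fun x hx => hx.1.1)
  have hf' : volume {x | x ∈ K ∧ z + z - x ∈ K} ≠ ∞ :=
    ne_top_of_le_ne_top (vol_Sp_ne_top 1) (measure_mono fun x hx => hKT hx.1)
  have h1 : (fun y => y + -z) ⁻¹' Bx (1 + Bm n z) ⊆
      {x | x ∈ K ∧ z + z - x ∈ K} ∪ (A ∪ (fun y => (z + z) - y) ⁻¹' A) := by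
    intro y hy
    have h2 : ∀ j, |Bm n y j - Bm n z j| ≤ 1 + Bm n z j := fun j => by
      simpa only [map_sub, Pi.sub_apply, ← sub_eq_add_neg, Pi.add_apply, Pi.one_apply] using hy j
    have h3 : ∀ j, Bm n z j ≤ ‖Bm n z‖ := fun j => (le_abs_self _).trans (norm_le_pi_norm (Bm n z) j)
    by_cases hyK : y ∈ K
    · by_cases hyK' : z + z - y ∈ K
      · exact Or.inl ⟨hyK, hyK'⟩
      refine Or.inr (Or.inr ⟨⟨fun j => ?_, hyK'⟩, fun j => ?_⟩) <;>
        simp only [map_sub, map_add, Pi.sub_apply, Pi.add_apply, Pi.one_apply] <;>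
        linarith [abs_le.1 (h2 j), h3 j]
    · refine Or.inr (Or.inl ⟨⟨fun j => ?_, hyK⟩, fun j => ?_⟩)
      · rw [Pi.one_apply]
        linarith [abs_le.1 (h2 j)]
      · linarith [abs_le.1 (h2 j), h3 j]
  have h2 := (measure_mono (μ := volume) h1).trans
    ((measure_union_le _ _).trans (add_le_add_right (measure_union_le _ _) _))
  rw [measure_preimage_add_right, (Measure.measurePreserving_sub_left volume _).measure_preimage
    hm.nullMeasurableSet, ← two_mul (volume A)] at h2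
  have h4 := ENNReal.mul_ne_top (ENNReal.ofNat_ne_top (n := 2)) hf
  have h3 := ENNReal.toReal_mono (ENNReal.add_ne_top.2 ⟨hf', h4⟩) h2
  rwa [ENNReal.toReal_add hf' h4, ENNReal.toReal_mul, ENNReal.toReal_ofNat] at h3

lemma vol_sdiff {K : Set (Fin n → ℝ)} (hc : IsClosed K) (hKT : K ⊆ Sp 1) :
    volume.real (Sp 1 \ K) = volume.real (Sp (n := n) 1) - volume.real K :=
  measureReal_sdiff hKT hc.measurableSet (vol_Sp_ne_top 1)

/-- a closed convex subset of full volume is everything -/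
lemma eq_of_vol {K : Set (Fin n → ℝ)} (hK : Convex ℝ K) (hc : IsClosed K) (hKT : K ⊆ Sp 1)
    (h : volume.real (Sp (n := n) 1) ≤ volume.real K) : K = Sp 1 := by
  refine hKT.antisymm fun x hx => ?_
  have h1 : Tendsto (fun θ : ℝ => θ • x) (𝓝[<] 1) (𝓝 ((1 : ℝ) • x)) :=
    ((by fun_prop : Continuous fun θ : ℝ => θ • x).tendsto 1).mono_left nhdsWithin_le_nhds
  rw [one_smul] at h1
  refine hc.mem_of_tendsto h1 ?_
  filter_upwards [Ioo_mem_nhdsLT zero_lt_one] with θ hθ
  refine theta hK hc (θ := θ) ?_ fun j => ?_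
  · have := vol_Bx_pos (n := n) (sub_pos.2 hθ.2)
    rw [vol_sdiff hc hKT]
    linarith
  · have h2 : -1 ≤ Bm n x j := hx j
    rw [map_smul, Pi.smul_apply, smul_eq_mul]
    nlinarith [hθ.1]

theorem near (m : ℕ) : ∃ η c : ℝ, 0 < η ∧ 0 < c ∧
    ∀ (K : Set (Fin (m + 2) → ℝ)) (z : Fin (m + 2) → ℝ), Convex ℝ K → IsClosed K → K ⊆ Sp 1 →
      (∀ π, Pm π (Pi.single 0 1) ∈ K) → ∫ x in K, x = volume.real K • z →
      (1 - η) * volume.real (Sp (n := m + 2) 1) ≤ volume.real K →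
      volume.real (Bx (n := m + 2) 1) / volume.real (Sp (n := m + 2) 1) +
        c * (1 - volume.real K / volume.real (Sp (n := m + 2) 1)) ≤
        volume.real {x | x ∈ K ∧ z + z - x ∈ K} / volume.real K := by
  obtain ⟨τ, q, hτ, hq, hlt, hL⟩ := local_est m
  have hV := vol_T_pos (n := m + 2)
  set V := volume.real (Sp (n := m + 2) 1) with hVd
  set R := volume.real (Bx (n := m + 2) 1) with hRd
  set g := R - 2 * q * V with hg
  have hg0 : 0 < g := sub_pos.2 hlt
  obtain ⟨θ, hθ, hθ1, hθ2⟩ : ∃ θ : ℝ, θ ∈ Ioo (0 : ℝ) 1 ∧ 1 < τ * θ ∧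
      2 * (q * θ⁻¹ ^ (m + 3)) * V < 2 * q * V + g / 4 := by
    have h1 : ∀ᶠ θ in 𝓝 (1 : ℝ), 1 < τ * θ :=
      continuousAt_const.eventually_lt (by fun_prop) (by simpa using hτ)
    have h2 : ∀ᶠ θ in 𝓝 (1 : ℝ), 2 * (q * θ⁻¹ ^ (m + 3)) * V < 2 * q * V + g / 4 :=
      ContinuousAt.eventually_lt (by fun_prop (disch := norm_num)) continuousAt_const
        (by simp only [inv_one, one_pow, mul_one]; linarith)
    exact (Eventually.and (Ioo_mem_nhdsLT zero_lt_one)
      ((h1.and h2).filter_mono nhdsWithin_le_nhds)).exists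
  set M : ℝ := 2 * (m + 3) with hM
  have hM0 : 0 < M := by positivity
  obtain ⟨r, hr, hbox⟩ := box m (ε := g / 4 / M) (by positivity)
  obtain ⟨η, hη, h1, h2, h3, h4⟩ : ∃ η : ℝ, 0 < η ∧ η < 1 / 2 ∧
      2 * (η * V) < volume.real (Bx (n := m + 2) fun _ => 1 - θ) ∧ M * η < r ∧
      1 + 2 * (M * η) < τ * θ := by
    have h1 : ∀ᶠ η in 𝓝 (0 : ℝ), η < 1 / 2 := Iio_mem_nhds (by norm_num)
    have h2 : ∀ᶠ η in 𝓝 (0 : ℝ), 2 * (η * V) < volume.real (Bx (n := m + 2) fun _ => 1 - θ) :=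
      ContinuousAt.eventually_lt (by fun_prop) continuousAt_const
        (by simpa using vol_Bx_pos (sub_pos.2 hθ.2))
    have h3 : ∀ᶠ η in 𝓝 (0 : ℝ), M * η < r :=
      ContinuousAt.eventually_lt (by fun_prop) continuousAt_const (by simpa using hr)
    have h4 : ∀ᶠ η in 𝓝 (0 : ℝ), 1 + 2 * (M * η) < τ * θ :=
      ContinuousAt.eventually_lt (by fun_prop) continuousAt_const (by simpa using hθ1)
    exact (Eventually.and (self_mem_nhdsWithin (s := Ioi 0))
      ((h1.and (h2.and (h3.and h4))).filter_mono nhdsWithin_le_nhds)).exists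
  refine ⟨η, g / 2 / V, hη, by positivity, fun K z hK hc hKT hf hz hvol => ?_⟩
  have e1 := vol_sdiff hc hKT
  rw [← hVd] at e1
  obtain ⟨δ, hδ⟩ : ∃ δ, volume.real (Sp 1 \ K) = δ * V := ⟨_, (div_mul_cancel₀ _ hV.ne').symm⟩
  have hδ0 : 0 ≤ δ := nonneg_of_mul_nonneg_left (hδ ▸ measureReal_nonneg) hV
  have e2 : volume.real K = (1 - δ) * V := by linarith
  have hδη : δ ≤ η := by
    rw [e2] at hvol
    linarith [le_of_mul_le_mul_right hvol hV]
  have hzn : ‖Bm (m + 2) z‖ ≤ M * δ := by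
    refine (pi_norm_le_iff_of_nonneg (by positivity)).2 fun j => ?_
    have h5 := centroid_le hc hKT hz j
    rw [e2, hδ, mul_right_comm, ← mul_assoc] at h5
    have h6 := le_of_mul_le_mul_right h5 hV
    push_cast at h6
    rw [Real.norm_eq_abs, hM]
    nlinarith [abs_nonneg (Bm (m + 2) z j)]
  have hMδ : M * δ ≤ M * η := mul_le_mul_of_nonneg_left hδη hM0.le
  have h5 := hL K θ hK hc hKT hf hθ.1 (theta hK hc (by
    rw [hδ]
    linarith [mul_le_mul_of_nonneg_right hδη hV.le]))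
  have h6 := sym_lower hc hKT z (t := τ * θ) (by linarith)
  have h7 := hbox (Bm (m + 2) z) (Bm_sum z) (by linarith)
  have h8 : g / 4 / M * ‖Bm (m + 2) z‖ ≤ g / 4 * δ := by
    refine (mul_le_mul_of_nonneg_left hzn (by positivity)).trans_eq ?_
    field_simp
  have h9 := mul_le_mul_of_nonneg_right hθ2.le hδ0
  rw [hδ] at h5
  have h10 : 0 < 1 - δ := by linarith
  rw [le_div_iff₀ (e2 ▸ mul_pos h10 hV), e2, mul_div_cancel_right₀ _ hV.ne']
  have e3 : (R / V + g / 2 / V * (1 - (1 - δ))) * ((1 - δ) * V) = (R + g / 2 * δ) * (1 - δ) := by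
    field_simp
    ring
  rw [e3]
  nlinarith [mul_nonneg hg0.le (mul_nonneg hδ0 hδ0)]

end Pool.Agent.Lib.MP_e508a7_gt
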