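import Pool.Agent.Lib.MP_e508a7_gt.Fv.Main

set_option autoImplicit false

namespace Pool.Agent.Lib.MP_e508a7_gt.OldFewVertices

open MeasureTheory

/-- If `K` is the convex hull of `N` points of `ℝ ^ n`, has interior points and centroid `0`, then
`vol (K ∩ -K) ≥ 2 ^ n n! / N ^ (n + 1) vol K`. -/
theorem result (n N : ℕ) (v : Fin N → EuclideanSpace ℝ (Fin n))
    (K : Set (EuclideanSpace ℝ (Fin n))) (hK : K = convexHull ℝ (Set.range v))
    (hKi : (interior K).Nonempty) (h0 : (∫ x in K, x) = 0) :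
    ENNReal.ofReal (2 ^ n * n.factorial / (N : ℝ) ^ (n + 1)) * volume K
      ≤ volume {x : EuclideanSpace ℝ (Fin n) | x ∈ K ∧ -x ∈ K} :=
  Lib.MP_e508a7_gt.Fv.main v hK hKi h0

/-- The constant is at least `(2 / e) ^ n exp (-(N - n)) / N`. -/
theorem rate (n N : ℕ) (hN : 0 < N) : (2 / Real.exp 1) ^ n * Real.exp (-((N : ℝ) - n)) / N ≤
    2 ^ n * n.factorial / (N : ℝ) ^ (n + 1) := by
  have h1 := Real.pow_div_factorial_le_exp (N : ℝ) (Nat.cast_nonneg N) n
  have h2 : (0 : ℝ) < N := Nat.cast_pos.2 hN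
  have h3 : (0 : ℝ) < n.factorial := Nat.cast_pos.2 n.factorial_pos
  have h4 := Real.exp_pos (N : ℝ)
  have h5 := Real.exp_pos (n : ℝ)
  rw [div_le_iff₀ h3] at h1
  rw [div_pow, Real.exp_one_pow, neg_sub, Real.exp_sub, pow_succ]
  field_simp
  linarith

end Pool.Agent.Lib.MP_e508a7_gt.OldFewVertices
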